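import Mathlib

namespace Pool.Agent.Helper707.AbSq

/-- prefix sums -/
def A (a : ℕ → ℤ) (i : ℕ) : ℤ := ∑ t ∈ Finset.range i, a t

theorem A_succ (a : ℕ → ℤ) (i : ℕ) : A a (i + 1) = A a i + a i := by
  simp [A, Finset.sum_range_succ]

variable {a : ℕ → ℤ}

/-- window count bounds -/
theorem D_bounds (ha : ∀ t, a t = 0 ∨ a t = 1) (i r : ℕ) :
    0 ≤ A a (i + r) - A a i ∧ A a (i + r) - A a i ≤ r := by
  induction r with
  | zero => simp
  | succ r ih =>
    have h := A_succ a (i + r)
    have e : i + (r + 1) = i + r + 1 := by ring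
    rw [e, h]
    rcases ha (i + r) with h0 | h0 <;> rw [h0] <;> push_cast <;> constructor <;> linarith [ih.1, ih.2]

/-- constant letters give linear prefix sums -/
theorem A_const (i m : ℕ) (al : ℤ) (h : ∀ t < m, a (i + t) = al) :
    A a (i + m) = A a i + m * al := by
  induction m with
  | zero => simp
  | succ m ih =>
    have e : i + (m + 1) = i + m + 1 := by ring
    rw [e, A_succ, ih (fun t ht => h t (by omega)), h m (by omega)]
    push_cast; ring

def G (a : ℕ → ℤ) (r i : ℕ) : ℤ := A a i + A a (i + 2 * r) - 2 * A a (i + r)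

theorem G_succ (r i : ℕ) : G a r (i + 1) = G a r i + a i + a (i + 2 * r) - 2 * a (i + r) := by
  unfold G
  have e1 : i + 1 + 2 * r = (i + 2 * r) + 1 := by ring
  have e2 : i + 1 + r = (i + r) + 1 := by ring
  rw [e1, e2, A_succ, A_succ, A_succ]; ring

/-- no sign change and never zero forces a short word -/
theorem const_sign_pos (ha : ∀ t, a t = 0 ∨ a t = 1) (n r : ℕ) (hn : r * r + 2 * r ≤ n)
    (h : ∀ i, i + 2 * r ≤ n → 1 ≤ G a r i) : False := by
  have key : ∀ k : ℕ, k ≤ r + 1 → (k : ℤ) ≤ A a (k * r + r) - A a (k * r) := by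
    intro k
    induction k with
    | zero => intro _; have := (D_bounds ha (0 * r) r).1; simpa using this
    | succ k ih =>
      intro hk
      have h1 := ih (by omega)
      have hle : k * r + 2 * r ≤ n := by nlinarith
      have h2 := h (k * r) hle
      unfold G at h2
      have e1 : (k + 1) * r + r = k * r + 2 * r := by ring
      have e2 : (k + 1) * r = k * r + r := by ring
      rw [e1, e2]; push_cast; linarith
  have h1 := key (r + 1) le_rfl
  have h2 := (D_bounds ha ((r + 1) * r) r).2
  push_cast at h1; linarith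

theorem const_sign_neg (ha : ∀ t, a t = 0 ∨ a t = 1) (n r : ℕ) (hn : r * r + 2 * r ≤ n)
    (h : ∀ i, i + 2 * r ≤ n → G a r i ≤ -1) : False := by
  have key : ∀ k : ℕ, k ≤ r + 1 → A a (k * r + r) - A a (k * r) ≤ (r : ℤ) - k := by
    intro k
    induction k with
    | zero => intro _; have := (D_bounds ha (0 * r) r).2; simpa using this
    | succ k ih =>
      intro hk
      have h1 := ih (by omega)
      have hle : k * r + 2 * r ≤ n := by nlinarith
      have h2 := h (k * r) hle
      unfold G at h2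
      have e1 : (k + 1) * r + r = k * r + 2 * r := by ring
      have e2 : (k + 1) * r = k * r + r := by ring
      rw [e1, e2]; push_cast; linarith
  have h1 := key (r + 1) le_rfl
  have h2 := (D_bounds ha ((r + 1) * r) r).1
  push_cast at h1; linarith

/-- the jump lemma -/
theorem jump (r i n : ℕ) (hr : 1 ≤ r) (hin : i + 1 + 2 * r ≤ n) (al be : ℤ) (hab : ∀ t, a t = al ∨ a t = be)
    (h0 : a i = al) (h2 : a (i + 2 * r) = al) (hc : a (i + r) = be)
    (hG : A a (i + r) - A a (i + 1) = A a (i + 2 * r) - A a (i + r + 1)) :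
    (∃ j s p, 1 ≤ j ∧ 1 ≤ s ∧ s + j = r ∧ p + 2 * s ≤ n ∧ G a s p = 0 ∧ (∀ t < j, a (i + t) = al)) ∨
      (∀ t < r, a (i + t) = al) := by
  classical
  by_cases hall : ∀ t, t < r → a (i + t) = al ∧ a (i + 2 * r - t) = al
  · right; intro t ht; exact (hall t ht).1
  · left
    push_neg at hall
    have hex : ∃ t, t < r ∧ (a (i + t) = al → a (i + 2 * r - t) ≠ al) := by
      obtain ⟨t, ht, h⟩ := hall; exact ⟨t, ht, h⟩
    set j := Nat.find hex with hj
    have hjs := Nat.find_spec hex
    rw [← hj] at hjs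
    have hmin : ∀ t < j, a (i + t) = al ∧ a (i + 2 * r - t) = al := by
      intro t ht
      have := Nat.find_min hex ht
      push_neg at this
      exact this (lt_trans ht hjs.1)
    have hj1 : 1 ≤ j := by
      rcases Nat.eq_zero_or_pos j with h | h
      · exfalso
        have := hjs.2
        rw [h] at this
        simp only [Nat.add_zero, Nat.sub_zero] at this
        exact this h0 h2
      · exact h
    -- prefix sums of the constant parts
    have eL : A a (i + 1 + (j - 1)) = A a (i + 1) + ((j - 1 : ℕ) : ℤ) * al := by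
      apply A_const
      intro t ht
      have := (hmin (t + 1) (by omega)).1
      rwa [show i + 1 + t = i + (t + 1) by ring]
    have eR : A a ((i + 2 * r - j + 1) + (j - 1)) = A a (i + 2 * r - j + 1) + ((j - 1 : ℕ) : ℤ) * al := by
      apply A_const
      intro t ht
      have := (hmin (j - 1 - t) (by omega)).2
      rwa [show i + 2 * r - j + 1 + t = i + 2 * r - (j - 1 - t) by omega]
    have e1 : i + 1 + (j - 1) = i + j := by omega
    have e2 : (i + 2 * r - j + 1) + (j - 1) = i + 2 * r := by omega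
    rw [e1] at eL; rw [e2] at eR
    have hcc := A_succ a (i + r)
    rw [hc] at hcc
    have hLj := A_succ a (i + j)
    have hRj := A_succ a (i + 2 * r - j)
    rcases hab (i + j) with hl | hl
    · -- right letter is be
      have hr' : a (i + 2 * r - j) ≠ al := hjs.2 hl
      have hr'' : a (i + 2 * r - j) = be := by
        rcases hab (i + 2 * r - j) with h | h
        · exact absurd h hr'
        · exact h
      refine ⟨j, r - j, i + j, hj1, by omega, by omega, by omega, ?_, fun t ht => (hmin t ht).1⟩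
      unfold G
      rw [show i + j + 2 * (r - j) = i + 2 * r - j by omega, show i + j + (r - j) = i + r by omega]
      rw [hr''] at hRj
      linarith
    · by_cases hab' : al = be
      · -- degenerate, cannot happen
        exfalso
        have h1 : a (i + j) = al := by rw [hl, hab']
        have := hjs.2 h1
        rcases hab (i + 2 * r - j) with h | h
        · exact this h
        · exact this (by rw [h, hab'])
      refine ⟨j, r - j, i + j + 1, hj1, by omega, by omega, by omega, ?_, fun t ht => (hmin t ht).1⟩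
      unfold G
      rw [show i + j + 1 + 2 * (r - j) = i + 2 * r - j + 1 by omega,
        show i + j + 1 + (r - j) = i + r + 1 by omega]
      rw [hl] at hLj
      linarith

/-- for every r with r^2+2r ≤ n : order r present, or order r-j present and a run of length j, or a run of length r -/
theorem step (ha : ∀ t, a t = 0 ∨ a t = 1) (n r : ℕ) (hr : 1 ≤ r) (hn : r * r + 2 * r ≤ n) :
    (∃ p, p + 2 * r ≤ n ∧ G a r p = 0) ∨
    (∃ j s p q al, 1 ≤ j ∧ 1 ≤ s ∧ s + j = r ∧ p + 2 * s ≤ n ∧ G a s p = 0 ∧ q + j ≤ n ∧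
      (∀ t < j, a (q + t) = al) ∧ (al = 0 ∨ al = 1)) ∨
    (∃ q al, q + r ≤ n ∧ (∀ t < r, a (q + t) = al) ∧ (al = 0 ∨ al = 1)) := by
  classical
  by_cases hz : ∃ p, p + 2 * r ≤ n ∧ G a r p = 0
  · exact Or.inl hz
  right
  push_neg at hz
  -- sign change
  have h2r : 0 + 2 * r ≤ n := by nlinarith
  have hjump : (∃ i, i + 1 + 2 * r ≤ n ∧ G a r i < 0 ∧ 0 < G a r (i + 1)) ∨
      (∃ i, i + 1 + 2 * r ≤ n ∧ 0 < G a r i ∧ G a r (i + 1) < 0) := by
    by_contra hno
    push_neg at hno
    obtain ⟨hn1, hn2⟩ := hno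
    rcases lt_or_gt_of_ne (hz 0 h2r) with h0 | h0
    · apply const_sign_neg ha n r hn
      intro i
      induction i with
      | zero => intro _; omega
      | succ i ih =>
        intro hi
        have h1 := ih (by omega)
        have h2 := hn1 i (by omega) (by omega)
        have h3 := hz (i + 1) hi
        omega
    · apply const_sign_pos ha n r hn
      intro i
      induction i with
      | zero => intro _; omega
      | succ i ih =>
        intro hi
        have h1 := ih (by omega)
        have h2 := hn2 i (by omega) (by omega)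
        have h3 := hz (i + 1) hi
        omega
  have fin : ∀ (al be : ℤ) (i : ℕ), (al = 0 ∨ al = 1) → i + 1 + 2 * r ≤ n → (∀ t, a t = al ∨ a t = be) →
      a i = al → a (i + 2 * r) = al → a (i + r) = be →
      (A a (i + r) - A a (i + 1) = A a (i + 2 * r) - A a (i + r + 1)) →
      ((∃ j s p q al, 1 ≤ j ∧ 1 ≤ s ∧ s + j = r ∧ p + 2 * s ≤ n ∧ G a s p = 0 ∧ q + j ≤ n ∧
      (∀ t < j, a (q + t) = al) ∧ (al = 0 ∨ al = 1)) ∨
    (∃ q al, q + r ≤ n ∧ (∀ t < r, a (q + t) = al) ∧ (al = 0 ∨ al = 1))) := by
    intro al be i hal hin hab h0 h2 hc hG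
    rcases jump r i n hr hin al be hab h0 h2 hc hG with ⟨j, s, p, h1, h2, h3, h4, h5, h6⟩ | h
    · exact Or.inl ⟨j, s, p, i, al, h1, h2, h3, h4, h5, by omega, h6, hal⟩
    · exact Or.inr ⟨i, al, by omega, h, hal⟩
  rcases hjump with ⟨i, hi, h1, h2⟩ | ⟨i, hi, h1, h2⟩
  · have hs := G_succ (a := a) r i
    have hA1 := A_succ a i
    have hA2 := A_succ a (i + r)
    unfold G at h1
    rcases ha i with x | x <;> rcases ha (i + r) with y | y <;> rcases ha (i + 2 * r) with z | z <;>
      rw [x, y, z] at hs <;> (try (exfalso; unfold G at hs; unfold G at h2; omega))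
    refine fin 1 0 i (Or.inr rfl) hi (fun t => (ha t).symm) x z y ?_
    unfold G at hs h2
    rw [x] at hA1; rw [y] at hA2
    omega
  · have hs := G_succ (a := a) r i
    have hA1 := A_succ a i
    have hA2 := A_succ a (i + r)
    unfold G at h1
    rcases ha i with x | x <;> rcases ha (i + r) with y | y <;> rcases ha (i + 2 * r) with z | z <;>
      rw [x, y, z] at hs <;> (try (exfalso; unfold G at hs; unfold G at h2; omega))
    refine fin 0 1 i (Or.inl rfl) hi (fun t => ha t) x z y ?_
    unfold G at hs h2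
    rw [x] at hA1; rw [y] at hA2
    omega

/-- core counting -/
theorem core (ha : ∀ t, a t = 0 ∨ a t = 1) (n K : ℕ) (S : Finset (ℤ × ℕ))
    (hS : ∀ r i, 1 ≤ r → i + 2 * r ≤ n → G a r i = 0 → (A a (i + r) - A a i, r) ∈ S)
    (hK : S.card ≤ K) : n + 1 < (2 * (K + 1) ^ 2 + 1) ^ 2 := by
  classical
  by_contra hcon
  push_neg at hcon
  -- runs are short
  have hrun : ∀ L q : ℕ, ∀ al : ℤ, q + L ≤ n → (∀ t < L, a (q + t) = al) → L ≤ 2 * K + 1 := by
    intro L q al hq h
    by_contra hL
    push_neg at hL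
    have hsub : (Finset.Icc 1 (K + 1)).image (fun s : ℕ => ((s : ℤ) * al, s)) ⊆ S := by
      intro P hP
      rw [Finset.mem_image] at hP
      obtain ⟨s, hs, rfl⟩ := hP
      rw [Finset.mem_Icc] at hs
      have e1 : A a (q + s) = A a q + s * al := A_const q s al (fun t ht => h t (by omega))
      have e2 : A a (q + 2 * s) = A a q + ((2 * s : ℕ) : ℤ) * al := A_const q (2 * s) al (fun t ht => h t (by omega))
      have := hS s q hs.1 (by omega) (by unfold G; rw [e1, e2]; push_cast; ring)
      rw [e1] at this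
      convert this using 2
      ring
    have hc := Finset.card_le_card hsub
    rw [Finset.card_image_of_injective _ (by intro x y hxy; exact (Prod.ext_iff.mp hxy).2)] at hc
    rw [Nat.card_Icc] at hc
    omega
  -- orders
  have hord : ∀ m : ℕ, 1 ≤ m → m ≤ K + 1 → ∃ s, (m - 1) * (2 * K + 2) + 1 ≤ s ∧ s ≤ m * (2 * K + 2) ∧
      ∃ c : ℤ, (c, s) ∈ S := by
    intro m hm1 hm2
    obtain ⟨m', rfl⟩ : ∃ m', m = m' + 1 := ⟨m - 1, by omega⟩
    have hr1 : 1 ≤ (m' + 1) * (2 * K + 2) := by nlinarith
    have hle : (m' + 1) * (2 * K + 2) ≤ (K + 1) * (2 * K + 2) := Nat.mul_le_mul_right _ hm2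
    have hn : (m' + 1) * (2 * K + 2) * ((m' + 1) * (2 * K + 2)) + 2 * ((m' + 1) * (2 * K + 2)) ≤ n := by
      have h1 : (m' + 1) * (2 * K + 2) * ((m' + 1) * (2 * K + 2)) ≤ ((K + 1) * (2 * K + 2)) * ((K + 1) * (2 * K + 2)) :=
        Nat.mul_le_mul hle hle
      have h2 : ((K + 1) * (2 * K + 2)) * ((K + 1) * (2 * K + 2)) + 2 * ((K + 1) * (2 * K + 2)) + 1 = (2 * (K + 1) ^ 2 + 1) ^ 2 := by ring
      omega
    have em : (m' + 1) * (2 * K + 2) = m' * (2 * K + 2) + (2 * K + 2) := by ring
    rcases step ha n _ hr1 hn with ⟨p, hp, hG⟩ | ⟨j, s, p, q, al, h1, h2, h3, h4, h5, h6, h7, _⟩ | ⟨q, al, h6, h7, _⟩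
    · exact ⟨_, by simp only [Nat.add_sub_cancel]; omega, le_rfl, _, hS _ p hr1 hp hG⟩
    · have hj := hrun j q al h6 h7
      exact ⟨s, by simp only [Nat.add_sub_cancel]; omega, by omega, _, hS s p h2 h4 h5⟩
    · have hj := hrun _ q al h6 h7
      exfalso
      omega
  -- choose
  choose! f hf1 hf2 g hg using hord
  have hsub : (Finset.Icc 1 (K + 1)).image (fun m => (g m, f m)) ⊆ S := by
    intro P hP
    rw [Finset.mem_image] at hP
    obtain ⟨m, hm, rfl⟩ := hP
    rw [Finset.mem_Icc] at hm
    exact hg m hm.1 hm.2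
  have hinj : Set.InjOn (fun m => (g m, f m)) (Finset.Icc 1 (K + 1) : Finset ℕ) := by
    intro x hx y hy hxy
    simp only [Finset.coe_Icc, Set.mem_Icc] at hx hy
    have hfe : f x = f y := (Prod.ext_iff.mp hxy).2
    have a1 := hf1 x hx.1 hx.2
    have a2 := hf2 x hx.1 hx.2
    have b1 := hf1 y hy.1 hy.2
    have b2 := hf2 y hy.1 hy.2
    by_contra hne
    rcases lt_or_gt_of_ne hne with h | h
    · have : x * (2 * K + 2) ≤ (y - 1) * (2 * K + 2) := Nat.mul_le_mul_right _ (by omega)
      omega
    · have : y * (2 * K + 2) ≤ (x - 1) * (2 * K + 2) := Nat.mul_le_mul_right _ (by omega)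
      omega
  have hc := Finset.card_le_card hsub
  rw [Finset.card_image_of_injOn hinj, Nat.card_Icc] at hc
  omega

end Pool.Agent.Helper707.AbSq
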