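import Mathlib
import Pool.Agent.Helper707.AbSq

namespace Pool.Agent.Helper707.AbSqWord

open Pool.Agent.Helper707.AbSq

/-- Parikh vector of a binary word (`true` = a, `false` = b). -/
def parikh (u : List Bool) : ℕ × ℕ := (u.count true, u.count false)

/-- The Parikh vectors `P(u)` over all factors `uv` of `w` with `u, v` nonempty and
`P(u) = P(v)`: one for each class of equivalent abelian squares of `w`. -/
def sqClasses (w : List Bool) : Set (ℕ × ℕ) :=
  {P | ∃ u v : List Bool, u ≠ [] ∧ v ≠ [] ∧ (u ++ v) <:+: w ∧ parikh u = P ∧ parikh v = P}

theorem finite_sq (w : List Bool) : (sqClasses w).Finite := by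
  apply Set.Finite.subset ((Set.finite_Iic w.length).prod (Set.finite_Iic w.length))
  rintro P ⟨u, v, _, _, hi, rfl, _⟩
  have hl : u.length ≤ w.length := by
    have := hi.length_le
    rw [List.length_append] at this; omega
  have h1 : u.count true ≤ u.length := List.count_le_length
  have h2 : u.count false ≤ u.length := List.count_le_length
  refine ⟨?_, ?_⟩
  · exact le_trans h1 hl
  · exact le_trans h2 hl

def letters (w : List Bool) (t : ℕ) : ℤ := if w.getD t false then 1 else 0

theorem cnt (w : List Bool) (i r : ℕ) (h : i + r ≤ w.length) :
    ((((w.drop i).take r).count true : ℕ) : ℤ) = A (letters w) (i + r) - A (letters w) i := by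
  induction r with
  | zero => simp
  | succ r ih =>
    have hr : r < (w.drop i).length := by rw [List.length_drop]; omega
    rw [List.take_succ_eq_append_getElem hr, List.count_append]
    have h1 := ih (by omega)
    have h2 := A_succ (letters w) (i + r)
    rw [show i + (r + 1) = i + r + 1 by ring, h2]
    push_cast
    rw [h1]
    have h3 : (w.drop i)[r] = w[i + r]'(by omega) := by simp
    have h4 : w.getD (i + r) false = w[i + r]'(by omega) := by
      rw [List.getD_eq_getElem _ _ (by omega)]
    rw [h3]
    unfold letters
    rw [h4]
    cases w[i + r]'(by omega) <;> simp <;> ring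

theorem word_bound (w : List Bool) :
    w.length + 1 < (2 * ((sqClasses w).ncard + 1) ^ 2 + 1) ^ 2 := by
  classical
  have hfin := finite_sq w
  have ha : ∀ t, letters w t = 0 ∨ letters w t = 1 := by
    intro t; unfold letters; split <;> simp
  apply core ha w.length (sqClasses w).ncard
    (hfin.toFinset.image (fun P : ℕ × ℕ => ((P.1 : ℤ), P.1 + P.2)))
  · intro r i hr hi hG
    rw [Finset.mem_image]
    have h1 := cnt w i r (by omega)
    have h2 := cnt w (i + r) r (by omega)
    rw [show i + r + r = i + 2 * r by ring] at h2
    unfold G at hG
    set u := (w.drop i).take r with hu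
    set v := (w.drop (i + r)).take r with hv
    have hul : u.length = r := by rw [hu, List.length_take, List.length_drop]; omega
    have hvl : v.length = r := by rw [hv, List.length_take, List.length_drop]; omega
    have hcu : u.count true = v.count true := by
      have : ((u.count true : ℕ) : ℤ) = v.count true := by rw [h1, h2]; linarith
      exact_mod_cast this
    have tot : ∀ x : List Bool, x.count true + x.count false = x.length := by
      intro x
      induction x with
      | nil => simp
      | cons b x ih => cases b <;> simp [List.count_cons] <;> omega
    have hfu := tot u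
    have hfv := tot v
    refine ⟨parikh u, ?_, ?_⟩
    · rw [Set.Finite.mem_toFinset]
      refine ⟨u, v, ?_, ?_, ?_, rfl, ?_⟩
      · intro h; rw [h] at hul; simp at hul; omega
      · intro h; rw [h] at hvl; simp at hvl; omega
      · have e : u ++ v = (w.drop i).take (r + r) := by
          rw [hu, hv, List.take_add, List.drop_drop]
        rw [e]
        exact (List.take_prefix _ _).isInfix.trans (List.drop_suffix _ _).isInfix
      · unfold parikh
        rw [Prod.mk.injEq]
        exact ⟨hcu.symm, by omega⟩
    · unfold parikh
      simp only [Prod.mk.injEq]
      exact ⟨h1, by omega⟩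
  · refine le_trans Finset.card_image_le ?_
    rw [Set.ncard_eq_toFinset_card _ hfin]

end Pool.Agent.Helper707.AbSqWord
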