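import Mathlib

/-!
Idempotents from a polynomial relation, and the single relation
`P(z) + z * Θ - Θ * z` which encodes all off-diagonal relations.
-/

namespace Pool.Agent.Helper707.Idem

set_option linter.unusedSectionVars false

open Finset Polynomial

variable (F : Type*) [Field F] [CharZero F]

/-- the polynomial with simple roots `0, 1, …, R` -/
noncomputable def P (R : ℕ) : F[X] := ∏ a ∈ range (R + 1), (X - C (a : F))

/-- the integer polynomial vanishing at all of `0, …, R` except `q` -/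
noncomputable def I (R q : ℕ) : ℤ[X] := ∏ b ∈ (range (R + 1)).erase q, (X - C (b : ℤ))

/-- its value at `q` -/
def iv (R q : ℕ) : ℤ := ∏ b ∈ (range (R + 1)).erase q, ((q : ℤ) - (b : ℤ))

/-- `I` over `F` -/
noncomputable def IF (R q : ℕ) : F[X] := ∏ b ∈ (range (R + 1)).erase q, (X - C (b : F))

/-- Lagrange polynomial -/
noncomputable def L (R q : ℕ) : F[X] := C ((iv R q : F)⁻¹) * IF F R q

/-- idempotent polynomial modulo `P ^ M` -/
noncomputable def E (R M q : ℕ) : F[X] := 1 - (1 - (L F R q) ^ M) ^ M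

theorem iv_ne_zero (R q : ℕ) : iv R q ≠ 0 := by
  unfold iv
  rw [Finset.prod_ne_zero_iff]
  intro b hb
  rw [Finset.mem_erase] at hb
  rw [sub_ne_zero]
  exact_mod_cast hb.1.symm

theorem IF_eval_self (R q : ℕ) : (IF F R q).eval (q : F) = (iv R q : F) := by
  unfold IF iv
  rw [eval_prod]
  push_cast
  simp

theorem IF_eval_ne (R q b : ℕ) (hb : b ≤ R) (hqb : b ≠ q) : (IF F R q).eval (b : F) = 0 := by
  unfold IF
  rw [eval_prod]
  apply Finset.prod_eq_zero (i := b)
  · rw [Finset.mem_erase, Finset.mem_range]; exact ⟨hqb, by omega⟩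
  · simp

theorem L_eval_self (R q : ℕ) : (L F R q).eval (q : F) = 1 := by
  unfold L
  rw [eval_mul, eval_C, IF_eval_self]
  apply inv_mul_cancel₀
  exact_mod_cast iv_ne_zero R q

theorem L_eval_ne (R q b : ℕ) (hb : b ≤ R) (hqb : b ≠ q) : (L F R q).eval (b : F) = 0 := by
  unfold L
  rw [eval_mul, IF_eval_ne F R q b hb hqb, mul_zero]

theorem E_eval_self (R M q : ℕ) : (E F R M q).eval (q : F) = 1 - (0 : F) ^ M := by
  unfold E; simp [L_eval_self]

theorem E_eval_ne (R M q b : ℕ) (hM : 0 < M) (hb : b ≤ R) (hqb : b ≠ q) :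
    (E F R M q).eval (b : F) = 0 := by
  unfold E; simp [L_eval_ne F R q b hb hqb, hM.ne']

theorem P_dvd (R : ℕ) (p : F[X]) (h : ∀ a ≤ R, p.eval (a : F) = 0) : P F R ∣ p := by
  unfold P
  apply Finset.prod_dvd_of_coprime
  · intro a _ b _ hab
    apply Polynomial.isCoprime_X_sub_C_of_isUnit_sub
    rw [isUnit_iff_ne_zero, sub_ne_zero]
    exact_mod_cast hab
  · intro a ha
    rw [dvd_iff_isRoot]
    exact h a (by rw [Finset.mem_range] at ha; omega)

theorem P_eval (R a : ℕ) (ha : a ≤ R) : (P F R).eval (a : F) = 0 := by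
  unfold P
  rw [eval_prod]
  apply Finset.prod_eq_zero (i := a)
  · rw [Finset.mem_range]; omega
  · simp

theorem L_pow_dvd_E (R M q : ℕ) : (L F R q) ^ M ∣ E F R M q := by
  unfold E
  have := sub_dvd_pow_sub_pow (1 : F[X]) (1 - (L F R q) ^ M) M
  rwa [one_pow, sub_sub_cancel] at this

theorem one_sub_L_pow_dvd (R M q : ℕ) : (1 - L F R q) ^ M ∣ 1 - E F R M q := by
  unfold E
  rw [sub_sub_cancel]
  apply pow_dvd_pow_of_dvd
  have := sub_dvd_pow_sub_pow (1 : F[X]) (L F R q) M
  rwa [one_pow] at this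

theorem P_pow_dvd_E_mul (R M a b : ℕ) (ha : a ≤ R) (hab : a ≠ b) :
    (P F R) ^ M ∣ E F R M a * E F R M b := by
  refine dvd_trans ?_ (mul_dvd_mul (L_pow_dvd_E F R M a) (L_pow_dvd_E F R M b))
  rw [← mul_pow]
  apply pow_dvd_pow_of_dvd
  apply P_dvd
  intro c hc
  rw [eval_mul]
  by_cases h : c = a
  · subst h; rw [L_eval_ne F R b c hc hab, mul_zero]
  · rw [L_eval_ne F R a c hc h, zero_mul]

theorem P_pow_dvd_E_sub (R M a : ℕ) (ha : a ≤ R) :
    (P F R) ^ M ∣ E F R M a * (1 - E F R M a) := by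
  refine dvd_trans ?_ (mul_dvd_mul (L_pow_dvd_E F R M a) (one_sub_L_pow_dvd F R M a))
  rw [← mul_pow]
  apply pow_dvd_pow_of_dvd
  apply P_dvd
  intro c hc
  rw [eval_mul]
  by_cases h : c = a
  · subst h; rw [eval_sub, L_eval_self]; simp
  · rw [L_eval_ne F R a c hc h, zero_mul]

variable {F}
variable {B : Type*} [Ring B] [Algebra F B]

/-- the element `E_a(z)` -/
noncomputable def ee (F : Type*) [Field F] [CharZero F] {B : Type*} [Ring B] [Algebra F B]
    (R M : ℕ) (z : B) (a : ℕ) : B := aeval z (E F R M a)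

theorem ee_mul_ne {R M : ℕ} {z : B} (h : (aeval z (P F R)) ^ M = 0) {a b : ℕ} (ha : a ≤ R)
    (hab : a ≠ b) : ee F R M z a * ee F R M z b = 0 := by
  unfold ee
  rw [← map_mul]
  obtain ⟨c, hc⟩ := P_pow_dvd_E_mul F R M a b ha hab
  rw [hc, map_mul, map_pow, h, zero_mul]

theorem ee_mul_self {R M : ℕ} {z : B} (h : (aeval z (P F R)) ^ M = 0) {a : ℕ} (ha : a ≤ R) :
    ee F R M z a * ee F R M z a = ee F R M z a := by
  have key : ee F R M z a * (1 - ee F R M z a) = 0 := by
    unfold ee
    rw [← map_one (aeval z : F[X] →ₐ[F] B), ← map_sub, ← map_mul]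
    obtain ⟨c, hc⟩ := P_pow_dvd_E_sub F R M a ha
    rw [hc, map_mul, map_pow, h, zero_mul]
  rw [mul_sub, mul_one, sub_eq_zero] at key
  exact key.symm

theorem aeval_comm (z : B) (p q : F[X]) : aeval z p * aeval z q = aeval z q * aeval z p := by
  rw [← map_mul, mul_comm, map_mul]

theorem comm_aeval {z T : B} (h : z * T = T * z) (p : F[X]) : aeval z p * T = T * aeval z p := by
  have hc : Commute z T := h
  rw [Polynomial.aeval_eq_sum_range, Finset.sum_mul, Finset.mul_sum]
  refine Finset.sum_congr rfl fun i _ => ?_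
  rw [smul_mul_assoc, mul_smul_comm, (hc.pow_left i).eq]

/-- the key step: the off-diagonal components of `t` vanish -/
theorem comp_eq_zero {R M : ℕ} {z t : B} (h : (aeval z (P F R)) ^ M = 0)
    (hf : aeval z (P F R) + (z * t - t * z) = 0) {a b : ℕ} (ha : a ≤ R) (hb : b ≤ R) (hab : a ≠ b) :
    ee F R M z a * t * ee F R M z b = 0 := by
  set ea := ee F R M z a with hea
  set eb := ee F R M z b with heb
  have hza : z * ea = ea * z := by
    have := aeval_comm z (X : F[X]) (E F R M a)
    simpa [hea, ee] using this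
  have hzb : z * eb = eb * z := by
    have := aeval_comm z (X : F[X]) (E F R M b)
    simpa [heb, ee] using this
  have h1 : ea * (aeval z (P F R)) * eb = 0 := by
    rw [hea, ee, aeval_comm, mul_assoc, heb, ← ee, ee_mul_ne h ha hab, mul_zero]
  have h2 : z * (ea * t * eb) = (ea * t * eb) * z := by
    have h3 : ea * (aeval z (P F R) + (z * t - t * z)) * eb = 0 := by rw [hf, mul_zero, zero_mul]
    have h4 : ea * (z * t - t * z) * eb = 0 := by
      rw [mul_add, add_mul, h1, zero_add] at h3; exact h3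
    have h5 : z * (ea * t * eb) - (ea * t * eb) * z = ea * (z * t - t * z) * eb := by
      have : z * (ea * t * eb) = ea * (z * t) * eb := by
        rw [← mul_assoc, ← mul_assoc, hza]; noncomm_ring
      rw [this, mul_assoc (ea * t) eb z, ← hzb]
      noncomm_ring
    rw [h4, sub_eq_zero] at h5
    exact h5
  have h6 : ea * (ea * t * eb) = (ea * t * eb) * ea := comm_aeval h2 (E F R M a)
  have h7 : ea * (ea * t * eb) = ea * t * eb := by
    rw [← mul_assoc, ← mul_assoc, ee_mul_self h ha]
  have h8 : (ea * t * eb) * ea = 0 := by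
    rw [mul_assoc, heb, hea, ee_mul_ne h hb (Ne.symm hab), mul_zero]
  rw [← h7, h6, h8]

/-- the sum of the off-diagonal relators over a finite index set -/
noncomputable def Theta (F : Type*) [Field F] [CharZero F] {B : Type*} [Ring B] [Algebra F B]
    {V : Type*} [DecidableEq V] (R M : ℕ) (S : Finset V) (num : V → ℕ)
    (z : B) (ρ : V → V → B) : B :=
  ∑ a ∈ S, ∑ b ∈ S.erase a, ee F R M z (num a) * ρ a b * ee F R M z (num b)

theorem ee_Theta_ee {V : Type*} [DecidableEq V] {R M : ℕ} {S : Finset V} {num : V → ℕ}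
    (hnum : ∀ a ∈ S, ∀ b ∈ S, num a = num b → a = b) (hle : ∀ a ∈ S, num a ≤ R)
    {z : B} (h : (aeval z (P F R)) ^ M = 0) (ρ : V → V → B) {a b : V} (ha : a ∈ S) (hb : b ∈ S)
    (hab : a ≠ b) :
    ee F R M z (num a) * Theta F R M S num z ρ * ee F R M z (num b)
      = ee F R M z (num a) * ρ a b * ee F R M z (num b) := by
  unfold Theta
  rw [Finset.mul_sum, Finset.sum_mul, Finset.sum_eq_single a]
  · rw [Finset.mul_sum, Finset.sum_mul, Finset.sum_eq_single b]
    · rw [show ee F R M z (num a) * (ee F R M z (num a) * ρ a b * ee F R M z (num b))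
          * ee F R M z (num b)
          = (ee F R M z (num a) * ee F R M z (num a)) * ρ a b *
            (ee F R M z (num b) * ee F R M z (num b)) by noncomm_ring,
        ee_mul_self h (hle a ha), ee_mul_self h (hle b hb)]
    · intro c hc hcb
      rw [Finset.mem_erase] at hc
      rw [mul_assoc, mul_assoc (ee F R M z (num a) * ρ a c), ee_mul_ne h (hle c hc.2), mul_zero,
        mul_zero]
      intro heq; exact hcb (hnum c hc.2 b hb heq)
    · intro hn
      exact absurd (Finset.mem_erase.2 ⟨hab.symm, hb⟩) hn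
  · intro c hc hca
    rw [Finset.mul_sum]
    rw [Finset.sum_eq_zero, zero_mul]
    intro d _
    rw [← mul_assoc, ← mul_assoc, ee_mul_ne h (hle a ha), zero_mul, zero_mul]
    intro heq; exact hca (hnum a ha c hc heq).symm
  · intro hn; exact absurd ha hn

/-- From the single relation all off-diagonal relations follow. -/
theorem single_relation {V : Type*} [DecidableEq V] {R M : ℕ} {S : Finset V} {num : V → ℕ}
    (hnum : ∀ a ∈ S, ∀ b ∈ S, num a = num b → a = b) (hle : ∀ a ∈ S, num a ≤ R)
    {z : B} (h : (aeval z (P F R)) ^ M = 0) (ρ : V → V → B)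
    (hf : aeval z (P F R) + (z * Theta F R M S num z ρ - Theta F R M S num z ρ * z) = 0) :
    (∀ a ∈ S, ∀ b ∈ S, a ≠ b → ee F R M z (num a) * ρ a b * ee F R M z (num b) = 0) ∧
      aeval z (P F R) = 0 := by
  have key : ∀ a ∈ S, ∀ b ∈ S, a ≠ b →
      ee F R M z (num a) * ρ a b * ee F R M z (num b) = 0 := by
    intro a ha b hb hab
    rw [← ee_Theta_ee hnum hle h ρ ha hb hab]
    exact comp_eq_zero h hf (hle a ha) (hle b hb) (fun heq => hab (hnum a ha b hb heq))
  refine ⟨key, ?_⟩
  have h0 : Theta F R M S num z ρ = 0 := by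
    unfold Theta
    refine Finset.sum_eq_zero fun a ha => Finset.sum_eq_zero fun b hb => ?_
    rw [Finset.mem_erase] at hb
    exact key a ha b hb.2 hb.1.symm
  rw [h0] at hf
  simpa using hf

/-- once `P(z) = 0`, polynomials in `z` act on `E_q(z)` by their value at `q` -/
theorem aeval_mul_ee {R M : ℕ} (hM : 0 < M) {z : B} (h : aeval z (P F R) = 0) {q : ℕ} (hq : q ≤ R)
    (p : F[X]) : aeval z p * ee F R M z q = (p.eval (q : F)) • ee F R M z q := by
  unfold ee
  rw [← map_mul, ← map_smul, ← sub_eq_zero, ← map_sub]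
  obtain ⟨c, hc⟩ := P_dvd F R (p * E F R M q - p.eval (q : F) • E F R M q) (by
    intro a ha
    rw [eval_sub, eval_mul, eval_smul]
    by_cases haq : a = q
    · subst haq; simp
    · rw [E_eval_ne F R M q a hM ha haq]; simp)
  rw [hc, map_mul, h, zero_mul]

/-- `I_q(z)` is a nonzero multiple of `E_q(z)` once `P(z) = 0` -/
theorem aeval_IF {R M : ℕ} (hM : 0 < M) {z : B} (h : aeval z (P F R) = 0) {q : ℕ} (hq : q ≤ R) :
    aeval z (IF F R q) = (iv R q : F) • ee F R M z q := by
  unfold ee
  rw [← map_smul, ← sub_eq_zero, ← map_sub]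
  obtain ⟨c, hc⟩ := P_dvd F R (IF F R q - (iv R q : F) • E F R M q) (by
    intro a ha
    rw [eval_sub, eval_smul]
    by_cases haq : a = q
    · subst haq; rw [IF_eval_self, E_eval_self]; simp [hM.ne']
    · rw [E_eval_ne F R M q a hM ha haq, IF_eval_ne F R q a ha haq]; simp)
  rw [hc, map_mul, h, zero_mul]

end Pool.Agent.Helper707.Idem
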