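import Mathlib

/-!
The relations which encode a generalised Collatz map, and the derivation showing that the word
of a halting number vanishes.
-/

namespace Pool.Agent.Helper707.Rel

open Finset

/-- a generalised Collatz map with modulus `m`: the number `m * k + r` goes to `a r * k + e r`,
unless the residue `r` is a halting one -/
structure Sys where
  m : ℕ
  a : ℕ → ℕ
  e : ℕ → ℕ
  H : ℕ → Bool

namespace Sys

/-- the next number -/
def next (Y : Sys) (N : ℕ) : ℕ := Y.a (N % Y.m) * (N / Y.m) + Y.e (N % Y.m)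

/-- the orbit of `N` reaches a halting residue -/
inductive Halts (Y : Sys) : ℕ → Prop
  | halt (N : ℕ) : Y.H (N % Y.m) = true → Halts Y N
  | step (N : ℕ) : Y.H (N % Y.m) = false → Halts Y (Y.next N) → Halts Y N

/-- transfer rates; `true` is the hub colour and `false` the working colour -/
def A (Y : Sys) (l : ℕ) (j : Bool) : ℕ :=
  if j then 1 else if l % 2 = 0 then Y.m else Y.a (l / 2)

/-- offsets -/
def Bc (Y : Sys) (l : ℕ) : ℕ := if l % 2 = 0 then 0 else Y.e (l / 2)

/-- residue exponent -/
def q (v : ℕ) (j : Bool) : ℕ := if j then 0 else v / 2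

/-- coefficient, zero exactly for a halting residue in the working colour -/
def kap (Y : Sys) (v : ℕ) (j : Bool) : ℕ := if j then 1 else if Y.H (v / 2) then 0 else 1

end Sys

/-- the vertices -/
inductive V
  | al
  | c (j : Bool)
  | b (l : ℕ)
  | s (v : ℕ)
  deriving DecidableEq

/-- the numbers attached to the vertices -/
def num : V → ℕ
  | .al => 1
  | .c j => if j then 3 else 2
  | .b l => 4 + 2 * l
  | .s v => 5 + 2 * v

theorem num_inj {p q : V} (h : num p = num q) : p = q := by
  cases p with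
  | al =>
    cases q with
    | al => rfl
    | c j => cases j <;> simp [num] at h
    | b l => simp only [num] at h; omega
    | s v => simp only [num] at h; omega
  | c i =>
    cases q with
    | al => cases i <;> simp [num] at h
    | c j => cases i <;> cases j <;> simp [num] at h <;> rfl
    | b l => cases i <;> simp only [num] at h <;> (simp at h; omega)
    | s v => cases i <;> simp only [num] at h <;> (simp at h; omega)
  | b k =>
    cases q with
    | al => simp only [num] at h; omega
    | c j => cases j <;> simp only [num] at h <;> (simp at h; omega)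
    | b l => simp only [num] at h; congr 1; omega
    | s v => simp only [num] at h; omega
  | s k =>
    cases q with
    | al => simp only [num] at h; omega
    | c j => cases j <;> simp only [num] at h <;> (simp at h; omega)
    | b l => simp only [num] at h; omega
    | s v => simp only [num] at h; congr 1; omega

theorem num_pos (p : V) : 0 < num p := by
  cases p with
  | al => simp [num]
  | c j => cases j <;> simp [num]
  | b l => simp only [num]; omega
  | s v => simp only [num]; omega

/-- the finite set of vertices in use -/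
def S (m : ℕ) : Finset V :=
  {V.al, V.c false, V.c true} ∪ (range (2 * m)).image V.b ∪ (range (2 * m + 1)).image V.s

theorem mem_al (m : ℕ) : V.al ∈ S m := by simp [S]
theorem mem_c (m : ℕ) (j : Bool) : V.c j ∈ S m := by cases j <;> simp [S]
theorem mem_b {m l : ℕ} : V.b l ∈ S m ↔ l < 2 * m := by simp [S]
theorem mem_s {m v : ℕ} : V.s v ∈ S m ↔ v < 2 * m + 1 := by simp [S]

theorem num_le {m : ℕ} {p : V} (h : p ∈ S m) : num p ≤ 4 * m + 5 := by
  cases p with
  | al => simp [num]
  | c j => cases j <;> simp only [num] <;> simp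
  | b l => rw [mem_b] at h; simp only [num]; omega
  | s v => rw [mem_s] at h; simp only [num]; omega

section

variable {B : Type*} [Ring B]

/-- Peirce component of the second generator -/
def K (e : V → B) (x : B) (p q : V) : B := e p * x * e q

open Sys

/-- the relators -/
def rel (Y : Sys) (e : V → B) (x : B) : V → V → B
  | .b l, .c j =>
      (K e x (.b l) (.b l)) ^ (Y.A l j) * K e x (.b l) (.c j)
        - K e x (.b l) (.c j) * K e x (.c j) (.c j)
  | .b l, .al =>
      K e x (.b l) (.c false) * K e x (.c false) .al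
        - (K e x (.b l) (.b l)) ^ (Y.Bc l) * K e x (.b l) (.c true) * K e x (.c true) .al
  | .s v, .c j =>
      if 1 ≤ v ∧ v < 2 * Y.m ∧ (j = true ∨ v % 2 = 1) then
        K e x (.s v) (.b (v - 1)) * (K e x (.b (v - 1)) (.b (v - 1))) ^ (q v j)
            * K e x (.b (v - 1)) (.c j)
          - Y.kap v j • (K e x (.s v) (.b v) * K e x (.b v) (.c j))
      else 0
  | .al, .b l =>
      K e x .al (.s l) * K e x (.s l) (.b l)
        - K e x .al (.s (l + 1)) * K e x (.s (l + 1)) (.b l)
  | _, _ => 0

/-- the words -/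
def Wd (e : V → B) (x : B) (v l : ℕ) (j : Bool) (N N' : ℕ) : B :=
  K e x .al (.s v) * K e x (.s v) (.b l) * (K e x (.b l) (.b l)) ^ N * K e x (.b l) (.c j)
    * (K e x (.c j) (.c j)) ^ N' * K e x (.c j) .al

theorem e_mul_K {e : V → B} {x : B} {p : V} (h : e p * e p = e p) (q : V) :
    e p * K e x p q = K e x p q := by
  unfold K; rw [← mul_assoc, ← mul_assoc, h]

theorem K_mul_e {e : V → B} {x : B} {q : V} (h : e q * e q = e q) (p : V) :
    K e x p q * e q = K e x p q := by
  unfold K; rw [mul_assoc, h]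

theorem e_mul_Kpow {e : V → B} {x : B} {p : V} (h : e p * e p = e p) (q : V) (n : ℕ) :
    e p * (K e x p p ^ n * K e x p q) = K e x p p ^ n * K e x p q := by
  cases n with
  | zero => rw [pow_zero, one_mul, e_mul_K h]
  | succ n => rw [pow_succ', ← mul_assoc, ← mul_assoc, e_mul_K h]

/-- the relations follow from the sandwiched relators -/
structure Rels (Y : Sys) (e : V → B) (x : B) : Prop where
  T : ∀ l < 2 * Y.m, ∀ j, (K e x (.b l) (.b l)) ^ (Y.A l j) * K e x (.b l) (.c j)
        = K e x (.b l) (.c j) * K e x (.c j) (.c j)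
  Rw : ∀ l < 2 * Y.m, K e x (.b l) (.c false) * K e x (.c false) .al
        = (K e x (.b l) (.b l)) ^ (Y.Bc l) * K e x (.b l) (.c true) * K e x (.c true) .al
  Hb : ∀ v j, 1 ≤ v → v < 2 * Y.m → (j = true ∨ v % 2 = 1) →
      K e x (.s v) (.b (v - 1)) * (K e x (.b (v - 1)) (.b (v - 1))) ^ (q v j)
            * K e x (.b (v - 1)) (.c j)
          = Y.kap v j • (K e x (.s v) (.b v) * K e x (.b v) (.c j))
  Lk : ∀ l < 2 * Y.m, K e x .al (.s l) * K e x (.s l) (.b l)
        = K e x .al (.s (l + 1)) * K e x (.s (l + 1)) (.b l)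

theorem rels_of {Y : Sys} {e : V → B} {x : B} (he : ∀ p ∈ S Y.m, e p * e p = e p)
    (h : ∀ p ∈ S Y.m, ∀ q ∈ S Y.m, p ≠ q → e p * rel Y e x p q * e q = 0) : Rels Y e x := by
  refine ⟨?_, ?_, ?_, ?_⟩
  · intro l hl j
    have h1 := h (.b l) (mem_b.2 hl) (.c j) (mem_c _ _) (by simp)
    have ep := he (.b l) (mem_b.2 hl)
    have eq := he (.c j) (mem_c _ _)
    simp only [rel] at h1
    rw [mul_sub, sub_mul, e_mul_Kpow ep, mul_assoc (K e x (.b l) (.b l) ^ _), K_mul_e eq,
      ← mul_assoc, e_mul_K ep, mul_assoc (K e x (.b l) (.c j)), K_mul_e eq, sub_eq_zero] at h1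
    exact h1
  · intro l hl
    have h1 := h (.b l) (mem_b.2 hl) .al (mem_al _) (by simp)
    have ep := he (.b l) (mem_b.2 hl)
    have eq := he .al (mem_al _)
    simp only [rel] at h1
    rw [mul_sub, sub_mul, ← mul_assoc (e (.b l)), e_mul_K ep, ← mul_assoc (e (.b l)),
      e_mul_Kpow ep,
      mul_assoc (K e x (.b l) (.c false)), K_mul_e eq, mul_assoc _ (K e x (.c true) .al),
      K_mul_e eq, sub_eq_zero] at h1
    exact h1
  · intro v j hv1 hv2 hj
    have h1 := h (.s v) (mem_s.2 (by omega)) (.c j) (mem_c _ _) (by simp)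
    have ep := he (.s v) (mem_s.2 (by omega))
    have eq := he (.c j) (mem_c _ _)
    simp only [rel] at h1
    rw [if_pos ⟨hv1, hv2, hj⟩, mul_sub, sub_mul, ← mul_assoc (e (.s v)), ← mul_assoc (e (.s v)),
      e_mul_K ep, mul_assoc _ (K e x (.b (v - 1)) (.c j)), K_mul_e eq, mul_smul_comm,
      smul_mul_assoc, ← mul_assoc (e (.s v)), e_mul_K ep, mul_assoc (K e x (.s v) (.b v)),
      K_mul_e eq, sub_eq_zero] at h1
    exact h1
  · intro l hl
    have h1 := h .al (mem_al _) (.b l) (mem_b.2 hl) (by simp)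
    have ep := he .al (mem_al _)
    have eq := he (.b l) (mem_b.2 hl)
    simp only [rel] at h1
    rw [mul_sub, sub_mul, ← mul_assoc (e .al), e_mul_K ep, ← mul_assoc (e .al), e_mul_K ep,
      mul_assoc (K e x .al (.s l)), K_mul_e eq, mul_assoc (K e x .al (.s (l + 1))), K_mul_e eq,
      sub_eq_zero] at h1
    exact h1

namespace Rels

variable {Y : Sys} {e : V → B} {x : B} (h : Rels Y e x)

include h

theorem transfer {v l : ℕ} (hl : l < 2 * Y.m) (j : Bool) (N k : ℕ) (N' : ℕ) :
    Wd e x v l j (N + Y.A l j * k) N' = Wd e x v l j N (N' + k) := by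
  induction k generalizing N' with
  | zero => simp
  | succ k ih =>
    have h2 := h.T l hl j
    have step : ∀ N N' : ℕ, Wd e x v l j (N + Y.A l j) N' = Wd e x v l j N (N' + 1) := by
      intro N N'
      unfold Wd
      rw [pow_add, pow_succ' (K e x (.c j) (.c j)) N']
      have : K e x .al (.s v) * K e x (.s v) (.b l)
            * (K e x (.b l) (.b l) ^ N * K e x (.b l) (.b l) ^ Y.A l j) * K e x (.b l) (.c j)
          = K e x .al (.s v) * K e x (.s v) (.b l) * K e x (.b l) (.b l) ^ N
              * (K e x (.b l) (.b l) ^ Y.A l j * K e x (.b l) (.c j)) := by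
        simp only [mul_assoc]
      rw [this, h2]
      simp only [mul_assoc]
    rw [mul_add, mul_one, ← add_assoc, step, ih (N' + 1)]
    congr 1
    omega

theorem link {l : ℕ} (hl : l < 2 * Y.m) (j : Bool) (N N' : ℕ) :
    Wd e x l l j N N' = Wd e x (l + 1) l j N N' := by
  unfold Wd; rw [h.Lk l hl]

theorem row {v l : ℕ} (hl : l < 2 * Y.m) (N : ℕ) :
    Wd e x v l false N 0 = Wd e x v l true (N + Y.Bc l) 0 := by
  unfold Wd
  rw [pow_zero, pow_zero, mul_one, mul_one, mul_assoc _ (K e x (.b l) (.c false)), h.Rw l hl,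
    pow_add]
  simp only [mul_assoc]

theorem cross {v : ℕ} (j : Bool) (hv1 : 1 ≤ v) (hv2 : v < 2 * Y.m) (hj : j = true ∨ v % 2 = 1)
    (N' : ℕ) :
    Wd e x v (v - 1) j (q v j) N' = Y.kap v j • Wd e x v v j 0 N' := by
  unfold Wd
  have h2 := h.Hb v j hv1 hv2 hj
  have : K e x .al (.s v) * K e x (.s v) (.b (v - 1)) * K e x (.b (v - 1)) (.b (v - 1)) ^ q v j
      * K e x (.b (v - 1)) (.c j)
      = K e x .al (.s v) * (K e x (.s v) (.b (v - 1)) * K e x (.b (v - 1)) (.b (v - 1)) ^ q v j
      * K e x (.b (v - 1)) (.c j)) := by simp only [mul_assoc]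
  rw [this, h2]
  simp only [mul_smul_comm, smul_mul_assoc, pow_zero, mul_one, mul_assoc]

theorem chain {l : ℕ} (hl : l < 2 * Y.m) (N' : ℕ) :
    Wd e x 0 0 true 0 N' = Wd e x l l true 0 N' := by
  induction l with
  | zero => rfl
  | succ l ih =>
    rw [ih (by omega), h.link (by omega)]
    have := h.cross (v := l + 1) true (by omega) hl (Or.inl rfl) N'
    simpa [q, kap] using this

theorem step_halt (hm : 0 < Y.m) (N : ℕ) (hH : Y.H (N % Y.m) = true) :
    Wd e x 0 0 true 0 N = 0 := by
  set r := N % Y.m with hr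
  set k := N / Y.m with hk
  have hN : N = r + Y.m * k := (Nat.mod_add_div N Y.m).symm
  have hrm : r < Y.m := Nat.mod_lt _ hm
  have hl : 2 * r < 2 * Y.m := by omega
  have hl1 : 2 * r + 1 < 2 * Y.m := by omega
  have t1 : Wd e x (2 * r) (2 * r) true (0 + Y.A (2 * r) true * N) 0
      = Wd e x (2 * r) (2 * r) true 0 (0 + N) := h.transfer hl true 0 N 0
  have t2 := h.row (v := 2 * r) hl N
  have t3 := h.transfer (v := 2 * r) hl false r k 0
  have t4 := h.link hl false r k
  have t5 := h.cross (v := 2 * r + 1) false (by omega) hl1 (Or.inr (by omega)) k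
  have e1 : Y.A (2 * r) true = 1 := by simp [A]
  have e2 : Y.Bc (2 * r) = 0 := by simp [Bc]
  have e3 : Y.A (2 * r) false = Y.m := by simp [A]
  have e4 : q (2 * r + 1) false = r := by simp only [q]; simp; omega
  have e5 : Y.kap (2 * r + 1) false = 0 := by
    have : (2 * r + 1) / 2 = r := by omega
    simp [kap, this, hH]
  rw [e1, one_mul, zero_add] at t1
  rw [e2, add_zero] at t2
  rw [e3, ← hN, zero_add] at t3
  rw [e4, e5, zero_smul, show 2 * r + 1 - 1 = 2 * r by omega] at t5
  rw [h.chain hl N, ← t1, ← t2, t3, t4, t5]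

theorem step_next (hm : 0 < Y.m) (N : ℕ) (hH : Y.H (N % Y.m) = false) :
    Wd e x 0 0 true 0 N = Wd e x 0 0 true 0 (Y.next N) := by
  unfold next
  set r := N % Y.m with hr
  set k := N / Y.m with hk
  have hN : N = r + Y.m * k := (Nat.mod_add_div N Y.m).symm
  have hrm : r < Y.m := Nat.mod_lt _ hm
  have hl : 2 * r < 2 * Y.m := by omega
  have hl1 : 2 * r + 1 < 2 * Y.m := by omega
  have t1 : Wd e x (2 * r) (2 * r) true (0 + Y.A (2 * r) true * N) 0
      = Wd e x (2 * r) (2 * r) true 0 (0 + N) := h.transfer hl true 0 N 0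
  have t2 := h.row (v := 2 * r) hl N
  have t3 := h.transfer (v := 2 * r) hl false r k 0
  have t4 := h.link hl false r k
  have t5 := h.cross (v := 2 * r + 1) false (by omega) hl1 (Or.inr (by omega)) k
  have t6 := h.transfer (v := 2 * r + 1) hl1 false 0 k 0
  have t7 := h.row (v := 2 * r + 1) hl1 (Y.a r * k)
  have t8 := h.transfer (v := 2 * r + 1) hl1 true 0 (Y.a r * k + Y.e r) 0
  have e1 : Y.A (2 * r) true = 1 := by simp [A]
  have e2 : Y.Bc (2 * r) = 0 := by simp [Bc]
  have e3 : Y.A (2 * r) false = Y.m := by simp [A]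
  have e4 : q (2 * r + 1) false = r := by simp only [q]; simp; omega
  have e0 : (2 * r + 1) / 2 = r := by omega
  have e5 : Y.kap (2 * r + 1) false = 1 := by simp [kap, e0, hH]
  have e6 : Y.A (2 * r + 1) false = Y.a r := by
    simp [A, e0]
  have e7 : Y.Bc (2 * r + 1) = Y.e r := by
    simp [Bc, e0]
  have e8 : Y.A (2 * r + 1) true = 1 := by simp [A]
  rw [e1, one_mul, zero_add] at t1
  rw [e2, add_zero] at t2
  rw [e3, ← hN, zero_add] at t3
  rw [e4, e5, one_smul, show 2 * r + 1 - 1 = 2 * r by omega] at t5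
  rw [e6, zero_add, zero_add] at t6
  rw [e7] at t7
  rw [e8, one_mul, zero_add] at t8
  rw [h.chain hl N, ← t1, ← t2, t3, t4, t5, ← t6, t7, t8, ← h.chain hl1]

theorem halts_zero (hm : 0 < Y.m) (N : ℕ) (hN : Y.Halts N) : Wd e x 0 0 true 0 N = 0 := by
  induction hN with
  | halt N hH => exact h.step_halt hm N hH
  | step N hH _ ih => rw [h.step_next hm N hH, ih]

end Rels

end

end Pool.Agent.Helper707.Rel
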