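import Mathlib
import Pool.Agent.Helper707.Idem
import Pool.Agent.Helper707.Rel

/-!
The module on which the words of non halting numbers do not vanish.
-/

namespace Pool.Agent.Helper707.Model

open Finset Polynomial Pool.Agent.Helper707.Idem Pool.Agent.Helper707.Rel

/-- basis of the module -/
inductive Bs
  | fin
  | c (j : Bool) (n : ℕ)
  | b (l : ℕ) (j : Bool) (n n' : ℕ)
  | s (v l : ℕ) (j : Bool) (n n' : ℕ)
  | t (v l : ℕ) (j : Bool) (n n' : ℕ)

/-- vertex of a basis element -/
def vert : Bs → V
  | .fin => .al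
  | .c j _ => .c j
  | .b l _ _ _ => .b l
  | .s v _ _ _ _ => .s v
  | .t _ _ _ _ _ => .al

/-- eigenvalue of a vertex -/
def eigV (m : ℕ) (p : V) : ℕ := if p ∈ S m then num p else 0

/-- eigenvalue of a basis element -/
def eig (m : ℕ) (β : Bs) : ℕ := eigV m (vert β)

theorem eig_le (m : ℕ) (β : Bs) : eig m β ≤ 4 * m + 5 := by
  unfold eig eigV
  split
  · rename_i h; exact num_le h
  · omega

variable (F : Type*) [Field F]

/-- one basis vector -/
noncomputable def bv (β : Bs) : Bs →₀ F := Finsupp.single β 1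

/-- images of the basis vectors under the second generator -/
noncomputable def xb (m : ℕ) : Bs → (Bs →₀ F)
  | .fin => bv F (.c false 0) + bv F (.c true 0)
  | .c j n => bv F (.c j (n + 1)) + ∑ l ∈ range (2 * m), bv F (.b l j 0 n)
  | .b l j n n' => bv F (.b l j (n + 1) n') + (bv F (.s l l j n n') + bv F (.s (l + 1) l j n n'))
  | .s v l j n n' => bv F (.t v l j n n')
  | .t _ _ _ _ _ => 0

/-- the second generator -/
noncomputable def Xop (m : ℕ) : Module.End F (Bs →₀ F) := Finsupp.linearCombination F (xb F m)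

/-- the first generator -/
noncomputable def Zop (m : ℕ) : Module.End F (Bs →₀ F) :=
  Finsupp.linearCombination F (fun β => (eig m β : F) • bv F β)

theorem Xop_bv (m : ℕ) (β : Bs) : Xop F m (bv F β) = xb F m β := by
  simp [Xop, bv]

theorem Zop_bv (m : ℕ) (β : Bs) : Zop F m (bv F β) = (eig m β : F) • bv F β := by
  simp [Zop, bv]

theorem aeval_Zop_bv (m : ℕ) (p : F[X]) (β : Bs) :
    (aeval (Zop F m) p) (bv F β) = (p.eval (eig m β : F)) • bv F β := by
  induction p using Polynomial.induction_on' with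
  | add p q hp hq => simp [hp, hq, add_smul]
  | monomial n a =>
    rw [aeval_monomial, Module.End.mul_apply, eval_monomial, mul_smul]
    have : ∀ n : ℕ, ((Zop F m) ^ n) (bv F β) = ((eig m β : F) ^ n) • bv F β := by
      intro n
      induction n with
      | zero => simp
      | succ n ih => rw [pow_succ', Module.End.mul_apply, ih, map_smul, Zop_bv, smul_smul, pow_succ]
    rw [this, Module.algebraMap_end_apply]

theorem ext_bv {W : Type*} [AddCommGroup W] [Module F W] {f g : (Bs →₀ F) →ₗ[F] W}
    (h : ∀ β, f (bv F β) = g (bv F β)) : f = g := by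
  apply Finsupp.lhom_ext'
  intro β
  apply LinearMap.ext_ring
  exact h β

section charZero

variable [CharZero F]

theorem P_Zop (m : ℕ) : aeval (Zop F m) (P F (4 * m + 5)) = 0 := by
  apply ext_bv
  intro β
  rw [aeval_Zop_bv, P_eval F _ _ (eig_le m β)]
  simp

/-- the idempotents -/
noncomputable def pr (m M : ℕ) (p : V) : Module.End F (Bs →₀ F) :=
  ee F (4 * m + 5) M (Zop F m) (num p)

variable {F}

theorem pr_bv {m M : ℕ} (hM : 0 < M) {p : V} (hp : p ∈ S m) (β : Bs) :
    pr F m M p (bv F β) = if vert β = p then bv F β else 0 := by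
  unfold pr ee
  rw [aeval_Zop_bv]
  by_cases h : vert β = p
  · rw [if_pos h]
    have : eig m β = num p := by unfold eig eigV; rw [h, if_pos hp]
    rw [this, E_eval_self]
    simp [hM.ne']
  · rw [if_neg h, E_eval_ne F _ _ _ _ hM (eig_le m β), zero_smul]
    unfold eig eigV
    split
    · intro heq; exact h (num_inj heq)
    · have := num_pos p; omega

theorem pr_bv_self {m M : ℕ} (hM : 0 < M) {p : V} (hp : p ∈ S m) {β : Bs} (h : vert β = p) :
    pr F m M p (bv F β) = bv F β := by rw [pr_bv hM hp, if_pos h]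

theorem pr_bv_ne {m M : ℕ} (hM : 0 < M) {p : V} (hp : p ∈ S m) {β : Bs} (h : vert β ≠ p) :
    pr F m M p (bv F β) = 0 := by rw [pr_bv hM hp, if_neg h]

end charZero

/-! ### weights -/

open Sys

variable {F}

/-- weight functions compatible with the relations -/
structure IsW (Y : Sys) (w : Bs → F) : Prop where
  p1b : ∀ l j n n', w (.b l j (n + Y.A l j) n') = w (.b l j n (n' + 1))
  p1s : ∀ v l j n n', w (.s v l j (n + Y.A l j) n') = w (.s v l j n (n' + 1))
  p1t : ∀ v l j n n', w (.t v l j (n + Y.A l j) n') = w (.t v l j n (n' + 1))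
  p2b : ∀ l n, w (.b l false n 0) = w (.b l true (n + Y.Bc l) 0)
  p2s : ∀ v l n, w (.s v l false n 0) = w (.s v l true (n + Y.Bc l) 0)
  p2t : ∀ v l n, w (.t v l false n 0) = w (.t v l true (n + Y.Bc l) 0)
  p3s : ∀ v j n', 1 ≤ v → v < 2 * Y.m → (j = true ∨ v % 2 = 1) →
    w (.s v (v - 1) j (q v j) n') = (Y.kap v j : F) * w (.s v v j 0 n')
  p3t : ∀ v j n', 1 ≤ v → v < 2 * Y.m → (j = true ∨ v % 2 = 1) →
    w (.t v (v - 1) j (q v j) n') = (Y.kap v j : F) * w (.t v v j 0 n')
  p5 : ∀ l j n n', w (.t l l j n n') = w (.t (l + 1) l j n n')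

/-- pairing -/
noncomputable def pair (w : Bs → F) : (Bs →₀ F) →ₗ[F] F := Finsupp.linearCombination F w

theorem pair_bv (w : Bs → F) (β : Bs) : pair w (bv F β) = w β := by simp [pair, bv]

theorem IsW.xT {Y : Sys} {w : Bs → F} (h : IsW Y w) : IsW Y (fun β => pair w (xb F Y.m β)) := by
  constructor
  · intro l j n n'
    simp only [xb, map_add, pair_bv]
    rw [h.p1s, h.p1s, show n + Y.A l j + 1 = (n + 1) + Y.A l j by omega, h.p1b]
  · intro v l j n n'
    simp only [xb, pair_bv]; rw [h.p1t]
  · intro v l j n n'; simp [xb]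
  · intro l n
    simp only [xb, map_add, pair_bv]
    rw [h.p2s, h.p2s, h.p2b, show n + 1 + Y.Bc l = n + Y.Bc l + 1 by omega]
  · intro v l n
    simp only [xb, pair_bv]; rw [h.p2t]
  · intro v l n; simp [xb]
  · intro v j n' h1 h2 h3
    simp only [xb, pair_bv]; rw [h.p3t v j n' h1 h2 h3]
  · intro v j n' h1 h2 h3; simp [xb]
  · intro l j n n'; simp [xb]

theorem IsW.zT {Y : Sys} {w : Bs → F} (h : IsW Y w) :
    IsW Y (fun β => (eig Y.m β : F) * w β) := by
  constructor
  · intro l j n n'; simp only [eig, vert]; rw [h.p1b]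
  · intro v l j n n'; simp only [eig, vert]; rw [h.p1s]
  · intro v l j n n'; simp only [eig, vert]; rw [h.p1t]
  · intro l n; simp only [eig, vert]; rw [h.p2b]
  · intro v l n; simp only [eig, vert]; rw [h.p2s]
  · intro v l n; simp only [eig, vert]; rw [h.p2t]
  · intro v j n' h1 h2 h3; simp only [eig, vert]; rw [h.p3s v j n' h1 h2 h3]; ring
  · intro v j n' h1 h2 h3; simp only [eig, vert]; rw [h.p3t v j n' h1 h2 h3]; ring
  · intro l j n n'; simp only [eig, vert]; rw [h.p5]

theorem pair_Xop (m : ℕ) (w : Bs → F) (y : Bs →₀ F) :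
    pair w (Xop F m y) = pair (fun β => pair w (xb F m β)) y := by
  have : (pair w) ∘ₗ (Xop F m) = pair (fun β => pair w (xb F m β)) := by
    apply ext_bv
    intro β
    rw [LinearMap.comp_apply, Xop_bv, pair_bv]
  rw [← this]; rfl

theorem pair_Zop (m : ℕ) (w : Bs → F) (y : Bs →₀ F) :
    pair w (Zop F m y) = pair (fun β => (eig m β : F) * w β) y := by
  have : (pair w) ∘ₗ (Zop F m) = pair (fun β => (eig m β : F) * w β) := by
    apply ext_bv
    intro β
    rw [LinearMap.comp_apply, Zop_bv, pair_bv, map_smul, pair_bv, smul_eq_mul]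
  rw [← this]; rfl

variable (F) in
/-- the vectors killed by all weights -/
noncomputable def G (Y : Sys) : Submodule F (Bs →₀ F) where
  carrier := {y | ∀ w : Bs → F, IsW Y w → pair w y = 0}
  add_mem' := by
    intro a b ha hb w hw
    rw [map_add, ha w hw, hb w hw, add_zero]
  zero_mem' := by intro w _; simp
  smul_mem' := by
    intro c y hy w hw
    rw [map_smul, hy w hw, smul_zero]

theorem mem_G {Y : Sys} {y : Bs →₀ F} : y ∈ G F Y ↔ ∀ w : Bs → F, IsW Y w → pair w y = 0 := Iff.rfl

theorem Xop_G {Y : Sys} {y : Bs →₀ F} (h : y ∈ G F Y) : Xop F Y.m y ∈ G F Y := by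
  intro w hw
  rw [pair_Xop]; exact h _ hw.xT

theorem Zop_G {Y : Sys} {y : Bs →₀ F} (h : y ∈ G F Y) : Zop F Y.m y ∈ G F Y := by
  intro w hw
  rw [pair_Zop]; exact h _ hw.zT

theorem lift_G {Y : Sys} (g : FreeAlgebra F (Fin 2)) {y : Bs →₀ F} (h : y ∈ G F Y) :
    FreeAlgebra.lift F ![Zop F Y.m, Xop F Y.m] g y ∈ G F Y := by
  induction g using FreeAlgebra.induction generalizing y with
  | grade0 r => rw [AlgHom.commutes]; exact (G F Y).smul_mem r h
  | grade1 i =>
    rw [FreeAlgebra.lift_ι_apply]
    fin_cases i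
    · exact Zop_G h
    · exact Xop_G h
  | mul a b ha hb => rw [map_mul]; exact ha (hb h)
  | add a b ha hb => rw [map_add]; exact (G F Y).add_mem (ha h) (hb h)

section

variable [CharZero F]

theorem pr_G {Y : Sys} (M : ℕ) (p : V) {y : Bs →₀ F} (h : y ∈ G F Y) :
    pr F Y.m M p y ∈ G F Y := by
  have : pr F Y.m M p = FreeAlgebra.lift F ![Zop F Y.m, Xop F Y.m]
      (aeval (FreeAlgebra.ι F 0) (E F (4 * Y.m + 5) M (num p))) := by
    unfold pr ee
    rw [← Polynomial.aeval_algHom_apply, FreeAlgebra.lift_ι_apply]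
    rfl
  rw [this]
  exact lift_G _ h

variable {m M : ℕ} (hM : 0 < M)

include hM

theorem K_bb {l : ℕ} (hl : V.b l ∈ S m) (j : Bool) (n n' : ℕ) :
    K (pr F m M) (Xop F m) (.b l) (.b l) (bv F (.b l j n n')) = bv F (.b l j (n + 1) n') := by
  unfold K
  rw [Module.End.mul_apply, Module.End.mul_apply, pr_bv hM hl, if_pos (by rfl), Xop_bv]
  simp [xb, pr_bv hM hl, vert]

theorem Kpow_bb {l : ℕ} (hl : V.b l ∈ S m) (j : Bool) (n n' k : ℕ) :
    ((K (pr F m M) (Xop F m) (.b l) (.b l)) ^ k) (bv F (.b l j n n'))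
      = bv F (.b l j (n + k) n') := by
  induction k with
  | zero => simp
  | succ k ih => rw [pow_succ', Module.End.mul_apply, ih, K_bb hM hl, add_assoc]

theorem K_bc {l : ℕ} (hl : V.b l ∈ S m) (j : Bool) (n : ℕ) :
    K (pr F m M) (Xop F m) (.b l) (.c j) (bv F (.c j n)) = bv F (.b l j 0 n) := by
  unfold K
  rw [Module.End.mul_apply, Module.End.mul_apply, pr_bv hM (mem_c m j), if_pos (by rfl), Xop_bv]
  simp only [xb, map_add, map_sum]
  rw [pr_bv_ne hM hl (by simp [vert]), zero_add, Finset.sum_eq_single l]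
  · rw [pr_bv_self hM hl rfl]
  · intro k _ hk
    rw [pr_bv_ne hM hl]
    simpa [vert] using hk
  · intro hn
    rw [mem_b] at hl
    exact absurd (Finset.mem_range.2 hl) hn

theorem K_cc (j : Bool) (n : ℕ) :
    K (pr F m M) (Xop F m) (.c j) (.c j) (bv F (.c j n)) = bv F (.c j (n + 1)) := by
  unfold K
  rw [Module.End.mul_apply, Module.End.mul_apply, pr_bv hM (mem_c m j), if_pos (by rfl), Xop_bv]
  simp [xb, map_add, map_sum, pr_bv hM (mem_c m j), vert]

theorem Kpow_cc (j : Bool) (n k : ℕ) :
    ((K (pr F m M) (Xop F m) (.c j) (.c j)) ^ k) (bv F (.c j n)) = bv F (.c j (n + k)) := by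
  induction k with
  | zero => simp
  | succ k ih => rw [pow_succ', Module.End.mul_apply, ih, K_cc hM, add_assoc]

theorem K_ca (j : Bool) :
    K (pr F m M) (Xop F m) (.c j) .al (bv F .fin) = bv F (.c j 0) := by
  unfold K
  rw [Module.End.mul_apply, Module.End.mul_apply, pr_bv hM (mem_al m), if_pos (by rfl), Xop_bv]
  cases j <;> simp [xb, map_add, pr_bv hM (mem_c m _), vert]

theorem K_ca_t (j : Bool) (v l : ℕ) (i : Bool) (n n' : ℕ) :
    K (pr F m M) (Xop F m) (.c j) .al (bv F (.t v l i n n')) = 0 := by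
  unfold K
  rw [Module.End.mul_apply, Module.End.mul_apply, pr_bv hM (mem_al m), if_pos (by rfl), Xop_bv]
  simp [xb]

theorem K_sb {v l : ℕ} (hl : V.b l ∈ S m) (hv : V.s v ∈ S m) (hvl : v = l ∨ v = l + 1) (j : Bool)
    (n n' : ℕ) :
    K (pr F m M) (Xop F m) (.s v) (.b l) (bv F (.b l j n n')) = bv F (.s v l j n n') := by
  unfold K
  rw [Module.End.mul_apply, Module.End.mul_apply, pr_bv hM hl, if_pos (by rfl), Xop_bv]
  simp only [xb, map_add, pr_bv hM hv, vert]
  rcases hvl with rfl | rfl
  · simp
  · simp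

theorem K_as {v : ℕ} (hv : V.s v ∈ S m) (l : ℕ) (j : Bool)
    (n n' : ℕ) :
    K (pr F m M) (Xop F m) .al (.s v) (bv F (.s v l j n n')) = bv F (.t v l j n n') := by
  unfold K
  rw [Module.End.mul_apply, Module.End.mul_apply, pr_bv hM hv, if_pos (by rfl), Xop_bv]
  simp [xb, pr_bv hM (mem_al m), vert]

/-- the relators send the module into `G` -/
theorem rel_mem_G {Y : Sys} (hm : m = Y.m) {p r : V} (hp : p ∈ S m) (hr : r ∈ S m) (β : Bs)
    (hβ : vert β = r) : rel Y (pr F m M) (Xop F m) p r (bv F β) ∈ G F Y := by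
  subst hm
  cases p with
  | al =>
    cases r with
    | b l =>
      cases β with
      | b l' j n n' =>
        obtain rfl : l' = l := by simpa [vert] using hβ
        have h1 : V.s l' ∈ S Y.m := by rw [mem_b] at hr; rw [mem_s]; omega
        have h2 : V.s (l' + 1) ∈ S Y.m := by rw [mem_b] at hr; rw [mem_s]; omega
        simp only [rel, LinearMap.sub_apply, Module.End.mul_apply]
        rw [K_sb hM hr h1 (Or.inl rfl), K_sb hM hr h2 (Or.inr rfl), K_as hM h1, K_as hM h2]
        intro w hw
        rw [map_sub, pair_bv, pair_bv, hw.p5, sub_self]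
      | fin => simp [vert] at hβ
      | c _ _ => simp [vert] at hβ
      | s _ _ _ _ _ => simp [vert] at hβ
      | t _ _ _ _ _ => simp [vert] at hβ
    | al => simp [rel]
    | c j => simp [rel]
    | s v => simp [rel]
  | c j => cases r <;> simp [rel]
  | b l =>
    cases r with
    | al =>
      cases β with
      | fin =>
        simp only [rel, LinearMap.sub_apply, Module.End.mul_apply]
        rw [K_ca hM, K_ca hM, K_bc hM hp, K_bc hM hp, Kpow_bb hM hp]
        intro w hw
        rw [map_sub, pair_bv, pair_bv, hw.p2b, sub_self]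
      | t v' l' j n n' =>
        simp only [rel, LinearMap.sub_apply, Module.End.mul_apply]
        rw [K_ca_t hM, K_ca_t hM]
        simp
      | b _ _ _ _ => simp [vert] at hβ
      | c _ _ => simp [vert] at hβ
      | s _ _ _ _ _ => simp [vert] at hβ
    | c j =>
      cases β with
      | c j' n =>
        obtain rfl : j' = j := by simpa [vert] using hβ
        simp only [rel, LinearMap.sub_apply, Module.End.mul_apply]
        rw [K_bc hM hp, K_cc hM, K_bc hM hp, Kpow_bb hM hp]
        intro w hw
        rw [map_sub, pair_bv, pair_bv, hw.p1b, sub_self]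
      | fin => simp [vert] at hβ
      | b _ _ _ _ => simp [vert] at hβ
      | s _ _ _ _ _ => simp [vert] at hβ
      | t _ _ _ _ _ => simp [vert] at hβ
    | b _ => simp [rel]
    | s _ => simp [rel]
  | s v =>
    cases r with
    | c j =>
      cases β with
      | c j' n =>
        obtain rfl : j' = j := by simpa [vert] using hβ
        simp only [rel]
        split
        · rename_i h
          obtain ⟨h1, h2, h3⟩ := h
          have hb1 : V.b (v - 1) ∈ S Y.m := by rw [mem_b]; omega
          have hb2 : V.b v ∈ S Y.m := by rw [mem_b]; omega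
          simp only [LinearMap.sub_apply, Module.End.mul_apply, LinearMap.smul_apply]
          rw [K_bc hM hb1, K_bc hM hb2, Kpow_bb hM hb1, K_sb hM hb1 hp (Or.inr (by omega)),
            K_sb hM hb2 hp (Or.inl rfl), zero_add]
          intro w hw
          rw [map_sub, map_nsmul, pair_bv, pair_bv, hw.p3s v j' n h1 h2 h3, nsmul_eq_mul, sub_self]
        · simp
      | fin => simp [vert] at hβ
      | b _ _ _ _ => simp [vert] at hβ
      | s _ _ _ _ _ => simp [vert] at hβ
      | t _ _ _ _ _ => simp [vert] at hβ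
    | al => simp [rel]
    | b _ => simp [rel]
    | s _ => simp [rel]

/-- the action of the word -/
theorem Wd_fin (hm : 0 < m) (N : ℕ) :
    Wd (pr F m M) (Xop F m) 0 0 true 0 N (bv F .fin) = bv F (.t 0 0 true 0 N) := by
  unfold Wd
  simp only [pow_zero, mul_one, Module.End.mul_apply]
  have hb : V.b 0 ∈ S m := by rw [mem_b]; omega
  have hs : V.s 0 ∈ S m := by rw [mem_s]; omega
  rw [K_ca hM, Kpow_cc hM, K_bc hM hb, K_sb hM hb hs (Or.inl rfl), K_as hM hs, zero_add]

end

/-! ### the distinguishing weight -/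

theorem halts_iff {Y : Sys} {r : ℕ} (hr : r < Y.m) (k : ℕ) :
    Y.Halts (r + Y.m * k) ↔ Y.H r = true ∨ Y.Halts (Y.a r * k + Y.e r) := by
  have h1 : (r + Y.m * k) % Y.m = r := by rw [Nat.add_mul_mod_self_left, Nat.mod_eq_of_lt hr]
  have h2 : (r + Y.m * k) / Y.m = k := by
    rw [Nat.add_mul_div_left _ _ (by omega), Nat.div_eq_of_lt hr, zero_add]
  constructor
  · intro h
    cases h with
    | halt _ hH => left; rwa [h1] at hH
    | step _ hH hn =>
      right
      unfold Sys.next at hn
      rwa [h1, h2] at hn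
  · intro h
    by_cases hH : Y.H r = true
    · exact Halts.halt _ (by rwa [h1])
    · rcases h with h | h
      · exact absurd h hH
      · refine Halts.step _ (by rw [h1]; simpa using hH) ?_
        unfold Sys.next
        rwa [h1, h2]

open Classical in
/-- the number represented by a word -/
def val (Y : Sys) (l : ℕ) (j : Bool) (n n' : ℕ) : ℕ :=
  n + Y.A l j * n' + if j then 0 else Y.Bc l

open Classical in
/-- the distinguishing weight -/
noncomputable def lam (F : Type*) [Field F] (Y : Sys) : Bs → F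
  | .t _ l j n n' => if Y.Halts (val Y l j n n') then 0 else 1
  | _ => 0

theorem lam_isW (Y : Sys) : IsW Y (lam F Y) := by
  constructor
  · intros; rfl
  · intros; rfl
  · intro v l j n n'
    simp only [lam]
    rw [show val Y l j (n + Y.A l j) n' = val Y l j n (n' + 1) by unfold val; ring]
  · intros; rfl
  · intros; rfl
  · intro v l n
    simp only [lam]
    rw [show val Y l false n 0 = val Y l true (n + Y.Bc l) 0 by simp [val]]
  · intros; simp [lam]
  · intro v j n' h1 h2 h3
    simp only [lam]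
    cases j with
    | true =>
      have e1 : val Y (v - 1) true (q v true) n' = val Y v true 0 n' := by simp [val, q, A]
      rw [e1]; simp [kap]
    | false =>
      have hv : v % 2 = 1 := by simpa using h3
      obtain ⟨r, rfl⟩ : ∃ r, v = 2 * r + 1 := ⟨v / 2, by omega⟩
      have hr : r < Y.m := by omega
      have e0 : (2 * r + 1) / 2 = r := by omega
      have e1 : val Y (2 * r + 1 - 1) false (q (2 * r + 1) false) n' = r + Y.m * n' := by
        have h0 : (2 * r + 1 - 1) % 2 = 0 := by omega
        simp only [val, q, A, Bc, h0]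
        simp [e0]
      have e2 : val Y (2 * r + 1) false 0 n' = Y.a r * n' + Y.e r := by
        have h0 : (2 * r + 1) % 2 ≠ 0 := by omega
        simp only [val, A, Bc, h0]
        simp [e0]
      rw [e1, e2, halts_iff hr]
      by_cases hH : Y.H r = true
      · simp [kap, e0, hH]
      · have hk : Y.kap (2 * r + 1) false = 1 := by simp [kap, e0, hH]
        rw [hk, Nat.cast_one, one_mul]
        by_cases hY : Y.Halts (Y.a r * n' + Y.e r)
        · rw [if_pos (Or.inr hY), if_pos hY]
        · rw [if_neg (by rintro (h | h) <;> contradiction), if_neg hY]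
  · intros; rfl

end Pool.Agent.Helper707.Model
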