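import Mathlib
import Pool.Agent.Helper707.Model

/-!
The identities of `n × n` matrices hold on the module, `n ≥ 4`.
-/

namespace Pool.Agent.Helper707.Ident

open Finset Polynomial Pool.Agent.Helper707.Idem Pool.Agent.Helper707.Rel
  Pool.Agent.Helper707.Model

/-- the polynomial identities of the matrix algebra -/
def identities (F : Type*) [Field F] (n k : ℕ) : Set (FreeAlgebra F (Fin k)) :=
  {p | ∀ A : Fin k → Matrix (Fin n) (Fin n) F, FreeAlgebra.lift F A p = 0}

variable {F : Type*} [Field F]

theorem mapMatrix_lift {C D : Type*} [CommRing C] [Algebra F C] [CommRing D] [Algebra F D]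
    {n k : ℕ} (φ : C →ₐ[F] D) (A : Fin k → Matrix (Fin n) (Fin n) C)
    (p : FreeAlgebra F (Fin k)) :
    φ.mapMatrix (FreeAlgebra.lift F A p) = FreeAlgebra.lift F (fun i => φ.mapMatrix (A i)) p := by
  have : (φ.mapMatrix).comp (FreeAlgebra.lift F A)
      = FreeAlgebra.lift F (fun i => φ.mapMatrix (A i)) := by
    apply FreeAlgebra.hom_ext
    funext i
    simp
  rw [← this]; rfl

theorem ident_comm [Infinite F] {n k : ℕ} {p : FreeAlgebra F (Fin k)} (hp : p ∈ identities F n k)
    {C : Type*} [CommRing C] [Algebra F C] (A : Fin k → Matrix (Fin n) (Fin n) C) :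
    FreeAlgebra.lift F A p = 0 := by
  let Gm : Fin k → Matrix (Fin n) (Fin n) (MvPolynomial (Fin k × Fin n × Fin n) F) :=
    fun i => Matrix.of fun a b => MvPolynomial.X (i, a, b)
  have hQ : FreeAlgebra.lift F Gm p = 0 := by
    ext1 a b
    apply MvPolynomial.funext
    intro v
    have h1 := mapMatrix_lift (MvPolynomial.aeval v : MvPolynomial _ F →ₐ[F] F) Gm p
    rw [hp] at h1
    have h2 := congrFun (congrFun h1 a) b
    rw [AlgHom.mapMatrix_apply, Matrix.map_apply] at h2
    rw [Matrix.zero_apply] at h2 ⊢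
    rw [map_zero, ← h2]
    rfl
  have h3 := mapMatrix_lift (MvPolynomial.aeval (fun t : Fin k × Fin n × Fin n =>
    A t.1 t.2.1 t.2.2) : MvPolynomial _ F →ₐ[F] C) Gm p
  rw [hQ, map_zero] at h3
  rw [h3]
  congr 2
  funext i
  ext a b
  simp [Gm]

section EV

variable (F) in
/-- coefficient ring -/
def CR := DualNumber (F[X][X])

noncomputable instance : CommRing (CR F) := inferInstanceAs (CommRing (DualNumber (F[X][X])))

noncomputable instance : Algebra F (CR F) := inferInstanceAs (Algebra F (DualNumber (F[X][X])))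

/-- infinitesimal part -/
noncomputable def ie (r : F[X][X]) : CR F := TrivSqZeroExt.inr r

/-- constant part -/
noncomputable def il (r : F[X][X]) : CR F := TrivSqZeroExt.inl r

/-- first component -/
noncomputable def fs : CR F →ₗ[F] F[X][X] := TrivSqZeroExt.fstHom F F[X][X] F[X][X] |>.toLinearMap

/-- second component -/
noncomputable def sn : CR F →ₗ[F] F[X][X] := TrivSqZeroExt.sndHom F[X][X] F[X][X] |>.restrictScalars F

theorem ie_mul_il (r s : F[X][X]) : ie r * il s = ie (r * s) := by
  unfold ie il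
  refine (TrivSqZeroExt.inr_mul_inl _ _).trans ?_
  rfl

theorem ie_mul_ie (r s : F[X][X]) : ie r * ie s = 0 := by
  unfold ie
  exact TrivSqZeroExt.inr_mul_inr _ _ _

theorem ie_zero : ie (0 : F[X][X]) = 0 := rfl

theorem sn_ie (r : F[X][X]) : sn (ie r) = r := rfl
theorem fs_ie (r : F[X][X]) : fs (ie r) = 0 := rfl
theorem fs_one : fs (1 : CR F) = 1 := rfl
theorem sn_one : sn (1 : CR F) = 0 := rfl

variable {n : ℕ} (hn : 4 ≤ n) (m v0 l0 : ℕ) (j0 : Bool)

/-- index of a basis element -/
def idx : Bs → Fin n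
  | .fin => ⟨0, by omega⟩
  | .c _ _ => ⟨1, by omega⟩
  | .b _ _ _ _ => ⟨2, by omega⟩
  | .s _ _ _ _ _ => ⟨3, by omega⟩
  | .t _ _ _ _ _ => ⟨0, by omega⟩

variable (F) in
/-- a monomial in two commuting variables -/
noncomputable def mon (a b : ℕ) : F[X][X] := monomial b (monomial a 1)

variable (F) in
/-- coefficient of a basis element -/
noncomputable def coef : Bs → CR F
  | .fin => 1
  | .c j a => if j = j0 then ie (mon F 0 a) else 0
  | .b l j a b => if l = l0 ∧ j = j0 then ie (mon F a b) else 0
  | .s v l j a b => if v = v0 ∧ l = l0 ∧ j = j0 then ie (mon F a b) else 0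
  | .t v l j a b => if v = v0 ∧ l = l0 ∧ j = j0 then ie (mon F a b) else 0

/-- evaluation of a basis element -/
noncomputable def ev (β : Bs) : Fin n → CR F :=
  Pi.single (idx hn β) (coef F v0 l0 j0 β)

/-- evaluation map -/
noncomputable def EV : (Bs →₀ F) →ₗ[F] (Fin n → CR F) :=
  Finsupp.linearCombination F (ev hn v0 l0 j0)

theorem EV_bv (β : Bs) : EV (F := F) hn v0 l0 j0 (bv F β) = ev hn v0 l0 j0 β := by
  simp [EV, bv]

variable (F) in
/-- the second generator as a matrix, column by column -/
noncomputable def Xcol (k : Fin n) : Fin n → CR F :=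
  if k.val = 0 then Pi.single (⟨1, by omega⟩ : Fin n) (ie 1)
  else if k.val = 1 then Pi.single (⟨1, by omega⟩ : Fin n) (il X)
    + (if l0 < 2 * m then Pi.single (⟨2, by omega⟩ : Fin n) 1 else 0)
  else if k.val = 2 then Pi.single (⟨2, by omega⟩ : Fin n) (il (Polynomial.C X))
    + (if v0 = l0 ∨ v0 = l0 + 1 then Pi.single (⟨3, by omega⟩ : Fin n) 1 else 0)
  else if k.val = 3 then Pi.single (⟨0, by omega⟩ : Fin n) 1
  else 0

variable (F) in
/-- the second generator as a matrix -/
noncomputable def Xm : Matrix (Fin n) (Fin n) (CR F) :=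
  Matrix.of fun i k => Xcol F hn m v0 l0 k i

/-- diagonal entries of the first generator -/
def zd (k : Fin n) : ℕ :=
  if k.val = 0 then eigV m .al
  else if k.val = 1 then eigV m (.c j0)
  else if k.val = 2 then eigV m (.b l0)
  else if k.val = 3 then eigV m (.s v0)
  else 0

variable (F n) in
/-- the first generator as a matrix -/
noncomputable def Zm : Matrix (Fin n) (Fin n) (CR F) :=
  Matrix.diagonal fun k => (zd m v0 l0 j0 k : CR F)

theorem Xm_single (k : Fin n) (x : CR F) :
    (Xm F hn m v0 l0).mulVec (Pi.single k x) = x • Xcol F hn m v0 l0 k := by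
  ext1 i
  simp only [Matrix.mulVec, dotProduct_single, Xm, Matrix.of_apply, Pi.smul_apply, smul_eq_mul]
  exact mul_comm _ _

theorem Zm_single (k : Fin n) (x : CR F) :
    (Zm F n m v0 l0 j0).mulVec (Pi.single k x)
      = (zd m v0 l0 j0 k) • (Pi.single k x : Fin n → CR F) := by
  ext1 i
  simp only [Zm, Matrix.mulVec_diagonal, Pi.smul_apply, nsmul_eq_mul]
  by_cases h : i = k
  · subst h; rfl
  · simp [h]

theorem mon_mul_X (a b : ℕ) : mon F a b * X = mon F a (b + 1) := by
  simp [mon, Polynomial.monomial_mul_X]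

theorem mon_mul_CX (a b : ℕ) : mon F a b * Polynomial.C X = mon F (a + 1) b := by
  simp [mon, Polynomial.monomial_mul_C, Polynomial.monomial_mul_X]

theorem mon_zero : mon F 0 0 = 1 := by
  simp [mon]

theorem smul_single (k : Fin n) (x y : CR F) :
    x • (Pi.single k y : Fin n → CR F) = Pi.single k (x * y) := by
  rw [← Pi.single_smul, smul_eq_mul]

theorem EV_X (y : Bs →₀ F) :
    EV hn v0 l0 j0 (Xop F m y) = (Xm F hn m v0 l0).mulVec (EV hn v0 l0 j0 y) := by
  induction y using Finsupp.induction_linear with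
  | zero => simp
  | add a b ha hb => rw [map_add, map_add, map_add, ha, hb, Matrix.mulVec_add]
  | single β c =>
    have hs : (Finsupp.single β c : Bs →₀ F) = c • bv F β := by simp [bv]
    rw [hs, map_smul, map_smul, map_smul, Matrix.mulVec_smul]
    congr 1
    rw [Xop_bv, EV_bv]
    unfold ev
    rw [Xm_single]
    cases β with
    | fin =>
      simp only [xb, map_add, EV_bv, ev, idx, coef, Xcol]
      cases j0 <;> simp [mon_zero]
    | c j n =>
      simp only [xb, map_add, map_sum, EV_bv, ev, idx, coef, Xcol]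
      by_cases hj : j = j0
      · subst hj
        by_cases hl : l0 < 2 * m
        · rw [Finset.sum_eq_single l0]
          · simp [smul_single, hl, ie_mul_il, mon_mul_X]
          · intro b _ hb
            simp [hb]
          · intro h; exact absurd (Finset.mem_range.2 hl) h
        · rw [Finset.sum_eq_zero]
          · simp [smul_single, hl, ie_mul_il, mon_mul_X]
          · intro x hx
            rw [Finset.mem_range] at hx
            have : x ≠ l0 := by omega
            simp [this]
      · simp [hj]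
    | b l j n n' =>
      simp only [xb, map_add, EV_bv, ev, idx, coef, Xcol]
      by_cases hj : l = l0 ∧ j = j0
      · obtain ⟨rfl, rfl⟩ := hj
        by_cases h1 : v0 = l
        · subst h1
          simp [smul_single, ie_mul_il, mon_mul_CX]
        · by_cases h2 : v0 = l + 1
          · subst h2
            simp [smul_single, ie_mul_il, mon_mul_CX]
          · have h3 : ¬ (l = v0) := fun h => h1 h.symm
            have h4 : ¬ (l + 1 = v0) := fun h => h2 h.symm
            simp [smul_single, ie_mul_il, mon_mul_CX, h1, h2, h3, h4]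
      · simp [hj]
    | s v l j n n' =>
      simp only [xb, EV_bv, ev, idx, coef, Xcol]
      by_cases hj : v = v0 ∧ l = l0 ∧ j = j0
      · simp [hj, smul_single]
      · simp [hj]
    | t v l j n n' =>
      simp only [xb, map_zero, idx, coef, Xcol]
      by_cases hj : v = v0 ∧ l = l0 ∧ j = j0
      · simp [hj, smul_single, ie_mul_ie]
      · simp [hj]

theorem EV_Z (y : Bs →₀ F) :
    EV hn v0 l0 j0 (Zop F m y) = (Zm F n m v0 l0 j0).mulVec (EV hn v0 l0 j0 y) := by
  induction y using Finsupp.induction_linear with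
  | zero => simp
  | add a b ha hb => rw [map_add, map_add, map_add, ha, hb, Matrix.mulVec_add]
  | single β c =>
    have hs : (Finsupp.single β c : Bs →₀ F) = c • bv F β := by simp [bv]
    rw [hs, map_smul, map_smul, map_smul, Matrix.mulVec_smul]
    congr 1
    rw [Zop_bv, map_smul, EV_bv]
    unfold ev
    rw [Zm_single, Nat.cast_smul_eq_nsmul]
    cases β with
    | fin => rfl
    | c j n =>
      by_cases hj : j = j0
      · subst hj; rfl
      · simp [coef, hj]
    | b l j n n' =>
      by_cases hj : l = l0 ∧ j = j0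
      · obtain ⟨rfl, rfl⟩ := hj; rfl
      · simp [coef, hj]
    | s v l j n n' =>
      by_cases hj : v = v0 ∧ l = l0 ∧ j = j0
      · obtain ⟨rfl, rfl, rfl⟩ := hj; rfl
      · simp [coef, hj]
    | t v l j n n' => rfl

theorem EV_lift (p : FreeAlgebra F (Fin 2)) (y : Bs →₀ F) :
    EV hn v0 l0 j0 (FreeAlgebra.lift F ![Zop F m, Xop F m] p y)
      = (FreeAlgebra.lift F ![Zm F n m v0 l0 j0, Xm F hn m v0 l0] p).mulVec
          (EV hn v0 l0 j0 y) := by
  induction p using FreeAlgebra.induction generalizing y with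
  | grade0 r =>
    rw [AlgHom.commutes, AlgHom.commutes, Module.algebraMap_end_apply, map_smul,
      Algebra.algebraMap_eq_smul_one, Matrix.smul_mulVec, Matrix.one_mulVec]
  | grade1 i =>
    rw [FreeAlgebra.lift_ι_apply, FreeAlgebra.lift_ι_apply]
    fin_cases i
    · exact EV_Z ..
    · exact EV_X ..
  | mul a b ha hb =>
    rw [map_mul, map_mul, Module.End.mul_apply, ha, hb, Matrix.mulVec_mulVec]
  | add a b ha hb =>
    rw [map_add, map_add, LinearMap.add_apply, map_add, ha, hb, Matrix.add_mulVec]

theorem EV_fin (y : Bs →₀ F) :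
    ((fs ((EV hn v0 l0 j0 y) ⟨0, by omega⟩)).coeff 0).coeff 0 = y .fin := by
  induction y using Finsupp.induction_linear with
  | zero => simp
  | add a b ha hb => simp [ha, hb]
  | single β c =>
    have hs : (Finsupp.single β c : Bs →₀ F) = c • bv F β := by simp [bv]
    rw [hs, map_smul, EV_bv]
    cases β <;> simp [ev, idx, coef, bv, fs_one]
    split_ifs <;> simp [fs_ie]

theorem mon_coeff (a b a' b' : ℕ) :
    ((mon F a b).coeff b').coeff a' = if a = a' ∧ b = b' then 1 else 0 := by
  unfold mon
  rw [Polynomial.coeff_monomial]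
  by_cases h : b = b'
  · rw [if_pos h, Polynomial.coeff_monomial]
    simp [h]
  · rw [if_neg h]
    simp [h]

theorem EV_c (j : Bool) (a : ℕ) (y : Bs →₀ F) :
    ((sn ((EV hn v0 l0 j y) ⟨1, by omega⟩)).coeff a).coeff 0 = y (.c j a) := by
  induction y using Finsupp.induction_linear with
  | zero => simp
  | add a b ha hb => simp [ha, hb]
  | single β c =>
    have hs : (Finsupp.single β c : Bs →₀ F) = c • bv F β := by simp [bv]
    rw [hs, map_smul, EV_bv]
    cases β <;> simp [ev, idx, coef, bv]
    rename_i j' a'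
    by_cases hj : j' = j ∧ a' = a
    · obtain ⟨rfl, rfl⟩ := hj
      simp [sn_ie, mon_coeff]
    · have hne : Bs.c j a ≠ Bs.c j' a' := by
        intro h; injection h with h1 h2; exact hj ⟨h1.symm, h2.symm⟩
      rw [Finsupp.single_eq_of_ne hne]
      split_ifs with h
      · have h2 : a' ≠ a := fun h3 => hj ⟨h, h3⟩
        simp [sn_ie, mon_coeff, h2]
      · simp

theorem EV_b (l : ℕ) (j : Bool) (a b : ℕ) (y : Bs →₀ F) :
    ((sn ((EV hn v0 l j y) ⟨2, by omega⟩)).coeff b).coeff a = y (.b l j a b) := by
  induction y using Finsupp.induction_linear with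
  | zero => simp
  | add a b ha hb => simp [ha, hb]
  | single β c =>
    have hs : (Finsupp.single β c : Bs →₀ F) = c • bv F β := by simp [bv]
    rw [hs, map_smul, EV_bv]
    cases β <;> simp [ev, idx, coef, bv]
    rename_i l' j' a' b'
    by_cases hj : l' = l ∧ j' = j ∧ a' = a ∧ b' = b
    · obtain ⟨rfl, rfl, rfl, rfl⟩ := hj
      simp [sn_ie, mon_coeff]
    · have hne : Bs.b l j a b ≠ Bs.b l' j' a' b' := by
        intro h; injection h with h1 h2 h3 h4; exact hj ⟨h1.symm, h2.symm, h3.symm, h4.symm⟩
      rw [Finsupp.single_eq_of_ne hne]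
      split_ifs with h
      · have h2 : ¬ (a' = a ∧ b' = b) := fun h3 => hj ⟨h.1, h.2, h3⟩
        simp [sn_ie, mon_coeff, h2]
      · simp

theorem EV_s (v l : ℕ) (j : Bool) (a b : ℕ) (y : Bs →₀ F) :
    ((sn ((EV hn v l j y) ⟨3, by omega⟩)).coeff b).coeff a = y (.s v l j a b) := by
  induction y using Finsupp.induction_linear with
  | zero => simp
  | add a b ha hb => simp [ha, hb]
  | single β c =>
    have hs : (Finsupp.single β c : Bs →₀ F) = c • bv F β := by simp [bv]
    rw [hs, map_smul, EV_bv]
    cases β <;> simp [ev, idx, coef, bv]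
    rename_i v' l' j' a' b'
    by_cases hj : v' = v ∧ l' = l ∧ j' = j ∧ a' = a ∧ b' = b
    · obtain ⟨rfl, rfl, rfl, rfl, rfl⟩ := hj
      simp [sn_ie, mon_coeff]
    · have hne : Bs.s v l j a b ≠ Bs.s v' l' j' a' b' := by
        intro h
        injection h with h1 h2 h3 h4 h5
        exact hj ⟨h1.symm, h2.symm, h3.symm, h4.symm, h5.symm⟩
      rw [Finsupp.single_eq_of_ne hne]
      split_ifs with h
      · have h2 : ¬ (a' = a ∧ b' = b) := fun h3 => hj ⟨h.1, h.2.1, h.2.2, h3⟩
        simp [sn_ie, mon_coeff, h2]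
      · simp

theorem EV_t (v l : ℕ) (j : Bool) (a b : ℕ) (y : Bs →₀ F) :
    ((sn ((EV hn v l j y) ⟨0, by omega⟩)).coeff b).coeff a = y (.t v l j a b) := by
  induction y using Finsupp.induction_linear with
  | zero => simp
  | add a b ha hb => simp [ha, hb]
  | single β c =>
    have hs : (Finsupp.single β c : Bs →₀ F) = c • bv F β := by simp [bv]
    rw [hs, map_smul, EV_bv]
    cases β <;> simp [ev, idx, coef, bv, sn_one]
    rename_i v' l' j' a' b'
    by_cases hj : v' = v ∧ l' = l ∧ j' = j ∧ a' = a ∧ b' = b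
    · obtain ⟨rfl, rfl, rfl, rfl, rfl⟩ := hj
      simp [sn_ie, mon_coeff]
    · have hne : Bs.t v l j a b ≠ Bs.t v' l' j' a' b' := by
        intro h
        injection h with h1 h2 h3 h4 h5
        exact hj ⟨h1.symm, h2.symm, h3.symm, h4.symm, h5.symm⟩
      rw [Finsupp.single_eq_of_ne hne]
      split_ifs with h
      · have h2 : ¬ (a' = a ∧ b' = b) := fun h3 => hj ⟨h.1, h.2.1, h.2.2, h3⟩
        simp [sn_ie, mon_coeff, h2]
      · simp

theorem EV_inj (y : Bs →₀ F) (h : ∀ v l j, EV hn v l j y = 0) : y = 0 := by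
  ext β
  cases β with
  | fin => rw [← EV_fin hn 0 0 true, h]; simp
  | c j a => rw [← EV_c hn 0 0, h]; simp
  | b l j a b => rw [← EV_b hn 0, h]; simp
  | s v l j a b => rw [← EV_s hn, h]; simp
  | t v l j a b => rw [← EV_t hn, h]; simp

include hn in
/-- the identities of `n × n` matrices hold on the module -/
theorem ident_module [Infinite F] {p : FreeAlgebra F (Fin 2)} (hp : p ∈ identities F n 2)
    (y : Bs →₀ F) : FreeAlgebra.lift F ![Zop F m, Xop F m] p y = 0 := by
  apply EV_inj hn
  intro v l j
  rw [EV_lift, ident_comm hp, Matrix.zero_mulVec]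

end EV

end Pool.Agent.Helper707.Ident
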