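import Mathlib

/-!
Nilpotency from the polynomial identities of `n × n` matrices:
if `t * z - z * t = p` and `p * z = z * p` in an algebra satisfying the identities of `M_n(F)`,
`F` of characteristic zero, then `p` is nilpotent.
-/

namespace Pool.Agent.Helper707.Nil

open Finset

variable {F : Type*} [Field F]

/-- the derivation `b ↦ b z - z b` -/
noncomputable def D {B : Type*} [Ring B] [Algebra F B] (z : B) : B →ₗ[F] B :=
  LinearMap.mulRight F z - LinearMap.mulLeft F z

theorem D_apply {B : Type*} [Ring B] [Algebra F B] (z b : B) :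
    D (F := F) z b = b * z - z * b := by
  simp [D]

theorem D_mul {B : Type*} [Ring B] [Algebra F B] (z a b : B) :
    D (F := F) z (a * b) = D (F := F) z a * b + a * D (F := F) z b := by
  simp only [D_apply]; noncomm_ring

/-- the alternating sum of ordered products -/
noncomputable def W (F : Type*) [Field F] {B : Type*} [Ring B] [Algebra F B] (N : ℕ) (z t : B) : B :=
  ∑ σ : Equiv.Perm (Fin (N + 1)), Equiv.Perm.sign σ •
    (List.ofFn fun i : Fin (N + 1) => ((D (F := F) z) ^ (σ i : ℕ)) (t ^ (i : ℕ))).prod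

theorem D_pow_map {B C : Type*} [Ring B] [Algebra F B] [Ring C] [Algebra F C] (φ : B →ₐ[F] C)
    (z : B) (k : ℕ) (b : B) :
    φ (((D (F := F) z) ^ k) b) = ((D (F := F) (φ z)) ^ k) (φ b) := by
  induction k generalizing b with
  | zero => simp
  | succ k ih =>
    rw [pow_succ, pow_succ, Module.End.mul_apply, Module.End.mul_apply, ih, D_apply, D_apply]
    simp

theorem W_map {B C : Type*} [Ring B] [Algebra F B] [Ring C] [Algebra F C] (φ : B →ₐ[F] C)
    (N : ℕ) (z t : B) : φ (W F N z t) = W F N (φ z) (φ t) := by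
  unfold W
  rw [map_sum]
  refine Finset.sum_congr rfl fun σ _ => ?_
  have h : ∀ (u : ℤˣ) (b : B), φ (u • b) = u • φ b := by
    intro u b
    rcases Int.units_eq_one_or u with h | h <;> simp [h]
  rw [h, map_list_prod]
  congr 2
  rw [List.map_ofFn]
  congr 1
  funext i
  simp [D_pow_map]

theorem D_pow_one {B : Type*} [Ring B] [Algebra F B] (z : B) (k : ℕ) (hk : 0 < k) :
    ((D (F := F) z) ^ k) (1 : B) = 0 := by
  obtain ⟨j, rfl⟩ : ∃ j, k = j + 1 := ⟨k - 1, by omega⟩
  rw [pow_succ, Module.End.mul_apply, D_apply]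
  simp

/-- if `D p = 0` then `D^k (p * b) = p * D^k b` -/
theorem D_pow_mul_left {B : Type*} [Ring B] [Algebra F B] (z p : B) (hp : D (F := F) z p = 0)
    (k : ℕ) (b : B) : ((D (F := F) z) ^ k) (p * b) = p * ((D (F := F) z) ^ k) b := by
  induction k generalizing b with
  | zero => simp
  | succ k ih =>
    rw [pow_succ, Module.End.mul_apply, Module.End.mul_apply, D_mul, hp, zero_mul, zero_add, ih]

/-- Leibniz for `t * b` where `D t = p`, `D p = 0` -/
theorem D_pow_t_mul {B : Type*} [Ring B] [Algebra F B] (z t p : B)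
    (ht : D (F := F) z t = p) (hp : D (F := F) z p = 0) (k : ℕ) (b : B) :
    ((D (F := F) z) ^ (k + 1)) (t * b)
      = t * ((D (F := F) z) ^ (k + 1)) b + (k + 1 : ℕ) • (p * ((D (F := F) z) ^ k) b) := by
  induction k generalizing b with
  | zero => simp [D_mul, ht, add_comm]
  | succ k ih =>
    have e0 : ∀ (j : ℕ) (c : B), ((D (F := F) z) ^ (j + 1)) c
        = ((D (F := F) z) ^ j) ((D (F := F) z) c) := fun j c => by
      rw [pow_succ, Module.End.mul_apply]
    rw [e0 (k + 1) (t * b), D_mul, ht, map_add, D_pow_mul_left z p hp, ih, ← e0 (k + 1) b, ← e0 k b,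
      succ_nsmul _ (k + 1)]
    abel

theorem D_pow_pow {B : Type*} [Ring B] [Algebra F B] (z t p : B)
    (ht : D (F := F) z t = p) (hp : D (F := F) z p = 0) (j : ℕ) :
    ((D (F := F) z) ^ j) (t ^ j) = (j.factorial : ℕ) • p ^ j ∧
      ∀ k, j < k → ((D (F := F) z) ^ k) (t ^ j) = 0 := by
  induction j with
  | zero =>
    refine ⟨by simp, fun k hk => ?_⟩
    rw [pow_zero]; exact D_pow_one z k hk
  | succ j ih =>
    constructor
    · rw [pow_succ' t, D_pow_t_mul z t p ht hp, ih.2 (j + 1) (by omega), ih.1, mul_zero, zero_add,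
        Nat.factorial_succ, pow_succ' p, mul_smul_comm, smul_smul]
    · intro k hk
      obtain ⟨i, rfl⟩ : ∃ i, k = i + 1 := ⟨k - 1, by omega⟩
      rw [pow_succ' t, D_pow_t_mul z t p ht hp, ih.2 (i + 1) (by omega), ih.2 i (by omega)]
      simp

theorem perm_eq_one_of_le {N : ℕ} (σ : Equiv.Perm (Fin (N + 1)))
    (h : ∀ i, (σ i : ℕ) ≤ (i : ℕ)) : σ = 1 := by
  ext i
  rw [Equiv.Perm.one_apply]
  have key : ∀ n : ℕ, ∀ i : Fin (N + 1), (i : ℕ) = n → σ i = i := by
    intro n
    induction n using Nat.strong_induction_on with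
    | _ n ih =>
      intro i hi
      rcases lt_or_eq_of_le (h i) with hlt | heq
      · have h1 : σ (σ i) = σ i := ih (σ i : ℕ) (by omega) (σ i) rfl
        exact σ.injective h1
      · exact Fin.ext heq
  rw [key _ i rfl]

theorem W_deriv {B : Type*} [Ring B] [Algebra F B] (z t p : B)
    (ht : D (F := F) z t = p) (hp : D (F := F) z p = 0) (N : ℕ) :
    ∃ c : ℕ, 0 < c ∧ W F (N + 1) z t = c • p ^ (∑ i ∈ Finset.range (N + 1 + 1), i) := by
  classical
  unfold W
  rw [Finset.sum_eq_single (1 : Equiv.Perm (Fin (N + 1 + 1)))]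
  · have key : ∀ (n : ℕ), ∃ c : ℕ, 0 < c ∧
        (List.ofFn fun i : Fin (n + 1) => (((D (F := F) z) ^ (i : ℕ)) (t ^ (i : ℕ)))).prod
          = c • p ^ (∑ i ∈ Finset.range (n + 1), i) := by
      intro n
      induction n with
      | zero => exact ⟨1, one_pos, by simp⟩
      | succ n ih =>
        obtain ⟨c, hc, h⟩ := ih
        refine ⟨c * (n + 1).factorial, Nat.mul_pos hc (Nat.factorial_pos _), ?_⟩
        rw [List.ofFn_succ', List.concat_eq_append, List.prod_append]
        simp only [Fin.val_castSucc, List.prod_singleton, Fin.val_last]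
        rw [h, (D_pow_pow z t p ht hp (n + 1)).1, Finset.sum_range_succ _ (n + 1),
          pow_add p (∑ i ∈ Finset.range (n + 1), i) (n + 1), smul_mul_smul_comm]
    obtain ⟨c, hc, h⟩ := key (N + 1)
    refine ⟨c, hc, ?_⟩
    simp only [Equiv.Perm.sign_one, one_smul, Equiv.Perm.one_apply]
    exact h
  · intro σ _ hσ
    have : ∃ i : Fin (N + 1 + 1), (i : ℕ) < (σ i : ℕ) := by
      by_contra hcon
      push Not at hcon
      exact hσ (perm_eq_one_of_le σ hcon)
    obtain ⟨i, hi⟩ := this
    have hz : (List.ofFn fun i : Fin (N + 1 + 1) =>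
        (((D (F := F) z) ^ (σ i : ℕ)) (t ^ (i : ℕ)))).prod = 0 := by
      apply List.prod_eq_zero
      rw [List.mem_ofFn]
      exact ⟨i, (D_pow_pow z t p ht hp i).2 _ hi⟩
    rw [hz, smul_zero]
  · intro h; exact absurd (Finset.mem_univ _) h

/-- the alternating sum vanishes on `n × n` matrices when `N = n * n` -/
theorem W_matrix (n : ℕ) (z t : Matrix (Fin n) (Fin n) F) : W F (n * n) z t = 0 := by
  classical
  let B := Matrix (Fin n) (Fin n) F
  -- multilinear in the operators
  let Φ : MultilinearMap F (fun _ : Fin (n * n + 1) => Module.End F B) B :=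
    (MultilinearMap.mkPiAlgebraFin F (n * n + 1) B).compLinearMap
      (fun i => LinearMap.applyₗ (t ^ (i : ℕ)))
  have h1 : W F (n * n) z t
      = ∑ σ : Equiv.Perm (Fin (n * n + 1)), Equiv.Perm.sign σ •
          Φ (fun i => (D (F := F) z) ^ ((σ i : Fin (n * n + 1)) : ℕ)) := by
    unfold W
    refine Finset.sum_congr rfl fun σ _ => ?_
    simp [Φ, MultilinearMap.mkPiAlgebraFin_apply]
  have h2 : W F (n * n) z t
      = (MultilinearMap.alternatization Φ) (fun k => (D (F := F) z) ^ (k : ℕ)) := by
    rw [h1, MultilinearMap.alternatization_apply]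
    refine Finset.sum_congr rfl fun σ _ => ?_
    rw [MultilinearMap.domDomCongr_apply]
  rw [h2]
  apply AlternatingMap.map_linearDependent
  intro hli
  -- Cayley-Hamilton for the endomorphism D z
  set δ : Module.End F B := D (F := F) z with hδ
  have hcp := LinearMap.aeval_self_charpoly δ
  have hdeg : δ.charpoly.natDegree = n * n := by
    rw [LinearMap.charpoly_natDegree]
    simp [B, Module.finrank_matrix]
  rw [Polynomial.aeval_eq_sum_range, hdeg] at hcp
  rw [Fintype.linearIndependent_iff] at hli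
  have := hli (fun i => δ.charpoly.coeff (i : ℕ)) (by
    rw [← hcp, Finset.sum_range]) (Fin.last _)
  simp only [Fin.val_last] at this
  have hm := LinearMap.charpoly_monic δ
  rw [Polynomial.Monic, Polynomial.leadingCoeff, hdeg] at hm
  rw [hm] at this
  exact one_ne_zero this

end Pool.Agent.Helper707.Nil
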