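import Mathlib
import Pool.Agent.Helper707.Nil
import Pool.Agent.Helper707.Ident

/-!
The single relator and the equivalence between membership in the ideal and halting.
-/

namespace Pool.Agent.Helper707.Alg

set_option linter.unusedSectionVars false

open Finset Polynomial Pool.Agent.Helper707.Idem Pool.Agent.Helper707.Rel
  Pool.Agent.Helper707.Model Pool.Agent.Helper707.Ident

/-- exponent of nilpotency -/
def Mx (n : ℕ) : ℕ := ∑ i ∈ range (n * n + 1), i

theorem Mx_pos {n : ℕ} (hn : 4 ≤ n) : 0 < Mx n := by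
  unfold Mx
  have : 1 < n * n + 1 := by nlinarith
  exact Finset.sum_pos' (fun _ _ => Nat.zero_le _) ⟨1, by simpa using this, one_pos⟩

variable (F : Type*) [Field F] [CharZero F]

section

variable {B C : Type*} [Ring B] [Algebra F B] [Ring C] [Algebra F C]

/-- idempotents -/
noncomputable def el (Y : Sys) (M : ℕ) (z : B) (p : V) : B := ee F (4 * Y.m + 5) M z (num p)

/-- the sum of all off diagonal relators -/
noncomputable def tel (Y : Sys) (M : ℕ) (z x : B) : B :=
  Theta F (4 * Y.m + 5) M (S Y.m) num z (rel Y (el F Y M z) x)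

/-- the single relator -/
noncomputable def fel (Y : Sys) (M : ℕ) (z x : B) : B :=
  aeval z (P F (4 * Y.m + 5)) + (z * tel F Y M z x - tel F Y M z x * z)

/-- the words to be decided -/
noncomputable def gel (Y : Sys) (z x : B) (N : ℕ) : B :=
  aeval z (IF F (4 * Y.m + 5) (num .al)) * x * aeval z (IF F (4 * Y.m + 5) (num (.s 0))) * x
    * aeval z (IF F (4 * Y.m + 5) (num (.b 0))) * x
    * (aeval z (IF F (4 * Y.m + 5) (num (.c true))) * x) ^ (N + 1)
    * aeval z (IF F (4 * Y.m + 5) (num .al))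

variable {F}

theorem el_map (φ : B →ₐ[F] C) (Y : Sys) (M : ℕ) (z : B) (p : V) :
    φ (el F Y M z p) = el F Y M (φ z) p := by
  unfold el ee
  rw [← Polynomial.aeval_algHom_apply]

theorem K_map (φ : B →ₐ[F] C) (e : V → B) (x : B) (p q : V) :
    φ (K e x p q) = K (fun p => φ (e p)) (φ x) p q := by
  unfold K; rw [map_mul, map_mul]

theorem rel_map (φ : B →ₐ[F] C) (Y : Sys) (e : V → B) (x : B) (p q : V) :
    φ (rel Y e x p q) = rel Y (fun p => φ (e p)) (φ x) p q := by
  unfold rel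
  cases p <;> cases q <;> simp only [map_zero, map_sub, map_mul, map_pow, K_map]
  split_ifs <;> simp only [map_zero, map_sub, map_mul, map_pow, map_nsmul, K_map]

theorem tel_map (φ : B →ₐ[F] C) (Y : Sys) (M : ℕ) (z x : B) :
    φ (tel F Y M z x) = tel F Y M (φ z) (φ x) := by
  unfold tel Theta
  simp only [map_sum, map_mul, rel_map]
  have h1 : ∀ p, φ (ee F (4 * Y.m + 5) M z (num p)) = ee F (4 * Y.m + 5) M (φ z) (num p) :=
    fun p => el_map φ Y M z p
  simp only [h1, el_map]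

theorem fel_map (φ : B →ₐ[F] C) (Y : Sys) (M : ℕ) (z x : B) :
    φ (fel F Y M z x) = fel F Y M (φ z) (φ x) := by
  unfold fel
  rw [map_add, map_sub, map_mul, map_mul, tel_map, ← Polynomial.aeval_algHom_apply]

theorem gel_map (φ : B →ₐ[F] C) (Y : Sys) (z x : B) (N : ℕ) :
    φ (gel F Y z x N) = gel F Y (φ z) (φ x) N := by
  unfold gel
  simp only [map_mul, map_pow, ← Polynomial.aeval_algHom_apply]

variable (F) in
/-- the nonzero scalar -/
noncomputable def sc (Y : Sys) (N : ℕ) : F :=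
  (iv (4 * Y.m + 5) (num .al) : F) * (iv (4 * Y.m + 5) (num (.s 0)) : F)
    * (iv (4 * Y.m + 5) (num (.b 0)) : F) * (iv (4 * Y.m + 5) (num (.c true)) : F) ^ (N + 1)
    * (iv (4 * Y.m + 5) (num .al) : F)

variable (F) in
theorem sc_ne_zero (Y : Sys) (N : ℕ) : sc F Y N ≠ 0 := by
  have h : ∀ q, (iv (4 * Y.m + 5) q : F) ≠ 0 := fun q => by exact_mod_cast iv_ne_zero _ q
  unfold sc
  exact mul_ne_zero (mul_ne_zero (mul_ne_zero (mul_ne_zero (h _) (h _)) (h _))
    (pow_ne_zero _ (h _))) (h _)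

theorem Wd_eq {e : V → B} {x : B} (h : e (.c true) * e (.c true) = e (.c true))
    (hb : e (.b 0) * e (.b 0) = e (.b 0)) (hs : e (.s 0) * e (.s 0) = e (.s 0)) (N : ℕ) :
    Wd e x 0 0 true 0 N = e .al * x * e (.s 0) * x * e (.b 0) * x * (e (.c true) * x) ^ (N + 1)
      * e .al := by
  have key : ∀ N : ℕ, (K e x (.c true) (.c true)) ^ N * K e x (.c true) .al
      = (e (.c true) * x) ^ (N + 1) * e .al := by
    intro N
    induction N with
    | zero => simp [K]
    | succ N ih =>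
      have h2 : e (.c true) * ((e (.c true) * x) ^ (N + 1) * e .al)
          = (e (.c true) * x) ^ (N + 1) * e .al := by
        rw [pow_succ', ← mul_assoc, ← mul_assoc, ← mul_assoc, h]
      rw [pow_succ', mul_assoc, ih]
      unfold K
      rw [mul_assoc (e (.c true) * x), h2, pow_succ' _ (N + 1), mul_assoc (e (.c true) * x)]
  unfold Wd
  rw [mul_assoc _ (_ ^ N), key, pow_zero, mul_one]
  have h3 : K e x (.b 0) (.c true) * ((e (.c true) * x) ^ (N + 1) * e .al)
      = e (.b 0) * x * (e (.c true) * x) ^ (N + 1) * e .al := by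
    unfold K
    rw [pow_succ']
    calc e (.b 0) * x * e (.c true) * (e (.c true) * x * (e (.c true) * x) ^ N * e .al)
        = e (.b 0) * x * (e (.c true) * e (.c true)) * x * (e (.c true) * x) ^ N * e .al := by
          simp only [mul_assoc]
      _ = _ := by rw [h]; simp only [mul_assoc]
  rw [mul_assoc _ (K e x (.b 0) (.c true)), h3]
  unfold K
  calc e .al * x * e (.s 0) * (e (.s 0) * x * e (.b 0)) *
        (e (.b 0) * x * (e (.c true) * x) ^ (N + 1) * e .al)
      = e .al * x * (e (.s 0) * e (.s 0)) * x * (e (.b 0) * e (.b 0)) * x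
          * (e (.c true) * x) ^ (N + 1) * e .al := by simp only [mul_assoc]
    _ = _ := by rw [hs, hb]

theorem gel_eq {Y : Sys} (hm : 0 < Y.m) {M : ℕ} (hM : 0 < M) {z : B} (x : B)
    (h : aeval z (P F (4 * Y.m + 5)) = 0) (N : ℕ) :
    gel F Y z x N = sc F Y N • Wd (el F Y M z) x 0 0 true 0 N := by
  have hPM : (aeval z (P F (4 * Y.m + 5))) ^ M = 0 := by rw [h, zero_pow hM.ne']
  have he : ∀ p ∈ S Y.m, el F Y M z p * el F Y M z p = el F Y M z p := fun p hp =>
    ee_mul_self hPM (num_le hp)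
  have hc := mem_c Y.m true
  have hb : V.b 0 ∈ S Y.m := mem_b.2 (by omega)
  have hs : V.s 0 ∈ S Y.m := mem_s.2 (by omega)
  have hi : ∀ p ∈ S Y.m, aeval z (IF F (4 * Y.m + 5) (num p))
      = (iv (4 * Y.m + 5) (num p) : F) • el F Y M z p := fun p hp => aeval_IF hM h (num_le hp)
  rw [Wd_eq (he _ hc) (he _ hb) (he _ hs)]
  unfold gel sc
  rw [hi _ (mem_al _), hi _ hc, hi _ hb, hi _ hs]
  simp only [smul_mul_assoc, mul_smul_comm, smul_smul, _root_.smul_pow]
  congr 1
  ring

end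

/-! ### soundness -/

theorem mem_of_halts {Y : Sys} (hm : 0 < Y.m) {n : ℕ} (hn : 4 ≤ n) {N : ℕ} (hN : Y.Halts N) :
    gel F Y (FreeAlgebra.ι F (0 : Fin 2)) (FreeAlgebra.ι F 1) N ∈
      TwoSidedIdeal.span ({fel F Y (Mx n) (FreeAlgebra.ι F (0 : Fin 2)) (FreeAlgebra.ι F 1)} ∪
        identities F n 2) := by
  set z0 : FreeAlgebra F (Fin 2) := FreeAlgebra.ι F 0 with hz0
  set x0 : FreeAlgebra F (Fin 2) := FreeAlgebra.ι F 1 with hx0
  set J := TwoSidedIdeal.span ({fel F Y (Mx n) z0 x0} ∪ identities F n 2) with hJ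
  set φ : FreeAlgebra F (Fin 2) →ₐ[F] J.ringCon.Quotient := J.ringCon.mkₐ F with hφ
  have hker : ∀ g, φ g = 0 ↔ g ∈ J := by
    intro g
    have h1 : g ∈ TwoSidedIdeal.ker J.ringCon.mk' ↔ g ∈ J := by
      rw [TwoSidedIdeal.ker_ringCon_mk']
    rw [← h1, TwoSidedIdeal.mem_ker]
    rfl
  rw [← hker, gel_map]
  set z := φ z0
  set x := φ x0
  have hM := Mx_pos hn
  -- the relation
  have hf : fel F Y (Mx n) z x = 0 := by
    rw [← fel_map, hker]
    exact TwoSidedIdeal.subset_span (Or.inl rfl)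
  -- nilpotency
  have hnil : (aeval z (P F (4 * Y.m + 5))) ^ (Mx n) = 0 := by
    set p : J.ringCon.Quotient := aeval z (P F (4 * Y.m + 5)) with hp
    set t := tel F Y (Mx n) z x with ht
    have h1 : Nil.D (F := F) z t = p := by
      rw [Nil.D_apply]
      have : fel F Y (Mx n) z x = p + (z * t - t * z) := rfl
      rw [this] at hf
      rw [eq_comm, ← sub_eq_zero, ← hf]
      abel
    have h2 : Nil.D (F := F) z p = 0 := by
      rw [Nil.D_apply, sub_eq_zero, hp]
      have := aeval_comm z (P F (4 * Y.m + 5)) (X : F[X])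
      rwa [aeval_X] at this
    obtain ⟨K, hK⟩ : ∃ K, n * n = K + 1 := ⟨n * n - 1, by have : 0 < n * n := by nlinarith
                                                          omega⟩
    obtain ⟨c, hc, hW⟩ := Nil.W_deriv z t p h1 h2 K
    have h3 : Nil.W F (n * n) z t = 0 := by
      have : Nil.W F (n * n) z t = φ (Nil.W F (n * n) z0 (tel F Y (Mx n) z0 x0)) := by
        rw [Nil.W_map, tel_map]
      rw [this, hker]
      apply TwoSidedIdeal.subset_span
      right
      intro A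
      rw [Nil.W_map]
      exact Nil.W_matrix n _ _
    rw [hK] at h3
    rw [hW] at h3
    have h4 : p ^ (Mx n) = 0 := by
      have h5 : (c : F) • p ^ (∑ i ∈ range (K + 1 + 1), i) = 0 := by
        rw [Nat.cast_smul_eq_nsmul]; exact h3
      rcases smul_eq_zero.1 h5 with h6 | h6
      · exact absurd (by exact_mod_cast h6) hc.ne'
      · unfold Mx; rw [hK]; exact h6
    exact h4
  obtain ⟨hrel, hP⟩ := single_relation (S := S Y.m) (num := num) (M := Mx n) (F := F)
    (fun a _ b _ h => num_inj h) (fun a ha => num_le ha) hnil (rel Y (el F Y (Mx n) z) x) hf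
  have he : ∀ p ∈ S Y.m, el F Y (Mx n) z p * el F Y (Mx n) z p = el F Y (Mx n) z p :=
    fun p hp => ee_mul_self hnil (num_le hp)
  have hR : Rels Y (el F Y (Mx n) z) x := rels_of he hrel
  rw [gel_eq hm hM x hP, hR.halts_zero hm N hN, smul_zero]

/-! ### completeness -/

theorem submodule_of_bv (U : Submodule F (Bs →₀ F)) (t : Module.End F (Bs →₀ F))
    (h : ∀ β, t (bv F β) ∈ U) (y : Bs →₀ F) : t y ∈ U := by
  induction y using Finsupp.induction_linear with
  | zero => simp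
  | add a b ha hb => rw [map_add]; exact U.add_mem ha hb
  | single β c =>
    have hs : (Finsupp.single β c : Bs →₀ F) = c • bv F β := by simp [bv]
    rw [hs, map_smul]
    exact U.smul_mem _ (h β)

theorem tel_mem_G {Y : Sys} {M : ℕ} (hM : 0 < M) (y : Bs →₀ F) :
    tel F Y M (Zop F Y.m) (Xop F Y.m) y ∈ G F Y := by
  apply submodule_of_bv F
  intro β
  unfold tel Theta
  rw [LinearMap.sum_apply]
  refine Submodule.sum_mem _ fun a ha => ?_
  rw [LinearMap.sum_apply]
  refine Submodule.sum_mem _ fun b hb => ?_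
  rw [Finset.mem_erase] at hb
  rw [Module.End.mul_apply, Module.End.mul_apply]
  have h1 : (ee F (4 * Y.m + 5) M (Zop F Y.m) (num b)) (bv F β)
      = if vert β = b then bv F β else 0 := pr_bv hM hb.2 β
  rw [h1]
  split_ifs with h
  · exact pr_G M a (rel_mem_G hM rfl ha hb.2 β h)
  · rw [map_zero, map_zero]; exact Submodule.zero_mem _

theorem fel_mem_G {Y : Sys} {M : ℕ} (hM : 0 < M) (y : Bs →₀ F) :
    fel F Y M (Zop F Y.m) (Xop F Y.m) y ∈ G F Y := by
  unfold fel
  rw [P_Zop, zero_add, LinearMap.sub_apply, Module.End.mul_apply, Module.End.mul_apply]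
  exact Submodule.sub_mem _ (Zop_G (tel_mem_G F hM y)) (tel_mem_G F hM _)

/-- the two-sided ideal of all elements sending the module into `G` -/
noncomputable def Jm (Y : Sys) : TwoSidedIdeal (FreeAlgebra F (Fin 2)) :=
  TwoSidedIdeal.mk' {g | ∀ y, FreeAlgebra.lift F ![Zop F Y.m, Xop F Y.m] g y ∈ G F Y}
    (by intro y; simp)
    (by intro a b ha hb y; rw [map_add]; exact Submodule.add_mem _ (ha y) (hb y))
    (by intro a ha y; rw [map_neg]; exact Submodule.neg_mem _ (ha y))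
    (by intro a b hb y; rw [map_mul]; exact lift_G a (hb y))
    (by intro a b ha y; rw [map_mul]; exact ha _)

theorem lift_fel (Y : Sys) (M : ℕ) :
    FreeAlgebra.lift F ![Zop F Y.m, Xop F Y.m] (fel F Y M (FreeAlgebra.ι F (0 : Fin 2))
      (FreeAlgebra.ι F 1)) = fel F Y M (Zop F Y.m) (Xop F Y.m) := by
  refine (fel_map (FreeAlgebra.lift F ![Zop F Y.m, Xop F Y.m]) Y M
        (FreeAlgebra.ι F (0 : Fin 2)) (FreeAlgebra.ι F 1)).trans ?_
  rw [FreeAlgebra.lift_ι_apply, FreeAlgebra.lift_ι_apply]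
  rfl

theorem lift_gel (Y : Sys) (N : ℕ) :
    FreeAlgebra.lift F ![Zop F Y.m, Xop F Y.m] (gel F Y (FreeAlgebra.ι F (0 : Fin 2))
      (FreeAlgebra.ι F 1) N) = gel F Y (Zop F Y.m) (Xop F Y.m) N := by
  refine (gel_map (FreeAlgebra.lift F ![Zop F Y.m, Xop F Y.m]) Y
        (FreeAlgebra.ι F (0 : Fin 2)) (FreeAlgebra.ι F 1) N).trans ?_
  rw [FreeAlgebra.lift_ι_apply, FreeAlgebra.lift_ι_apply]
  rfl

theorem mem_Jm {Y : Sys} {g : FreeAlgebra F (Fin 2)} : g ∈ Jm F Y ↔
    ∀ y, FreeAlgebra.lift F ![Zop F Y.m, Xop F Y.m] g y ∈ G F Y := by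
  rw [Jm, TwoSidedIdeal.mem_mk']
  rfl

theorem span_le_Jm {Y : Sys} {n : ℕ} (hn : 4 ≤ n) :
    TwoSidedIdeal.span ({fel F Y (Mx n) (FreeAlgebra.ι F (0 : Fin 2))
      (FreeAlgebra.ι F 1)} ∪ identities F n 2) ≤ Jm F Y := by
  rw [TwoSidedIdeal.span_le]
  intro g hg
  rw [SetLike.mem_coe, mem_Jm]
  intro y
  rcases hg with hg | hg
  · rw [Set.mem_singleton_iff] at hg
    rw [hg, lift_fel]
    exact fel_mem_G F (Mx_pos hn) (Y := Y) y
  · rw [ident_module hn _ hg]
    exact Submodule.zero_mem _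

theorem gel_fin {Y : Sys} (hm : 0 < Y.m) (N : ℕ) :
    gel F Y (Zop F Y.m) (Xop F Y.m) N (bv F .fin) = sc F Y N • bv F (.t 0 0 true 0 N) := by
  have h3 : gel F Y (Zop F Y.m) (Xop F Y.m) N
      = sc F Y N • Wd (el F Y 1 (Zop F Y.m)) (Xop F Y.m) 0 0 true 0 N := by
    apply gel_eq hm one_pos
    have h := P_Zop F Y.m
    rw [← h]
  have h4 : Wd (el F Y 1 (Zop F Y.m)) (Xop F Y.m) 0 0 true 0 N (bv F .fin)
      = bv F (.t 0 0 true 0 N) := Wd_fin one_pos hm N
  rw [h3, LinearMap.smul_apply, h4]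

theorem halts_of_mem {Y : Sys} (hm : 0 < Y.m) {n : ℕ} (hn : 4 ≤ n) {N : ℕ}
    (h : gel F Y (FreeAlgebra.ι F (0 : Fin 2)) (FreeAlgebra.ι F 1) N ∈
      TwoSidedIdeal.span ({fel F Y (Mx n) (FreeAlgebra.ι F (0 : Fin 2)) (FreeAlgebra.ι F 1)} ∪
        identities F n 2)) : Y.Halts N := by
  have h1 := (mem_Jm F).1 (span_le_Jm F hn h)
  have h2 := mem_G.1 (h1 (bv F .fin)) (lam F Y) (lam_isW Y)
  rw [lift_gel, gel_fin F hm, map_smul, pair_bv, smul_eq_mul, mul_eq_zero] at h2
  rcases h2 with h5 | h5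
  · exact absurd h5 (sc_ne_zero F Y N)
  · by_contra hcon
    have h6 : Model.val Y 0 true 0 N = N := by simp [Model.val, Sys.A]
    have h7 : lam F Y (.t 0 0 true 0 N) = 1 := by
      simp only [lam]
      rw [if_neg (by rw [h6]; exact hcon)]
    rw [h7] at h5
    exact one_ne_zero h5

theorem mem_iff {Y : Sys} (hm : 0 < Y.m) {n : ℕ} (hn : 4 ≤ n) {N : ℕ} :
    gel F Y (FreeAlgebra.ι F (0 : Fin 2)) (FreeAlgebra.ι F 1) N ∈
      TwoSidedIdeal.span ({fel F Y (Mx n) (FreeAlgebra.ι F (0 : Fin 2)) (FreeAlgebra.ι F 1)} ∪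
        identities F n 2) ↔ Y.Halts N :=
  ⟨halts_of_mem F hm hn, mem_of_halts F hm hn⟩

end Pool.Agent.Helper707.Alg
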