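import Mathlib

/-!
A nilpotent group of class two acting on functions, and the semidirect product.
-/

namespace Pool.Agent.Helper707.CGrp

/-- generalised Heisenberg group -/
@[ext] structure Hs (I : Type) where
  /-- power of the first generator -/
  a : ℤ
  /-- exponents -/
  s : I → ℤ
  /-- central exponents -/
  t : I → ℤ

variable {I : Type}

namespace Hs

instance : Mul (Hs I) := ⟨fun x y => ⟨x.a + y.a, x.s + y.s, x.t + y.t + y.a • x.s⟩⟩
instance : One (Hs I) := ⟨⟨0, 0, 0⟩⟩
instance : Inv (Hs I) := ⟨fun x => ⟨-x.a, -x.s, -x.t + x.a • x.s⟩⟩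

theorem mul_def (x y : Hs I) : x * y = ⟨x.a + y.a, x.s + y.s, x.t + y.t + y.a • x.s⟩ := rfl
theorem one_def : (1 : Hs I) = ⟨0, 0, 0⟩ := rfl
theorem inv_def (x : Hs I) : x⁻¹ = ⟨-x.a, -x.s, -x.t + x.a • x.s⟩ := rfl

instance : Group (Hs I) := Group.ofLeftAxioms
  (by
    intro x y z
    simp only [mul_def, Hs.mk.injEq]
    refine ⟨by ring, by rw [add_assoc], ?_⟩
    simp only [add_smul, smul_add]
    abel)
  (by
    intro x
    simp [mul_def, one_def])
  (by
    intro x
    simp only [mul_def, one_def, inv_def, Hs.mk.injEq]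
    refine ⟨by ring, by simp, ?_⟩
    simp)

end Hs

/-- the abelian quotient -/
def ab : Hs I →* Multiplicative (ℤ × (I → ℤ)) where
  toFun x := .ofAdd (x.a, x.s)
  map_one' := rfl
  map_mul' _ _ := rfl

/-- the central part -/
def cen : Multiplicative (I → ℤ) →* Hs I where
  toFun x := ⟨0, 0, x.toAdd⟩
  map_one' := rfl
  map_mul' x y := by
    simp only [Hs.mul_def, Hs.mk.injEq]
    exact ⟨by simp, by simp, by simp⟩

theorem ker_ab (x : Hs I) (hx : x ∈ (ab (I := I)).ker) : x = cen (.ofAdd x.t) := by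
  have h : ((x.a, x.s) : ℤ × (I → ℤ)) = 0 := hx
  rw [Prod.mk_eq_zero] at h
  exact Hs.ext h.1 h.2 rfl

theorem fg_comm {A : Type*} [AddCommGroup A] [Module.Finite ℤ A]
    (H : Subgroup (Multiplicative A)) : H.FG := by
  have : IsNoetherian ℤ A := isNoetherian_of_isNoetherianRing_of_finite ℤ A
  have h1 : (AddSubgroup.toIntSubmodule (Subgroup.toAddSubgroup' H)).FG := IsNoetherian.noetherian _
  rw [Submodule.fg_iff_addSubgroup_fg, AddSubgroup.toIntSubmodule_toAddSubgroup,
    AddSubgroup.fg_iff_mul_fg] at h1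
  exact h1

theorem fg_ext {G G' : Type*} [Group G] [Group G'] (f : G →* G') (H : Subgroup G)
    (h1 : (H.map f).FG) (h2 : (H ⊓ f.ker).FG) : H.FG := by
  classical
  obtain ⟨S, hS⟩ := h1
  obtain ⟨T, hT⟩ := h2
  have hS' : ∀ y ∈ S, ∃ x ∈ H, f x = y := by
    intro y hy
    have : y ∈ H.map f := by rw [← hS]; exact Subgroup.subset_closure hy
    exact this
  choose! g hg1 hg2 using hS'
  refine ⟨S.image g ∪ T, ?_⟩
  apply le_antisymm
  · rw [Subgroup.closure_le]
    intro x hx
    rw [Finset.coe_union, Set.mem_union] at hx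
    rcases hx with hx | hx
    · rw [Finset.mem_coe, Finset.mem_image] at hx
      obtain ⟨y, hy, rfl⟩ := hx
      exact hg1 y hy
    · have : x ∈ H ⊓ f.ker := by rw [← hT]; exact Subgroup.subset_closure hx
      exact this.1
  · intro x hx
    set K := Subgroup.closure ((S.image g ∪ T : Finset G) : Set G) with hK
    have hKH : K ≤ H := by
      rw [hK, Subgroup.closure_le]
      intro x hx
      rw [Finset.coe_union, Set.mem_union] at hx
      rcases hx with hx | hx
      · rw [Finset.mem_coe, Finset.mem_image] at hx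
        obtain ⟨y, hy, rfl⟩ := hx
        exact hg1 y hy
      · have : x ∈ H ⊓ f.ker := by rw [← hT]; exact Subgroup.subset_closure hx
        exact this.1
    have hmap : H.map f ≤ K.map f := by
      rw [← hS, Subgroup.closure_le]
      intro y hy
      refine ⟨g y, Subgroup.subset_closure ?_, hg2 y hy⟩
      rw [Finset.coe_union]
      left
      rw [Finset.mem_coe, Finset.mem_image]
      exact ⟨y, hy, rfl⟩
    obtain ⟨k, hk, hkx⟩ := hmap (Subgroup.mem_map_of_mem f hx)
    have h3 : k⁻¹ * x ∈ H ⊓ f.ker := by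
      refine ⟨H.mul_mem (H.inv_mem (hKH hk)) hx, ?_⟩
      have h4 : f (k⁻¹ * x) = 1 := by rw [map_mul, map_inv, hkx, inv_mul_cancel]
      exact h4
    have h4 : k⁻¹ * x ∈ K := by
      have h5 : H ⊓ f.ker ≤ K := by
        rw [← hT]
        apply Subgroup.closure_mono
        intro y hy
        rw [Finset.coe_union]
        exact Or.inr hy
      exact h5 h3
    have : x = k * (k⁻¹ * x) := by group
    rw [this]
    exact K.mul_mem hk h4

theorem fg_map {G G' : Type*} [Group G] [Group G'] (f : G →* G') {H : Subgroup G}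
    (h : H.FG) : (H.map f).FG := by
  classical
  obtain ⟨S, hS⟩ := h
  exact ⟨S.image f, by rw [Finset.coe_image, ← MonoidHom.map_closure, hS]⟩

theorem fg_Hs [Finite I] (H : Subgroup (Hs I)) : H.FG := by
  refine fg_ext ab H (fg_comm _) ?_
  have h1 : (H ⊓ (ab (I := I)).ker) = ((H ⊓ (ab (I := I)).ker).comap cen).map cen := by
    rw [Subgroup.map_comap_eq]
    apply le_antisymm
    · refine le_inf ?_ le_rfl
      intro x hx
      exact ⟨_, (ker_ab x hx.2).symm⟩
    · exact inf_le_right
  rw [h1]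
  exact fg_map _ (fg_comm _)

theorem solv : Group.IsSolvable (Hs I) := by
  refine Group.isSolvable_of_ker_le_range cen ab ?_
  intro x hx
  exact ⟨_, (ker_ab x hx).symm⟩

/-- points -/
abbrev Pt (I : Type) := (I → ℤ) × (I → ℤ)

/-- right action on points -/
def ra (p : Pt I) (h : Hs I) : Pt I := (p.1 + h.s, p.2 + h.a • p.1 + h.t)

theorem ra_mul (p : Pt I) (h h' : Hs I) : ra p (h * h') = ra (ra p h) h' := by
  simp only [ra, Hs.mul_def, add_smul, smul_add]
  refine Prod.ext ?_ ?_
  · exact (add_assoc _ _ _).symm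
  · simp only
    abel

theorem ra_one (p : Pt I) : ra p 1 = p := by
  simp [ra, Hs.one_def]

/-- action on functions -/
def act (h : Hs I) (f : Pt I → ℚ) : Pt I → ℚ := fun p => f (ra p h)

theorem act_mul (h h' : Hs I) (f : Pt I → ℚ) : act (h * h') f = act h (act h' f) := by
  funext p
  simp only [act, ra_mul]

theorem act_one (f : Pt I → ℚ) : act 1 f = f := by
  funext p
  simp only [act, ra_one]

theorem act_add (h : Hs I) (f g : Pt I → ℚ) : act h (f + g) = act h f + act h g := rfl

theorem act_neg (h : Hs I) (f : Pt I → ℚ) : act h (-f) = -act h f := rfl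

theorem act_zero (h : Hs I) : act h (0 : Pt I → ℚ) = 0 := rfl

/-- the semidirect product -/
@[ext] structure Sg (I : Type) where
  /-- function -/
  f : Pt I → ℚ
  /-- acting element -/
  h : Hs I

namespace Sg

instance : Mul (Sg I) := ⟨fun x y => ⟨x.f + act x.h y.f, x.h * y.h⟩⟩
instance : One (Sg I) := ⟨⟨0, 1⟩⟩
instance : Inv (Sg I) := ⟨fun x => ⟨-act x.h⁻¹ x.f, x.h⁻¹⟩⟩

theorem mul_def (x y : Sg I) : x * y = ⟨x.f + act x.h y.f, x.h * y.h⟩ := rfl
theorem one_def : (1 : Sg I) = ⟨0, 1⟩ := rfl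
theorem inv_def (x : Sg I) : x⁻¹ = ⟨-act x.h⁻¹ x.f, x.h⁻¹⟩ := rfl

instance : Group (Sg I) := Group.ofLeftAxioms
  (by
    intro x y z
    simp only [mul_def, Sg.mk.injEq, mul_assoc, and_true]
    rw [act_add, act_mul, add_assoc])
  (by
    intro x
    simp [mul_def, one_def, act_one])
  (by
    intro x
    simp [mul_def, one_def, inv_def])

end Sg

/-- projection to the acting group -/
def pr : Sg I →* Hs I where
  toFun x := x.h
  map_one' := rfl
  map_mul' _ _ := rfl

/-- the distinguished element -/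
def qq : Hs I := ⟨1, 0, 0⟩

/-- shifts -/
def sh (s : I → ℤ) : Hs I := ⟨0, s, 0⟩

/-- central elements -/
def zz (s : I → ℤ) : Hs I := ⟨0, 0, s⟩

theorem sh_qq (s : I → ℤ) : sh s * qq = qq * (sh s * zz s) := by
  simp [sh, qq, zz, Hs.mul_def]

section

variable (G : Subgroup (Sg I))

/-- translations of the subgroup -/
def inG (f : Pt I → ℚ) : Prop := (⟨f, 1⟩ : Sg I) ∈ G

/-- acting elements of the subgroup -/
def inH (h : Hs I) : Prop := (⟨0, h⟩ : Sg I) ∈ G

variable {G}

theorem inH_mul {h h' : Hs I} (a : inH G h) (b : inH G h') : inH G (h * h') := by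
  have := G.mul_mem a b
  rw [Sg.mul_def] at this
  simp only [act_zero, add_zero] at this
  exact this

theorem inH_inv {h : Hs I} (a : inH G h) : inH G h⁻¹ := by
  have := G.inv_mem a
  rw [Sg.inv_def] at this
  simp only [act_zero, neg_zero] at this
  exact this

theorem inG_add {f f' : Pt I → ℚ} (a : inG G f) (b : inG G f') : inG G (f + f') := by
  have := G.mul_mem a b
  rw [Sg.mul_def] at this
  simp only [act_one, mul_one] at this
  exact this

theorem inG_neg {f : Pt I → ℚ} (a : inG G f) : inG G (-f) := by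
  have := G.inv_mem a
  rw [Sg.inv_def] at this
  simp only [inv_one, act_one] at this
  exact this

theorem inG_act {h : Hs I} {f : Pt I → ℚ} (a : inH G h) (b : inG G f) : inG G (act h f) := by
  have := G.mul_mem (G.mul_mem a b) (G.inv_mem a)
  rw [Sg.inv_def, Sg.mul_def, Sg.mul_def] at this
  simp only [act_zero, neg_zero, zero_add, add_zero, mul_one, mul_inv_cancel] at this
  exact this

variable (G) in
/-- the subgroup of differences -/
def Bs : AddSubgroup (Pt I → ℚ) where
  carrier := {w | ∃ x, inG G x ∧ w = x - act qq x}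
  add_mem' := by
    rintro _ _ ⟨x, hx, rfl⟩ ⟨y, hy, rfl⟩
    refine ⟨x + y, inG_add hx hy, ?_⟩
    rw [act_add]
    abel
  zero_mem' := ⟨0, G.one_mem, by rw [act_zero, sub_zero]⟩
  neg_mem' := by
    rintro _ ⟨x, hx, rfl⟩
    refine ⟨-x, inG_neg hx, ?_⟩
    rw [act_neg]
    abel

theorem conj_of_mem {w : Pt I → ℚ} (hw : w ∈ Bs G) :
    ∃ c ∈ G, c * (⟨0, qq⟩ : Sg I) * c⁻¹ = ⟨w, qq⟩ := by
  obtain ⟨x, hx, rfl⟩ := hw
  refine ⟨_, hx, ?_⟩
  simp only [Sg.mul_def, Sg.inv_def, act_one, one_mul, inv_one, mul_one, add_zero, act_neg,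
    Sg.mk.injEq, and_true]
  rw [sub_eq_add_neg]

theorem zero_of_conj {w : Pt I → ℚ} {c : Sg I}
    (h : c * (⟨0, qq⟩ : Sg I) * c⁻¹ = ⟨w, qq⟩) : w 0 = 0 := by
  simp only [Sg.mul_def, Sg.inv_def, Sg.mk.injEq, act_zero, add_zero, act_neg, ← act_mul] at h
  rw [h.2] at h
  rw [← h.1]
  have : ra (0 : Pt I) qq = 0 := by simp [ra, qq]
  simp [act, this]

theorem inH_sh [Finite I] [DecidableEq I] (hx : ∀ i, inH G (sh (Pi.single i 1))) (s : I → ℤ) :
    inH G (sh s) := by
  let K : AddSubgroup (I → ℤ) :=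
    { carrier := {s | inH G (sh s)}
      add_mem' := by
        intro a b ha hb
        have := inH_mul ha hb
        have e : sh a * sh b = sh (a + b) := by simp [sh, Hs.mul_def]
        rw [e] at this
        exact this
      zero_mem' := G.one_mem
      neg_mem' := by
        intro a ha
        have := inH_inv ha
        have e : (sh a)⁻¹ = sh (-a) := by simp [sh, Hs.inv_def]
        rw [e] at this
        exact this }
  have h1 : ∀ i, Pi.single i (s i) ∈ K := by
    intro i
    have h2 : Pi.single i (1 : ℤ) ∈ K := hx i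
    have h3 := K.zsmul_mem h2 (s i)
    have e : s i • Pi.single i (1 : ℤ) = (Pi.single i (s i) : I → ℤ) := by
      rw [← Pi.single_smul, smul_eq_mul, mul_one]
    rw [e] at h3
    exact h3
  exact AddSubgroup.pi_mem_of_single_mem s h1

theorem inH_zz (hq : inH G qq) {s : I → ℤ} (hs : inH G (sh s)) : inH G (zz s) := by
  have h := inH_mul (inH_inv hs) (inH_mul (inH_inv hq) (inH_mul hs hq))
  rw [sh_qq] at h
  simpa using h

/-- functions of the first coordinate -/
def Cn (φ : (I → ℤ) → ℚ) : Pt I → ℚ := fun p => φ p.1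

/-- linear functions of the second coordinate -/
def Lin (i : I) (φ : (I → ℤ) → ℚ) : Pt I → ℚ := fun p => -((p.2 i : ℤ) : ℚ) * φ p.1

theorem act_sh_Cn (s : I → ℤ) (φ : (I → ℤ) → ℚ) :
    act (sh s) (Cn φ) = Cn fun v => φ (v + s) := rfl

theorem key (hq : inH G qq) {s : I → ℤ} (hs : inH G (sh s)) {i : I} {φ : (I → ℤ) → ℚ}
    (h : inG G (Lin i φ)) : Cn (fun v => ((v i : ℤ) : ℚ) * φ (v + s)) ∈ Bs G := by
  refine ⟨act (sh s * zz s) (Lin i φ), inG_act (inH_mul hs (inH_zz hq hs)) h, ?_⟩
  rw [← act_mul, ← sh_qq]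
  funext p
  simp only [Cn, Lin, act, ra_mul, Pi.sub_apply]
  simp only [ra, sh, zz, qq, zero_smul, add_zero, one_smul, Pi.add_apply]
  push_cast
  ring

end

end Pool.Agent.Helper707.CGrp
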