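import Mathlib

/-!
Loop programs on counters compute the primitive recursive functions.
-/

namespace Pool.Agent.Helper707.Prog

open Function

/-- programs -/
inductive Cmd
  | nop
  | inc (r : ℕ)
  | seq (c d : Cmd)
  | loop (r : ℕ) (c : Cmd)

/-- big step semantics; `loop r c` decreases `r` and runs `c` as long as `r` is positive -/
inductive Exec : Cmd → (ℕ → ℕ) → (ℕ → ℕ) → Prop
  | nop (σ : ℕ → ℕ) : Exec .nop σ σ
  | inc (r : ℕ) (σ : ℕ → ℕ) : Exec (.inc r) σ (update σ r (σ r + 1))
  | seq {c d : Cmd} {σ τ ρ : ℕ → ℕ} : Exec c σ τ → Exec d τ ρ → Exec (.seq c d) σ ρ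
  | loop_zero {r : ℕ} {c : Cmd} {σ : ℕ → ℕ} : σ r = 0 → Exec (.loop r c) σ σ
  | loop_succ {r : ℕ} {c : Cmd} {σ τ ρ : ℕ → ℕ} {k : ℕ} : σ r = k + 1 →
      Exec c (update σ r k) τ → Exec (.loop r c) τ ρ → Exec (.loop r c) σ ρ

theorem Exec.congr {c : Cmd} {σ σ' τ τ' : ℕ → ℕ} (h : Exec c σ τ) (h1 : σ = σ') (h2 : τ = τ') :
    Exec c σ' τ' := by subst h1; subst h2; exact h

theorem exec_loop (r : ℕ) (c : Cmd) (k : ℕ) (s : ℕ → ℕ → ℕ)
    (h0 : ∀ i < k, Exec c (update (s i) r (k - i - 1)) (s (i + 1)))
    (hr : ∀ i ≤ k, s i r = k - i) : Exec (.loop r c) (s 0) (s k) := by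
  induction k generalizing s with
  | zero => exact Exec.loop_zero (by simpa using hr 0 le_rfl)
  | succ k ih =>
    refine Exec.loop_succ (k := k) (by simpa using hr 0 (Nat.zero_le _))
      ((h0 0 (Nat.succ_pos _)).congr (by simp) rfl) ?_
    refine ih (fun i => s (i + 1)) ?_ ?_
    · intro i hi
      refine (h0 (i + 1) (by omega)).congr ?_ rfl
      congr 1; omega
    · intro i hi
      rw [hr (i + 1) (by omega)]; omega

/-- set a register to zero -/
def clear (r : ℕ) : Cmd := .loop r .nop

theorem exec_clear (r : ℕ) (σ : ℕ → ℕ) : Exec (clear r) σ (update σ r 0) := by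
  have := exec_loop r .nop (σ r) (fun i => update σ r (σ r - i)) (fun i hi => by
    refine (Exec.nop _).congr rfl ?_
    simp only [update_idem]
    congr 1) (fun i hi => by simp)
  simpa [clear] using this

/-- add a register to another one and clear it -/
def move (src dst : ℕ) : Cmd := .loop src (.inc dst)

theorem exec_move {src dst : ℕ} (h : src ≠ dst) (σ : ℕ → ℕ) :
    Exec (move src dst) σ (update (update σ src 0) dst (σ dst + σ src)) := by
  have := exec_loop src (.inc dst) (σ src)
    (fun i => update (update σ src (σ src - i)) dst (σ dst + i)) (fun i hi => by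
    refine (Exec.inc _ _).congr rfl ?_
    funext x
    simp only [update_apply]
    split_ifs <;> omega) (fun i hi => by simp [update_apply, h])
  simpa [move] using this

/-- add a register to another one, keeping the source; `t` is a zero scratch register -/
def copy (src dst t : ℕ) : Cmd :=
  .seq (.loop src (.seq (.inc dst) (.inc t))) (.loop t (.inc src))

theorem exec_copy {src dst t : ℕ} (h1 : src ≠ dst) (h2 : src ≠ t) (h3 : dst ≠ t) (σ : ℕ → ℕ)
    (ht : σ t = 0) : Exec (copy src dst t) σ (update σ dst (σ dst + σ src)) := by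
  refine Exec.seq (τ := update (update (update σ src 0) dst (σ dst + σ src)) t (σ src)) ?_ ?_
  · have := exec_loop src (.seq (.inc dst) (.inc t)) (σ src)
      (fun i => update (update (update σ src (σ src - i)) dst (σ dst + i)) t i) (fun i hi => by
      refine Exec.seq (Exec.inc _ _) ((Exec.inc _ _).congr rfl ?_)
      funext x
      simp only [update_apply]
      split_ifs <;> omega) (fun i hi => by simp [update_apply, h1, h2])
    refine this.congr ?_ (by simp)
    funext x
    simp only [update_apply]
    split_ifs <;> simp_all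
  · have := exec_loop t (.inc src) (σ src)
      (fun i => update (update (update σ src i) dst (σ dst + σ src)) t (σ src - i)) (fun i hi => by
      refine (Exec.inc _ _).congr rfl ?_
      funext x
      simp only [update_apply]
      split_ifs <;> omega) (fun i hi => by simp [update_apply])
    refine this.congr (by simp) ?_
    funext x
    simp only [update_apply]
    split_ifs <;> simp_all

/-- a function is computed by programs with any placement of inputs, output and scratch -/
def Comp {n : ℕ} (f : List.Vector ℕ n → ℕ) : Prop :=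
  ∀ (inp : Fin n → ℕ) (out b : ℕ), (∀ i, inp i < b) → out < b → (∀ i, inp i ≠ out) →
    ∃ c : Cmd, ∀ σ : ℕ → ℕ, (∀ r, b ≤ r → σ r = 0) → σ out = 0 →
      Exec c σ (update σ out (f (List.Vector.ofFn fun i => σ (inp i))))

theorem comp_zero : Comp (n := 0) (fun _ => 0) := by
  intro inp out b _ _ _
  refine ⟨.nop, fun σ _ h0 => (Exec.nop σ).congr rfl ?_⟩
  funext r
  simp only [update_apply]
  split_ifs with h
  · rw [h, h0]
  · rfl

theorem comp_get {n : ℕ} (i : Fin n) : Comp (fun v : List.Vector ℕ n => v.get i) := by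
  intro inp out b hi ho hio
  refine ⟨copy (inp i) out b, fun σ hz h0 => ?_⟩
  refine (exec_copy (hio i) (hi i).ne ho.ne σ (hz b le_rfl)).congr rfl ?_
  rw [h0, zero_add]
  simp

theorem comp_succ : Comp (n := 1) (fun v => v.head.succ) := by
  intro inp out b hi ho hio
  refine ⟨.seq (copy (inp 0) out b) (.inc out), fun σ hz h0 => ?_⟩
  refine Exec.seq (exec_copy (hio 0) (hi 0).ne ho.ne σ (hz b le_rfl))
    ((Exec.inc _ _).congr rfl ?_)
  rw [h0]
  simp

/-- clear the registers `b, …, b + k - 1` -/
def clears (b : ℕ) : ℕ → Cmd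
  | 0 => .nop
  | k + 1 => .seq (clears b k) (clear (b + k))

theorem exec_clears (b k : ℕ) (σ : ℕ → ℕ) :
    Exec (clears b k) σ (fun r => if b ≤ r ∧ r < b + k then 0 else σ r) := by
  induction k with
  | zero =>
    refine (Exec.nop σ).congr rfl ?_
    funext r
    rw [if_neg (by omega)]
  | succ k ih =>
    refine Exec.seq ih ((exec_clear _ _).congr rfl ?_)
    funext r
    simp only [update_apply]
    split_ifs <;> omega

theorem comp_comp {m n : ℕ} {f : List.Vector ℕ n → ℕ} (g : Fin n → List.Vector ℕ m → ℕ)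
    (hf : Comp f) (hg : ∀ i, Comp (g i)) : Comp (fun a => f (List.Vector.ofFn fun i => g i a)) := by
  intro inp out b hi ho hio
  let gv : (ℕ → ℕ) → ℕ → ℕ := fun σ j =>
    if h : j < n then g ⟨j, h⟩ (List.Vector.ofFn fun i => σ (inp i)) else 0
  have key : ∀ k ≤ n, ∃ c : Cmd, ∀ σ : ℕ → ℕ, (∀ r, b ≤ r → σ r = 0) →
      Exec c σ (fun r => if b ≤ r ∧ r < b + k then gv σ (r - b) else σ r) := by
    intro k
    induction k with
    | zero =>
      intro _
      refine ⟨.nop, fun σ _ => (Exec.nop σ).congr rfl ?_⟩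
      funext r
      rw [if_neg (by omega)]
    | succ k ih =>
      intro hk
      obtain ⟨c, hc⟩ := ih (by omega)
      obtain ⟨d, hd⟩ := hg ⟨k, hk⟩ inp (b + k) (b + k + 1)
        (fun i => by have := hi i; omega) (by omega) (fun i => by have := hi i; omega)
      refine ⟨.seq c d, fun σ hz => Exec.seq (hc σ hz) ?_⟩
      refine (hd _ ?_ ?_).congr rfl ?_
      · intro r hr
        rw [if_neg (by omega)]; exact hz r (by omega)
      · rw [if_neg (by omega)]; exact hz _ (by omega)
      · funext r
        have e1 : (List.Vector.ofFn fun i => (fun r => if b ≤ r ∧ r < b + k then gv σ (r - b)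
            else σ r) (inp i)) = List.Vector.ofFn fun i => σ (inp i) := by
          congr 1
          funext i
          have := hi i
          simp only []
          rw [if_neg (by omega)]
        rw [e1]
        simp only [update_apply]
        by_cases hr : r = b + k
        · subst hr
          rw [if_pos rfl, if_pos (by omega)]
          simp only [gv]
          have : b + k - b = k := by omega
          rw [dif_pos (by omega)]
          simp only [this]
        · rw [if_neg hr]
          by_cases h2 : b ≤ r ∧ r < b + k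
          · rw [if_pos h2, if_pos (by omega)]
          · rw [if_neg h2, if_neg (by omega)]
  obtain ⟨c, hc⟩ := key n le_rfl
  obtain ⟨d, hd⟩ := hf (fun i => b + i) out (b + n) (fun i => by omega) (by omega)
    (fun i => by omega)
  refine ⟨.seq c (.seq d (clears b n)), fun σ hz h0 => ?_⟩
  refine Exec.seq (hc σ hz) (Exec.seq (hd _ ?_ ?_) ((exec_clears _ _ _).congr rfl ?_))
  · intro r hr
    rw [if_neg (by omega)]; exact hz r (by omega)
  · rw [if_neg (by omega)]; exact h0
  · funext r
    have e1 : (List.Vector.ofFn fun i : Fin n => (fun r => if b ≤ r ∧ r < b + n then gv σ (r - b)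
            else σ r) (b + i)) = List.Vector.ofFn fun i => g i
              (List.Vector.ofFn fun i => σ (inp i)) := by
      congr 1
      funext i
      simp only []
      rw [if_pos (by omega)]
      simp only [gv]
      have : b + (i : ℕ) - b = i := by omega
      rw [dif_pos (by omega)]
      simp only [this]
    rw [e1]
    simp only [update_apply]
    by_cases h1 : b ≤ r ∧ r < b + n
    · rw [if_pos h1, if_neg (by omega), hz r h1.1]
    · rw [if_neg h1]
      by_cases h2 : r = out
      · rw [if_pos h2, if_pos h2]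
      · rw [if_neg h2, if_neg h2, if_neg h1]

/-- a state with four distinguished registers -/
def st (σ : ℕ → ℕ) (b y h t c : ℕ) : ℕ → ℕ := fun r =>
  if r = b then y else if r = b + 1 then h else if r = b + 2 then t else if r = b + 3 then c
    else σ r

theorem st_0 (σ : ℕ → ℕ) (b y h t c : ℕ) : st σ b y h t c b = y := by simp [st]
theorem st_1 (σ : ℕ → ℕ) (b y h t c : ℕ) : st σ b y h t c (b + 1) = h := by simp [st]
theorem st_2 (σ : ℕ → ℕ) (b y h t c : ℕ) : st σ b y h t c (b + 2) = t := by simp [st]
theorem st_3 (σ : ℕ → ℕ) (b y h t c : ℕ) : st σ b y h t c (b + 3) = c := by simp [st]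

theorem st_ne (σ : ℕ → ℕ) (b y h t c r : ℕ) (hr : r < b ∨ b + 4 ≤ r) :
    st σ b y h t c r = σ r := by
  unfold st
  rw [if_neg (by omega), if_neg (by omega), if_neg (by omega), if_neg (by omega)]

theorem up_0 (σ : ℕ → ℕ) (b y h t c y' : ℕ) :
    update (st σ b y h t c) b y' = st σ b y' h t c := by
  funext r
  simp only [update_apply, st]
  split_ifs <;> rfl

theorem up_1 (σ : ℕ → ℕ) (b y h t c y' : ℕ) :
    update (st σ b y h t c) (b + 1) y' = st σ b y y' t c := by
  funext r
  simp only [update_apply, st]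
  split_ifs <;> omega

theorem up_2 (σ : ℕ → ℕ) (b y h t c y' : ℕ) :
    update (st σ b y h t c) (b + 2) y' = st σ b y h y' c := by
  funext r
  simp only [update_apply, st]
  split_ifs <;> omega

theorem up_3 (σ : ℕ → ℕ) (b y h t c y' : ℕ) :
    update (st σ b y h t c) (b + 3) y' = st σ b y h t y' := by
  funext r
  simp only [update_apply, st]
  split_ifs <;> omega

theorem st_self (σ : ℕ → ℕ) (b : ℕ) (hz : ∀ r, b ≤ r → σ r = 0) : st σ b 0 0 0 0 = σ := by
  funext r
  unfold st
  split_ifs with h1 h2 h3 h4
  · exact (hz r (by omega)).symm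
  · exact (hz r (by omega)).symm
  · exact (hz r (by omega)).symm
  · exact (hz r (by omega)).symm
  · rfl

theorem comp_prec {n : ℕ} {f : List.Vector ℕ n → ℕ} {g : List.Vector ℕ (n + 2) → ℕ}
    (hf : Comp f) (hg : Comp g) :
    Comp (fun v : List.Vector ℕ (n + 1) =>
      v.head.rec (f v.tail) fun y IH => g (y ::ᵥ IH ::ᵥ v.tail)) := by
  intro inp out b hi ho hio
  obtain ⟨cf, hcf⟩ := hf (fun i => inp i.succ) (b + 1) (b + 4)
    (fun i => by have := hi i.succ; omega) (by omega) (fun i => by have := hi i.succ; omega)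
  let gi : Fin (n + 2) → ℕ := Fin.cons b (Fin.cons (b + 1) (fun i : Fin n => inp i.succ))
  have hgi : ∀ i, gi i < b + 2 := by
    intro i
    refine Fin.cases ?_ (fun i => ?_) i
    · simp [gi]
    · refine Fin.cases ?_ (fun i => ?_) i
      · simp [gi]
      · have := hi i.succ
        simp only [gi, Fin.cons_succ]; omega
  obtain ⟨cg, hcg⟩ := hg gi (b + 2) (b + 4)
    (fun i => by have := hgi i; omega) (by omega)
    (fun i => by have := hgi i; omega)
  refine ⟨.seq (copy (inp 0) (b + 3) (b + 2)) (.seq cf (.seq (.loop (b + 3)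
    (.seq cg (.seq (clear (b + 1)) (.seq (move (b + 2) (b + 1)) (.inc b)))))
    (.seq (clear b) (move (b + 1) out)))), fun σ hz h0 => ?_⟩
  have hi0 := hi 0
  set m := σ (inp 0) with hm
  set xs := List.Vector.ofFn (fun i : Fin n => σ (inp i.succ)) with hxs
  have hv : (List.Vector.ofFn fun i => σ (inp i)) = m ::ᵥ xs := rfl
  rw [hv]
  simp only [List.Vector.head_cons, List.Vector.tail_cons]
  let R : ℕ → ℕ := fun i => Nat.rec (f xs) (fun y IH => g (y ::ᵥ IH ::ᵥ xs)) i
  have hR0 : f xs = R 0 := rfl
  have hRs : ∀ i, g (i ::ᵥ R i ::ᵥ xs) = R (i + 1) := fun i => rfl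
  have hRm : Nat.rec (f xs) (fun y IH => g (y ::ᵥ IH ::ᵥ xs)) m = R m := rfl
  rw [hRm]
  clear_value m R
  have hb2 := hz (b + 2) (by omega)
  have hin : ∀ (y h t c : ℕ) (i : Fin n), st σ b y h t c (inp i.succ) = σ (inp i.succ) := by
    intro y h t c i
    exact st_ne _ _ _ _ _ _ _ (Or.inl (hi i.succ))
  have hzz : ∀ (y h t c : ℕ) (r : ℕ), b + 4 ≤ r → st σ b y h t c r = 0 := by
    intro y h t c r hr
    rw [st_ne _ _ _ _ _ _ _ (Or.inr hr)]
    exact hz r (by omega)
  refine Exec.seq (τ := st σ b 0 0 0 m) ?_ (Exec.seq (τ := st σ b 0 (R 0) 0 m) ?_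
    (Exec.seq (τ := st σ b m (R m) 0 0) ?_ (Exec.seq (τ := st σ b 0 (R m) 0 0) ?_ ?_)))
  · refine (exec_copy (by omega) (by omega) (by omega) σ hb2).congr rfl ?_
    rw [← up_3 σ b 0 0 0 0, st_self σ b hz, hz (b + 3) (by omega), zero_add, hm]
  · refine (hcf (st σ b 0 0 0 m) (hzz _ _ _ _) (st_1 _ _ _ _ _ _)).congr rfl ?_
    simp only [hin]
    rw [← hxs, hR0, up_1]
  · refine (exec_loop (b + 3) _ m (fun i => st σ b i (R i) 0 (m - i)) ?_ ?_).congr (by simp)
      (by simp)
    · intro i him
      simp only [up_3]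
      refine Exec.seq (τ := st σ b i (R i) (R (i + 1)) (m - i - 1)) ?_
        (Exec.seq (τ := st σ b i 0 (R (i + 1)) (m - i - 1)) ?_
          (Exec.seq (τ := st σ b i (R (i + 1)) 0 (m - i - 1)) ?_ ?_))
      · refine (hcg (st σ b i (R i) 0 (m - i - 1)) (hzz _ _ _ _) (st_2 _ _ _ _ _ _)).congr rfl ?_
        have e2 : (List.Vector.ofFn fun j : Fin (n + 2) =>
            st σ b i (R i) 0 (m - i - 1) (gi j))
              = st σ b i (R i) 0 (m - i - 1) b ::ᵥ st σ b i (R i) 0 (m - i - 1) (b + 1) ::ᵥ
              List.Vector.ofFn fun j : Fin n => st σ b i (R i) 0 (m - i - 1) (inp j.succ) :=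
          rfl
        rw [e2, st_0, st_1]
        simp only [hin]
        rw [← hxs, hRs, up_2]
      · refine (exec_clear _ _).congr rfl ?_
        rw [up_1]
      · refine (exec_move (by omega) _).congr rfl ?_
        rw [up_2, up_1, st_1, st_2, zero_add]
      · refine (Exec.inc _ _).congr rfl ?_
        rw [up_0, st_0]
        congr 1
    · intro i him
      exact st_3 _ _ _ _ _ _
  · refine (exec_clear _ _).congr rfl ?_
    rw [up_0]
  · refine (exec_move (by omega) _).congr rfl ?_
    rw [up_1, st_self σ b hz, st_1, st_ne _ _ _ _ _ _ _ (Or.inl ho), h0, zero_add]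

theorem comp_of_primrec {n : ℕ} {f : List.Vector ℕ n → ℕ} (h : Nat.Primrec' f) : Comp f := by
  induction h with
  | zero => exact comp_zero
  | succ => exact comp_succ
  | get i => exact comp_get i
  | comp g _ _ ihf ihg => exact comp_comp g ihf ihg
  | prec _ _ ihf ihg => exact comp_prec ihf ihg

end Pool.Agent.Helper707.Prog
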