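import Mathlib
import Pool.Agent.Helper707.Prog

/-!
Flat counter programs, and the search program.
-/

namespace Pool.Agent.Helper707.Flat

open Function Pool.Agent.Helper707.Prog

/-- flat instructions with explicit targets -/
inductive Ins
  | inc (r t : ℕ)
  | dec (r t t' : ℕ)
  | jmp (t : ℕ)

/-- one step of a flat program -/
def step (P : List Ins) (x : ℕ × (ℕ → ℕ)) : ℕ × (ℕ → ℕ) :=
  match P[x.1]? with
  | some (.inc r t) => (t, update x.2 r (x.2 r + 1))
  | some (.dec r t t') => if x.2 r = 0 then (t', x.2) else (t, update x.2 r (x.2 r - 1))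
  | some (.jmp t) => (t, x.2)
  | none => x

/-- length of the code -/
def len : Cmd → ℕ
  | .nop => 0
  | .inc _ => 1
  | .seq c d => len c + len d
  | .loop _ c => len c + 2

/-- code placed at an offset -/
def code : Cmd → ℕ → List Ins
  | .nop, _ => []
  | .inc r, o => [.inc r (o + 1)]
  | .seq c d, o => code c o ++ code d (o + len c)
  | .loop r c, o => .dec r (o + 1) (o + (len c + 2)) :: (code c (o + 1) ++ [.jmp o])

theorem length_code (c : Cmd) (o : ℕ) : (code c o).length = len c := by
  induction c generalizing o with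
  | nop => rfl
  | inc r => rfl
  | seq c d ihc ihd => simp [code, len, ihc, ihd]
  | loop r c ih => simp [code, len, ih]

/-- a piece of code sits at an offset of a program -/
def IsAt (P : List Ins) (o : ℕ) (l : List Ins) : Prop :=
  ∃ pre post, P = pre ++ (l ++ post) ∧ pre.length = o

theorem IsAt.left {P : List Ins} {o : ℕ} {l m : List Ins} (h : IsAt P o (l ++ m)) : IsAt P o l := by
  obtain ⟨pre, post, h1, h2⟩ := h
  exact ⟨pre, m ++ post, by rw [h1, List.append_assoc], h2⟩

theorem IsAt.right {P : List Ins} {o : ℕ} {l m : List Ins} (h : IsAt P o (l ++ m)) :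
    IsAt P (o + l.length) m := by
  obtain ⟨pre, post, h1, h2⟩ := h
  exact ⟨pre ++ l, post, by rw [h1, List.append_assoc, List.append_assoc],
    by rw [List.length_append, h2]⟩

theorem IsAt.get {P : List Ins} {o : ℕ} {i : Ins} {l : List Ins} (h : IsAt P o (i :: l)) :
    P[o]? = some i := by
  obtain ⟨pre, post, h1, h2⟩ := h
  rw [h1, ← h2]
  simp

theorem sim {c : Cmd} {σ τ : ℕ → ℕ} (h : Exec c σ τ) (P : List Ins) (o : ℕ)
    (hP : IsAt P o (code c o)) : ∃ k, (step P)^[k] (o, σ) = (o + len c, τ) := by
  induction h generalizing o with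
  | nop σ => exact ⟨0, rfl⟩
  | inc r σ =>
    refine ⟨1, ?_⟩
    have := hP.get
    simp only [iterate_one, step, this, len]
  | @seq c d σ τ ρ _ _ ihc ihd =>
    have h1 : IsAt P o (code c o) := hP.left
    have h2 : IsAt P (o + len c) (code d (o + len c)) := by
      have := hP.right
      rwa [length_code] at this
    obtain ⟨k1, e1⟩ := ihc o h1
    obtain ⟨k2, e2⟩ := ihd (o + len c) h2
    refine ⟨k2 + k1, ?_⟩
    rw [iterate_add_apply, e1, e2]
    simp only [len, add_assoc]
  | @loop_zero r c σ h0 =>
    refine ⟨1, ?_⟩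
    have := hP.get
    simp only [iterate_one, step, this, h0, len, if_true]
  | @loop_succ r c σ τ ρ k h0 _ _ ih1 ih2 =>
    have g0 := hP.get
    have h1 : IsAt P (o + 1) (code c (o + 1) ++ [.jmp o]) := IsAt.right (l := [_]) hP
    obtain ⟨k1, e1⟩ := ih1 (o + 1) h1.left
    have g1 : P[o + 1 + len c]? = some (.jmp o) := by
      have := h1.right
      rw [length_code] at this
      exact this.get
    obtain ⟨k2, e2⟩ := ih2 o hP
    refine ⟨k2 + (1 + (k1 + 1)), ?_⟩
    have s1 : step P (o, σ) = (o + 1, update σ r k) := by
      simp only [step, g0, h0]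
      simp
    have s2 : step P (o + 1 + len c, τ) = (o, τ) := by
      simp only [step, g1]
    rw [iterate_add_apply, iterate_add_apply, iterate_add_apply, iterate_one, s1, e1, s2, e2]

/-- the states of the search program -/
def sx (x k g : ℕ) : ℕ → ℕ := fun r => if r = 0 then x else if r = 1 then k else if r = 3 then g
  else 0

theorem up_g (x k g g' : ℕ) : update (sx x k g) 3 g' = sx x k g' := by
  funext r
  simp only [update_apply, sx]
  split_ifs <;> omega

theorem up_k (x k g k' : ℕ) : update (sx x k g) 1 k' = sx x k' g := by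
  funext r
  simp only [update_apply, sx]
  split_ifs <;> omega

/-- the search for a zero of `f (k, x)` -/
theorem search {f : List.Vector ℕ 2 → ℕ} (hf : Nat.Primrec' f) :
    ∃ body : Cmd, ∀ x k : ℕ, Exec body (sx x k 0)
      (sx x (k + 1) (if f (k ::ᵥ x ::ᵥ List.Vector.nil) = 0 then 0 else 1)) := by
  obtain ⟨c, hc⟩ := comp_of_primrec hf ![1, 0] 2 4 (by intro i; fin_cases i <;> simp) (by omega)
    (by intro i; fin_cases i <;> simp)
  refine ⟨.seq c (.seq (.loop 2 (.seq (clear 3) (.inc 3))) (.inc 1)), fun x k => ?_⟩
  have h1 := hc (sx x k 0) (fun r hr => by simp only [sx]; split_ifs <;> omega) (by simp [sx])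
  have e1 : (List.Vector.ofFn fun i : Fin 2 => sx x k 0 (![1, 0] i))
      = k ::ᵥ x ::ᵥ List.Vector.nil := rfl
  rw [e1] at h1
  set v := f (k ::ᵥ x ::ᵥ List.Vector.nil) with hv
  refine Exec.seq h1 (Exec.seq (τ := sx x k (if v = 0 then 0 else 1)) ?_
    ((Exec.inc _ _).congr rfl ?_))
  · have := exec_loop 2 (.seq (clear 3) (.inc 3)) v
      (fun i => update (sx x k (if i = 0 then 0 else 1)) 2 (v - i)) (fun i hi => by
        refine Exec.seq (exec_clear _ _) ((Exec.inc _ _).congr rfl ?_)
        funext r
        simp only [update_apply, sx]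
        split_ifs <;> omega) (fun i hi => by simp)
    refine this.congr (by simp) ?_
    funext r
    simp only [update_apply, sx]
    split_ifs <;> omega
  · rw [up_k]
    rfl

/-- the whole program -/
def prog (body : Cmd) : Cmd := .seq (.inc 3) (.loop 3 body)

theorem halting_iff {f : List.Vector ℕ 2 → ℕ} {body : Cmd}
    (hb : ∀ x k : ℕ, Exec body (sx x k 0)
      (sx x (k + 1) (if f (k ::ᵥ x ::ᵥ List.Vector.nil) = 0 then 0 else 1))) (x : ℕ) :
    (∃ k, f (k ::ᵥ x ::ᵥ List.Vector.nil) = 0) ↔
      ∃ T, ((step (code (prog body) 0))^[T] (0, sx x 0 0)).1 = len (prog body) := by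
  set P := code (prog body) 0 with hP
  have hat : IsAt P 0 (code (prog body) 0) := ⟨[], [], by simp [hP], rfl⟩
  constructor
  · rintro ⟨k, hk⟩
    have key : ∀ j i : ℕ, f ((i + j) ::ᵥ x ::ᵥ List.Vector.nil) = 0 →
        ∃ τ, Exec (.loop 3 body) (sx x i 1) τ := by
      intro j
      induction j with
      | zero =>
        intro i hi
        rw [add_zero] at hi
        have h1 := hb x i
        rw [if_pos hi] at h1
        refine ⟨sx x (i + 1) 0, Exec.loop_succ (k := 0) (by simp [sx]) ?_
          (Exec.loop_zero (by simp [sx]))⟩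
        rw [up_g]; exact h1
      | succ j ih =>
        intro i hi
        have h1 := hb x i
        by_cases h0 : f (i ::ᵥ x ::ᵥ List.Vector.nil) = 0
        · rw [if_pos h0] at h1
          refine ⟨sx x (i + 1) 0, Exec.loop_succ (k := 0) (by simp [sx]) ?_
            (Exec.loop_zero (by simp [sx]))⟩
          rw [up_g]; exact h1
        · rw [if_neg h0] at h1
          obtain ⟨τ, hτ⟩ := ih (i + 1) (by
            rw [show i + (j + 1) = i + 1 + j by omega] at hi; exact hi)
          refine ⟨τ, Exec.loop_succ (k := 0) (by simp [sx]) ?_ hτ⟩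
          rw [up_g]; exact h1
    obtain ⟨τ, hτ⟩ := key k 0 (by simpa using hk)
    have h2 : Exec (prog body) (sx x 0 0) τ := by
      refine Exec.seq (Exec.inc _ _) ?_
      rw [up_g]
      exact hτ
    obtain ⟨T, hT⟩ := sim h2 P 0 hat
    exact ⟨T, by rw [hT]; simp⟩
  · rintro ⟨T, hT⟩
    by_contra hcon
    push Not at hcon
    -- the loop head is visited for ever
    have h1 : IsAt P 1 (code (.loop 3 body) 1) := by
      have := hat
      unfold prog at this
      exact IsAt.right (l := code (.inc 3) 0) this
    have g0 : P[1]? = some (.dec 3 (1 + 1) (1 + (len body + 2))) := h1.get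
    have h2 : IsAt P (1 + 1) (code body (1 + 1) ++ [.jmp 1]) := IsAt.right (l := [_]) h1
    have g1 : P[1 + 1 + len body]? = some (.jmp 1) := by
      have := h2.right
      rw [length_code] at this
      exact this.get
    have hhead : ∀ k, ∃ t, k ≤ t ∧ (step P)^[t] (0, sx x 0 0) = (1, sx x k 1) := by
      intro k
      induction k with
      | zero =>
        refine ⟨1, Nat.zero_le _, ?_⟩
        have g : P[0]? = some (.inc 3 1) := by
          have := hat.left
          exact this.get
        simp only [iterate_one, step, g]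
        rw [up_g]
        rfl
      | succ k ih =>
        obtain ⟨t, ht, e⟩ := ih
        have hbk := hb x k
        rw [if_neg (hcon k)] at hbk
        obtain ⟨j, hj⟩ := sim hbk P (1 + 1) h2.left
        refine ⟨1 + (j + (1 + t)), by omega, ?_⟩
        have s1 : step P (1, sx x k 1) = (1 + 1, sx x k 0) := by
          simp only [step, g0]
          rw [if_neg (by simp [sx]), show sx x k 1 3 - 1 = 0 by simp [sx], up_g]
        have s2 : step P (1 + 1 + len body, sx x (k + 1) 1) = (1, sx x (k + 1) 1) := by
          simp only [step, g1]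
        rw [iterate_add_apply, iterate_add_apply, iterate_add_apply, e, iterate_one, s1, hj, s2]
    have hfix : ∀ σ, step P (len (prog body), σ) = (len (prog body), σ) := by
      intro σ
      have : P[len (prog body)]? = none := by
        rw [List.getElem?_eq_none_iff, hP, length_code]
      simp only [step, this]
    obtain ⟨t, ht, e⟩ := hhead T
    obtain ⟨d, rfl⟩ : ∃ d, t = d + T := ⟨t - T, by omega⟩
    rw [iterate_add_apply] at e
    set y := (step P)^[T] (0, sx x 0 0) with hy
    have h3 : (step P)^[d] y = y := by
      have : step P y = y := by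
        have := hfix y.2
        rw [← hT] at this
        exact this
      exact iterate_fixed this d
    rw [h3] at e
    rw [e] at hT
    simp only [prog, len] at hT
    omega

end Pool.Agent.Helper707.Flat
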