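import Mathlib
import Pool.Agent.Helper707.Flat
import Pool.Agent.Helper707.Rel

/-!
A generalised Collatz map with undecidable halting problem.
-/

namespace Pool.Agent.Helper707.Num

open Function Finset Pool.Agent.Helper707.Prog Pool.Agent.Helper707.Flat Pool.Agent.Helper707.Rel

/-- the primes -/
noncomputable def pr (i : ℕ) : ℕ := Nat.nth Nat.Prime i

theorem pr_prime (i : ℕ) : (pr i).Prime := Nat.prime_nth_prime i

theorem pr_inj {i j : ℕ} (h : pr i = pr j) : i = j :=
  Nat.nth_injective Nat.infinite_setOfPred_prime h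

/-- states as numbers -/
noncomputable def enc (K : ℕ) (σ : ℕ → ℕ) : ℕ := ∏ i ∈ range K, pr i ^ σ i

theorem enc_pos (K : ℕ) (σ : ℕ → ℕ) : 0 < enc K σ :=
  Finset.prod_pos fun i _ => pow_pos (pr_prime i).pos _

theorem enc_inc {K r : ℕ} (hr : r < K) (σ : ℕ → ℕ) :
    enc K (update σ r (σ r + 1)) = enc K σ * pr r := by
  unfold enc
  rw [← Finset.mul_prod_erase _ _ (Finset.mem_range.2 hr),
    ← Finset.mul_prod_erase (range K) (fun i => pr i ^ σ i) (Finset.mem_range.2 hr)]
  have : ∏ x ∈ (range K).erase r, pr x ^ update σ r (σ r + 1) x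
      = ∏ x ∈ (range K).erase r, pr x ^ σ x := by
    refine Finset.prod_congr rfl fun i hi => ?_
    rw [update_of_ne (Finset.ne_of_mem_erase hi)]
  rw [this, update_self, pow_succ]
  ring

theorem enc_dec {K r : ℕ} (hr : r < K) (σ : ℕ → ℕ) (h : σ r ≠ 0) :
    enc K σ = enc K (update σ r (σ r - 1)) * pr r := by
  have h1 := enc_inc hr (update σ r (σ r - 1))
  have h2 : update (update σ r (σ r - 1)) r (update σ r (σ r - 1) r + 1) = σ := by
    rw [update_self, update_idem, Nat.sub_add_cancel (Nat.one_le_iff_ne_zero.2 h), update_eq_self]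
  rw [h2] at h1
  exact h1

theorem dvd_enc {K r : ℕ} (hr : r < K) (σ : ℕ → ℕ) : pr r ∣ enc K σ ↔ σ r ≠ 0 := by
  constructor
  · intro h h0
    unfold enc at h
    obtain ⟨i, hi, h2⟩ := (Prime.dvd_finsetProd_iff (pr_prime r).prime _).1 h
    have h3 := (pr_prime r).dvd_of_dvd_pow h2
    rw [Nat.prime_dvd_prime_iff_eq (pr_prime r) (pr_prime i)] at h3
    have h4 := pr_inj h3
    subst h4
    rw [h0, pow_zero] at h2
    exact (pr_prime r).one_lt.ne' (Nat.dvd_one.1 h2)
  · intro h
    rw [enc_dec hr σ h]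
    exact dvd_mul_left _ _

/-- instructions with bounded registers and targets -/
def Ok (K L : ℕ) : Ins → Prop
  | .inc r t => r < K ∧ t ≤ L
  | .dec r t t' => r < K ∧ t ≤ L ∧ t' ≤ L
  | .jmp t => t ≤ L

theorem Ok.mono {K K' L L' : ℕ} (hK : K ≤ K') (hL : L ≤ L') {i : Ins} (h : Ok K L i) :
    Ok K' L' i := by
  cases i with
  | inc r t => exact ⟨lt_of_lt_of_le h.1 hK, le_trans h.2 hL⟩
  | dec r t t' => exact ⟨lt_of_lt_of_le h.1 hK, le_trans h.2.1 hL, le_trans h.2.2 hL⟩
  | jmp t => exact le_trans (show t ≤ L from h) hL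

theorem code_ok (c : Cmd) : ∃ K, ∀ o, ∀ i ∈ code c o, Ok K (o + len c) i := by
  induction c with
  | nop => exact ⟨0, fun o i hi => by simp [code] at hi⟩
  | inc r =>
    refine ⟨r + 1, fun o i hi => ?_⟩
    simp only [code, List.mem_singleton] at hi
    subst hi
    exact ⟨by omega, le_rfl⟩
  | seq c d ihc ihd =>
    obtain ⟨K1, h1⟩ := ihc
    obtain ⟨K2, h2⟩ := ihd
    refine ⟨max K1 K2, fun o i hi => ?_⟩
    simp only [code, List.mem_append] at hi
    rcases hi with hi | hi
    · exact (h1 o i hi).mono (le_max_left _ _) (by simp only [len]; omega)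
    · exact (h2 _ i hi).mono (le_max_right _ _) (by simp only [len]; omega)
  | loop r c ih =>
    obtain ⟨K1, h1⟩ := ih
    refine ⟨max K1 (r + 1), fun o i hi => ?_⟩
    simp only [code, List.mem_cons, List.mem_append, List.not_mem_nil, or_false] at hi
    rcases hi with rfl | hi | rfl
    · exact ⟨by omega, by simp only [len]; omega, by simp only [len]; omega⟩
    · exact (h1 _ i hi).mono (le_max_left _ _) (by simp only [len]; omega)
    · show o ≤ _
      omega

/-- the step on numbers -/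
noncomputable def nx (P : List Ins) (S : ℕ) (N : ℕ) : ℕ :=
  match P[N % S]? with
  | some (.inc r t) => S * (N / S * pr r) + t
  | some (.dec r t t') => if pr r ∣ N / S then S * (N / S / pr r) + t else S * (N / S) + t'
  | some (.jmp t) => S * (N / S) + t
  | none => N

/-- configurations as numbers -/
noncomputable def cf (K S : ℕ) (x : ℕ × (ℕ → ℕ)) : ℕ := S * enc K x.2 + x.1

theorem nx_cf {P : List Ins} {K L : ℕ} (hP : ∀ i ∈ P, Ok K L i) (x : ℕ × (ℕ → ℕ))
    (hx : x.1 ≤ L) : nx P (L + 1) (cf K (L + 1) x) = cf K (L + 1) (step P x) ∧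
      (step P x).1 ≤ L := by
  obtain ⟨pc, σ⟩ := x
  simp only at hx
  have h1 : cf K (L + 1) (pc, σ) % (L + 1) = pc := by
    unfold cf
    rw [Nat.mul_add_mod, Nat.mod_eq_of_lt (by simp only []; omega)]
  have h2 : cf K (L + 1) (pc, σ) / (L + 1) = enc K σ := by
    unfold cf
    rw [Nat.mul_add_div (by omega), Nat.div_eq_of_lt (by simp only []; omega), add_zero]
  unfold nx step
  rw [h1, h2]
  simp only []
  cases hi : P[pc]? with
  | none => exact ⟨rfl, hx⟩
  | some i =>
    have hmem : i ∈ P := List.mem_of_getElem? hi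
    have hok := hP i hmem
    cases i with
    | inc r t =>
      refine ⟨?_, hok.2⟩
      simp only [cf]
      rw [enc_inc hok.1]
    | dec r t t' =>
      simp only []
      by_cases h0 : σ r = 0
      · rw [if_neg (by rw [dvd_enc hok.1]; simpa using h0), if_pos h0]
        exact ⟨rfl, hok.2.2⟩
      · rw [if_pos (by rw [dvd_enc hok.1]; exact h0), if_neg h0]
        refine ⟨?_, hok.2.1⟩
        simp only [cf]
        rw [enc_dec hok.1 σ h0, Nat.mul_div_cancel _ (pr_prime r).pos]
    | jmp t => exact ⟨rfl, hok⟩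

theorem nx_cf_iter {P : List Ins} {K L : ℕ} (hP : ∀ i ∈ P, Ok K L i) (x : ℕ × (ℕ → ℕ))
    (hx : x.1 ≤ L) (T : ℕ) : (nx P (L + 1))^[T] (cf K (L + 1) x) = cf K (L + 1) ((step P)^[T] x) ∧
      ((step P)^[T] x).1 ≤ L := by
  induction T with
  | zero => exact ⟨rfl, hx⟩
  | succ T ih =>
    rw [iterate_succ_apply', iterate_succ_apply', ih.1]
    exact nx_cf hP _ ih.2

/-- the step on numbers is affine on each residue class -/
theorem nx_affine {P : List Ins} {K L : ℕ} (hP : ∀ i ∈ P, Ok K L i) (ρ : ℕ) :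
    ∃ a e : ℕ, ∀ k, nx P (L + 1) ((L + 1) * (∏ i ∈ range K, pr i) * k + ρ) = a * k + e := by
  set Q := ∏ i ∈ range K, pr i with hQ
  have h1 : ∀ k, ((L + 1) * Q * k + ρ) % (L + 1) = ρ % (L + 1) := by
    intro k
    rw [mul_assoc, Nat.mul_add_mod]
  have h2 : ∀ k, ((L + 1) * Q * k + ρ) / (L + 1) = Q * k + ρ / (L + 1) := by
    intro k
    rw [mul_assoc, Nat.mul_add_div (by omega)]
  unfold nx
  simp only [h1, h2]
  cases hi : P[ρ % (L + 1)]? with
  | none => exact ⟨(L + 1) * Q, ρ, fun k => rfl⟩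
  | some i =>
    have hmem : i ∈ P := List.mem_of_getElem? hi
    have hok := hP i hmem
    cases i with
    | inc r t =>
      refine ⟨(L + 1) * Q * pr r, (L + 1) * (ρ / (L + 1) * pr r) + t, fun k => ?_⟩
      simp only []
      ring
    | dec r t t' =>
      obtain ⟨Q', hQ'⟩ : pr r ∣ Q := Finset.dvd_prod_of_mem _ (Finset.mem_range.2 hok.1)
      have h3 : ∀ k, pr r ∣ Q * k + ρ / (L + 1) ↔ pr r ∣ ρ / (L + 1) := by
        intro k
        rw [hQ', mul_assoc]
        exact (Nat.dvd_add_right (dvd_mul_right _ _))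
      simp only [h3]
      by_cases h0 : pr r ∣ ρ / (L + 1)
      · refine ⟨(L + 1) * Q', (L + 1) * (ρ / (L + 1) / pr r) + t, fun k => ?_⟩
        rw [if_pos h0]
        obtain ⟨w, hw⟩ := h0
        rw [hw, hQ', mul_assoc, ← mul_add, Nat.mul_div_cancel_left _ (pr_prime r).pos,
          Nat.mul_div_cancel_left _ (pr_prime r).pos]
        ring
      · refine ⟨(L + 1) * Q, (L + 1) * (ρ / (L + 1)) + t', fun k => ?_⟩
        rw [if_neg h0]
        ring
    | jmp t =>
      refine ⟨(L + 1) * Q, (L + 1) * (ρ / (L + 1)) + t, fun k => ?_⟩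
      simp only []
      ring

/-- halting of a system given by iteration -/
theorem halts_iff_iter (Y : Sys) (N : ℕ) :
    Y.Halts N ↔ ∃ T, Y.H (((Y.next)^[T] N) % Y.m) = true := by
  constructor
  · intro h
    induction h with
    | halt N h => exact ⟨0, h⟩
    | step N _ _ ih =>
      obtain ⟨T, hT⟩ := ih
      exact ⟨T + 1, by rw [iterate_succ_apply]; exact hT⟩
  · rintro ⟨T, hT⟩
    induction T generalizing N with
    | zero => exact Sys.Halts.halt N hT
    | succ T ih =>
      by_cases h : Y.H (N % Y.m) = true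
      · exact Sys.Halts.halt N h
      · refine Sys.Halts.step N (by simpa using h) (ih _ ?_)
        rw [iterate_succ_apply] at hT
        exact hT

/-- the zeros of a primitive recursive search are reduced to halting of a system -/
theorem exists_sys {f : List.Vector ℕ 2 → ℕ} (hf : Nat.Primrec' f) :
    ∃ (Y : Sys) (S p : ℕ), 0 < Y.m ∧
      ∀ x, Y.Halts (S * p ^ x) ↔ ∃ k, f (k ::ᵥ x ::ᵥ List.Vector.nil) = 0 := by
  obtain ⟨body, hb⟩ := search hf
  set P := code (prog body) 0 with hPdef
  set L := len (prog body) with hL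
  obtain ⟨K0, hK0⟩ := code_ok (prog body)
  set K := K0 + 1 with hK
  have hP : ∀ i ∈ P, Ok K L i := fun i hi => (hK0 0 i hi).mono (by omega) (by omega)
  set Q := ∏ i ∈ range K, pr i with hQ
  have hQpos : 0 < Q := Finset.prod_pos fun i _ => (pr_prime i).pos
  choose a e hae using nx_affine (K := K) (L := L) hP
  let Y : Sys := ⟨(L + 1) * Q, a, e, fun ρ => decide (ρ % (L + 1) = L)⟩
  have hm : 0 < Y.m := Nat.mul_pos (by omega) hQpos
  have hnext : ∀ N, Y.next N = nx P (L + 1) N := by
    intro N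
    have h1 := hae (N % Y.m) (N / Y.m)
    have h2 : (L + 1) * (∏ i ∈ range K, pr i) * (N / Y.m) + N % Y.m = N := Nat.div_add_mod N Y.m
    rw [h2] at h1
    rw [h1]
    rfl
  have hmod : ∀ N, (N % Y.m) % (L + 1) = N % (L + 1) := by
    intro N
    exact Nat.mod_mod_of_dvd _ (dvd_mul_right _ _)
  have hH : ∀ N, Y.H (N % Y.m) = true ↔ N % (L + 1) = L := by
    intro N
    show decide ((N % Y.m) % (L + 1) = L) = true ↔ _
    rw [decide_eq_true_iff, hmod]
  refine ⟨Y, L + 1, pr 0, hm, fun x => ?_⟩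
  rw [halting_iff hb, halts_iff_iter Y _]
  have hstart : (L + 1) * pr 0 ^ x = cf K (L + 1) (0, sx x 0 0) := by
    unfold cf enc
    rw [hK, Finset.prod_range_succ']
    have : ∏ i ∈ range K0, pr (i + 1) ^ sx x 0 0 (i + 1) = 1 := by
      refine Finset.prod_eq_one fun i _ => ?_
      have : sx x 0 0 (i + 1) = 0 := by
        unfold sx
        rw [if_neg (by omega)]
        split_ifs <;> rfl
      rw [this, pow_zero]
    simp only [this, one_mul]
    rfl
  rw [hstart]
  have hiter : ∀ T, (Y.next)^[T] (cf K (L + 1) (0, sx x 0 0))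
      = cf K (L + 1) ((step P)^[T] (0, sx x 0 0)) ∧ ((step P)^[T] (0, sx x 0 0)).1 ≤ L := by
    intro T
    have : Y.next = nx P (L + 1) := funext hnext
    rw [this]
    exact nx_cf_iter hP _ (Nat.zero_le _) T
  refine exists_congr fun T => ?_
  rw [(hiter T).1, hH]
  have : cf K (L + 1) ((step P)^[T] (0, sx x 0 0)) % (L + 1)
      = ((step P)^[T] (0, sx x 0 0)).1 := by
    unfold cf
    rw [Nat.mul_add_mod, Nat.mod_eq_of_lt (by have := (hiter T).2; omega)]
  rw [this]

/-! ### undecidability -/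

open Nat.Partrec

theorem exists_undecidable : ∃ f : List.Vector ℕ 2 → ℕ, Nat.Primrec' f ∧
    ¬ ComputablePred (fun x : ℕ => ∃ k, f (k ::ᵥ x ::ᵥ List.Vector.nil) = 0) := by
  let f : List.Vector ℕ 2 → ℕ := fun v =>
    if (Code.evaln v.head (Denumerable.ofNat Code v.tail.head) 0).isSome then 0 else 1
  have hf : Primrec f := by
    have h1 : Primrec fun v : List.Vector ℕ 2 =>
        Code.evaln v.head (Denumerable.ofNat Code v.tail.head) 0 := by
      have h2 : Primrec fun v : List.Vector ℕ 2 =>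
          (((v.head, Denumerable.ofNat Code v.tail.head), 0) : (ℕ × Code) × ℕ) :=
        Primrec.pair (Primrec.pair Primrec.vector_head
          ((Primrec.ofNat Code).comp (Primrec.vector_head.comp Primrec.vector_tail)))
          (Primrec.const 0)
      exact Code.primrec_evaln.comp h2
    have h3 : Primrec fun v : List.Vector ℕ 2 =>
        (Code.evaln v.head (Denumerable.ofNat Code v.tail.head) 0).isSome :=
      Primrec.option_isSome.comp h1
    exact Primrec.ite (Primrec.eq.comp h3 (Primrec.const true)) (Primrec.const 0) (Primrec.const 1)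
  refine ⟨f, Nat.Primrec'.of_prim hf, fun hc => ?_⟩
  apply ComputablePred.halting_problem 0
  have h1 : ∀ c : Code, (Code.eval c 0).Dom ↔
      ∃ k, f (k ::ᵥ (Encodable.encode c) ::ᵥ List.Vector.nil) = 0 := by
    intro c
    have h2 : ∀ k, f (k ::ᵥ (Encodable.encode c) ::ᵥ List.Vector.nil) = 0 ↔
        (Code.evaln k c 0).isSome = true := by
      intro k
      simp only [f, List.Vector.head_cons, List.Vector.tail_cons, Denumerable.ofNat_encode]
      split_ifs with h <;> simp [h]
    simp only [h2]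
    rw [Part.dom_iff_mem]
    constructor
    · rintro ⟨y, hy⟩
      obtain ⟨k, hk⟩ := Code.evaln_complete.1 hy
      exact ⟨k, Option.isSome_iff_exists.2 ⟨y, hk⟩⟩
    · rintro ⟨k, hk⟩
      obtain ⟨y, hy⟩ := Option.isSome_iff_exists.1 hk
      exact ⟨y, Code.evaln_complete.2 ⟨k, hy⟩⟩
  obtain ⟨g, hg, hgp⟩ := ComputablePred.computable_iff.1 hc
  rw [ComputablePred.computable_iff]
  refine ⟨fun c => g (Encodable.encode c), hg.comp Computable.encode, ?_⟩
  funext c
  rw [propext (h1 c)]
  exact congrFun hgp (Encodable.encode c)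

/-- a generalised Collatz map whose halting problem is undecidable -/
theorem exists_undecidable_sys : ∃ (Y : Sys) (S p : ℕ), 0 < Y.m ∧
    ¬ ComputablePred (fun x : ℕ => Y.Halts (S * p ^ x)) := by
  obtain ⟨f, hf, hund⟩ := exists_undecidable
  obtain ⟨Y, S, p, hm, h⟩ := exists_sys hf
  refine ⟨Y, S, p, hm, fun hc => hund ?_⟩
  have : (fun x : ℕ => Y.Halts (S * p ^ x))
      = fun x : ℕ => ∃ k, f (k ::ᵥ x ::ᵥ List.Vector.nil) = 0 := funext fun x => propext (h x)
  rwa [this] at hc

end Pool.Agent.Helper707.Num
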