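import Mathlib
import Pool.Agent.Helper707.Num
import Pool.Agent.Helper707.CGrp

/-!
Counter machines with integer registers and the functions they define.
-/

namespace Pool.Agent.Helper707.CMach

open Function Pool.Agent.Helper707.Flat Pool.Agent.Helper707.Num Pool.Agent.Helper707.CGrp

/-- one step with integer registers -/
def stepZ (P : List Ins) (x : ℕ × (ℕ → ℤ)) : ℕ × (ℕ → ℤ) :=
  match P[x.1]? with
  | some (.inc r t) => (t, update x.2 r (x.2 r + 1))
  | some (.dec r t t') => if x.2 r = 0 then (t', x.2) else (t, update x.2 r (x.2 r - 1))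
  | some (.jmp t) => (t, x.2)
  | none => x

/-- natural configurations as integer configurations -/
def cz (x : ℕ × (ℕ → ℕ)) : ℕ × (ℕ → ℤ) := (x.1, fun r => (x.2 r : ℤ))

theorem stepZ_cz (P : List Ins) (x : ℕ × (ℕ → ℕ)) : stepZ P (cz x) = cz (step P x) := by
  obtain ⟨l, σ⟩ := x
  have up : ∀ r (v : ℕ), update (fun r => (σ r : ℤ)) r (v : ℤ)
      = fun r' => ((update σ r v r' : ℕ) : ℤ) := by
    intro r v
    funext r'
    rw [update_apply, update_apply]
    split_ifs <;> rfl
  cases hi : P[l]? with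
  | none => simp only [stepZ, cz, step, hi]
  | some i =>
    cases i with
    | inc r t =>
      simp only [stepZ, cz, step, hi]
      rw [← up]
      push_cast
      rfl
    | dec r t t' =>
      simp only [stepZ, cz, step, hi, Nat.cast_eq_zero]
      by_cases h0 : σ r = 0
      · rw [if_pos h0, if_pos h0]
      · rw [if_neg h0, if_neg h0]
        simp only
        rw [← up, Nat.cast_sub (by omega)]
        push_cast
        rfl
    | jmp t => simp only [stepZ, cz, step, hi]

theorem iter_cz (P : List Ins) (x : ℕ × (ℕ → ℕ)) (T : ℕ) :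
    (stepZ P)^[T] (cz x) = cz ((step P)^[T] x) := by
  induction T with
  | zero => rfl
  | succ T ih => rw [iterate_succ_apply', iterate_succ_apply', ih, stepZ_cz]

open Classical in
/-- the value of a configuration -/
noncomputable def nu (P : List Ins) (x : ℕ × (ℕ → ℤ)) : ℚ :=
  if ∃ T, ((stepZ P)^[T] x).1 = P.length then 0 else 1

theorem nu_step (P : List Ins) (x : ℕ × (ℕ → ℤ)) : nu P (stepZ P x) = nu P x := by
  unfold nu
  congr 1
  rw [eq_iff_iff]
  constructor
  · rintro ⟨T, hT⟩
    exact ⟨T + 1, hT⟩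
  · rintro ⟨T, hT⟩
    cases T with
    | zero =>
      refine ⟨0, ?_⟩
      have h0 : x.1 = P.length := hT
      have hn : P[x.1]? = none := by rw [List.getElem?_eq_none_iff, h0]
      have h1 : stepZ P x = x := by simp only [stepZ, hn]
      rw [h1]
      exact h0
    | succ T => exact ⟨T, hT⟩

theorem nu_halt (P : List Ins) (α : ℕ → ℤ) : nu P (P.length, α) = 0 := by
  unfold nu
  rw [if_pos ⟨0, rfl⟩]

/-- inverse factorials -/
noncomputable def dl (k : ℤ) : ℚ := if 0 ≤ k then ((k.toNat.factorial : ℕ) : ℚ)⁻¹ else 0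

theorem dl_zero : dl 0 = 1 := by simp [dl]

theorem dl_pred (k : ℤ) : (k : ℚ) * dl k = dl (k - 1) := by
  unfold dl
  by_cases h : 0 < k
  · rw [if_pos (by omega), if_pos (by omega)]
    obtain ⟨n, rfl⟩ : ∃ n : ℕ, k = n + 1 := ⟨(k - 1).toNat, by omega⟩
    have e1 : ((n : ℤ) + 1).toNat = n + 1 := by omega
    have e2 : ((n : ℤ) + 1 - 1).toNat = n := by omega
    rw [e1, e2, Nat.factorial_succ]
    push_cast
    have h1 : ((n : ℚ) + 1) ≠ 0 := by positivity
    have h2 : ((n.factorial : ℕ) : ℚ) ≠ 0 := by positivity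
    field_simp
  · by_cases h0 : k = 0
    · subst h0
      simp
    · rw [if_neg (by omega), if_neg (by omega), mul_zero]

section

variable (K : ℕ)

/-- index of a register -/
def ix (r : ℕ) : Fin (K + 1) := Fin.ofNat (K + 1) r

/-- index of the additional variable -/
def yy : Fin (K + 1) := Fin.last K

/-- registers of a vector -/
def ex (v : Fin (K + 1) → ℤ) : ℕ → ℤ := fun r => if r < K then v (ix K r) else 0

variable {K}

theorem ix_val {r : ℕ} (h : r < K) : (ix K r : ℕ) = r := by
  simp only [ix, Fin.val_ofNat]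
  exact Nat.mod_eq_of_lt (by omega)

theorem ix_ne {r r' : ℕ} (h : r < K) (h' : r' < K) (hne : r' ≠ r) : ix K r' ≠ ix K r := by
  intro h1
  apply hne
  rw [← ix_val h', ← ix_val h, h1]

theorem yy_ne {r : ℕ} (h : r < K) : yy K ≠ ix K r := by
  intro h1
  have := congrArg Fin.val h1
  rw [ix_val h] at this
  simp only [yy, Fin.val_last] at this
  omega

theorem ex_add {r : ℕ} (h : r < K) (v : Fin (K + 1) → ℤ) (c : ℤ) :
    ex K (v + Pi.single (ix K r) c) = update (ex K v) r (ex K v r + c) := by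
  funext r'
  rw [update_apply]
  by_cases hr : r' = r
  · subst hr
    simp only [ex, if_pos h, Pi.add_apply, Pi.single_eq_same, if_true]
  · rw [if_neg hr]
    by_cases h' : r' < K
    · simp only [ex, if_pos h', Pi.add_apply]
      rw [Pi.single_eq_of_ne (ix_ne h h' hr), add_zero]
    · simp only [ex, if_neg h']

variable (K)

/-- the functions of the states -/
noncomputable def Ph (P : List Ins) (l : ℕ) (v : Fin (K + 1) → ℤ) : ℚ :=
  nu P (l, ex K v) * dl (v (yy K))

variable {K}

theorem Ph_halt (P : List Ins) : Ph K P P.length = 0 := by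
  funext v
  simp [Ph, nu_halt]

theorem Ph_jmp {P : List Ins} {l t : ℕ} (h : P[l]? = some (.jmp t)) : Ph K P l = Ph K P t := by
  funext v
  unfold Ph
  rw [← nu_step P (l, ex K v)]
  simp only [stepZ, h]

theorem Ph_inc {P : List Ins} {l r t : ℕ} (hr : r < K) (h : P[l]? = some (.inc r t))
    (v : Fin (K + 1) → ℤ) : Ph K P l v = Ph K P t (v + Pi.single (ix K r) 1) := by
  unfold Ph
  rw [← nu_step P (l, ex K v)]
  simp only [stepZ, h]
  rw [ex_add hr, Pi.add_apply, Pi.single_eq_of_ne (yy_ne hr), add_zero]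

theorem Ph_dec {P : List Ins} {l r t t' : ℕ} (hr : r < K) (h : P[l]? = some (.dec r t t'))
    (v : Fin (K + 1) → ℤ) (h0 : v (ix K r) ≠ 0) :
    Ph K P l v = Ph K P t (v + Pi.single (ix K r) (-1)) := by
  unfold Ph
  rw [← nu_step P (l, ex K v)]
  have h1 : ex K v r ≠ 0 := by simp only [ex, if_pos hr]; exact h0
  simp only [stepZ, h, if_neg h1]
  rw [ex_add hr, Pi.add_apply, Pi.single_eq_of_ne (yy_ne hr), add_zero, sub_eq_add_neg]

theorem Ph_zero {P : List Ins} {l r t t' : ℕ} (hr : r < K) (h : P[l]? = some (.dec r t t'))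
    (v : Fin (K + 1) → ℤ) (h0 : v (ix K r) = 0) : Ph K P l v = Ph K P t' v := by
  unfold Ph
  rw [← nu_step P (l, ex K v)]
  have h1 : ex K v r = 0 := by simp only [ex, if_pos hr]; exact h0
  simp only [stepZ, h, if_pos h1]

/-- difference for the nonzero branch -/
noncomputable def Dd (K : ℕ) (P : List Ins) (l r t : ℕ) (v : Fin (K + 1) → ℤ) : ℚ :=
  Ph K P l v - Ph K P t (v + Pi.single (ix K r) (-1))

/-- quotient for the zero branch -/
noncomputable def Tt (K : ℕ) (P : List Ins) (l r t' : ℕ) (v : Fin (K + 1) → ℤ) : ℚ :=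
  (Ph K P l v - Ph K P t' v) / (v (ix K r) : ℚ)

end

/-- the conditions on the subgroup -/
structure Cond (K : ℕ) (P : List Ins) (G : Subgroup (Sg (Fin (K + 1)))) : Prop where
  hq : inH G qq
  hx : ∀ i, inH G (sh (Pi.single i 1))
  hy : ∀ l ≤ P.length, inG G (Lin (yy K) (Ph K P l))
  hd : ∀ l r t t', P[l]? = some (.dec r t t') → inG G (Lin (ix K r) (Dd K P l r t))
  ht : ∀ l r t t', P[l]? = some (.dec r t t') → inG G (Lin (ix K r) (Tt K P l r t'))

section

variable {K : ℕ} {P : List Ins} {G : Subgroup (Sg (Fin (K + 1)))}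

/-- configuration -/
noncomputable def Cf (K : ℕ) (P : List Ins) (l : ℕ) (s : Fin (K + 1) → ℤ) : Pt (Fin (K + 1)) → ℚ :=
  Cn fun v => Ph K P l (v + s)

theorem div_rel (hG : Cond K P G) {l : ℕ} (hl : l ≤ P.length) (s : Fin (K + 1) → ℤ) :
    Cf K P l (s + Pi.single (yy K) (-1)) - s (yy K) • Cf K P l s ∈ Bs G := by
  have h := key hG.hq (inH_sh hG.hx s) (hG.hy l hl)
  convert h using 1
  funext p
  simp only [Pi.sub_apply, Pi.smul_apply]
  simp only [Cf, Cn, zsmul_eq_mul, Ph]
  have e1 : ex K (p.1 + (s + Pi.single (yy K) (-1))) = ex K (p.1 + s) := by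
    funext r
    unfold ex
    split_ifs with hr
    · simp only [Pi.add_apply]
      rw [Pi.single_eq_of_ne (yy_ne hr).symm, add_zero]
    · rfl
  rw [e1]
  simp only [Pi.add_apply, Pi.single_eq_same]
  have e2 := dl_pred (p.1 (yy K) + s (yy K))
  rw [show p.1 (yy K) + (s (yy K) + -1) = p.1 (yy K) + s (yy K) - 1 by ring, ← e2]
  push_cast
  ring

theorem zero_rel (hG : Cond K P G) {l r t t' : ℕ} (hr : r < K)
    (h : P[l]? = some (.dec r t t')) (s : Fin (K + 1) → ℤ) (h0 : s (ix K r) = 0) :
    Cf K P l s - Cf K P t' s ∈ Bs G := by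
  have h1 := key hG.hq (inH_sh hG.hx s) (hG.ht l r t t' h)
  convert h1 using 1
  funext p
  simp only [Cf, Cn, Pi.sub_apply, Tt]
  have e1 : (p.1 + s) (ix K r) = p.1 (ix K r) := by rw [Pi.add_apply, h0, add_zero]
  rw [e1]
  by_cases hp : p.1 (ix K r) = 0
  · rw [hp, Ph_zero hr h (p.1 + s) (by rw [e1, hp])]
    simp
  · have : ((p.1 (ix K r) : ℤ) : ℚ) ≠ 0 := by exact_mod_cast hp
    field_simp

theorem dec_rel0 (hG : Cond K P G) {l r t t' : ℕ} (hr : r < K)
    (h : P[l]? = some (.dec r t t')) (s : Fin (K + 1) → ℤ) :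
    s (ix K r) • (Cf K P l s - Cf K P t (s + Pi.single (ix K r) (-1))) ∈ Bs G := by
  have h1 := neg_mem (key hG.hq (inH_sh hG.hx s) (hG.hd l r t t' h))
  convert h1 using 1
  funext p
  simp only [Pi.sub_apply, Pi.smul_apply, Pi.neg_apply]
  simp only [Cf, Cn, Dd, zsmul_eq_mul]
  rw [← add_assoc]
  by_cases hp : (p.1 + s) (ix K r) = 0
  · rw [Pi.add_apply] at hp
    have : ((p.1 (ix K r) : ℤ) : ℚ) = -(s (ix K r) : ℚ) := by
      have h2 : p.1 (ix K r) = - s (ix K r) := by omega
      rw [h2]; push_cast; ring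
    rw [this]
    ring
  · rw [Ph_dec hr h (p.1 + s) hp]
    ring

theorem fact_rel {A : Type*} [AddCommGroup A] {B : AddSubgroup A} (E : ℕ → A)
    (hE : ∀ n : ℕ, E n - ((n : ℤ) + 1) • E (n + 1) ∈ B) (n : ℕ) :
    E 0 - (n.factorial : ℤ) • E n ∈ B := by
  induction n with
  | zero => simp
  | succ n ih =>
    have h1 := add_mem ih (zsmul_mem (hE n) (n.factorial : ℤ))
    convert h1 using 1
    rw [smul_sub, smul_smul, Nat.factorial_succ]
    push_cast
    rw [mul_comm ((n : ℤ) + 1)]
    abel

theorem dec_rel (hG : Cond K P G) {l r t t' : ℕ} (hP : ∀ i ∈ P, Ok K P.length i)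
    (h : P[l]? = some (.dec r t t')) (s : Fin (K + 1) → ℤ) (hs : s (yy K) = 0)
    (h0 : s (ix K r) ≠ 0) :
    Cf K P l s - Cf K P t (s + Pi.single (ix K r) (-1)) ∈ Bs G := by
  have hok := hP _ (List.mem_of_getElem? h)
  have hr : r < K := hok.1
  have hl : l ≤ P.length := by
    by_contra hcon
    rw [List.getElem?_eq_none_iff.2 (by omega)] at h
    exact absurd h (by simp)
  let E : ℕ → Pt (Fin (K + 1)) → ℚ := fun n =>
    Cf K P l (s + Pi.single (yy K) (n : ℤ))
      - Cf K P t (s + Pi.single (yy K) (n : ℤ) + Pi.single (ix K r) (-1))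
  have hE : ∀ n : ℕ, E n - ((n : ℤ) + 1) • E (n + 1) ∈ Bs G := by
    intro n
    have h1 := div_rel hG hl (s + Pi.single (yy K) ((n + 1 : ℕ) : ℤ))
    have h2 := div_rel hG hok.2.1 (s + Pi.single (yy K) ((n + 1 : ℕ) : ℤ)
      + Pi.single (ix K r) (-1))
    have h3 := sub_mem h1 h2
    have e1 : s + Pi.single (yy K) ((n + 1 : ℕ) : ℤ) + Pi.single (yy K) (-1)
        = s + Pi.single (yy K) (n : ℤ) := by
      rw [add_assoc, ← Pi.single_add]
      congr 2
      push_cast
      ring
    have e2 : s + Pi.single (yy K) ((n + 1 : ℕ) : ℤ) + Pi.single (ix K r) (-1)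
        + Pi.single (yy K) (-1)
        = s + Pi.single (yy K) (n : ℤ) + Pi.single (ix K r) (-1) := by
      rw [add_right_comm, e1]
    have e3 : (s + Pi.single (yy K) ((n + 1 : ℕ) : ℤ) : Fin (K + 1) → ℤ) (yy K)
        = (n : ℤ) + 1 := by
      rw [Pi.add_apply, hs, Pi.single_eq_same, zero_add]
      push_cast
      rfl
    have e4 : (s + Pi.single (yy K) ((n + 1 : ℕ) : ℤ) + Pi.single (ix K r) (-1) :
        Fin (K + 1) → ℤ) (yy K) = (n : ℤ) + 1 := by
      rw [Pi.add_apply, e3, Pi.single_eq_of_ne (yy_ne hr), add_zero]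
    rw [e1, e2, e3, e4] at h3
    convert h3 using 1
    simp only [E, smul_sub]
    abel
  have hF : ∀ n : ℕ, E 0 - (n.factorial : ℤ) • E n ∈ Bs G := fact_rel E hE
  set n := (s (ix K r)).natAbs with hn
  have hn0 : 0 < n := Int.natAbs_pos.2 h0
  have h1 := dec_rel0 hG hr h (s + Pi.single (yy K) (n : ℤ))
  have e5 : (s + Pi.single (yy K) (n : ℤ) : Fin (K + 1) → ℤ) (ix K r) = s (ix K r) := by
    rw [Pi.add_apply, Pi.single_eq_of_ne (yy_ne hr).symm, add_zero]
  rw [e5] at h1
  have h2 : s (ix K r) ∣ (n.factorial : ℤ) := by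
    rw [← Int.natAbs_dvd, ← hn]
    exact_mod_cast Nat.dvd_factorial hn0 le_rfl
  obtain ⟨c, hc⟩ := h2
  have h3 : (n.factorial : ℤ) • E n ∈ Bs G := by
    rw [hc, mul_comm, mul_smul]
    exact zsmul_mem h1 c
  have h4 := add_mem (hF n) h3
  rw [sub_add_cancel] at h4
  simpa [E] using h4

theorem halt_mem (hG : Cond K P G) (hP : ∀ i ∈ P, Ok K P.length i) (T : ℕ) :
    ∀ (l : ℕ) (s : Fin (K + 1) → ℤ), s (yy K) = 0 → ((stepZ P)^[T] (l, ex K s)).1 = P.length →
      Cf K P l s ∈ Bs G := by
  induction T with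
  | zero =>
    intro l s _ hT
    have hl : l = P.length := hT
    have : Cf K P l s = 0 := by
      funext p
      simp [Cf, Cn, hl, Ph_halt]
    rw [this]
    exact zero_mem _
  | succ T ih =>
    intro l s hs hT
    rw [iterate_succ_apply] at hT
    cases hi : P[l]? with
    | none =>
      have e : stepZ P (l, ex K s) = (l, ex K s) := by simp only [stepZ, hi]
      rw [e] at hT
      exact ih l s hs hT
    | some i =>
      have hok := hP _ (List.mem_of_getElem? hi)
      cases i with
      | inc r t =>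
        have hr : r < K := hok.1
        have e : stepZ P (l, ex K s) = (t, ex K (s + Pi.single (ix K r) 1)) := by
          simp only [stepZ, hi]
          rw [ex_add hr]
        rw [e] at hT
        have := ih t _ (by rw [Pi.add_apply, hs, Pi.single_eq_of_ne (yy_ne hr), add_zero]) hT
        convert this using 1
        funext p
        simp only [Cf, Cn]
        rw [Ph_inc hr hi, add_assoc]
      | dec r t t' =>
        have hr : r < K := hok.1
        by_cases h0 : s (ix K r) = 0
        · have e : stepZ P (l, ex K s) = (t', ex K s) := by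
            have h1 : ex K s r = 0 := by simp only [ex, if_pos hr]; exact h0
            simp only [stepZ, hi, if_pos h1]
          rw [e] at hT
          have h2 := add_mem (zero_rel hG hr hi s h0) (ih t' s hs hT)
          rwa [sub_add_cancel] at h2
        · have e : stepZ P (l, ex K s) = (t, ex K (s + Pi.single (ix K r) (-1))) := by
            have h1 : ex K s r ≠ 0 := by simp only [ex, if_pos hr]; exact h0
            simp only [stepZ, hi, if_neg h1]
            rw [ex_add hr, sub_eq_add_neg]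
          rw [e] at hT
          have h2 := add_mem (dec_rel hG hP hi s hs h0) (ih t _ (by
            rw [Pi.add_apply, hs, Pi.single_eq_of_ne (yy_ne hr), add_zero]) hT)
          rwa [sub_add_cancel] at h2
      | jmp t =>
        have e : stepZ P (l, ex K s) = (t, ex K s) := by simp only [stepZ, hi]
        rw [e] at hT
        have := ih t s hs hT
        unfold Cf at this ⊢
        rw [Ph_jmp hi]
        exact this

end

end Pool.Agent.Helper707.CMach
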