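import Mathlib
import Pool.Agent.Helper707.CMach

/-!
The finitely generated subgroup, and the reduction of the halting problem to the conjugacy problem.
-/

namespace Pool.Agent.Helper707.CFinal

open Function Pool.Agent.Helper707.Flat Pool.Agent.Helper707.Num Pool.Agent.Helper707.CGrp
  Pool.Agent.Helper707.CMach

section

variable (K : ℕ) (P : List Ins)

/-- index set of the generators -/
abbrev Ix := Bool ⊕ (Fin (K + 1) ⊕
  (Fin (P.length + 1) ⊕ (Fin (P.length + 1) ⊕ Fin (P.length + 1))))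

/-- generator for the nonzero branch -/
noncomputable def gD (l : ℕ) : Pt (Fin (K + 1)) → ℚ :=
  match P[l]? with
  | some (.dec r t _) => Lin (ix K r) (Dd K P l r t)
  | _ => 0

/-- generator for the zero branch -/
noncomputable def gT (l : ℕ) : Pt (Fin (K + 1)) → ℚ :=
  match P[l]? with
  | some (.dec r _ t') => Lin (ix K r) (Tt K P l r t')
  | _ => 0

/-- the generators -/
noncomputable def gen : Ix K P → Sg (Fin (K + 1))
  | .inl false => ⟨0, qq⟩
  | .inl true => ⟨Cn (Ph K P 0), 1⟩
  | .inr (.inl i) => ⟨0, sh (Pi.single i 1)⟩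
  | .inr (.inr (.inl l)) => ⟨Lin (yy K) (Ph K P l), 1⟩
  | .inr (.inr (.inr (.inl l))) => ⟨gD K P l, 1⟩
  | .inr (.inr (.inr (.inr l))) => ⟨gT K P l, 1⟩

/-- number of generators -/
abbrev nn : ℕ := Fintype.card (Ix K P)

/-- numbering -/
noncomputable def eqv : Ix K P ≃ Fin (nn K P) := Fintype.equivFin _

/-- the homomorphism -/
noncomputable def f0 : FreeGroup (Fin (nn K P)) →* Sg (Fin (K + 1)) :=
  FreeGroup.lift (gen K P ∘ (eqv K P).symm)

theorem f0_of (i : Ix K P) : f0 K P (FreeGroup.of (eqv K P i)) = gen K P i := by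
  simp [f0]

theorem gen_mem (i : Ix K P) : gen K P i ∈ (f0 K P).range := ⟨_, f0_of K P i⟩

theorem cond : Cond K P (f0 K P).range where
  hq := gen_mem K P (.inl false)
  hx i := gen_mem K P (.inr (.inl i))
  hy l hl := gen_mem K P (.inr (.inr (.inl ⟨l, by omega⟩)))
  hd l r t t' h := by
    have hl : l < P.length := by
      by_contra hcon
      rw [List.getElem?_eq_none_iff.2 (by omega)] at h
      exact absurd h (by simp)
    have h1 := gen_mem K P (.inr (.inr (.inr (.inl ⟨l, by omega⟩))))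
    have e : gen K P (.inr (.inr (.inr (.inl ⟨l, by omega⟩))))
        = ⟨Lin (ix K r) (Dd K P l r t), 1⟩ := by
      simp only [gen, gD, h]
    rw [e] at h1
    exact h1
  ht l r t t' h := by
    have hl : l < P.length := by
      by_contra hcon
      rw [List.getElem?_eq_none_iff.2 (by omega)] at h
      exact absurd h (by simp)
    have h1 := gen_mem K P (.inr (.inr (.inr (.inr ⟨l, by omega⟩))))
    have e : gen K P (.inr (.inr (.inr (.inr ⟨l, by omega⟩))))
        = ⟨Lin (ix K r) (Tt K P l r t'), 1⟩ := by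
      simp only [gen, gT, h]
    rw [e] at h1
    exact h1

/-- words -/
abbrev Wd := List (Fin (nn K P) × Bool)

/-- the word of the distinguished element -/
noncomputable def wq : Wd K P := [(eqv K P (.inl false), true)]

/-- powers of the first register letter -/
noncomputable def xw (N : ℕ) : Wd K P :=
  (List.range N).map fun _ => (eqv K P (.inr (.inl (ix K 0))), true)

/-- the second word -/
noncomputable def ww (N : ℕ) : Wd K P :=
  xw K P N ++ [(eqv K P (.inl true), true)] ++ FreeGroup.invRev (xw K P N) ++ wq K P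

theorem f0_wq : f0 K P (FreeGroup.mk (wq K P)) = ⟨0, qq⟩ := f0_of K P (.inl false)

theorem f0_xw (N : ℕ) : f0 K P (FreeGroup.mk (xw K P N)) = ⟨0, sh (Pi.single (ix K 0) (N : ℤ))⟩ := by
  induction N with
  | zero =>
    have : (Pi.single (ix K 0) ((0 : ℕ) : ℤ) : Fin (K + 1) → ℤ) = 0 := by simp
    rw [this]
    exact map_one _
  | succ N ih =>
    rw [xw, List.range_succ, List.map_append, ← FreeGroup.mul_mk, map_mul, ← xw, ih]
    have h1 : f0 K P (FreeGroup.mk (List.map
        (fun _ : ℕ => (eqv K P (.inr (.inl (ix K 0))), true)) [N]))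
        = ⟨0, sh (Pi.single (ix K 0) 1)⟩ := f0_of K P (.inr (.inl (ix K 0)))
    rw [h1, Sg.mul_def]
    have h2 : sh (Pi.single (ix K 0) (N : ℤ)) * sh (Pi.single (ix K 0) 1)
        = sh (Pi.single (ix K 0) ((N + 1 : ℕ) : ℤ) : Fin (K + 1) → ℤ) := by
      have : (Pi.single (ix K 0) ((N + 1 : ℕ) : ℤ) : Fin (K + 1) → ℤ)
          = Pi.single (ix K 0) (N : ℤ) + Pi.single (ix K 0) 1 := by
        rw [← Pi.single_add]
        push_cast
        rfl
      rw [this]
      simp [sh, Hs.mul_def]
    rw [h2]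
    simp [act_zero]

theorem f0_ww (N : ℕ) :
    f0 K P (FreeGroup.mk (ww K P N)) = ⟨Cf K P 0 (Pi.single (ix K 0) (N : ℤ)), qq⟩ := by
  rw [ww, ← FreeGroup.mul_mk, ← FreeGroup.mul_mk, ← FreeGroup.mul_mk, ← FreeGroup.inv_mk, map_mul,
    map_mul, map_mul, map_inv, f0_xw, f0_wq]
  have h1 : f0 K P (FreeGroup.mk [(eqv K P (.inl true), true)]) = ⟨Cn (Ph K P 0), 1⟩ :=
    f0_of K P (.inl true)
  rw [h1]
  simp only [Sg.mul_def, Sg.inv_def, act_zero, neg_zero, add_zero, zero_add, mul_one,
    mul_inv_cancel, one_mul]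
  rfl

theorem ex_start {K : ℕ} (hK : 0 < K) (N : ℕ) :
    ((0, ex K (Pi.single (ix K 0) (N : ℤ))) : ℕ × (ℕ → ℤ)) = cz (0, sx N 0 0) := by
  refine Prod.ext rfl ?_
  funext r
  simp only [cz, ex, sx]
  by_cases hr : r = 0
  · subst hr
    rw [if_pos hK, if_pos rfl, Pi.single_eq_same]
  · rw [if_neg hr]
    have e : (if r = 1 then 0 else if r = 3 then 0 else 0 : ℕ) = 0 := by split_ifs <;> rfl
    rw [e]
    split_ifs with h
    · rw [Pi.single_eq_of_ne (ix_ne hK h hr)]
      rfl
    · rfl

variable {K P}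

theorem conj_iff (hP : ∀ i ∈ P, Ok K P.length i) (hK : 0 < K) (N : ℕ) :
    IsConj ((f0 K P).rangeRestrict (FreeGroup.mk (wq K P)))
      ((f0 K P).rangeRestrict (FreeGroup.mk (ww K P N))) ↔
      ∃ T, ((step P)^[T] (0, sx N 0 0)).1 = P.length := by
  have hiff : (∃ T, ((stepZ P)^[T] (0, ex K (Pi.single (ix K 0) (N : ℤ)))).1 = P.length) ↔
      ∃ T, ((step P)^[T] (0, sx N 0 0)).1 = P.length := by
    rw [ex_start hK]
    simp only [iter_cz]
    rfl
  rw [← hiff, isConj_iff]
  have hy0 : (Pi.single (ix K 0) (N : ℤ) : Fin (K + 1) → ℤ) (yy K) = 0 :=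
    Pi.single_eq_of_ne (yy_ne hK) _
  constructor
  · rintro ⟨c, hc⟩
    have h1 := congrArg Subtype.val hc
    have h2 : (c : Sg (Fin (K + 1))) * ⟨0, qq⟩ * (c : Sg (Fin (K + 1)))⁻¹
        = ⟨Cf K P 0 (Pi.single (ix K 0) (N : ℤ)), qq⟩ := by
      rw [← f0_wq, ← f0_ww]
      exact h1
    have h3 := zero_of_conj h2
    simp only [Cf, Cn, Ph, Prod.fst_zero, zero_add, hy0, dl_zero, mul_one] at h3
    by_contra hcon
    unfold nu at h3
    rw [if_neg hcon] at h3
    exact one_ne_zero h3
  · rintro ⟨T, hT⟩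
    have h1 := halt_mem (cond K P) hP T 0 _ hy0 hT
    obtain ⟨c, hc, h2⟩ := conj_of_mem h1
    refine ⟨⟨c, hc⟩, Subtype.ext ?_⟩
    have h3 : c * f0 K P (FreeGroup.mk (wq K P)) * c⁻¹ = f0 K P (FreeGroup.mk (ww K P N)) := by
      rw [f0_wq, f0_ww, h2]
    exact h3

theorem primrec_invRev {n : ℕ} :
    Primrec (FreeGroup.invRev : List (Fin n × Bool) → List (Fin n × Bool)) := by
  unfold FreeGroup.invRev
  refine Primrec.list_reverse.comp (Primrec.list_map Primrec.id ?_)
  exact Primrec.pair (Primrec.fst.comp Primrec.snd) (Primrec.not.comp (Primrec.snd.comp Primrec.snd))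

theorem primrec_xw : Primrec (xw K P) :=
  Primrec.list_map Primrec.list_range (Primrec.const _).to₂

theorem primrec_ww : Primrec (ww K P) :=
  Primrec.list_append.comp (Primrec.list_append.comp (Primrec.list_append.comp primrec_xw
    (Primrec.const _)) (primrec_invRev.comp primrec_xw)) (Primrec.const _)

end

theorem undecidable : ∃ (K : ℕ) (P : List Ins),
    ¬ ComputablePred fun p : Wd K P × Wd K P =>
      IsConj ((f0 K P).rangeRestrict (FreeGroup.mk p.1))
        ((f0 K P).rangeRestrict (FreeGroup.mk p.2)) := by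
  obtain ⟨f, hf, hund⟩ := exists_undecidable
  obtain ⟨body, hb⟩ := search hf
  have hlen : (code (prog body) 0).length = len (prog body) := length_code _ _
  obtain ⟨K, hK⟩ := code_ok (prog body)
  have hP : ∀ i ∈ code (prog body) 0, Ok (K + 1) (code (prog body) 0).length i := by
    intro i hi
    have := hK 0 i hi
    rw [zero_add] at this
    rw [hlen]
    exact this.mono (Nat.le_succ K) le_rfl
  refine ⟨K + 1, code (prog body) 0, fun hc => hund ?_⟩
  obtain ⟨d, hd, hdp⟩ := ComputablePred.computable_iff.1 hc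
  rw [ComputablePred.computable_iff]
  refine ⟨fun N => d (wq _ _, ww _ _ N),
    hd.comp (Computable.pair (Computable.const _) primrec_ww.to_comp), ?_⟩
  funext N
  have h3 := congrFun hdp (wq _ _, ww _ _ N)
  rw [← h3, conj_iff hP (Nat.succ_pos K), halting_iff hb, hlen]

section

variable {I : Type} (G : Subgroup (Sg I))

/-- the abelian normal subgroup -/
def Ab : Subgroup G := (pr.comp G.subtype).ker

theorem Ab_comm (x : G) (hx : x ∈ Ab G) (y : G) (hy : y ∈ Ab G) : x * y = y * x := by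
  have h1 : (x : Sg I).h = 1 := hx
  have h2 : (y : Sg I).h = 1 := hy
  apply Subtype.ext
  change (x : Sg I) * (y : Sg I) = (y : Sg I) * (x : Sg I)
  rw [Sg.mul_def, Sg.mul_def, h1, h2, act_one, act_one, add_comm]

end

end Pool.Agent.Helper707.CFinal
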