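import Mathlib

/-!
The factors of `X ^ (2 ^ R) - 1`.
-/

namespace Pool.Agent.Helper707.GPoly

open Polynomial Finset

/-- factors of `X ^ (2 ^ R) - 1` -/
noncomputable def Ph : ℕ → ℤ[X]
  | 0 => X - 1
  | b + 1 => X ^ (2 ^ b) + 1

theorem prod_Ph (R : ℕ) : ∏ b ∈ range (R + 1), Ph b = X ^ (2 ^ R) - 1 := by
  induction R with
  | zero => simp [Ph]
  | succ R ih =>
    rw [prod_range_succ, ih, Ph, pow_succ, pow_mul]
    ring

/-- cofactor of `Ph a` -/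
noncomputable def J (R a : ℕ) : ℤ[X] := ∏ b ∈ (range (R + 1)).erase a, Ph b

/-- cofactor of `Ph 0 * Ph a` -/
noncomputable def U (R a : ℕ) : ℤ[X] := ∏ b ∈ ((range (R + 1)).erase 0).erase a, Ph b

theorem Ph_mul_J {R a : ℕ} (ha : a ≤ R) : Ph a * J R a = X ^ (2 ^ R) - 1 := by
  rw [← prod_Ph, J, mul_prod_erase _ _ (mem_range.2 (by omega))]

theorem Ph_mul_U {R a : ℕ} (ha : a ≠ 0) : Ph 0 * U R a = J R a := by
  rw [U, J, erase_right_comm, mul_prod_erase _ _ (by simp [Ne.symm ha])]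

theorem Ph_dvd_U {R a b : ℕ} (hab : b ≠ a) (hb : b ≠ 0) (hbR : b ≤ R) : Ph b ∣ U R a := by
  rw [U]
  exact dvd_prod_of_mem _ (by simp only [mem_erase, mem_range]; omega)

theorem dvd_J_mul_U {R a b : ℕ} (hab : b ≠ a) (hb : b ≠ 0) (hbR : b ≤ R) :
    X ^ (2 ^ R) - 1 ∣ J R b * U R a := by
  obtain ⟨c, hc⟩ := Ph_dvd_U (R := R) hab hb hbR
  rw [hc, ← Ph_mul_J hbR]
  exact ⟨c, by ring⟩

section

variable {k : Type*} [CommRing k]

theorem aeval_Ph_zero (x : k) : aeval x (Ph 0) = x - 1 := by simp [Ph]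

theorem aeval_Ph_succ (x : k) (b : ℕ) : aeval x (Ph (b + 1)) = x ^ (2 ^ b) + 1 := by simp [Ph]

theorem pow_of_root {x : k} {a b : ℕ} (hx : aeval x (Ph a) = 0) (hab : a ≤ b) :
    x ^ (2 ^ b) = 1 := by
  cases a with
  | zero =>
    rw [aeval_Ph_zero, sub_eq_zero] at hx
    rw [hx, one_pow]
  | succ a =>
    rw [aeval_Ph_succ, add_eq_zero_iff_eq_neg] at hx
    obtain ⟨c, rfl⟩ : ∃ c, b = a + 1 + c := ⟨b - (a + 1), by omega⟩
    rw [pow_add, pow_mul, pow_succ, pow_mul, hx]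
    norm_num

theorem lt_root {x : k} {a b : ℕ} (h2 : (2 : k) ≠ 0) (hx : aeval x (Ph a) = 0) (hab : a < b) :
    aeval x (Ph b) ≠ 0 := by
  intro h
  obtain ⟨b, rfl⟩ : ∃ c, b = c + 1 := ⟨b - 1, by omega⟩
  rw [aeval_Ph_succ, pow_of_root hx (by omega)] at h
  exact h2 (by rw [← one_add_one_eq_two, h])

theorem ne_root {x : k} {a b : ℕ} (h2 : (2 : k) ≠ 0) (hx : aeval x (Ph a) = 0) (hab : b ≠ a) :
    aeval x (Ph b) ≠ 0 := by
  intro h
  rcases lt_or_gt_of_ne hab with h1 | h1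
  · exact lt_root h2 h h1 hx
  · exact lt_root h2 hx h1 h

variable [IsDomain k]

theorem exists_root {x : k} {R : ℕ} (hx : x ^ (2 ^ R) = 1) : ∃ a ≤ R, aeval x (Ph a) = 0 := by
  have h : aeval x (∏ b ∈ range (R + 1), Ph b) = 0 := by
    rw [prod_Ph]; simp [hx]
  rw [map_prod, prod_eq_zero_iff] at h
  obtain ⟨a, ha, h⟩ := h
  exact ⟨a, by rw [mem_range] at ha; omega, h⟩

theorem J_ne {x : k} {R a : ℕ} (h2 : (2 : k) ≠ 0) (hx : aeval x (Ph a) = 0) :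
    aeval x (J R a) ≠ 0 := by
  rw [J, map_prod, prod_ne_zero_iff]
  intro b hb
  exact ne_root h2 hx (mem_erase.1 hb).1

theorem U_ne {x : k} {R a : ℕ} (h2 : (2 : k) ≠ 0) (hx : aeval x (Ph a) = 0) :
    aeval x (U R a) ≠ 0 := by
  rw [U, map_prod, prod_ne_zero_iff]
  intro b hb
  exact ne_root h2 hx (mem_erase.1 hb).1

theorem J_eq {x : k} {R a b : ℕ} (hx : aeval x (Ph a) = 0) (ha : a ≤ R) (hab : b ≠ a) :
    aeval x (J R b) = 0 := by
  rw [J, map_prod, prod_eq_zero_iff]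
  exact ⟨a, by simp only [mem_erase, mem_range]; omega, hx⟩

end

/-- a root of `Ph a` -/
theorem exists_zeta (a : ℕ) : ∃ z : ℂˣ, aeval (z : ℂ) (Ph a) = 0 := by
  cases a with
  | zero => exact ⟨1, by rw [aeval_Ph_zero]; simp⟩
  | succ a =>
    obtain ⟨z, hz⟩ := IsAlgClosed.exists_pow_nat_eq (-1 : ℂ) (n := 2 ^ a) (by positivity)
    have h0 : z ≠ 0 := by
      rintro rfl
      rw [zero_pow (by positivity)] at hz
      norm_num at hz
    refine ⟨Units.mk0 z h0, ?_⟩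
    rw [aeval_Ph_succ, Units.val_mk0, hz]
    norm_num

end Pool.Agent.Helper707.GPoly
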