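import Mathlib
import Pool.Agent.Helper707.GPoly

/-!
Words acting on an abelian normal subgroup: the relator and the input words.
-/

namespace Pool.Agent.Helper707.GAct

open Polynomial Finset Pool.Agent.Helper707.GPoly

/-- offsets of a window -/
abbrev Win := Fin 2 × Fin 2 × Fin 4

/-- the elements of the group used in the relator -/
structure Dat (G : Type*) where
  (c h s1 s2 ga : G)

/-- image of the data -/
def Dat.map {G H : Type*} [Group G] [Group H] (f : G →* H) (D : Dat G) : Dat H :=
  ⟨f D.c, f D.h, f D.s1, f D.s2, f D.ga⟩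

/-- group element of an offset -/
def Dat.off {G : Type*} [Group G] (D : Dat G) (w : Win) : G :=
  D.s1 ^ (w.1 : ℕ) * D.s2 ^ (w.2.1 : ℕ) * D.ga ^ (w.2.2 : ℕ)

/-- conjugates of `c` -/
def Dat.cj {G : Type*} [Group G] (D : Dat G) (g : G) : G := g * D.c * g⁻¹

theorem map_off {G H : Type*} [Group G] [Group H] (f : G →* H) (D : Dat G) (w : Win) :
    (D.map f).off w = f (D.off w) := by
  simp [Dat.off, Dat.map]

theorem map_cj {G H : Type*} [Group G] [Group H] (f : G →* H) (D : Dat G) (g : G) :
    (D.map f).cj (f g) = f (D.cj g) := by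
  simp [Dat.cj, Dat.map]

theorem map_ae {E E' : Type*} [Ring E] [Ring E'] (φ : E →+* E') (x : E) (p : ℤ[X]) :
    φ (aeval x p) = aeval (φ x) p :=
  (Polynomial.aeval_algHom_apply φ.toIntAlgHom x p).symm

section

variable {G E : Type*} [Group G] [Ring E] (R : ℕ) (Bad : Set (Win → Fin (R + 1)))
  (al : G →* E) (D : Dat G)

open Classical in
/-- sum over bad patterns -/
noncomputable def bad (t : G) : E :=
  ∑ a ∈ univ.filter (fun a => a ∈ Bad),
    ((univ : Finset Win).toList.map fun w => aeval (al (D.cj (t * D.off w))) (J R (a w))).prod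

/-- the four operators -/
noncomputable def rho (d : ℕ) : E :=
  if d = 1 then al D.s1 - 1 else if d = 2 then al D.s2 - 1 else if d = 3 then bad R Bad al D 1
  else 2 * al D.h - 1

/-- the labels of the switches -/
def sw : Finset ℕ := {1, 2, 3, 4}

/-- the operator of the relator -/
noncomputable def rel : E :=
  ∑ d ∈ sw, aeval (al D.c) (U R d) * al ((D.ga ^ d)⁻¹) * rho R Bad al D d

/-- the operator of the seed -/
noncomputable def seed (s0 : ℕ) : E :=
  aeval (al (D.cj (D.ga ^ 4))) (J R 4 * U R 4) * aeval (al (D.cj (D.ga ^ 1))) (J R 1) *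
    aeval (al (D.cj (D.ga ^ 2))) (J R 2) * aeval (al (D.cj (D.ga ^ 3))) (J R 3) *
    aeval (al (D.cj 1)) (J R s0)

/-- the operator of the input -/
noncomputable def inp (l : List ℕ) (N : ℕ) : E :=
  (l.map fun b => aeval (al (D.cj (D.s2 ^ (N + 1)))) (Ph b)).prod

variable {R Bad al D}

theorem map_bad {E' : Type*} [Ring E'] (φ : E →+* E') (t : G) :
    φ (bad R Bad al D t) = bad R Bad ((φ : E →* E').comp al) D t := by
  simp only [bad, map_sum, map_list_prod, List.map_map, Function.comp_def, map_ae]
  rfl

theorem map_rel {E' : Type*} [Ring E'] (φ : E →+* E') :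
    φ (rel R Bad al D) = rel R Bad ((φ : E →* E').comp al) D := by
  unfold rel
  rw [map_sum]
  refine Finset.sum_congr rfl fun d _ => ?_
  rw [map_mul, map_mul, map_ae]
  congr 1
  unfold rho
  split_ifs
  · simp
  · simp
  · exact map_bad φ 1
  · rw [map_sub, map_mul, map_one, map_ofNat]; rfl

theorem map_seed {E' : Type*} [Ring E'] (φ : E →+* E') (s0 : ℕ) :
    φ (seed R al D s0) = seed R ((φ : E →* E').comp al) D s0 := by
  simp only [seed, map_mul, map_ae]
  rfl

theorem map_inp {E' : Type*} [Ring E'] (φ : E →+* E') (l : List ℕ) (N : ℕ) :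
    φ (inp al D l N) = inp ((φ : E →* E').comp al) D l N := by
  simp only [inp, map_list_prod, List.map_map, Function.comp_def, map_ae]
  rfl

section

variable {F : Type*} [Group F] (f : F →* G) (D' : Dat F)

theorem comp_bad (t : F) : bad R Bad (al.comp f) D' t = bad R Bad al (D'.map f) (f t) := by
  simp only [bad, MonoidHom.comp_apply, ← map_cj, map_mul, ← map_off]

theorem comp_rel : rel R Bad (al.comp f) D' = rel R Bad al (D'.map f) := by
  unfold rel
  refine Finset.sum_congr rfl fun d _ => ?_
  congr 1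
  · simp [Dat.map]
  · unfold rho
    split_ifs
    · simp [Dat.map]
    · simp [Dat.map]
    · rw [comp_bad, map_one]
    · simp [Dat.map]

theorem comp_seed (s0 : ℕ) : seed R (al.comp f) D' s0 = seed R al (D'.map f) s0 := by
  have h1 : (D'.map f).ga = f D'.ga := rfl
  simp only [seed, MonoidHom.comp_apply, ← map_cj, h1, map_pow, map_one]

theorem comp_inp (l : List ℕ) (N : ℕ) : inp (al.comp f) D' l N = inp al (D'.map f) l N := by
  have h1 : (D'.map f).s2 = f D'.s2 := rfl
  simp only [inp, MonoidHom.comp_apply, ← map_cj, h1, map_pow]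

end

end

/-- action of a formal sum on a group element -/
noncomputable def act {G : Type*} [Group G] (ξ : MonoidAlgebra ℤ G) (a : G) : G :=
  (ξ.coeff.support.toList.map fun g => (g * a * g⁻¹) ^ (ξ.coeff g)).prod

/-- an abelian group with an equivariant map to a group -/
structure Pack (G A : Type*) [Group G] [AddCommGroup A] where
  /-- the action -/
  al : G →* AddMonoid.End A
  /-- the map -/
  io : Multiplicative A →* G
  conj : ∀ g a, g * io (.ofAdd a) * g⁻¹ = io (.ofAdd (al g a))

variable {F G A : Type*} [Group F] [Group G] [AddCommGroup A]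

/-- evaluation -/
def evH (w : A) : AddMonoid.End A →+ A where
  toFun φ := φ w
  map_zero' := rfl
  map_add' _ _ := rfl

theorem map_act (P : Pack G A) (f : F →* G) (ξ : MonoidAlgebra ℤ F) (a : F) (w : A)
    (h : f a = P.io (.ofAdd w)) :
    f (act ξ a) = P.io (.ofAdd (MonoidAlgebra.lift ℤ (AddMonoid.End A) F (P.al.comp f) ξ w)) := by
  have e1 : MonoidAlgebra.lift ℤ (AddMonoid.End A) F (P.al.comp f) ξ w
      = ∑ g ∈ ξ.coeff.support, ξ.coeff g • (P.al (f g) w) := by
    rw [MonoidAlgebra.lift_apply, Finsupp.sum]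
    exact map_sum (evH w) _ _
  rw [e1, ofAdd_sum, ← Finset.prod_map_toList, map_list_prod, act, map_list_prod]
  simp only [List.map_map, Function.comp_def]
  congr 1
  refine List.map_congr_left fun g _ => ?_
  rw [map_zpow, map_mul, map_mul, map_inv, h, P.conj, ofAdd_zsmul, map_zpow]

/-- letter of the input word -/
def lw (C : G) (b : ℕ) (v : G) : G :=
  match b with
  | 0 => C * v * C⁻¹ * v⁻¹
  | b + 1 => C ^ (2 ^ b) * v * (C ^ (2 ^ b))⁻¹ * v

theorem map_lw (f : F →* G) (C v : F) (b : ℕ) : f (lw C b v) = lw (f C) b (f v) := by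
  cases b <;> simp [lw]

theorem lw_io (P : Pack G A) (C : G) (b : ℕ) (w : A) :
    lw C b (P.io (.ofAdd w)) = P.io (.ofAdd (aeval (P.al C) (Ph b) w)) := by
  cases b with
  | zero =>
    simp only [lw]
    rw [P.conj, ← map_inv, ← map_mul, ← ofAdd_neg, ← ofAdd_add]
    congr 2
    simp only [Ph, map_sub, aeval_X, map_one]
    exact (sub_eq_add_neg _ _).symm
  | succ b =>
    simp only [lw]
    rw [P.conj, ← map_mul, ← ofAdd_add]
    congr 2
    simp only [Ph, map_add, aeval_X, map_one, map_pow]
    rfl

/-- the input word -/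
def iw (C : G) (l : List ℕ) (v : G) : G := l.foldr (lw C) v

theorem map_iw (f : F →* G) (C v : F) (l : List ℕ) : f (iw C l v) = iw (f C) l (f v) := by
  induction l with
  | nil => rfl
  | cons b l ih =>
    simp only [iw, List.foldr_cons] at ih ⊢
    rw [map_lw, ih]

theorem iw_io (P : Pack G A) (C : G) (l : List ℕ) (w : A) :
    iw C l (P.io (.ofAdd w))
      = P.io (.ofAdd ((l.map fun b => aeval (P.al C) (Ph b)).prod w)) := by
  induction l with
  | nil => rfl
  | cons b l ih =>
    simp only [iw, List.foldr_cons] at ih ⊢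
    rw [ih, lw_io]
    rfl

end Pool.Agent.Helper707.GAct
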