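import Mathlib
import Pool.Agent.Helper707.GAct

/-!
Soundness: a nontrivial input word gives a labelling of the quadrant.
-/

namespace Pool.Agent.Helper707.GSound

open Polynomial Finset Pool.Agent.Helper707.GPoly Pool.Agent.Helper707.GAct

/-- bad patterns from a constraint on four labels -/
def BadOf (R : ℕ) (Q : ℕ → ℕ → ℕ → ℕ → Prop) : Set (Win → Fin (R + 1)) :=
  {a | ¬ (Q (a (0, 0, 0)) (a (1, 0, 0)) (a (0, 1, 0)) (a (1, 1, 0)) ∧
    ∀ d : Fin 4, d ≠ 0 → (a (1, 0, d) : ℕ) = d ∧ (a (0, 1, d) : ℕ) = d)}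

section aux

variable {G A S : Type*} [Group G] [AddCommGroup A] [CommRing S]

open Classical in
/-- sum over bad patterns, in a commutative ring -/
noncomputable def badS (D : Dat G) (K : G → S) (R : ℕ) (Bad : Set (Win → Fin (R + 1))) (t : G) :
    S :=
  ∑ a ∈ univ.filter (fun a => a ∈ Bad), ∏ w : Win, aeval (K (t * D.off w)) (J R (a w))

theorem aux (al : G →* AddMonoid.End A) (φ : S →+* AddMonoid.End A) (D : Dat G)
    (K : G → S) (H : S) {R : ℕ} (Q : ℕ → ℕ → ℕ → ℕ → Prop) (e : A) (hR : 4 ≤ R)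
    (hK1 : ∀ g, K g ^ (2 ^ R) = 1)
    (hK2 : ∀ g g', Abelianization.of g = Abelianization.of g' → K g = K g')
    (r1 : ∀ t, φ (aeval (K (t * D.ga ^ 1)) (J R 1 * U R 1)) (al (t * D.s1) e)
      = φ (aeval (K (t * D.ga ^ 1)) (J R 1 * U R 1)) (al t e))
    (r2 : ∀ t, φ (aeval (K (t * D.ga ^ 2)) (J R 2 * U R 2)) (al (t * D.s2) e)
      = φ (aeval (K (t * D.ga ^ 2)) (J R 2 * U R 2)) (al t e))
    (r3 : ∀ t, φ (aeval (K (t * D.ga ^ 3)) (J R 3 * U R 3))
      (φ (badS D K R (BadOf R Q) t) (al t e)) = 0)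
    (r4 : φ (aeval (K (D.ga ^ 4)) (J R 4 * U R 4)) (φ (2 * H - 1) e) = 0)
    (N s0 : ℕ) (hs0 : s0 ≤ R) (Go : Finset ℕ)
    (hv : φ (aeval (K (D.s2 ^ (N + 1))) (∏ b ∈ range (R + 1) \ Go, Ph b) *
      (aeval (K (D.ga ^ 4)) (J R 4 * U R 4) * aeval (K (D.ga ^ 1)) (J R 1) *
      aeval (K (D.ga ^ 2)) (J R 2) * aeval (K (D.ga ^ 3)) (J R 3) *
      aeval (K 1) (J R s0))) e ≠ 0) :
    ∃ a : ℕ → ℕ → ℕ, (∀ i j, a i j ≤ R) ∧ a 0 0 = s0 ∧ a 0 (N + 1) ∈ Go ∧
      ∀ i j, Q (a i j) (a (i + 1) j) (a i (j + 1)) (a (i + 1) (j + 1)) := by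
  classical
  set y0 := aeval (K (D.s2 ^ (N + 1))) (∏ b ∈ range (R + 1) \ Go, Ph b) with hy0
  set y1 := aeval (K (D.ga ^ 4)) (J R 4 * U R 4) with hy1
  set y2 := aeval (K (D.ga ^ 1)) (J R 1) with hy2
  set y3 := aeval (K (D.ga ^ 2)) (J R 2) with hy3
  set y4 := aeval (K (D.ga ^ 3)) (J R 3) with hy4
  set y5 := aeval (K 1) (J R s0) with hy5
  set Y := y0 * (y1 * y2 * y3 * y4 * y5) with hY
  set V := φ Y e with hV
  let I : Ideal S :=
    { carrier := {s | φ s V = 0}
      add_mem' := by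
        intro a b ha hb
        simp only [Set.mem_ofPred_eq] at ha hb ⊢
        rw [map_add]
        change φ a V + φ b V = 0
        rw [ha, hb, add_zero]
      zero_mem' := by
        simp only [Set.mem_ofPred_eq]
        rw [map_zero]
        rfl
      smul_mem' := by
        intro c a ha
        simp only [Set.mem_ofPred_eq] at ha ⊢
        rw [smul_eq_mul, map_mul]
        change φ c (φ a V) = 0
        rw [ha, map_zero] }
  have hI : I ≠ ⊤ := by
    intro h
    have h1 : (1 : S) ∈ I := by rw [h]; trivial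
    have h2 : φ 1 V = 0 := h1
    rw [map_one] at h2
    exact hv h2
  obtain ⟨M, hM, hIM⟩ := Ideal.exists_le_maximal I hI
  have := hM.isPrime
  set χ := Ideal.Quotient.mk M with hχ
  have hz : ∀ s, φ s V = 0 → χ s = 0 := fun s hs => Ideal.Quotient.eq_zero_iff_mem.2 (hIM hs)
  have hz' : ∀ s r, s * Y = 0 * r → χ s = 0 := by
    intro s r hs
    apply hz
    rw [hV]
    change (φ s * φ Y) e = 0
    rw [← map_mul, hs, zero_mul, map_zero]
    rfl
  have hX : ∀ g, aeval (K g) (X ^ (2 ^ R) - 1 : ℤ[X]) = 0 := by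
    intro g
    simp [hK1]
  -- characteristic
  have h2 : (2 : S ⧸ M) ≠ 0 := by
    have h : χ (2 * H - 1) = 0 := by
      apply hz
      obtain ⟨Z, hZ⟩ : ∃ Z, Y = Z * y1 := ⟨y0 * (y2 * y3 * y4 * y5), by rw [hY]; ring⟩
      rw [hV, hZ]
      change (φ (2 * H - 1) * φ (Z * y1)) e = 0
      rw [← φ.map_mul, show (2 * H - 1) * (Z * y1)
        = Z * (y1 * (2 * H - 1)) by ring, φ.map_mul, φ.map_mul]
      change φ Z (φ y1 (φ (2 * H - 1) e)) = 0
      rw [r4, map_zero]
    intro h0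
    rw [map_sub, map_mul, map_ofNat, map_one, h0, zero_mul, zero_sub, neg_eq_zero] at h
    exact one_ne_zero h
  have hχae : ∀ g p, χ (aeval (K g) p) = aeval (χ (K g)) p := fun g p => map_ae χ (K g) p
  have hroot : ∀ g, ∃ a ≤ R, aeval (χ (K g)) (Ph a) = 0 := by
    intro g
    exact exists_root (by rw [← map_pow, hK1, map_one])
  choose lab hlabR hlab using hroot
  have huniq : ∀ g a, aeval (χ (K g)) (Ph a) = 0 → lab g = a := by
    intro g a ha
    by_contra hne
    exact ne_root h2 ha hne (hlab g)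
  have hlabK : ∀ g g', K g = K g' → lab g = lab g' := by
    intro g g' h
    apply huniq
    rw [h]
    exact hlab g'
  have hJ : ∀ g a, a ≤ R → (∃ Z, Y = Z * aeval (K g) (J R a)) → lab g = a := by
    rintro g a ha ⟨Z, hZ⟩
    apply huniq
    rw [← hχae]
    apply hz' _ 0
    rw [hZ, show aeval (K g) (Ph a) * (Z * aeval (K g) (J R a))
      = Z * (aeval (K g) (Ph a) * aeval (K g) (J R a)) by ring, ← map_mul, Ph_mul_J ha, hX]
    ring
  have l1 : lab (D.ga ^ 1) = 1 := hJ _ _ (by omega) ⟨y0 * (y1 * y3 * y4 * y5), by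
    rw [hY, hy2]; ring⟩
  have l2 : lab (D.ga ^ 2) = 2 := hJ _ _ (by omega) ⟨y0 * (y1 * y2 * y4 * y5), by
    rw [hY, hy3]; ring⟩
  have l3 : lab (D.ga ^ 3) = 3 := hJ _ _ (by omega) ⟨y0 * (y1 * y2 * y3 * y5), by
    rw [hY, hy4]; ring⟩
  have l0 : lab 1 = s0 := hJ _ _ hs0 ⟨y0 * (y1 * y2 * y3 * y4), by
    rw [hY, hy5]; ring⟩
  have lgo : lab (D.s2 ^ (N + 1)) ∈ Go := by
    have h : χ (aeval (K (D.s2 ^ (N + 1))) (∏ b ∈ range (R + 1) ∩ Go, Ph b)) = 0 := by
      apply hz' _ 0
      rw [hY, hy0, ← mul_assoc, ← map_mul, mul_comm (∏ b ∈ range (R + 1) ∩ Go, Ph b)]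
      have : (∏ b ∈ range (R + 1) \ Go, Ph b) * ∏ b ∈ range (R + 1) ∩ Go, Ph b
          = X ^ (2 ^ R) - 1 := by
        rw [← prod_Ph, ← Finset.prod_inter_mul_prod_sdiff (range (R + 1)) Go Ph]
        ring
      rw [this, hX]
      ring
    rw [hχae, map_prod, prod_eq_zero_iff] at h
    obtain ⟨b, hb, h⟩ := h
    rw [huniq _ _ h]
    exact (mem_inter.1 hb).2
  -- the induction
  let P : G → Prop := fun t => ∃ s r : S, χ s ≠ 0 ∧ φ s V = φ r (al t e) ∧
    ∀ d : Fin 4, d ≠ 0 → lab (t * D.ga ^ (d : ℕ)) = d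
  have comm : ∀ (a b : S) (x : A), φ a (φ b x) = φ b (φ a x) := by
    intro a b x
    change (φ a * φ b) x = (φ b * φ a) x
    rw [← map_mul, ← map_mul, mul_comm]
  have P1 : P 1 := by
    refine ⟨1, Y, ?_, ?_, ?_⟩
    · rw [map_one]; exact one_ne_zero
    · rw [map_one, map_one]; rfl
    · intro d hd
      rw [one_mul]
      fin_cases d
      · exact absurd rfl hd
      · exact l1
      · exact l2
      · exact l3
  have good : ∀ t, P t → (fun w : Win => (⟨lab (t * D.off w), by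
      have := hlabR (t * D.off w); omega⟩ : Fin (R + 1))) ∉ BadOf R Q := by
    rintro t ⟨s, r, hs, hsr, hd⟩ hbad
    have h3 : χ (aeval (K (t * D.ga ^ 3)) (J R 3 * U R 3) * badS D K R (BadOf R Q) t * s) = 0 := by
      apply hz
      rw [φ.map_mul, φ.map_mul]
      change φ (aeval (K (t * D.ga ^ 3)) (J R 3 * U R 3)) (φ (badS D K R (BadOf R Q) t)
        (φ s V)) = 0
      rw [hsr, comm _ r, comm _ r, r3, map_zero]
    rw [map_mul, map_mul, hχae, map_mul] at h3
    have hl3 : aeval (χ (K (t * D.ga ^ 3))) (Ph 3) = 0 := by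
      have h1 := hlab (t * D.ga ^ 3)
      have h2 : lab (t * D.ga ^ 3) = 3 := hd 3 (by decide)
      rw [h2] at h1
      exact h1
    have hn := mul_ne_zero (J_ne (R := R) h2 hl3) (U_ne (R := R) h2 hl3)
    rcases mul_eq_zero.1 h3 with h4 | h4
    · rcases mul_eq_zero.1 h4 with h5 | h5
      · exact hn h5
      · rw [badS, map_sum, Finset.sum_eq_single_of_mem _ (by
          simp only [mem_filter, mem_univ, true_and]; exact hbad), map_prod,
          prod_eq_zero_iff] at h5
        · obtain ⟨w, _, h6⟩ := h5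
          rw [hχae] at h6
          exact J_ne h2 (hlab (t * D.off w)) h6
        · intro a _ hne
          rw [map_prod, prod_eq_zero_iff]
          by_contra hcon
          apply hne
          funext w
          apply Fin.ext
          by_contra hne'
          exact hcon ⟨w, mem_univ _, by
            rw [hχae]
            exact J_eq (hlab (t * D.off w)) (hlabR _) hne'⟩
    · exact hs h4
  have Ps1 : ∀ t, P t → P (t * D.s1) := by
    intro t ht
    have hg := good t ht
    obtain ⟨s, r, hs, hsr, hd⟩ := ht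
    have hl1 : aeval (χ (K (t * D.ga ^ 1))) (Ph 1) = 0 := by
      have h1 := hlab (t * D.ga ^ 1)
      have h2 : lab (t * D.ga ^ 1) = 1 := hd 1 (by decide)
      rw [h2] at h1
      exact h1
    refine ⟨aeval (K (t * D.ga ^ 1)) (J R 1 * U R 1) * s,
      r * aeval (K (t * D.ga ^ 1)) (J R 1 * U R 1), ?_, ?_, ?_⟩
    · rw [map_mul, hχae, map_mul]
      exact mul_ne_zero (mul_ne_zero (J_ne h2 hl1) (U_ne h2 hl1)) hs
    · rw [φ.map_mul, φ.map_mul]
      change φ (aeval (K (t * D.ga ^ 1)) (J R 1 * U R 1)) (φ s V)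
        = φ r (φ (aeval (K (t * D.ga ^ 1)) (J R 1 * U R 1)) (al (t * D.s1) e))
      rw [hsr, r1, comm]
    · intro d hdd
      rw [BadOf, Set.mem_ofPred_eq, not_not] at hg
      have h1 := (hg.2 d hdd).1
      have h2 : t * D.s1 * D.ga ^ (d : ℕ) = t * D.off (1, 0, d) := by simp [Dat.off, mul_assoc]
      rw [h2]
      exact h1
  have Ps2 : ∀ t, P t → P (t * D.s2) := by
    intro t ht
    have hg := good t ht
    obtain ⟨s, r, hs, hsr, hd⟩ := ht
    have hl2 : aeval (χ (K (t * D.ga ^ 2))) (Ph 2) = 0 := by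
      have h1 := hlab (t * D.ga ^ 2)
      have h2 : lab (t * D.ga ^ 2) = 2 := hd 2 (by decide)
      rw [h2] at h1
      exact h1
    refine ⟨aeval (K (t * D.ga ^ 2)) (J R 2 * U R 2) * s,
      r * aeval (K (t * D.ga ^ 2)) (J R 2 * U R 2), ?_, ?_, ?_⟩
    · rw [map_mul, hχae, map_mul]
      exact mul_ne_zero (mul_ne_zero (J_ne h2 hl2) (U_ne h2 hl2)) hs
    · rw [φ.map_mul, φ.map_mul]
      change φ (aeval (K (t * D.ga ^ 2)) (J R 2 * U R 2)) (φ s V)
        = φ r (φ (aeval (K (t * D.ga ^ 2)) (J R 2 * U R 2)) (al (t * D.s2) e))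
      rw [hsr, r2, comm]
    · intro d hdd
      rw [BadOf, Set.mem_ofPred_eq, not_not] at hg
      have h1 := (hg.2 d hdd).2
      have h2 : t * D.s2 * D.ga ^ (d : ℕ) = t * D.off (0, 1, d) := by simp [Dat.off, mul_assoc]
      rw [h2]
      exact h1
  have Pj : ∀ j, P (D.s2 ^ j) := by
    intro j
    induction j with
    | zero => rw [pow_zero]; exact P1
    | succ j ih => rw [pow_succ]; exact Ps2 _ ih
  have Pij : ∀ j i, P (D.s2 ^ j * D.s1 ^ i) := by
    intro j i
    induction i with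
    | zero => rw [pow_zero, mul_one]; exact Pj j
    | succ i ih => rw [pow_succ, ← mul_assoc]; exact Ps1 _ ih
  refine ⟨fun i j => lab (D.s2 ^ j * D.s1 ^ i), fun i j => hlabR _, ?_, ?_, ?_⟩
  · simp only [pow_zero, mul_one]
    exact l0
  · simp only [pow_zero, mul_one]
    exact lgo
  · intro i j
    have hg := good _ (Pij j i)
    rw [BadOf, Set.mem_ofPred_eq, not_not] at hg
    have h := hg.1
    have e : ∀ x y : Fin 2, lab (D.s2 ^ j * D.s1 ^ i * D.off (x, y, 0))
        = lab (D.s2 ^ (j + y) * D.s1 ^ (i + x)) := by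
      intro x y
      apply hlabK
      apply hK2
      simp only [Dat.off, map_mul, map_pow, pow_add]
      simp only [Fin.val_zero, pow_zero, mul_one]
      ac_rfl
    simp only [e] at h
    simpa using h

end aux

theorem exists_comm.{u} {E : Type u} [Ring E] (s : Set E)
    (h : ∀ x ∈ s, ∀ y ∈ s, x * y = y * x) :
    ∃ (S : Type u) (_ : CommRing S) (φ : S →+* E), Function.Injective φ ∧
      ∀ x ∈ s, ∃ y, φ y = x :=
  ⟨Subring.closure s, Subring.closureCommRingOfComm h, Subring.subtype _,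
    Subring.subtype_injective _, fun x hx => ⟨⟨x, Subring.subset_closure hx⟩, rfl⟩⟩

section

variable {E : Type*} [Ring E]

theorem sc_ae {a x y : E} (h : a * x = y * a) (p : ℤ[X]) : a * aeval x p = aeval y p * a := by
  have hp : ∀ n : ℕ, a * x ^ n = y ^ n * a := by
    intro n
    induction n with
    | zero => simp
    | succ n ih => rw [pow_succ, pow_succ, ← mul_assoc, ih, mul_assoc, h, mul_assoc]
  induction p using Polynomial.induction_on' with
  | add p q hp hq => rw [map_add, map_add, mul_add, add_mul, hp, hq]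
  | monomial n c =>
    rw [aeval_monomial, aeval_monomial, ← mul_assoc, ← Algebra.commutes, mul_assoc, hp, mul_assoc]

theorem sc_list {ι : Type*} {a : E} {f g : ι → E} (h : ∀ w, a * f w = g w * a) (l : List ι) :
    a * (l.map f).prod = (l.map g).prod * a := by
  induction l with
  | nil => simp
  | cons w l ih => rw [List.map_cons, List.map_cons, List.prod_cons, List.prod_cons, ← mul_assoc,
      h, mul_assoc, ih, mul_assoc]

variable {G : Type*} [Group G] (al : G →* E) (D : Dat G) {R : ℕ} (Bad : Set (Win → Fin (R + 1)))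

theorem sc_cj (g x : G) : al g * al (D.cj x) = al (D.cj (g * x)) * al g := by
  rw [← map_mul, ← map_mul]
  congr 1
  simp only [Dat.cj]
  group

theorem sc_bad (t : G) : al t * bad R Bad al D 1 = bad R Bad al D t * al t := by
  unfold bad
  rw [mul_sum, sum_mul]
  refine Finset.sum_congr rfl fun a _ => ?_
  refine sc_list (fun w => ?_) _
  refine sc_ae ?_ _
  rw [one_mul]
  exact sc_cj al D t _

theorem ae_zero {x : E} (hx : x ^ (2 ^ R) = 1) {p : ℤ[X]} (hp : X ^ (2 ^ R) - 1 ∣ p) :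
    aeval x p = 0 := by
  obtain ⟨q, rfl⟩ := hp
  rw [map_mul]
  simp [hx]

end

section

variable {G A : Type*} [Group G] [AddCommGroup A] (al : G →* AddMonoid.End A) (D : Dat G) {R : ℕ}
  (Bad : Set (Win → Fin (R + 1))) (e : A)

theorem key_rel (hR : 4 ≤ R) (hm : al D.c ^ (2 ^ R) = 1)
    (hθ : al D.c (rel R Bad al D e) = rel R Bad al D e) (t : G) {d : ℕ} (hd : d ∈ sw) :
    aeval (al (D.cj (t * D.ga ^ d))) (J R d * U R d) ((al t * rho R Bad al D d) e) = 0 := by
  have hd0 : d ≠ 0 := by rintro rfl; simp [sw] at hd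
  have hdR : d ≤ R := by
    simp only [sw, mem_insert, mem_singleton] at hd
    omega
  have h1 : aeval (al D.c) (J R d) (rel R Bad al D e) = 0 := by
    rw [← Ph_mul_U hd0, mul_comm, map_mul]
    change aeval (al D.c) (U R d) (aeval (al D.c) (Ph 0) (rel R Bad al D e)) = 0
    have : aeval (al D.c) (Ph 0) (rel R Bad al D e) = 0 := by
      simp only [Ph, map_sub, aeval_X, map_one]
      change al D.c (rel R Bad al D e) - rel R Bad al D e = 0
      rw [hθ, sub_self]
    rw [this, map_zero]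
  have h2 : aeval (al D.c) (J R d) * rel R Bad al D
      = aeval (al D.c) (J R d * U R d) * al ((D.ga ^ d)⁻¹) * rho R Bad al D d := by
    unfold rel
    rw [mul_sum, Finset.sum_eq_single_of_mem d hd]
    · rw [← mul_assoc, ← mul_assoc, map_mul]
    · intro b _ hb
      rw [← mul_assoc, ← mul_assoc, ← map_mul, ae_zero hm (dvd_J_mul_U hb.symm hd0 hdR), zero_mul,
        zero_mul]
  have h3 : (aeval (al D.c) (J R d) * rel R Bad al D) e = 0 := h1
  have h4 : aeval (al (D.cj (t * D.ga ^ d))) (J R d * U R d) * (al t * rho R Bad al D d)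
      = al (t * D.ga ^ d) * (aeval (al D.c) (J R d) * rel R Bad al D) := by
    rw [h2]
    have h5 := sc_ae (sc_cj al D (t * D.ga ^ d) 1) (J R d * U R d)
    rw [mul_one] at h5
    have h6 : D.cj 1 = D.c := by simp [Dat.cj]
    rw [h6] at h5
    rw [← mul_assoc, ← mul_assoc, ← mul_assoc, h5]
    congr 1
    rw [mul_assoc, ← map_mul]
    congr 2
    group
  change (aeval (al (D.cj (t * D.ga ^ d))) (J R d * U R d) * (al t * rho R Bad al D d)) e = 0
  rw [h4]
  change al (t * D.ga ^ d) ((aeval (al D.c) (J R d) * rel R Bad al D) e) = 0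
  rw [h3, map_zero]

theorem sound (Q : ℕ → ℕ → ℕ → ℕ → Prop) (hR : 4 ≤ R)
    (hc : D.c ∈ commutator G) (hh : D.h ∈ commutator G)
    (hcomm : ∀ g ∈ commutator G, ∀ g' ∈ commutator G, al g * al g' = al g' * al g)
    (hm : al D.c ^ (2 ^ R) = 1)
    (hθ : al D.c (rel R (BadOf R Q) al D e) = rel R (BadOf R Q) al D e)
    (N s0 : ℕ) (hs0 : s0 ≤ R) (Go : Finset ℕ)
    (hv : inp al D (range (R + 1) \ Go).toList N (seed R al D s0 e) ≠ 0) :
    ∃ a : ℕ → ℕ → ℕ, (∀ i j, a i j ≤ R) ∧ a 0 0 = s0 ∧ a 0 (N + 1) ∈ Go ∧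
      ∀ i j, Q (a i j) (a (i + 1) j) (a i (j + 1)) (a (i + 1) (j + 1)) := by
  obtain ⟨S, _, φ, hφ, hS⟩ := exists_comm (al '' commutator G) (by
    rintro _ ⟨g, hg, rfl⟩ _ ⟨g', hg', rfl⟩
    exact hcomm g hg g' hg')
  have hcj : ∀ g, D.cj g ∈ commutator G := fun g =>
    Subgroup.Normal.conj_mem inferInstance _ hc g
  have hK : ∀ g, ∃ y, φ y = al (D.cj g) := fun g => hS _ ⟨_, hcj g, rfl⟩
  choose K hφK using hK
  obtain ⟨H, hφH⟩ := hS _ ⟨_, hh, rfl⟩
  have hφae : ∀ g (p : ℤ[X]), φ (aeval (K g) p) = aeval (al (D.cj g)) p := by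
    intro g p
    rw [map_ae, hφK]
  have hφb : ∀ t, φ (badS D K R (BadOf R Q) t) = bad R (BadOf R Q) al D t := by
    intro t
    unfold badS bad
    rw [map_sum]
    refine Finset.sum_congr rfl fun a _ => ?_
    rw [← Finset.prod_map_toList, map_list_prod, List.map_map]
    simp only [Function.comp_def, hφae]
  have key := fun t d hd => key_rel al D (BadOf R Q) e hR hm hθ t (d := d) hd
  refine aux al φ D K H Q e hR ?_ ?_ ?_ ?_ ?_ ?_ N s0 hs0 Go ?_
  · intro g
    apply hφ
    rw [map_pow, hφK, map_one]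
    simp only [Dat.cj]
    have : ∀ n : ℕ, al (g * D.c * g⁻¹) ^ n = al g * al D.c ^ n * al g⁻¹ := by
      intro n
      rw [← map_pow, ← map_pow, ← map_mul, ← map_mul]
      congr 1
      rw [← conj_pow]
    rw [this, hm, mul_one, ← map_mul, mul_inv_cancel, map_one]
  · intro g g' hgg
    apply hφ
    rw [hφK, hφK]
    have hx : g' * g⁻¹ ∈ commutator G := by
      rw [← Abelianization.ker_of, MonoidHom.mem_ker, map_mul, map_inv, hgg, mul_inv_cancel]
    have h1 := sc_cj al D (g' * g⁻¹) g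
    rw [inv_mul_cancel_right, hcomm _ hx _ (hcj g)] at h1
    have h2 : al (g' * g⁻¹) * al (g' * g⁻¹)⁻¹ = 1 := by
      rw [← map_mul, mul_inv_cancel, map_one]
    calc al (D.cj g) = al (D.cj g) * (al (g' * g⁻¹) * al (g' * g⁻¹)⁻¹) := by rw [h2, mul_one]
      _ = al (D.cj g') * (al (g' * g⁻¹) * al (g' * g⁻¹)⁻¹) := by
        rw [← mul_assoc, h1, mul_assoc]
      _ = al (D.cj g') := by rw [h2, mul_one]
  · intro t
    have h := key t 1 (by simp [sw])
    rw [show (al t * rho R (BadOf R Q) al D 1) = al (t * D.s1) - al t by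
      rw [rho, if_pos rfl, mul_sub, mul_one, map_mul]] at h
    rw [hφae, ← sub_eq_zero, ← map_sub]
    exact h
  · intro t
    have h := key t 2 (by simp [sw])
    rw [show (al t * rho R (BadOf R Q) al D 2) = al (t * D.s2) - al t by
      rw [rho, if_neg (by decide), if_pos rfl, mul_sub, mul_one, map_mul]] at h
    rw [hφae, ← sub_eq_zero, ← map_sub]
    exact h
  · intro t
    have h := key t 3 (by simp [sw])
    rw [show (al t * rho R (BadOf R Q) al D 3) = bad R (BadOf R Q) al D t * al t by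
      rw [rho, if_neg (by decide), if_neg (by decide), if_pos rfl, sc_bad]] at h
    rw [hφae, hφb]
    exact h
  · have h := key 1 4 (by simp [sw])
    rw [rho, if_neg (by decide), if_neg (by decide), if_neg (by decide), map_one, one_mul,
      one_mul] at h
    have h5 : φ (2 * H - 1) = 2 * al D.h - 1 := by
      rw [map_sub, map_mul, map_one, hφH, show (2 : S) = 1 + 1 by norm_num, map_add, map_one,
        one_add_one_eq_two]
    rw [hφae, h5]
    exact h
  · intro h0
    apply hv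
    rw [φ.map_mul, φ.map_mul, φ.map_mul, φ.map_mul, φ.map_mul, hφae, hφae, hφae, hφae, hφae,
      hφae] at h0
    rw [← h0]
    have h1 : inp al D (range (R + 1) \ Go).toList N
        = aeval (al (D.cj (D.s2 ^ (N + 1)))) (∏ b ∈ range (R + 1) \ Go, Ph b) := by
      rw [inp, ← Finset.prod_map_toList, map_list_prod, List.map_map]
      rfl
    rw [h1]
    rfl

end

end Pool.Agent.Helper707.GSound
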