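import Mathlib
import Pool.Agent.Helper707.GSound

/-!
The relator and the input words in the free group, and soundness for them.
-/

namespace Pool.Agent.Helper707.GWord

open Polynomial Finset Pool.Agent.Helper707.GPoly Pool.Agent.Helper707.GAct
  Pool.Agent.Helper707.GSound
open scoped commutatorElement

/-- the free group -/
abbrev F7 := FreeGroup (Fin 7)

/-- the data in the free group -/
def dat : Dat F7 where
  c := ⁅(FreeGroup.of 0 : F7), (FreeGroup.of 1 : F7)⁆
  h := ⁅(FreeGroup.of 0 : F7), (FreeGroup.of 2 : F7)⁆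
  s1 := FreeGroup.of 4
  s2 := FreeGroup.of 5
  ga := FreeGroup.of 6

/-- the basic element of the second derived subgroup -/
def ee : F7 := ⁅⁅(FreeGroup.of 0 : F7), (FreeGroup.of 3 : F7)⁆, ⁅(FreeGroup.of 0 : F7), (FreeGroup.of 2 : F7)⁆⁆

/-- the relator -/
noncomputable def relator (R : ℕ) (Bad : Set (Win → Fin (R + 1))) : F7 :=
  dat.c ^ (2 ^ R) * act (rel R Bad (MonoidAlgebra.of ℤ F7) dat) ee

/-- the seed word -/
noncomputable def seedW (R s0 : ℕ) : F7 := act (seed R (MonoidAlgebra.of ℤ F7) dat s0) ee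

/-- the input word -/
noncomputable def inputW (R s0 : ℕ) (l : List ℕ) (N : ℕ) : F7 :=
  iw (dat.cj (dat.s2 ^ (N + 1))) l (seedW R s0)

section

variable {G A : Type*} [Group G] [AddCommGroup A] (P : Pack G A) (Ψ : F7 →* G) {w : A}
  (hw : Ψ ee = P.io (.ofAdd w)) {R : ℕ}

theorem lift_comp_of {E : Type*} [Ring E] (al : F7 →* E) :
    (((MonoidAlgebra.lift ℤ E F7 al : MonoidAlgebra ℤ F7 →ₐ[ℤ] E) :
      MonoidAlgebra ℤ F7 →+* E) : MonoidAlgebra ℤ F7 →* E).comp (MonoidAlgebra.of ℤ F7) = al := by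
  ext x
  simp

include hw in
theorem relator_eval (Bad : Set (Win → Fin (R + 1))) : Ψ (relator R Bad)
    = Ψ dat.c ^ (2 ^ R) * P.io (.ofAdd (rel R Bad P.al (dat.map Ψ) w)) := by
  rw [relator, map_mul, map_pow, map_act P Ψ _ _ w hw]
  congr 4
  have := map_rel (R := R) (Bad := Bad) (al := MonoidAlgebra.of ℤ F7) (D := dat)
    ((MonoidAlgebra.lift ℤ (AddMonoid.End A) F7 (P.al.comp Ψ) :
      MonoidAlgebra ℤ F7 →ₐ[ℤ] AddMonoid.End A) : MonoidAlgebra ℤ F7 →+* AddMonoid.End A)
  rw [lift_comp_of, comp_rel] at this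
  rw [← this]
  rfl

include hw in
theorem seed_eval (s0 : ℕ) : Ψ (seedW R s0) = P.io (.ofAdd (seed R P.al (dat.map Ψ) s0 w)) := by
  rw [seedW, map_act P Ψ _ _ w hw]
  congr 3
  have := map_seed (R := R) (al := MonoidAlgebra.of ℤ F7) (D := dat)
    ((MonoidAlgebra.lift ℤ (AddMonoid.End A) F7 (P.al.comp Ψ) :
      MonoidAlgebra ℤ F7 →ₐ[ℤ] AddMonoid.End A) : MonoidAlgebra ℤ F7 →+* AddMonoid.End A) s0
  rw [lift_comp_of, comp_seed] at this
  rw [← this]
  rfl

include hw in
theorem input_eval (s0 : ℕ) (l : List ℕ) (N : ℕ) : Ψ (inputW R s0 l N)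
    = P.io (.ofAdd (inp P.al (dat.map Ψ) l N (seed R P.al (dat.map Ψ) s0 w))) := by
  rw [inputW, map_iw, seed_eval P Ψ hw, iw_io, ← map_cj, map_pow]
  rfl

end

theorem exists_pack.{u} {G : Type u} [Group G] (h : derivedSeries G 3 = ⊥) :
    ∃ (A : Type u) (_ : AddCommGroup A) (P : Pack G A), Function.Injective P.io ∧
      (∀ x ∈ derivedSeries G 2, ∃ a, P.io (.ofAdd a) = x) ∧
      ∀ a, P.io a ∈ derivedSeries G 2 := by
  have hc : ∀ a b : derivedSeries G 2, a * b = b * a := by
    intro a b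
    have h1 : ⁅(a : G), (b : G)⁆ ∈ derivedSeries G 3 := by
      rw [derivedSeries_succ]
      exact Subgroup.commutator_mem_commutator a.2 b.2
    rw [h, Subgroup.mem_bot, commutatorElement_eq_one_iff_mul_comm] at h1
    exact Subtype.ext h1
  let i : CommGroup (derivedSeries G 2) := { (inferInstance : Group (derivedSeries G 2)) with
    mul_comm := hc }
  refine ⟨Additive (derivedSeries G 2), inferInstance,
    { al := { toFun := fun g => MonoidHom.toAdditive (MulAut.conjNormal g).toMonoidHom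
              map_one' := by
                apply AddMonoidHom.ext
                intro x
                change MulAut.conjNormal (1 : G) x.toMul = x.toMul
                rw [map_one]; rfl
              map_mul' := by
                intro a b
                apply AddMonoidHom.ext
                intro x
                change MulAut.conjNormal (a * b) x.toMul
                  = MulAut.conjNormal a (MulAut.conjNormal b x.toMul)
                rw [map_mul]; rfl }
      io := { toFun := fun a => ((Multiplicative.toAdd a).toMul : derivedSeries G 2)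
              map_one' := rfl
              map_mul' := fun _ _ => rfl }
      conj := ?_ }, ?_, ?_, ?_⟩
  · intro g a
    exact (MulAut.conjNormal_apply g a.toMul).symm
  · intro a b hab
    exact Subtype.ext hab
  · intro x hx
    exact ⟨Additive.ofMul ⟨x, hx⟩, rfl⟩
  · intro a
    exact ((Multiplicative.toAdd a).toMul).2

theorem sound_gen {G : Type*} [Group G] (h3 : derivedSeries G 3 = ⊥) (Ψ : F7 →* G)
    (hΨ : Function.Surjective Ψ)
    (R : ℕ) (Q : ℕ → ℕ → ℕ → ℕ → Prop) (hR : 4 ≤ R) (N s0 : ℕ) (hs0 : s0 ≤ R)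
    (Go : Finset ℕ) (hr : Ψ (relator R (BadOf R Q)) = 1)
    (hv : Ψ (inputW R s0 (range (R + 1) \ Go).toList N) ≠ 1) :
    ∃ a : ℕ → ℕ → ℕ, (∀ i j, a i j ≤ R) ∧ a 0 0 = s0 ∧ a 0 (N + 1) ∈ Go ∧
      ∀ i j, Q (a i j) (a (i + 1) j) (a i (j + 1)) (a (i + 1) (j + 1)) := by
  obtain ⟨A, _, P, hinj, hsurj, hio⟩ := exists_pack h3
  have h1 : ∀ x y : F7, ⁅x, y⁆ ∈ derivedSeries F7 1 := by
    intro x y
    rw [derivedSeries_succ, derivedSeries_zero]
    exact Subgroup.commutator_mem_commutator (Subgroup.mem_top _) (Subgroup.mem_top _)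
  have hee : ee ∈ derivedSeries F7 2 := by
    rw [derivedSeries_succ]
    exact Subgroup.commutator_mem_commutator (h1 _ _) (h1 _ _)
  have hmem : ∀ (n : ℕ) (x : F7), x ∈ derivedSeries F7 n → Ψ x ∈ derivedSeries G n := by
    intro n x hx
    rw [← map_derivedSeries_eq hΨ n]
    exact Subgroup.mem_map_of_mem _ hx
  obtain ⟨w, hw⟩ := hsurj _ (hmem 2 _ hee)
  have hcomm1 : ∀ x ∈ derivedSeries G 2, P.al x = 1 := by
    intro x hx
    apply AddMonoidHom.ext
    intro a
    have h1 : x * P.io (.ofAdd a) * x⁻¹ = P.io (.ofAdd a) := by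
      have h2 : ⁅x, P.io (.ofAdd a)⁆ ∈ derivedSeries G 3 := by
        rw [derivedSeries_succ]
        exact Subgroup.commutator_mem_commutator hx (hio _)
      rw [h3, Subgroup.mem_bot, commutatorElement_eq_one_iff_mul_comm] at h2
      rw [h2, mul_inv_cancel_right]
    rw [P.conj] at h1
    exact hinj h1
  have hcomm : ∀ g ∈ commutator G, ∀ g' ∈ commutator G,
      P.al g * P.al g' = P.al g' * P.al g := by
    intro g hg g' hg'
    have h1 : P.al ⁅g, g'⁆ = 1 := by
      apply hcomm1
      rw [derivedSeries_succ, derivedSeries_one]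
      exact Subgroup.commutator_mem_commutator hg hg'
    have h2 : g * g' = ⁅g, g'⁆ * (g' * g) := by
      rw [commutatorElement_def]; group
    rw [← map_mul, h2, map_mul, h1, one_mul, map_mul]
  rw [relator_eval P Ψ hw.symm] at hr
  set T := rel R (BadOf R Q) P.al (dat.map Ψ) w with hT
  have hcT : P.al (Ψ dat.c) T = T := by
    apply Multiplicative.ofAdd.injective
    apply hinj
    rw [← P.conj, eq_inv_of_mul_eq_one_right hr]
    group
  have hcm : P.al (Ψ dat.c) ^ (2 ^ R) = 1 := by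
    rw [← map_pow]
    apply hcomm1
    rw [eq_inv_of_mul_eq_one_left hr]
    exact inv_mem (hio _)
  refine sound P.al (dat.map Ψ) w Q hR ?_ ?_ hcomm hcm hcT N s0 hs0 Go ?_
  · rw [← derivedSeries_one]
    exact hmem 1 _ (h1 _ _)
  · rw [← derivedSeries_one]
    exact hmem 1 _ (h1 _ _)
  · intro h0
    apply hv
    rw [input_eval P Ψ hw.symm, h0]
    exact map_one _

theorem sound_word (R : ℕ) (Q : ℕ → ℕ → ℕ → ℕ → Prop) (hR : 4 ≤ R) (N s0 : ℕ) (hs0 : s0 ≤ R)
    (Go : Finset ℕ)
    (hv : inputW R s0 (range (R + 1) \ Go).toList N ∉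
      derivedSeries F7 3 ⊔ Subgroup.normalClosure {relator R (BadOf R Q)}) :
    ∃ a : ℕ → ℕ → ℕ, (∀ i j, a i j ≤ R) ∧ a 0 0 = s0 ∧ a 0 (N + 1) ∈ Go ∧
      ∀ i j, Q (a i j) (a (i + 1) j) (a i (j + 1)) (a (i + 1) (j + 1)) := by
  set M := derivedSeries F7 3 ⊔ Subgroup.normalClosure {relator R (BadOf R Q)} with hM
  have hΨ : Function.Surjective (QuotientGroup.mk' M) := QuotientGroup.mk'_surjective M
  refine sound_gen ?_ (QuotientGroup.mk' M) hΨ R Q hR N s0 hs0 Go ?_ ?_
  · rw [← map_derivedSeries_eq hΨ 3, eq_bot_iff, Subgroup.map_le_iff_le_comap]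
    intro x hx
    rw [Subgroup.mem_comap, Subgroup.mem_bot]
    exact (QuotientGroup.eq_one_iff x).2 (Subgroup.mem_sup_left hx)
  · exact (QuotientGroup.eq_one_iff _).2
      (Subgroup.mem_sup_right (Subgroup.subset_normalClosure (Set.mem_singleton _)))
  · intro h0
    exact hv ((QuotientGroup.eq_one_iff _).1 h0)

end Pool.Agent.Helper707.GWord
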