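import Mathlib
import Pool.Agent.Helper707.GWord

/-!
The model: a labelling of the plane makes the input word nontrivial.
-/

namespace Pool.Agent.Helper707.GModel

open Polynomial Finset Pool.Agent.Helper707.GPoly Pool.Agent.Helper707.GAct
  Pool.Agent.Helper707.GSound Pool.Agent.Helper707.GWord
open scoped commutatorElement

/-- the lattice -/
abbrev La := ℤ × ℤ × ℤ × ℤ

/-- translations, diagonal maps and shifts -/
@[ext] structure Tr where
  /-- translation -/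
  u : La → ℂ
  /-- diagonal -/
  f : La → ℂˣ
  /-- shift -/
  l : La

namespace Tr

instance : Mul Tr := ⟨fun a b => ⟨fun x => a.u x + a.f x * b.u (x - a.l),
  fun x => a.f x * b.f (x - a.l), a.l + b.l⟩⟩
instance : One Tr := ⟨⟨0, 1, 0⟩⟩
instance : Inv Tr := ⟨fun a => ⟨fun x => -(((a.f (x + a.l))⁻¹ : ℂˣ) * a.u (x + a.l)),
  fun x => (a.f (x + a.l))⁻¹, -a.l⟩⟩

theorem mul_u (a b : Tr) (x : La) : (a * b).u x = a.u x + a.f x * b.u (x - a.l) := rfl
theorem mul_f (a b : Tr) (x : La) : (a * b).f x = a.f x * b.f (x - a.l) := rfl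
theorem mul_l (a b : Tr) : (a * b).l = a.l + b.l := rfl
theorem one_u (x : La) : (1 : Tr).u x = 0 := rfl
theorem one_f (x : La) : (1 : Tr).f x = 1 := rfl
theorem one_l : (1 : Tr).l = 0 := rfl
theorem inv_u (a : Tr) (x : La) :
    (a⁻¹).u x = -(((a.f (x + a.l))⁻¹ : ℂˣ) * a.u (x + a.l)) := rfl
theorem inv_f (a : Tr) (x : La) : (a⁻¹).f x = (a.f (x + a.l))⁻¹ := rfl
theorem inv_l (a : Tr) : (a⁻¹).l = -a.l := rfl

instance : Group Tr := Group.ofLeftAxioms
  (by
    intro a b c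
    refine Tr.ext ?_ ?_ ?_
    · funext x
      simp only [mul_u, mul_f, mul_l, Units.val_mul, sub_sub]
      ring
    · funext x
      simp only [mul_f, mul_l, sub_sub, mul_assoc]
    · simp only [mul_l, add_assoc])
  (by
    intro a
    refine Tr.ext ?_ ?_ ?_
    · funext x
      simp [mul_u, one_u, one_f, one_l]
    · funext x
      simp [mul_f, one_f, one_l]
    · simp [mul_l, one_l])
  (by
    intro a
    refine Tr.ext ?_ ?_ ?_
    · funext x
      simp [mul_u, one_u, inv_u, inv_f, inv_l]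
    · funext x
      simp [mul_f, one_f, inv_f, inv_l]
    · simp [mul_l, one_l, inv_l])

end Tr

open Tr

/-- projection to the shift -/
def lH : Tr →* Multiplicative La where
  toFun a := .ofAdd a.l
  map_one' := rfl
  map_mul' _ _ := rfl

theorem pow_l (a : Tr) (n : ℕ) : (a ^ n).l = n • a.l := by
  have := map_pow lH a n
  exact this

theorem conj_l (g c : Tr) (hc : c.l = 0) : (g * c * g⁻¹).l = 0 := by
  simp [mul_l, inv_l, hc]

theorem conj_f (g c : Tr) (hc : c.l = 0) (x : La) : (g * c * g⁻¹).f x = c.f (x - g.l) := by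
  simp only [mul_f, mul_l, inv_f, hc, add_zero, sub_add_cancel]
  rw [mul_comm, inv_mul_cancel_left]

/-- level two -/
def K2 : Subgroup Tr where
  carrier := {a | (∀ x, a.f x = 1) ∧ a.l = 0}
  mul_mem' := by
    intro a b ha hb
    refine ⟨fun x => ?_, ?_⟩
    · rw [mul_f, ha.1, hb.1, one_mul]
    · rw [mul_l, ha.2, hb.2, add_zero]
  one_mem' := ⟨fun _ => rfl, rfl⟩
  inv_mem' := by
    intro a ha
    refine ⟨fun x => ?_, ?_⟩
    · rw [inv_f, ha.1, inv_one]
    · rw [inv_l, ha.2, neg_zero]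

theorem mem_K2 (a : Tr) : a ∈ K2 ↔ (∀ x, a.f x = 1) ∧ a.l = 0 := Iff.rfl

theorem derived_le : derivedSeries Tr 3 = ⊥ := by
  have h1 : derivedSeries Tr 1 ≤ lH.ker := by
    rw [derivedSeries_one]
    exact Abelianization.commutator_subset_ker lH
  have h2 : derivedSeries Tr 2 ≤ K2 := by
    rw [derivedSeries_succ, Subgroup.commutator_le]
    intro a ha b hb
    have ha' : a.l = 0 := h1 ha
    have hb' : b.l = 0 := h1 hb
    rw [commutatorElement_def, mem_K2]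
    refine ⟨fun x => ?_, ?_⟩
    · simp only [mul_f, mul_l, inv_f, inv_l, ha', hb', sub_zero, add_zero, neg_zero]
      rw [mul_comm (a.f x), mul_assoc, mul_assoc, mul_inv_cancel_left, mul_inv_cancel]
    · simp only [mul_l, inv_l, ha', hb', add_zero, neg_zero]
  rw [eq_bot_iff, derivedSeries_succ, Subgroup.commutator_le]
  intro a ha b hb
  obtain ⟨ha1, ha2⟩ := h2 ha
  obtain ⟨hb1, hb2⟩ := h2 hb
  rw [Subgroup.mem_bot, commutatorElement_eq_one_iff_mul_comm]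
  refine Tr.ext ?_ ?_ ?_
  · funext x
    simp only [mul_u, ha1, hb1, ha2, hb2, sub_zero, Units.val_one, one_mul]
    ring
  · funext x
    simp only [mul_f, ha1, hb1]
  · simp only [mul_l, ha2, hb2]

/-- the package of the model -/
def pk : Pack Tr (La → ℂ) where
  al :=
    { toFun := fun g =>
        { toFun := fun v x => g.f x * v (x - g.l)
          map_zero' := by funext x; simp
          map_add' := by intro v w; funext x; simp [mul_add] }
      map_one' := by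
        apply AddMonoidHom.ext
        intro v
        funext x
        change ((1 : ℂˣ) : ℂ) * v (x - 0) = v x
        simp
      map_mul' := by
        intro a b
        apply AddMonoidHom.ext
        intro v
        funext x
        change (((a.f x * b.f (x - a.l) : ℂˣ)) : ℂ) * v (x - (a.l + b.l))
          = a.f x * (b.f (x - a.l) * v (x - a.l - b.l))
        rw [Units.val_mul, sub_sub, mul_assoc] }
  io :=
    { toFun := fun v => ⟨v.toAdd, 1, 0⟩
      map_one' := rfl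
      map_mul' := by
        intro v w
        refine Tr.ext ?_ ?_ ?_
        · funext x
          change v.toAdd x + w.toAdd x = v.toAdd x + ((1 : ℂˣ) : ℂ) * w.toAdd (x - 0)
          simp
        · funext x
          change (1 : ℂˣ) = 1 * 1
          simp
        · change (0 : La) = 0 + 0
          simp }
  conj := by
    intro g v
    rw [mul_inv_eq_iff_eq_mul]
    refine Tr.ext ?_ ?_ ?_
    · funext x
      change g.u x + g.f x * v (x - g.l) = g.f x * v (x - g.l) + ((1 : ℂˣ) : ℂ) * g.u (x - 0)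
      simp [add_comm]
    · funext x
      change g.f x * 1 = 1 * g.f (x - 0)
      simp
    · change g.l + 0 = 0 + g.l
      simp

theorem al_apply (g : Tr) (v : La → ℂ) (x : La) : pk.al g v x = g.f x * v (x - g.l) := rfl

theorem diag_pow {T : AddMonoid.End (La → ℂ)} {t : La → ℂ} (h : ∀ v x, T v x = t x * v x)
    (n : ℕ) (v : La → ℂ) (x : La) : (T ^ n) v x = t x ^ n * v x := by
  induction n generalizing v with
  | zero => rw [pow_zero, pow_zero, one_mul]; rfl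
  | succ n ih =>
    rw [pow_succ, pow_succ]
    change (T ^ n) (T v) x = _
    rw [ih, h, mul_assoc]

theorem diag_ae {T : AddMonoid.End (La → ℂ)} {t : La → ℂ} (h : ∀ v x, T v x = t x * v x)
    (p : ℤ[X]) (v : La → ℂ) (x : La) : aeval T p v x = aeval (t x) p * v x := by
  induction p using Polynomial.induction_on' with
  | add p q hp hq =>
    rw [map_add, map_add, add_mul, ← hp, ← hq]
    rfl
  | monomial n c =>
    rw [aeval_monomial, aeval_monomial]
    change (algebraMap ℤ (AddMonoid.End (La → ℂ)) c) ((T ^ n) v) x = _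
    have : ∀ w : La → ℂ, (algebraMap ℤ (AddMonoid.End (La → ℂ)) c) w = c • w := by
      intro w
      rw [Algebra.algebraMap_eq_smul_one]
      rfl
    rw [this, Pi.smul_apply, diag_pow h]
    simp [mul_assoc]

theorem diag_list {ι : Type*} {T : ι → AddMonoid.End (La → ℂ)} {t : ι → La → ℂ}
    (h : ∀ i v x, T i v x = t i x * v x) (l : List ι) (v : La → ℂ) (x : La) :
    (l.map T).prod v x = (l.map fun i => t i x).prod * v x := by
  induction l with
  | nil => simp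
  | cons i l ih =>
    rw [List.map_cons, List.prod_cons, List.map_cons, List.prod_cons]
    change T i ((l.map T).prod v) x = _
    rw [h, ih, mul_assoc]

section

variable (ζ : ℕ → ℂˣ) (a : ℤ → ℤ → ℕ)

/-- the labels of all sheets -/
def lb (y : ℤ × ℤ × ℤ) : ℕ :=
  if y.2.2 = 0 then a (-y.1) (-y.2.1) else if y.2.2 = -1 then 1 else if y.2.2 = -2 then 2
    else if y.2.2 = -3 then 3 else if y.2.2 = -4 then 4 else 0

/-- the images of the generators -/
noncomputable def gens : Fin 7 → Tr :=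
  ![⟨0, 1, (1, 0, 0, 0)⟩, ⟨0, fun x => if x.1 < 0 then ζ (lb a x.2) else 1, 0⟩,
    ⟨0, fun x => if x.1 < 0 then (Units.mk0 (1 / 2) (by norm_num)) else 1, 0⟩,
    ⟨fun x => if x.1 = 0 ∧ x.2.2.2 = 0 then 1 else 0, 1, 0⟩,
    ⟨0, 1, (0, 1, 0, 0)⟩, ⟨0, 1, (0, 0, 1, 0)⟩, ⟨0, 1, (0, 0, 0, 1)⟩]

/-- the homomorphism to the model -/
noncomputable def Ps : F7 →* Tr := FreeGroup.lift (gens ζ a)

theorem comm_l (g : Tr) (h : Tr) (hh : h.l = 0) : ⁅g, h⁆.l = 0 := by
  rw [commutatorElement_def]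
  simp [mul_l, inv_l, hh]

theorem comm_f (h : Tr) (hh : h.l = 0) (x : La) :
    ⁅(⟨0, 1, (1, 0, 0, 0)⟩ : Tr), h⁆.f x = h.f (x - (1, 0, 0, 0)) * (h.f x)⁻¹ := by
  rw [commutatorElement_def]
  simp only [mul_f, mul_l, inv_f, inv_l, hh, add_zero, add_neg_cancel, sub_zero]
  simp

theorem c_l : (Ps ζ a dat.c).l = 0 := by
  change (Ps ζ a ⁅_, _⁆).l = 0
  rw [map_commutatorElement]
  apply comm_l
  simp [Ps, gens]

theorem c_f (x : La) : (Ps ζ a dat.c).f x = if x.1 = 0 then ζ (lb a x.2) else 1 := by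
  change (Ps ζ a ⁅_, _⁆).f x = _
  rw [map_commutatorElement]
  simp only [Ps, FreeGroup.lift_apply_of, gens]
  simp only [Matrix.cons_val_zero, Matrix.cons_val_one]
  rw [comm_f _ rfl]
  simp only [Prod.fst_sub, Prod.snd_sub]
  have e : x.2 - (0, 0, 0) = x.2 := by
    change x.2 - 0 = x.2
    rw [sub_zero]
  rw [e]
  rcases lt_trichotomy x.1 0 with h | h | h
  · rw [if_pos (by omega), if_pos h, if_neg (by omega), mul_inv_cancel]
  · rw [if_pos (by omega), if_neg (by omega), if_pos h, inv_one, mul_one]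
  · rw [if_neg (by omega), if_neg (by omega), if_neg (by omega), inv_one, mul_one]

theorem h_l : (Ps ζ a dat.h).l = 0 := by
  change (Ps ζ a ⁅_, _⁆).l = 0
  rw [map_commutatorElement]
  apply comm_l
  simp [Ps, gens]

theorem h_f (x : La) : (Ps ζ a dat.h).f x
    = if x.1 = 0 then (Units.mk0 (1 / 2) (by norm_num)) else 1 := by
  change (Ps ζ a ⁅_, _⁆).f x = _
  rw [map_commutatorElement]
  simp only [Ps, FreeGroup.lift_apply_of, gens]
  simp only [Matrix.cons_val_zero, Matrix.cons_val]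
  rw [comm_f _ rfl]
  simp only [Prod.fst_sub]
  rcases lt_trichotomy x.1 0 with h | h | h
  · rw [if_pos (by omega), if_pos h, if_neg (by omega), mul_inv_cancel]
  · rw [if_pos (by omega), if_neg (by omega), if_pos h, inv_one, mul_one]
  · rw [if_neg (by omega), if_neg (by omega), if_neg (by omega), inv_one, mul_one]

/-- the vector of the basic element -/
noncomputable def e0 : La → ℂ := fun x => if x.1 = 0 ∧ x.2.2.2 = 0 then -(1 / 2) else 0

theorem comm_io (g : Tr) (v : La → ℂ) :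
    ⁅g, pk.io (.ofAdd v)⁆ = pk.io (.ofAdd (pk.al g v - v)) := by
  rw [commutatorElement_def, pk.conj, ← map_inv, ← map_mul, ← ofAdd_neg, ← ofAdd_add,
    ← sub_eq_add_neg]

theorem comm_io' (g : Tr) (v : La → ℂ) :
    ⁅pk.io (.ofAdd v), g⁆ = pk.io (.ofAdd (v - pk.al g v)) := by
  rw [← commutatorElement_inv, comm_io, ← map_inv, ← ofAdd_neg, neg_sub]

theorem ee_eval : Ps ζ a ee = pk.io (.ofAdd e0) := by
  have h0 : ee = ⁅⁅(FreeGroup.of 0 : F7), (FreeGroup.of 3 : F7)⁆, dat.h⁆ := rfl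
  have hl := h_l ζ a
  have hf := h_f ζ a
  rw [h0, map_commutatorElement, map_commutatorElement]
  set H := Ps ζ a dat.h with hH
  have h3 : Ps ζ a (FreeGroup.of 3)
      = pk.io (.ofAdd fun x => if x.1 = 0 ∧ x.2.2.2 = 0 then 1 else 0) := by
    simp only [Ps, FreeGroup.lift_apply_of, gens]
    rfl
  have h4 : Ps ζ a (FreeGroup.of 0) = ⟨0, 1, (1, 0, 0, 0)⟩ := by
    simp only [Ps, FreeGroup.lift_apply_of, gens]
    rfl
  rw [h3, comm_io, comm_io', h4]
  congr 2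
  funext x
  simp only [Pi.sub_apply, al_apply, hf, hl, sub_zero, Pi.one_apply, Units.val_one, one_mul,
    Prod.fst_sub, Prod.snd_sub, e0]
  by_cases h1 : x.1 = 0
  · by_cases h2 : x.2.2.2 = 0
    · simp [h1, h2]
      norm_num
    · simp [h1, h2]
  · simp [h1]

theorem c_u (x : La) : (Ps ζ a dat.c).u x = 0 := by
  change (Ps ζ a ⁅_, _⁆).u x = _
  rw [map_commutatorElement]
  simp only [Ps, FreeGroup.lift_apply_of, gens]
  simp only [Matrix.cons_val_zero, Matrix.cons_val_one, commutatorElement_def]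
  simp [mul_u, inv_u]

theorem pow_pure (g : Tr) (h1 : ∀ x, g.u x = 0) (h2 : g.l = 0) (n : ℕ) :
    (∀ x, (g ^ n).u x = 0) ∧ (∀ x, (g ^ n).f x = g.f x ^ n) ∧ (g ^ n).l = 0 := by
  induction n with
  | zero => exact ⟨fun x => rfl, fun x => by rw [pow_zero, pow_zero]; rfl, rfl⟩
  | succ n ih =>
    obtain ⟨i1, i2, i3⟩ := ih
    rw [pow_succ]
    refine ⟨fun x => ?_, fun x => ?_, ?_⟩
    · rw [mul_u, i1, i3, h1, mul_zero, add_zero]
    · rw [mul_f, i2, i3, sub_zero, pow_succ]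
    · rw [mul_l, i3, h2, add_zero]

/-- the data of the model -/
noncomputable def DM : Dat Tr := dat.map (Ps ζ a)

theorem s1_eq : (DM ζ a).s1 = ⟨0, 1, (0, 1, 0, 0)⟩ := by
  change Ps ζ a (FreeGroup.of 4) = _
  simp only [Ps, FreeGroup.lift_apply_of, gens]
  rfl

theorem s2_eq : (DM ζ a).s2 = ⟨0, 1, (0, 0, 1, 0)⟩ := by
  change Ps ζ a (FreeGroup.of 5) = _
  simp only [Ps, FreeGroup.lift_apply_of, gens]
  rfl

theorem ga_eq : (DM ζ a).ga = ⟨0, 1, (0, 0, 0, 1)⟩ := by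
  change Ps ζ a (FreeGroup.of 6) = _
  simp only [Ps, FreeGroup.lift_apply_of, gens]
  rfl

theorem off_l (w : Win) : ((DM ζ a).off w).l = (0, (w.1 : ℤ), (w.2.1 : ℤ), (w.2.2 : ℤ)) := by
  simp only [Dat.off, mul_l, pow_l, s1_eq, s2_eq, ga_eq]
  simp

theorem al_cj (g : Tr) (v : La → ℂ) (x : La) :
    pk.al ((DM ζ a).cj g) v x = ((Ps ζ a dat.c).f (x - g.l) : ℂ) * v x := by
  rw [al_apply]
  have h : (DM ζ a).cj g = g * Ps ζ a dat.c * g⁻¹ := rfl
  rw [h, conj_f _ _ (c_l ζ a), conj_l _ _ (c_l ζ a), sub_zero]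

variable {ζ a} {R : ℕ} {Q : ℕ → ℕ → ℕ → ℕ → Prop}

theorem lb_le (hR : 4 ≤ R) (haR : ∀ i j, a i j ≤ R) (y : ℤ × ℤ × ℤ) : lb a y ≤ R := by
  unfold lb
  split_ifs
  · exact haR _ _
  all_goals omega

theorem root_pow (hζ : ∀ b, aeval ((ζ b : ℂˣ) : ℂ) (Ph b) = 0) {b : ℕ} (hb : b ≤ R) :
    ζ b ^ (2 ^ R) = 1 := by
  apply Units.ext
  rw [Units.val_pow_eq_pow_val, Units.val_one]
  exact pow_of_root (hζ b) hb

theorem c_pow (hR : 4 ≤ R) (hζ : ∀ b, aeval ((ζ b : ℂˣ) : ℂ) (Ph b) = 0)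
    (haR : ∀ i j, a i j ≤ R) : (Ps ζ a dat.c) ^ (2 ^ R) = 1 := by
  obtain ⟨h1, h2, h3⟩ := pow_pure _ (c_u ζ a) (c_l ζ a) (2 ^ R)
  refine Tr.ext ?_ ?_ h3
  · funext x; exact h1 x
  · funext x
    rw [h2, c_f]
    change _ = (1 : ℂˣ)
    split_ifs
    · exact root_pow hζ (lb_le hR haR _)
    · exact one_pow _

theorem e0_ne {x : La} (h : e0 x ≠ 0) : x.1 = 0 ∧ x.2.2.2 = 0 := by
  unfold e0 at h
  by_contra hx
  rw [if_neg hx] at h
  exact h rfl

theorem sum_end {ι : Type*} (s : Finset ι) (T : ι → AddMonoid.End (La → ℂ)) (v : La → ℂ) (x : La) :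
    (∑ i ∈ s, T i) v x = ∑ i ∈ s, T i v x := by
  have := map_sum (evH v) T s
  change (∑ i ∈ s, T i) v = ∑ i ∈ s, T i v at this
  rw [this, Finset.sum_apply]

theorem lab_off (x : La) (h1 : x.1 = 0) (w : Win) :
    (Ps ζ a dat.c).f (x - (1 * (DM ζ a).off w).l)
      = ζ (lb a (x.2.1 - (w.1 : ℤ), x.2.2.1 - (w.2.1 : ℤ), x.2.2.2 - (w.2.2 : ℤ))) := by
  rw [one_mul, off_l, c_f, if_pos]
  · rfl
  · rw [Prod.fst_sub, h1, sub_zero]

theorem bad_zero (hR : 4 ≤ R) (hζ : ∀ b, aeval ((ζ b : ℂˣ) : ℂ) (Ph b) = 0)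
    (haR : ∀ i j, a i j ≤ R) (hQ : ∀ i j, Q (a i j) (a (i + 1) j) (a i (j + 1))
      (a (i + 1) (j + 1))) :
    bad R (BadOf R Q) pk.al (DM ζ a) 1 e0 = 0 := by
  classical
  funext x
  rw [bad, sum_end]
  refine Finset.sum_eq_zero fun b hb => ?_
  rw [mem_filter] at hb
  rw [diag_list (t := fun w x => aeval (((Ps ζ a dat.c).f
    (x - (1 * (DM ζ a).off w).l) : ℂˣ) : ℂ) (J R (b w)))
    (fun w v x => diag_ae (fun v x => al_cj ζ a _ v x) _ v x), Finset.prod_map_toList]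
  by_cases hx : e0 x = 0
  · rw [hx, mul_zero]
  obtain ⟨h1, h2⟩ := e0_ne hx
  rw [mul_eq_zero]
  left
  by_contra hne
  rw [← ne_eq, prod_ne_zero_iff] at hne
  have hw : ∀ w : Win, (b w : ℕ) = lb a (x.2.1 - (w.1 : ℤ), x.2.2.1 - (w.2.1 : ℤ), -(w.2.2 : ℤ)) := by
    intro w
    by_contra hw
    apply hne w (mem_univ _)
    rw [lab_off x h1, h2, zero_sub]
    exact J_eq (hζ _) (lb_le hR haR _) hw
  have hb2 := hb.2
  rw [BadOf, Set.mem_ofPred_eq] at hb2
  apply hb2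
  refine ⟨?_, ?_⟩
  · simp only [hw]
    have := hQ (-x.2.1) (-x.2.2.1)
    simp only [lb]
    simp only [Fin.val_zero, Fin.val_one, Nat.cast_zero, Nat.cast_one, neg_zero, if_true, sub_zero,
      neg_sub]
    rw [show (1 : ℤ) - x.2.1 = -x.2.1 + 1 by ring, show (1 : ℤ) - x.2.2.1 = -x.2.2.1 + 1 by ring]
    exact this
  · intro d hd
    rw [hw, hw]
    fin_cases d
    · exact absurd rfl hd
    all_goals simp [lb]

theorem rho_e0 (hR : 4 ≤ R) (hζ : ∀ b, aeval ((ζ b : ℂˣ) : ℂ) (Ph b) = 0)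
    (haR : ∀ i j, a i j ≤ R) (hQ : ∀ i j, Q (a i j) (a (i + 1) j) (a i (j + 1))
      (a (i + 1) (j + 1))) (d : ℕ) :
    rho R (BadOf R Q) pk.al (DM ζ a) d e0 = 0 := by
  unfold rho
  split_ifs with h1 h2 h3
  · funext x
    change pk.al (DM ζ a).s1 e0 x - e0 x = 0
    rw [al_apply, s1_eq]
    simp [e0]
  · funext x
    change pk.al (DM ζ a).s2 e0 x - e0 x = 0
    rw [al_apply, s2_eq]
    simp [e0]
  · exact bad_zero hR hζ haR hQ
  · funext x
    have h4 : (2 * pk.al (DM ζ a).h - 1 : AddMonoid.End (La → ℂ)) e0 x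
        = pk.al (DM ζ a).h e0 x + pk.al (DM ζ a).h e0 x - e0 x := by
      rw [two_mul]
      rfl
    have h5 : (DM ζ a).h = Ps ζ a dat.h := rfl
    rw [h4, al_apply, h5, h_l, h_f, sub_zero]
    change _ = (0 : ℂ)
    by_cases hx : e0 x = 0
    · rw [hx]; ring
    obtain ⟨h1, h2⟩ := e0_ne hx
    rw [if_pos h1, Units.val_mk0]
    ring

theorem rel_e0 (hR : 4 ≤ R) (hζ : ∀ b, aeval ((ζ b : ℂˣ) : ℂ) (Ph b) = 0)
    (haR : ∀ i j, a i j ≤ R) (hQ : ∀ i j, Q (a i j) (a (i + 1) j) (a i (j + 1))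
      (a (i + 1) (j + 1))) :
    rel R (BadOf R Q) pk.al (DM ζ a) e0 = 0 := by
  funext x
  rw [rel, sum_end]
  refine Finset.sum_eq_zero fun d _ => ?_
  change aeval (pk.al (DM ζ a).c) (U R d) (pk.al ((DM ζ a).ga ^ d)⁻¹
    (rho R (BadOf R Q) pk.al (DM ζ a) d e0)) x = 0
  rw [rho_e0 hR hζ haR hQ, map_zero, map_zero]
  rfl

theorem relator_one (hR : 4 ≤ R) (hζ : ∀ b, aeval ((ζ b : ℂˣ) : ℂ) (Ph b) = 0)
    (haR : ∀ i j, a i j ≤ R) (hQ : ∀ i j, Q (a i j) (a (i + 1) j) (a i (j + 1))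
      (a (i + 1) (j + 1))) :
    Ps ζ a (relator R (BadOf R Q)) = 1 := by
  rw [relator_eval pk (Ps ζ a) (ee_eval ζ a), c_pow hR hζ haR, one_mul]
  have := rel_e0 hR hζ haR hQ
  rw [DM] at this
  rw [this]
  exact map_one _

theorem cj_lab (g : Tr) (v : La → ℂ) (hg : g.l.1 = 0) (p : ℤ[X]) :
    aeval (pk.al ((DM ζ a).cj g)) p v 0 = aeval ((ζ (lb a (-g.l.2)) : ℂˣ) : ℂ) p * v 0 := by
  rw [diag_ae (fun v x => al_cj ζ a _ v x), c_f, if_pos]
  · congr 5
    rw [Prod.snd_sub]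
    simp
  · rw [Prod.fst_sub, hg]
    rfl

theorem input_ne (hζ : ∀ b, aeval ((ζ b : ℂˣ) : ℂ) (Ph b) = 0)
    {s0 N : ℕ} {Go : Finset ℕ} (h0 : a 0 0 = s0) (hgo : a 0 (N + 1) ∈ Go) :
    inp pk.al (DM ζ a) (range (R + 1) \ Go).toList N (seed R pk.al (DM ζ a) s0 e0) 0 ≠ 0 := by
  have hga : ∀ n : ℕ, ((DM ζ a).ga ^ n).l = (0, 0, 0, (n : ℤ)) := by
    intro n
    rw [pow_l, ga_eq]
    simp
  have hs2 : ∀ n : ℕ, ((DM ζ a).s2 ^ n).l = (0, 0, (n : ℤ), 0) := by
    intro n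
    rw [pow_l, s2_eq]
    simp
  have h2 : (2 : ℂ) ≠ 0 := two_ne_zero
  have hs : seed R pk.al (DM ζ a) s0 e0 0 ≠ 0 := by
    unfold seed
    change aeval (pk.al ((DM ζ a).cj ((DM ζ a).ga ^ 4))) (J R 4 * U R 4)
      (aeval (pk.al ((DM ζ a).cj ((DM ζ a).ga ^ 1))) (J R 1)
      (aeval (pk.al ((DM ζ a).cj ((DM ζ a).ga ^ 2))) (J R 2)
      (aeval (pk.al ((DM ζ a).cj ((DM ζ a).ga ^ 3))) (J R 3)
      (aeval (pk.al ((DM ζ a).cj 1)) (J R s0) e0)))) 0 ≠ 0
    rw [cj_lab _ _ (by rw [hga]), cj_lab _ _ (by rw [hga]), cj_lab _ _ (by rw [hga]),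
      cj_lab _ _ (by rw [hga]), cj_lab _ _ rfl, hga, hga, hga, hga, map_mul]
    have e4 : lb a (-((0 : ℤ), (0 : ℤ), (0 : ℤ), ((4 : ℕ) : ℤ)).2) = 4 := by simp [lb]
    have e1 : lb a (-((0 : ℤ), (0 : ℤ), (0 : ℤ), ((1 : ℕ) : ℤ)).2) = 1 := by simp [lb]
    have e2 : lb a (-((0 : ℤ), (0 : ℤ), (0 : ℤ), ((2 : ℕ) : ℤ)).2) = 2 := by simp [lb]
    have e3 : lb a (-((0 : ℤ), (0 : ℤ), (0 : ℤ), ((3 : ℕ) : ℤ)).2) = 3 := by simp [lb]
    have e5 : lb a (-(1 : Tr).l.2) = s0 := by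
      rw [one_l]
      simp [lb, h0]
    rw [e4, e1, e2, e3, e5]
    refine mul_ne_zero (mul_ne_zero (J_ne h2 (hζ _)) (U_ne h2 (hζ _))) ?_
    refine mul_ne_zero (J_ne h2 (hζ _)) (mul_ne_zero (J_ne h2 (hζ _))
      (mul_ne_zero (J_ne h2 (hζ _)) (mul_ne_zero (J_ne h2 (hζ _)) ?_)))
    simp [e0]
  have hi : inp pk.al (DM ζ a) (range (R + 1) \ Go).toList N
      = aeval (pk.al ((DM ζ a).cj ((DM ζ a).s2 ^ (N + 1)))) (∏ b ∈ range (R + 1) \ Go, Ph b) := by
    rw [inp, ← Finset.prod_map_toList, map_list_prod, List.map_map]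
    rfl
  rw [hi, cj_lab _ _ (by rw [hs2]), hs2]
  refine mul_ne_zero ?_ hs
  have e6 : lb a (-((0 : ℤ), (0 : ℤ), ((N + 1 : ℕ) : ℤ), (0 : ℤ)).2) = a 0 (N + 1) := by
    simp [lb]
  rw [e6, map_prod, prod_ne_zero_iff]
  intro b hb
  refine ne_root h2 (hζ _) ?_
  rintro rfl
  exact (mem_sdiff.1 hb).2 hgo

theorem model (R : ℕ) (Q : ℕ → ℕ → ℕ → ℕ → Prop) (hR : 4 ≤ R) (N s0 : ℕ)
    (Go : Finset ℕ) (a : ℤ → ℤ → ℕ) (haR : ∀ i j, a i j ≤ R) (h0 : a 0 0 = s0)
    (hgo : a 0 (N + 1) ∈ Go)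
    (hQ : ∀ i j, Q (a i j) (a (i + 1) j) (a i (j + 1)) (a (i + 1) (j + 1))) :
    inputW R s0 (range (R + 1) \ Go).toList N ∉
      derivedSeries F7 3 ⊔ Subgroup.normalClosure {relator R (BadOf R Q)} := by
  choose ζ hζ using exists_zeta
  have hle : derivedSeries F7 3 ⊔ Subgroup.normalClosure {relator R (BadOf R Q)}
      ≤ (Ps ζ a).ker := by
    refine sup_le ?_ ?_
    · intro x hx
      have h1 := map_derivedSeries_le_derivedSeries (Ps ζ a) 3 (Subgroup.mem_map_of_mem _ hx)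
      rw [derived_le, Subgroup.mem_bot] at h1
      exact h1
    · refine Subgroup.normalClosure_le_normal ?_
      rw [Set.singleton_subset_iff]
      exact relator_one hR hζ haR hQ
  intro hmem
  have h1 : Ps ζ a (inputW R s0 (range (R + 1) \ Go).toList N) = 1 := hle hmem
  rw [input_eval pk (Ps ζ a) (ee_eval ζ a)] at h1
  apply input_ne (ζ := ζ) (R := R) hζ h0 hgo
  have h2 : ∀ v : La → ℂ, pk.io (.ofAdd v) = 1 → v 0 = 0 := by
    intro v hv
    exact congrFun (congrArg Tr.u hv) 0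
  exact h2 _ h1

end

end Pool.Agent.Helper707.GModel
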