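import Mathlib
import Pool.Agent.Helper707.Num

/-!
Labellings of the quadrant and of the plane simulating a flat counter program.
-/

namespace Pool.Agent.Helper707.Lab

open Function Pool.Agent.Helper707.Prog Pool.Agent.Helper707.Flat Pool.Agent.Helper707.Num

/-- next state -/
def Nx (P : List Ins) (s : ℕ) (β : ℕ → Prop) (s' : ℕ) : Prop :=
  match s with
  | 0 => s' = 1 ∨ s' = 2
  | 1 => s' = 1 ∨ s' = 2
  | 2 => s' = 4
  | 3 => s' = 3 ∨ s' = 0
  | l + 4 =>
    match P[l]? with
    | some (.inc _ t) => s' = t + 4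
    | some (.dec r t t') => (β r → s' = t + 4) ∧ (¬ β r → s' = t' + 4)
    | some (.jmp t) => s' = t + 4
    | none => False

/-- operation on a register -/
def opOf (P : List Ins) (s r : ℕ) : ℕ :=
  match s with
  | 0 => 0
  | 1 => if r = 0 then 1 else 0
  | 2 => 0
  | 3 => 0
  | l + 4 =>
    match P[l]? with
    | some (.inc r' _) => if r = r' then 1 else 0
    | some (.dec r' _ _) => if r = r' then 2 else 0
    | some (.jmp _) => 0
    | none => 0

/-- new value -/
def nv (o v : ℕ) : ℕ := if o = 1 then v + 1 else if o = 2 then v - 1 else v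

/-- cells -/
abbrev Cell (K L : ℕ) := Fin (L + 5) × Fin 3 × (Fin K → Bool)

/-- good windows -/
def Good {K L : ℕ} (P : List Ins) (A B C D : Cell K L) : Prop :=
  B.1 = A.1 ∧ ((A.2.1 = 0 ∧ B.2.1 ≠ 2) ∨ (A.2.1 ≠ 0 ∧ B.2.1 = 2)) ∧ C.2.1 = A.2.1 ∧
  (A.2.1 ≠ 0 → (A.1 : ℕ) = 0 → ∀ r, A.2.2 r = false) ∧
  (A.2.1 = 1 → Nx P A.1 (fun r => ∃ h : r < K, A.2.2 ⟨r, h⟩ = true) C.1) ∧
  (A.2.1 ≠ 0 → ∀ r : Fin K,
    (opOf P A.1 r = 1 → D.2.2 r = A.2.2 r ∧ (A.2.1 = 1 → C.2.2 r = true)) ∧
    (opOf P A.1 r = 2 → C.2.2 r = B.2.2 r) ∧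
    (opOf P A.1 r ≠ 1 → opOf P A.1 r ≠ 2 → C.2.2 r = A.2.2 r))

theorem step_of_Nx {P : List Ins} {K L l s' : ℕ} {σ σ' : ℕ → ℕ} {β : ℕ → Prop}
    (hP : ∀ i ∈ P, Ok K L i) (hβ : ∀ r < K, β r ↔ σ r ≠ 0) (h : Nx P (l + 4) β s')
    (hσ : ∀ r, σ' r = nv (opOf P (l + 4) r) (σ r)) :
    l < P.length ∧ s' = (step P (l, σ)).1 + 4 ∧ σ' = (step P (l, σ)).2 := by
  have hl : l < P.length := by
    by_contra hcon
    have : P[l]? = none := List.getElem?_eq_none_iff.2 (by omega)
    simp only [Nx, this] at h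
  refine ⟨hl, ?_⟩
  obtain ⟨i, hi⟩ : ∃ i, P[l]? = some i := ⟨P[l], List.getElem?_eq_getElem hl⟩
  have hmem : i ∈ P := List.mem_of_getElem? hi
  have hok := hP i hmem
  cases i with
  | inc r t =>
    simp only [Nx, hi] at h
    simp only [opOf, hi] at hσ
    simp only [step, hi]
    refine ⟨h, ?_⟩
    funext x
    rw [hσ, update_apply]
    by_cases hx : x = r
    · subst hx; simp [nv]
    · simp [nv, hx]
  | dec r t t' =>
    simp only [Nx, hi] at h
    simp only [opOf, hi] at hσ
    have hr : r < K := hok.1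
    rw [hβ r hr] at h
    simp only [step, hi]
    by_cases h0 : σ r = 0
    · rw [if_pos h0]
      refine ⟨h.2 (by simpa using h0), ?_⟩
      funext x
      rw [hσ]
      by_cases hx : x = r
      · subst hx; simp [nv, h0]
      · simp [nv, hx]
    · rw [if_neg h0]
      refine ⟨h.1 h0, ?_⟩
      funext x
      rw [hσ]
      simp only [update_apply]
      by_cases hx : x = r
      · subst hx; simp [nv]
      · simp [nv, hx]
  | jmp t =>
    simp only [Nx, hi] at h
    simp only [opOf, hi] at hσ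
    simp only [step, hi]
    exact ⟨h, funext fun x => by rw [hσ]; simp [nv]⟩

theorem Nx_of_step {P : List Ins} {l : ℕ} (σ : ℕ → ℕ) (hl : l < P.length) :
    Nx P (l + 4) (fun r => σ r ≠ 0) ((step P (l, σ)).1 + 4) ∧
      ∀ r, (step P (l, σ)).2 r = nv (opOf P (l + 4) r) (σ r) := by
  obtain ⟨i, hi⟩ : ∃ i, P[l]? = some i := ⟨P[l], List.getElem?_eq_getElem hl⟩
  cases i with
  | inc r t =>
    simp only [Nx, opOf, step, hi, true_and]
    intro x
    rw [update_apply]
    by_cases hx : x = r
    · subst hx; simp [nv]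
    · simp [nv, hx]
  | dec r t t' =>
    simp only [Nx, opOf, step, hi]
    by_cases h0 : σ r = 0
    · rw [if_pos h0]
      refine ⟨⟨fun h => absurd h0 h, fun _ => rfl⟩, fun x => ?_⟩
      by_cases hx : x = r
      · subst hx; simp [nv, h0]
      · simp [nv, hx]
    · rw [if_neg h0]
      refine ⟨⟨fun _ => rfl, fun h => absurd h0 h⟩, fun x => ?_⟩
      simp only [update_apply]
      by_cases hx : x = r
      · subst hx; simp [nv]
      · simp [nv, hx]
  | jmp t =>
    simp only [Nx, opOf, step, hi, true_and]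
    intro x
    simp [nv]

/-- registers along a sequence of states -/
def reg (P : List Ins) (s : ℕ → ℕ) : ℕ → ℕ → ℕ
  | 0 => fun _ => 0
  | j + 1 => fun r => nv (opOf P (s j) r) (reg P s j r)

/-- rows of a labelling of the quadrant -/
theorem rows {K L : ℕ} {P : List Ins} {a : ℕ → ℕ → Cell K L}
    (h00 : (a 0 0).1 = 0 ∧ (a 0 0).2.1 = 1)
    (hg : ∀ i j, Good P (a i j) (a (i + 1) j) (a i (j + 1)) (a (i + 1) (j + 1))) (j : ℕ) :
    (∀ i, (a i j).1 = (a 0 j).1) ∧ (a 0 j).2.1 = 1 ∧ (∀ i, (a (i + 1) j).2.1 = 2) ∧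
      ∀ i (r : Fin K), ((a i j).2.2 r = true ↔ i < reg P (fun j => ((a 0 j).1 : ℕ)) j r) := by
  have h1 : ∀ j i, (a i j).1 = (a 0 j).1 := by
    intro j i
    induction i with
    | zero => rfl
    | succ i ih => rw [(hg i j).1, ih]
  have h2 : ∀ j, (a 0 j).2.1 = 1 := by
    intro j
    induction j with
    | zero => exact h00.2
    | succ j ih => rw [(hg 0 j).2.2.1, ih]
  have h3 : ∀ j i, (a (i + 1) j).2.1 = 2 := by
    intro j i
    induction i with
    | zero =>
      rcases (hg 0 j).2.1 with h | h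
      · rw [h2] at h; exact absurd h.1 (by decide)
      · exact h.2
    | succ i ih =>
      rcases (hg (i + 1) j).2.1 with h | h
      · rw [ih] at h; exact absurd h.1 (by decide)
      · exact h.2
  have h4 : ∀ i j, (a i j).2.1 ≠ 0 := by
    intro i j
    cases i with
    | zero => rw [h2]; decide
    | succ i => rw [h3]; decide
  refine ⟨h1 j, h2 j, h3 j, ?_⟩
  induction j with
  | zero =>
    intro i r
    have h5 : ((a i 0).1 : ℕ) = 0 := by rw [h1, h00.1]; rfl
    rw [(hg i 0).2.2.2.1 (h4 i 0) h5 r]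
    simp [reg]
  | succ j ih =>
    intro i r
    have hop : ∀ i, opOf P (a i j).1 r = opOf P (a 0 j).1 r := by intro i; rw [h1]
    have h6 := fun i => (hg i j).2.2.2.2.2 (h4 i j) r
    have e : reg P (fun j => ((a 0 j).1 : ℕ)) (j + 1) r
        = nv (opOf P (a 0 j).1 r) (reg P (fun j => ((a 0 j).1 : ℕ)) j r) := rfl
    rw [e]
    by_cases o1 : opOf P (a 0 j).1 r = 1
    · rw [o1]
      cases i with
      | zero =>
        rw [((h6 0).1 o1).2 (h2 j)]
        simp [nv]
      | succ i =>
        rw [((h6 i).1 (by rw [hop, o1])).1, ih]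
        simp [nv]
    · by_cases o2 : opOf P (a 0 j).1 r = 2
      · rw [o2, (h6 i).2.1 (by rw [hop, o2]), ih]
        simp only [nv]
        norm_num
        omega
      · rw [(h6 i).2.2 (by rw [hop]; exact o1) (by rw [hop]; exact o2), ih]
        simp only [nv, if_neg o1, if_neg o2]

theorem no_lab {K : ℕ} {P : List Ins} {N T : ℕ} (hP : ∀ i ∈ P, Ok K P.length i)
    (hT : ((step P)^[T] (0, sx N 0 0)).1 = P.length) (a : ℕ → ℕ → Cell K P.length)
    (h00 : (a 0 0).1 = 0 ∧ (a 0 0).2.1 = 1) (hgo : ((a 0 (N + 1)).1 : ℕ) = 2)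
    (hg : ∀ i j, Good P (a i j) (a (i + 1) j) (a i (j + 1)) (a (i + 1) (j + 1))) : False := by
  set s : ℕ → ℕ := fun j => ((a 0 j).1 : ℕ) with hs
  set σ := reg P s with hσ
  have hN : ∀ j, Nx P (s j) (fun r => ∃ h : r < K, (a 0 j).2.2 ⟨r, h⟩ = true) (s (j + 1)) :=
    fun j => (hg 0 j).2.2.2.2.1 (rows h00 hg j).2.1
  have hβ : ∀ j, ∀ r < K, (∃ h : r < K, (a 0 j).2.2 ⟨r, h⟩ = true) ↔ σ j r ≠ 0 := by
    intro j r hr
    have := (rows h00 hg j).2.2.2 0 ⟨r, hr⟩
    constructor
    · rintro ⟨h, h2⟩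
      exact Nat.pos_iff_ne_zero.1 (this.1 h2)
    · intro h2
      exact ⟨hr, this.2 (Nat.pos_of_ne_zero h2)⟩
  have hσs : ∀ j r, σ (j + 1) r = nv (opOf P (s j) r) (σ j r) := fun j r => rfl
  have hstep : ∀ j l, s j = l + 4 → l < P.length ∧ s (j + 1) = (step P (l, σ j)).1 + 4 ∧
      σ (j + 1) = (step P (l, σ j)).2 := by
    intro j l hl
    have h1 := hN j
    rw [hl] at h1
    exact step_of_Nx hP (hβ j) h1 (fun r => by rw [hσs, hl])
  have s0 : s 0 = 0 := by simp only [hs, h00.1]; rfl
  -- no early start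
  have big : ∀ j, (s j = 2 ∨ 4 ≤ s j) → 4 ≤ s (j + 1) := by
    rintro j (h | h)
    · have h1 := hN j
      rw [h] at h1
      simp only [Nx] at h1
      omega
    · obtain ⟨l, hl⟩ : ∃ l, s j = l + 4 := ⟨s j - 4, by omega⟩
      rw [(hstep j l hl).2.1]
      omega
  have big2 : ∀ j d, (s j = 2 ∨ 4 ≤ s j) → 4 ≤ s (j + 1 + d) := by
    intro j d h
    induction d with
    | zero => exact big j h
    | succ d ih => exact big _ (Or.inr ih)
  have small : ∀ j ≤ N, ¬ (s j = 2 ∨ 4 ≤ s j) := by
    intro j hj h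
    have := big2 j (N - j) h
    rw [show j + 1 + (N - j) = N + 1 by omega] at this
    have h2 : s (N + 1) = 2 := hgo
    omega
  have st : ∀ j ≤ N, s (j + 1) = 1 ∨ s (j + 1) = 2 := by
    intro j
    induction j with
    | zero =>
      intro _
      have h1 := hN 0
      rw [s0] at h1
      exact h1
    | succ j ih =>
      intro hj
      have h1 : s (j + 1) = 1 := by
        have := small (j + 1) hj
        have := ih (by omega)
        omega
      have h2 := hN (j + 1)
      rw [h1] at h2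
      exact h2
  have st1 : ∀ j, j + 1 ≤ N → s (j + 1) = 1 := by
    intro j hj
    have := small (j + 1) hj
    have := st j (by omega)
    omega
  have hcnt : ∀ j ≤ N, σ (j + 1) = fun r => if r = 0 then j else 0 := by
    intro j
    induction j with
    | zero =>
      intro _
      funext r
      rw [hσs, s0]
      simp [opOf, nv, hσ, reg]
    | succ j ih =>
      intro hj
      funext r
      rw [hσs, st1 j hj, ih (by omega)]
      by_cases hr : r = 0 <;> simp [opOf, nv, hr]
  have hgo2 : s (N + 1) = 2 := hgo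
  have hrun : ∀ t, s (N + 2 + t) = ((step P)^[t] (0, sx N 0 0)).1 + 4 ∧
      σ (N + 2 + t) = ((step P)^[t] (0, sx N 0 0)).2 := by
    intro t
    induction t with
    | zero =>
      have h1 := hN (N + 1)
      rw [hgo2] at h1
      simp only [Nx] at h1
      refine ⟨h1, ?_⟩
      funext r
      change σ (N + 1 + 1) r = _
      rw [hσs, hgo2, hcnt N le_rfl]
      simp only [opOf, nv, iterate_zero, id_eq, sx]
      by_cases hr : r = 0
      · simp [hr]
      · simp [hr]
    | succ t ih =>
      have h1 := hstep (N + 2 + t) _ ih.1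
      rw [iterate_succ_apply']
      have e : (((step P)^[t] (0, sx N 0 0)).1, σ (N + 2 + t)) = (step P)^[t] (0, sx N 0 0) := by
        rw [ih.2]
      rw [e] at h1
      exact h1.2
  have h1 := (hstep (N + 2 + T) _ (hrun T).1).1
  omega

theorem Nx_congr {P : List Ins} {K L s s' : ℕ} {β β' : ℕ → Prop}
    (hP : ∀ i ∈ P, Ok K L i) (hβ : ∀ r < K, β r ↔ β' r) (h : Nx P s β s') : Nx P s β' s' := by
  match s, h with
  | 0, h => exact h
  | 1, h => exact h
  | 2, h => exact h
  | 3, h => exact h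
  | l + 4, h =>
    simp only [Nx] at h ⊢
    cases hi : P[l]? with
    | none => rw [hi] at h; exact h
    | some i =>
      rw [hi] at h
      have hok := hP i (List.mem_of_getElem? hi)
      cases i with
      | inc r t => exact h
      | dec r t t' =>
        have := hβ r hok.1
        simp only at h ⊢
        rw [← this]
        exact h
      | jmp t => exact h

/-- rows of the plane from time zero -/
def rn (P : List Ins) (N : ℕ) (j : ℕ) : ℕ × (ℕ → ℕ) :=
  if j = 0 then (0, fun _ => 0) else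
  if j ≤ N + 1 then (if j ≤ N then 1 else 2, fun r => if r = 0 then j - 1 else 0) else
  (((step P)^[j - (N + 2)] (0, sx N 0 0)).1 + 4, ((step P)^[j - (N + 2)] (0, sx N 0 0)).2)

/-- rows of the plane -/
def rz (P : List Ins) (N : ℕ) (j : ℤ) : ℕ × (ℕ → ℕ) :=
  if j < 0 then (3, fun _ => 0) else rn P N j.toNat

/-- correct successive rows -/
def RowStep (P : List Ins) (L : ℕ) (x y : ℕ × (ℕ → ℕ)) : Prop :=
  x.1 < L + 5 ∧ (x.1 = 0 → ∀ r, x.2 r = 0) ∧ Nx P x.1 (fun r => x.2 r ≠ 0) y.1 ∧
    ∀ r, y.2 r = nv (opOf P x.1 r) (x.2 r)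

theorem rn_step {P : List Ins} {N : ℕ}
    (hN : ∀ T, ((step P)^[T] (0, sx N 0 0)).1 < P.length) (j : ℕ) :
    RowStep P P.length (rn P N j) (rn P N (j + 1)) := by
  rcases Nat.eq_zero_or_pos j with rfl | hj
  · have e0 : rn P N 0 = (0, fun _ => 0) := rfl
    have e1 : rn P N 1 = (if 1 ≤ N then 1 else 2, fun r => if r = 0 then 0 else 0) := by
      simp [rn]
    rw [e0, zero_add, e1]
    refine ⟨by simp, fun _ _ => rfl, ?_, fun r => by simp [opOf, nv]⟩
    simp only [Nx]
    split_ifs <;> simp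
  rcases Nat.lt_or_ge N j with h | h
  · rcases Nat.eq_or_lt_of_le h with h | h
    · subst h
      have e1 : rn P N (N + 1) = (2, fun r => if r = 0 then N else 0) := by
        simp [rn]
      have e2 : rn P N (N + 1 + 1) = (4, sx N 0 0) := by
        simp [rn]
      simp only [Nat.succ_eq_add_one]
      rw [e1, e2]
      refine ⟨by simp, fun h => by simp at h, rfl, fun r => ?_⟩
      simp only [opOf, nv, sx]
      by_cases hr : r = 0 <;> simp [hr]
    · obtain ⟨t, rfl⟩ : ∃ t, j = N + 2 + t := ⟨j - (N + 2), by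
        simp only [Nat.succ_eq_add_one] at h; omega⟩
      have e : ∀ t, rn P N (N + 2 + t)
          = (((step P)^[t] (0, sx N 0 0)).1 + 4, ((step P)^[t] (0, sx N 0 0)).2) := by
        intro t
        rw [rn, if_neg (by omega), if_neg (by omega), Nat.add_sub_cancel_left]
      rw [e, add_assoc, e, iterate_succ_apply']
      have h1 := hN t
      set x := (step P)^[t] (0, sx N 0 0) with hx
      have h2 := Nx_of_step (P := P) x.2 h1
      exact ⟨by simp only; omega, fun h => by simp at h, h2.1, h2.2⟩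
  · have e1 : rn P N j = (1, fun r => if r = 0 then j - 1 else 0) := by
      rw [rn, if_neg (by omega), if_pos (by omega), if_pos h]
    have e2 : rn P N (j + 1) = (if j + 1 ≤ N then 1 else 2, fun r => if r = 0 then j else 0) := by
      rw [rn, if_neg (by omega), if_pos (by omega)]
      rfl
    rw [e1, e2]
    refine ⟨by simp, fun h => by simp at h, ?_, fun r => ?_⟩
    · simp only [Nx]
      split_ifs <;> simp
    · simp only [opOf, nv]
      by_cases hr : r = 0
      · simp [hr]; omega
      · simp [hr]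

theorem rz_step {P : List Ins} {N : ℕ}
    (hN : ∀ T, ((step P)^[T] (0, sx N 0 0)).1 < P.length) (j : ℤ) :
    RowStep P P.length (rz P N j) (rz P N (j + 1)) := by
  by_cases h : j < 0
  · have e1 : rz P N j = (3, fun _ => 0) := by rw [rz, if_pos h]
    rw [e1]
    by_cases h2 : j + 1 < 0
    · have e2 : rz P N (j + 1) = (3, fun _ => 0) := by rw [rz, if_pos h2]
      rw [e2]
      exact ⟨by simp, fun h => by simp at h, Or.inl rfl, fun r => by simp [opOf, nv]⟩
    · have h3 : j + 1 = 0 := by omega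
      have e2 : rz P N (j + 1) = (0, fun _ => 0) := by
        rw [rz, if_neg h2, h3]; rfl
      rw [e2]
      exact ⟨by simp, fun h => by simp at h, Or.inr rfl, fun r => by simp [opOf, nv]⟩
  · rw [rz, if_neg h, rz, if_neg (by omega), Int.toNat_add (by omega) (by omega)]
    exact rn_step hN _

/-- cells of a row -/
def cell (K L : ℕ) (x : ℕ × (ℕ → ℕ)) (i : ℤ) : Cell K L :=
  (Fin.ofNat (L + 5) x.1, if i < 0 then 0 else if i = 0 then 1 else 2,
    fun r => decide (i < x.2 r))

theorem good_cell {P : List Ins} {K L : ℕ} (hP : ∀ i ∈ P, Ok K L i) {x y : ℕ × (ℕ → ℕ)}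
    (hxy : RowStep P L x y) (hy : y.1 < L + 5) (i : ℤ) :
    Good P (cell K L x i) (cell K L x (i + 1)) (cell K L y i) (cell K L y (i + 1)) := by
  obtain ⟨h1, h2, h3, h4⟩ := hxy
  have ex : ∀ i, ((cell K L x i).1 : ℕ) = x.1 := by
    intro i
    simp only [cell, Fin.val_ofNat]
    exact Nat.mod_eq_of_lt h1
  have ey : ∀ i, ((cell K L y i).1 : ℕ) = y.1 := by
    intro i
    simp only [cell, Fin.val_ofNat]
    exact Nat.mod_eq_of_lt hy
  have m0 : ∀ x i, (cell K L x i).2.1 ≠ 0 → 0 ≤ i := by
    intro x i hi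
    by_contra hcon
    apply hi
    simp only [cell]
    rw [if_pos (by omega)]
  have m1 : ∀ x i, (cell K L x i).2.1 = 1 → i = 0 := by
    intro x i hi
    by_contra hcon
    by_cases h5 : i < 0
    · simp only [cell, if_pos h5] at hi
      exact absurd hi (by decide)
    · simp only [cell, if_neg h5, if_neg hcon] at hi
      exact absurd hi (by decide)
  have b : ∀ x i r, (cell K L x i).2.2 r = true ↔ i < x.2 r := by
    intro x i r
    simp [cell]
  refine ⟨rfl, ?_, rfl, ?_, ?_, ?_⟩
  · by_cases hi : i < 0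
    · left
      simp only [cell]
      rw [if_pos hi]
      refine ⟨rfl, ?_⟩
      split_ifs with h5 h6
      · decide
      · decide
      · omega
    · right
      simp only [cell]
      have e1 : ¬ (i + 1 < 0) := by omega
      have e2 : ¬ (i + 1 = 0) := by omega
      rw [if_neg hi, if_neg e1, if_neg e2]
      refine ⟨?_, rfl⟩
      split_ifs <;> decide
  · intro hm h0 r
    rw [ex] at h0
    have := m0 _ _ hm
    rw [Bool.eq_false_iff, ne_eq, b, h2 h0]
    omega
  · intro hm
    have hi := m1 _ _ hm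
    subst hi
    rw [ex, ey]
    refine Nx_congr hP ?_ h3
    intro r hr
    constructor
    · intro h
      exact ⟨hr, (b _ _ _).2 (by simp only; omega)⟩
    · rintro ⟨_, h⟩
      have := (b _ _ _).1 h
      simp only at this
      omega
  · intro hm r
    have hi := m0 _ _ hm
    rw [ex]
    refine ⟨fun ho => ⟨?_, fun hm1 => ?_⟩, fun ho => ?_, fun ho1 ho2 => ?_⟩
    · rw [Bool.eq_iff_iff, b, b, h4, ho]
      simp only [nv]
      norm_num
    · have := m1 _ _ hm1
      rw [b, h4, ho]
      simp only [nv]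
      norm_num
      omega
    · rw [Bool.eq_iff_iff, b, b, h4, ho]
      simp only [nv]
      norm_num
      omega
    · rw [Bool.eq_iff_iff, b, b, h4]
      simp only [nv, if_neg ho1, if_neg ho2]

theorem exists_lab {K : ℕ} {P : List Ins} {N : ℕ} (hP : ∀ i ∈ P, Ok K P.length i)
    (hN : ∀ T, ((step P)^[T] (0, sx N 0 0)).1 ≠ P.length) (h0 : 0 < P.length) :
    ∃ a : ℤ → ℤ → Cell K P.length, a 0 0 = (0, 1, fun _ => false) ∧
      ((a 0 (N + 1)).1 : ℕ) = 2 ∧
      ∀ i j, Good P (a i j) (a (i + 1) j) (a i (j + 1)) (a (i + 1) (j + 1)) := by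
  have hle : ∀ T, ((step P)^[T] (0, sx N 0 0)).1 < P.length := by
    intro T
    induction T with
    | zero => exact h0
    | succ T ih =>
      refine lt_of_le_of_ne ?_ (hN _)
      rw [iterate_succ_apply']
      set x := (step P)^[T] (0, sx N 0 0) with hx
      have hi : P[x.1]? = some P[x.1] := List.getElem?_eq_getElem ih
      have hok := hP _ (List.mem_of_getElem? hi)
      rw [step, hi]
      cases hPx : P[x.1] with
      | inc r t => rw [hPx] at hok; exact hok.2
      | dec r t t' =>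
        rw [hPx] at hok
        simp only
        split_ifs
        · exact hok.2.2
        · exact hok.2.1
      | jmp t => rw [hPx] at hok; exact hok
  refine ⟨fun i j => cell K P.length (rz P N j) i, ?_, ?_, fun i j => ?_⟩
  · rfl
  · have e : rz P N ((N : ℤ) + 1) = (2, fun r => if r = 0 then N else 0) := by
      have e2 : ((N : ℤ) + 1).toNat = N + 1 := by omega
      rw [rz, if_neg (by omega), e2]
      simp [rn]
    simp only [e, cell, Fin.val_ofNat]
    exact Nat.mod_eq_of_lt (by omega)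
  · exact good_cell hP (rz_step hle j) (rz_step hle (j + 1)).1 i

end Pool.Agent.Helper707.Lab
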