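import Mathlib
import Pool.Agent.Helper707.GModel
import Pool.Agent.Helper707.Lab

/-!
The reduction of the halting problem to the word problem.
-/

namespace Pool.Agent.Helper707.GFinal

open Finset Function Pool.Agent.Helper707.GPoly Pool.Agent.Helper707.GAct
  Pool.Agent.Helper707.GSound Pool.Agent.Helper707.GWord Pool.Agent.Helper707.GModel
  Pool.Agent.Helper707.Lab Pool.Agent.Helper707.Flat Pool.Agent.Helper707.Num

theorem reduction {K : ℕ} {P : List Ins} (hP : ∀ i ∈ P, Ok K P.length i) (h0 : 0 < P.length) :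
    ∃ (R s0 : ℕ) (Q : ℕ → ℕ → ℕ → ℕ → Prop) (l : List ℕ), ∀ N,
      inputW R s0 l N ∈ derivedSeries F7 3 ⊔ Subgroup.normalClosure {relator R (BadOf R Q)} ↔
        ∃ T, ((step P)^[T] (0, sx N 0 0)).1 = P.length := by
  classical
  set M := Fintype.card (Cell K P.length) with hM
  let eq : Cell K P.length ≃ Fin M := Fintype.equivFin _
  let enc : Cell K P.length → ℕ := fun c => (eq c : ℕ)
  let dec : ℕ → Cell K P.length := fun n =>
    if h : n < M then eq.symm ⟨n, h⟩ else (0, 1, fun _ => false)
  have hde : ∀ c, dec (enc c) = c := by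
    intro c
    simp only [dec, enc, Fin.is_lt, dite_true, Fin.eta, Equiv.symm_apply_apply]
  have hle : ∀ c, enc c ≤ M + 4 := by
    intro c
    have : enc c < M := (eq c).2
    omega
  let Q : ℕ → ℕ → ℕ → ℕ → Prop := fun a b c d => Good P (dec a) (dec b) (dec c) (dec d)
  let s0 : ℕ := enc (0, 1, fun _ => false)
  let Go : Finset ℕ := (range (M + 4 + 1)).filter fun n => ((dec n).1 : ℕ) = 2
  refine ⟨M + 4, s0, Q, (range (M + 4 + 1) \ Go).toList, fun N => ?_⟩
  constructor
  · intro hmem
    by_contra hcon
    push Not at hcon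
    obtain ⟨a, h1, h2, h3⟩ := exists_lab hP hcon h0
    refine model (M + 4) Q (by omega) N s0 Go (fun i j => enc (a i j)) (fun i j => hle _) ?_ ?_ ?_
      hmem
    · simp only [h1]
      rfl
    · simp only [Go, mem_filter, mem_range, hde, h2, and_true]
      have := hle (a 0 (N + 1))
      omega
    · intro i j
      simp only [Q, hde]
      exact h3 i j
  · rintro ⟨T, hT⟩
    by_contra hcon
    obtain ⟨a, -, h1, h2, h3⟩ := sound_word (M + 4) Q (by omega) N s0 (hle _) Go hcon
    refine no_lab hP hT (fun i j => dec (a i j)) ?_ ?_ h3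
    · simp only [h1, s0, hde, and_self]
    · exact (mem_filter.1 h2).2

/-- words -/
abbrev Wd := List (Fin 7 × Bool)

/-- powers of words -/
def pw (w : Wd) : ℕ → Wd
  | 0 => []
  | n + 1 => pw w n ++ w

theorem mk_pw (w : Wd) (n : ℕ) : FreeGroup.mk (pw w n) = FreeGroup.mk w ^ n := by
  induction n with
  | zero => rfl
  | succ n ih => rw [pw, ← FreeGroup.mul_mk, ih, pow_succ]

/-- letters of the input word -/
def lwW (C : Wd) (b : ℕ) (v : Wd) : Wd :=
  match b with
  | 0 => C ++ v ++ FreeGroup.invRev C ++ FreeGroup.invRev v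
  | b + 1 => pw C (2 ^ b) ++ v ++ FreeGroup.invRev (pw C (2 ^ b)) ++ v

theorem mk_lwW (C : Wd) (b : ℕ) (v : Wd) :
    FreeGroup.mk (lwW C b v) = lw (FreeGroup.mk C) b (FreeGroup.mk v) := by
  cases b with
  | zero => simp only [lwW, lw, ← FreeGroup.mul_mk, ← FreeGroup.inv_mk]
  | succ b => simp only [lwW, lw, ← FreeGroup.mul_mk, ← FreeGroup.inv_mk, mk_pw]

/-- the word of a power of the second shift -/
def s2W (n : ℕ) : Wd := (List.range n).map fun _ => (5, true)

theorem mk_s2W (n : ℕ) : FreeGroup.mk (s2W n) = dat.s2 ^ n := by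
  induction n with
  | zero => rfl
  | succ n ih =>
    rw [s2W, List.range_succ, List.map_append, ← FreeGroup.mul_mk, pow_succ, ← ih]
    rfl

/-- the conjugating part of the input word -/
def CW (cw : Wd) (N : ℕ) : Wd := s2W (N + 1) ++ cw ++ FreeGroup.invRev (s2W (N + 1))

/-- the input word -/
def wl (cw vw : Wd) (l : List ℕ) (N : ℕ) : Wd := l.foldr (lwW (CW cw N)) vw

theorem mk_wl {cw vw : Wd} {R s0 : ℕ} (hc : FreeGroup.mk cw = dat.c)
    (hv : FreeGroup.mk vw = seedW R s0) (l : List ℕ) (N : ℕ) :
    FreeGroup.mk (wl cw vw l N) = inputW R s0 l N := by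
  unfold inputW wl iw
  have hC : FreeGroup.mk (CW cw N) = dat.cj (dat.s2 ^ (N + 1)) := by
    simp only [CW, ← FreeGroup.mul_mk, ← FreeGroup.inv_mk, mk_s2W, hc, Dat.cj]
  induction l with
  | nil => exact hv
  | cons b l ih => rw [List.foldr_cons, List.foldr_cons, mk_lwW, ih, hC]

theorem primrec_invRev : Primrec (FreeGroup.invRev : Wd → Wd) := by
  unfold FreeGroup.invRev
  refine Primrec.list_reverse.comp (Primrec.list_map Primrec.id ?_)
  exact Primrec.pair (Primrec.fst.comp Primrec.snd) (Primrec.not.comp (Primrec.snd.comp Primrec.snd))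

theorem primrec_pw {f : ℕ → Wd} (hf : Primrec f) (n : ℕ) : Primrec fun N => pw (f N) n := by
  induction n with
  | zero => exact Primrec.const _
  | succ n ih => exact Primrec.list_append.comp ih hf

theorem primrec_lwW {f g : ℕ → Wd} (hf : Primrec f) (hg : Primrec g) (b : ℕ) :
    Primrec fun N => lwW (f N) b (g N) := by
  cases b with
  | zero =>
    exact Primrec.list_append.comp (Primrec.list_append.comp (Primrec.list_append.comp hf hg)
      (primrec_invRev.comp hf)) (primrec_invRev.comp hg)
  | succ b =>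
    have h1 := primrec_pw hf (2 ^ b)
    exact Primrec.list_append.comp (Primrec.list_append.comp (Primrec.list_append.comp h1 hg)
      (primrec_invRev.comp h1)) hg

theorem primrec_s2W : Primrec s2W :=
  Primrec.list_map Primrec.list_range (Primrec.const _).to₂

theorem primrec_CW (cw : Wd) : Primrec (CW cw) := by
  have h : Primrec fun N => s2W (N + 1) := primrec_s2W.comp Primrec.succ
  exact Primrec.list_append.comp (Primrec.list_append.comp h (Primrec.const _))
    (primrec_invRev.comp h)

theorem primrec_wl (cw vw : Wd) (l : List ℕ) : Primrec (wl cw vw l) := by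
  unfold wl
  induction l with
  | nil => exact Primrec.const _
  | cons b l ih => exact primrec_lwW (primrec_CW cw) ih b

theorem undecidable : ∃ r : F7, ¬ ComputablePred fun w : Wd =>
    FreeGroup.mk w ∈ derivedSeries F7 3 ⊔ Subgroup.normalClosure {r} := by
  obtain ⟨f, hf, hund⟩ := exists_undecidable
  obtain ⟨body, hb⟩ := search hf
  have hlen : (code (prog body) 0).length = len (prog body) := length_code _ _
  obtain ⟨K, hK⟩ := code_ok (prog body)
  have hP : ∀ i ∈ code (prog body) 0, Ok K (code (prog body) 0).length i := by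
    intro i hi
    have := hK 0 i hi
    rw [zero_add] at this
    rw [hlen]
    exact this
  have h0 : 0 < (code (prog body) 0).length := by
    rw [hlen]
    simp only [prog, len]
    omega
  obtain ⟨R, s0, Q, l, hred⟩ := reduction hP h0
  refine ⟨relator R (BadOf R Q), fun hc => hund ?_⟩
  obtain ⟨d, hd, hdp⟩ := ComputablePred.computable_iff.1 hc
  rw [ComputablePred.computable_iff]
  set cw := dat.c.toWord with hcw
  set vw := (seedW R s0).toWord with hvw
  refine ⟨fun N => d (wl cw vw l N), hd.comp (primrec_wl cw vw l).to_comp, ?_⟩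
  funext N
  have h3 := congrFun hdp (wl cw vw l N)
  rw [← h3, mk_wl FreeGroup.mk_toWord FreeGroup.mk_toWord, hred, halting_iff hb, hlen]

end Pool.Agent.Helper707.GFinal
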