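import Mathlib

/-!
Words over an alphabet with formal inverses, and paths in a monoid.
-/

namespace Pool.Agent.Helper707.IAlg

variable {A M : Type*}

/-- formal inverse of a word -/
def nu (u : List (A ⊕ A)) : List (A ⊕ A) := u.reverse.map Sum.swap

theorem nu_nil : nu ([] : List (A ⊕ A)) = [] := rfl

theorem nu_append (u v : List (A ⊕ A)) : nu (u ++ v) = nu v ++ nu u := by
  simp [nu]

theorem nu_cons (x : A ⊕ A) (u : List (A ⊕ A)) : nu (x :: u) = nu u ++ [x.swap] := by
  simp [nu]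

theorem nu_singleton (x : A ⊕ A) : nu [x] = [x.swap] := rfl

theorem nu_nu (u : List (A ⊕ A)) : nu (nu u) = u := by
  induction u with
  | nil => rfl
  | cons x u ih => rw [nu_cons, nu_append, nu_singleton, ih, Sum.swap_swap]; rfl

variable [Monoid M]

/-- evaluation of words -/
def ev (f : A ⊕ A → M) (u : List (A ⊕ A)) : M := (u.map f).prod

theorem ev_nil (f : A ⊕ A → M) : ev f [] = 1 := rfl

theorem ev_append (f : A ⊕ A → M) (u v : List (A ⊕ A)) : ev f (u ++ v) = ev f u * ev f v := by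
  simp [ev]

theorem ev_cons (f : A ⊕ A → M) (x : A ⊕ A) (u : List (A ⊕ A)) :
    ev f (x :: u) = f x * ev f u := by
  simp [ev]

theorem ev_singleton (f : A ⊕ A → M) (x : A ⊕ A) : ev f [x] = f x := by
  simp [ev]

/-- the axioms of inverse monoids on generators -/
structure IsInvGen (f : A ⊕ A → M) : Prop where
  reg : ∀ u, ev f u * ev f (nu u) * ev f u = ev f u
  comm : ∀ u v, ev f u * ev f (nu u) * (ev f v * ev f (nu v)) =
    ev f v * ev f (nu v) * (ev f u * ev f (nu u))

/-- paths -/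
def Pt (f : A ⊕ A → M) (u : List (A ⊕ A)) (m m' : M) : Prop :=
  m * ev f u = m' ∧ m' * ev f (nu u) = m

variable {f : A ⊕ A → M}

theorem Pt.nil (m : M) : Pt f [] m m := by simp [Pt, nu_nil, ev_nil]

theorem Pt.eq_nil {m m' : M} (h : Pt f [] m m') : m' = m := by
  have := h.1
  rw [ev_nil, mul_one] at this
  exact this.symm

theorem Pt.det {u : List (A ⊕ A)} {m m' m'' : M} (h : Pt f u m m') (h' : Pt f u m m'') :
    m' = m'' := h.1.symm.trans h'.1

theorem Pt.symm {u : List (A ⊕ A)} {m m' : M} (h : Pt f u m m') : Pt f (nu u) m' m :=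
  ⟨h.2, by rw [nu_nu]; exact h.1⟩

theorem Pt.append {u v : List (A ⊕ A)} {m m' m'' : M} (h : Pt f u m m') (h' : Pt f v m' m'') :
    Pt f (u ++ v) m m'' := by
  refine ⟨?_, ?_⟩
  · rw [ev_append, ← mul_assoc, h.1, h'.1]
  · rw [nu_append, ev_append, ← mul_assoc, h'.2, h.2]

theorem Pt.cons {x : A ⊕ A} {v : List (A ⊕ A)} {m m' m'' : M} (h : Pt f [x] m m')
    (h' : Pt f v m' m'') : Pt f (x :: v) m m'' := h.append h'

theorem Pt.split (hf : IsInvGen f) {u v : List (A ⊕ A)} {m m'' : M} (h : Pt f (u ++ v) m m'') :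
    Pt f u m (m * ev f u) ∧ Pt f v (m * ev f u) m'' := by
  obtain ⟨h1, h2⟩ := h
  rw [ev_append, ← mul_assoc] at h1
  rw [nu_append, ev_append, ← mul_assoc] at h2
  have r1 := hf.reg (nu u)
  rw [nu_nu] at r1
  have c1 := hf.comm v (nu u)
  rw [nu_nu] at c1
  have k1 : m * ev f u * ev f (nu u) = m := by
    calc m * ev f u * ev f (nu u) = (m'' * ev f (nu v) * ev f (nu u)) * ev f u * ev f (nu u) := by
          rw [h2]
      _ = m'' * ev f (nu v) * (ev f (nu u) * ev f u * ev f (nu u)) := by simp only [mul_assoc]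
      _ = m := by rw [r1, h2]
  refine ⟨⟨rfl, k1⟩, ⟨h1, ?_⟩⟩
  calc m'' * ev f (nu v) = (m * ev f u * ev f v) * ev f (nu v) := by rw [h1]
    _ = (m * ev f u * ev f (nu u)) * ev f u * ev f v * ev f (nu v) := by rw [k1]
    _ = m * ev f u * (ev f (nu u) * ev f u * (ev f v * ev f (nu v))) := by simp only [mul_assoc]
    _ = m * ev f u * (ev f v * ev f (nu v) * (ev f (nu u) * ev f u)) := by rw [c1]
    _ = (m * ev f u * ev f v) * ev f (nu v) * ev f (nu u) * ev f u := by simp only [mul_assoc]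
    _ = m * ev f u := by rw [h1, h2]

theorem Pt.uncons (hf : IsInvGen f) {x : A ⊕ A} {v : List (A ⊕ A)} {m m'' : M}
    (h : Pt f (x :: v) m m'') : Pt f [x] m (m * f x) ∧ Pt f v (m * f x) m'' := by
  have := Pt.split (u := [x]) (v := v) hf h
  rw [ev_singleton] at this
  exact this

theorem Pt.of_one (hf : IsInvGen f) {w : List (A ⊕ A)} (hw : ev f w = 1) (m : M) : Pt f w m m := by
  have h := hf.reg (nu w)
  rw [nu_nu, hw, mul_one] at h
  have h2 := hf.reg w
  rw [hw, one_mul, mul_one] at h2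
  exact ⟨by rw [hw, mul_one], by rw [h2, mul_one]⟩

/-- the relator built from a word and a list of words which become readable -/
def rel (x : List (A ⊕ A)) (V : List (List (A ⊕ A))) : List (A ⊕ A) :=
  x ++ V.flatMap fun v => v ++ nu v

theorem readable_of_loop (hf : IsInvGen f) (V : List (List (A ⊕ A))) :
    ∀ m m' : M, Pt f (V.flatMap fun v => v ++ nu v) m m' →
      m' = m ∧ ∀ v ∈ V, Pt f v m (m * ev f v) := by
  induction V with
  | nil =>
    intro m m' h
    exact ⟨h.eq_nil, fun v hv => by simp at hv⟩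
  | cons v V ih =>
    intro m m' h
    rw [List.flatMap_cons] at h
    obtain ⟨h1, h2⟩ := h.split hf
    obtain ⟨h3, h4⟩ := h1.split hf
    have h5 : m * ev f (v ++ nu v) = m := h4.det h3.symm
    rw [h5] at h2
    obtain ⟨h6, h7⟩ := ih _ _ h2
    refine ⟨h6, fun v' hv' => ?_⟩
    rcases List.mem_cons.1 hv' with rfl | hv'
    · exact h3
    · exact h7 v' hv'

theorem readable_of_rel (hf : IsInvGen f) {x : List (A ⊕ A)} {V : List (List (A ⊕ A))}
    (hw : ev f (rel x V) = 1) (m : M) : Pt f x m m ∧ ∀ v ∈ V, Pt f v m (m * ev f v) := by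
  have h := Pt.of_one hf hw m
  obtain ⟨h1, h2⟩ := h.split hf
  obtain ⟨h3, h4⟩ := readable_of_loop hf V _ _ h2
  rw [← h3] at h1 h4
  exact ⟨h1, h4⟩

end Pool.Agent.Helper707.IAlg
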