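import Mathlib
import Pool.Agent.Helper707.IAlg

/-!
Presentations of inverse monoids and their actions by injective maps.
-/

namespace Pool.Agent.Helper707.IModel

open Pool.Agent.Helper707.IAlg

variable {A : Type}

/-- defining relations -/
def Rl (w : List (A ⊕ A)) (a b : FreeMonoid (A ⊕ A)) : Prop :=
  (∃ u : FreeMonoid (A ⊕ A),
    a = u * FreeMonoid.ofList ((FreeMonoid.toList u).reverse.map Sum.swap) * u ∧ b = u) ∨
  (∃ u v : FreeMonoid (A ⊕ A),
    a = u * FreeMonoid.ofList ((FreeMonoid.toList u).reverse.map Sum.swap) *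
        (v * FreeMonoid.ofList ((FreeMonoid.toList v).reverse.map Sum.swap)) ∧
    b = v * FreeMonoid.ofList ((FreeMonoid.toList v).reverse.map Sum.swap) *
        (u * FreeMonoid.ofList ((FreeMonoid.toList u).reverse.map Sum.swap))) ∨
  (a = FreeMonoid.ofList w ∧ b = 1)

/-- the congruence -/
def cg (w : List (A ⊕ A)) : Con (FreeMonoid (A ⊕ A)) := conGen (Rl w)

/-- generators in the quotient -/
def gi (w : List (A ⊕ A)) (x : A ⊕ A) : (cg w).Quotient := ((FreeMonoid.of x : FreeMonoid (A ⊕ A)))

theorem ev_gi (w u : List (A ⊕ A)) :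
    ev (gi w) u = ((FreeMonoid.ofList u : FreeMonoid (A ⊕ A)) : (cg w).Quotient) := by
  induction u with
  | nil => rfl
  | cons x u ih =>
    rw [ev_cons, ih]
    rfl

theorem isInvGen (w : List (A ⊕ A)) : IsInvGen (gi w) where
  reg u := by
    simp only [ev_gi, nu, ← Con.coe_mul]
    refine (Con.eq _).2 (ConGen.Rel.of _ _ (Or.inl ⟨FreeMonoid.ofList u, ?_, rfl⟩))
    rfl
  comm u v := by
    simp only [ev_gi, nu, ← Con.coe_mul]
    refine (Con.eq _).2 (ConGen.Rel.of _ _ (Or.inr (Or.inl
      ⟨FreeMonoid.ofList u, FreeMonoid.ofList v, ?_, ?_⟩)))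
    · rfl
    · rfl

theorem ev_rel (w : List (A ⊕ A)) : ev (gi w) w = 1 := by
  rw [ev_gi, ← Con.coe_one]
  exact (Con.eq _).2 (ConGen.Rel.of _ _ (Or.inr (Or.inr ⟨rfl, rfl⟩)))

theorem cg_iff (w u v : List (A ⊕ A)) :
    cg w (FreeMonoid.ofList u) (FreeMonoid.ofList v) ↔ ev (gi w) u = ev (gi w) v := by
  rw [ev_gi, ev_gi, Con.eq]

/-- actions by injective maps -/
structure Act (A Ω : Type) where
  /-- one letter -/
  step : A ⊕ A → Ω → Option Ω
  symm : ∀ x ω ω', step x ω = some ω' → step x.swap ω' = some ω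

namespace Act

variable {Ω : Type} (S : Act A Ω)

/-- action of a word -/
def run : List (A ⊕ A) → Ω → Option Ω
  | [], ω => some ω
  | x :: u, ω => (S.step x ω).bind (run u)

theorem run_append (u v : List (A ⊕ A)) (ω : Ω) :
    S.run (u ++ v) ω = (S.run u ω).bind (S.run v) := by
  induction u generalizing ω with
  | nil => rfl
  | cons x u ih =>
    simp only [List.cons_append, run]
    cases S.step x ω with
    | none => rfl
    | some ω' => exact ih ω'

theorem run_nu (u : List (A ⊕ A)) (ω ω' : Ω) (h : S.run u ω = some ω') :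
    S.run (nu u) ω' = some ω := by
  induction u generalizing ω with
  | nil => simp only [run, Option.some.injEq] at h; subst h; rfl
  | cons x u ih =>
    simp only [run] at h
    cases hx : S.step x ω with
    | none => rw [hx] at h; simp at h
    | some ω1 =>
      rw [hx] at h
      have h1 := ih ω1 h
      rw [nu_cons, run_append, h1]
      simp only [run, Option.bind_some]
      rw [S.symm _ _ _ hx]
      rfl

theorem run_loop (u : List (A ⊕ A)) (ω : Ω) :
    S.run (u ++ nu u) ω = (S.run u ω).map fun _ => ω := by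
  rw [run_append]
  cases h : S.run u ω with
  | none => rfl
  | some ω' => exact S.run_nu u ω ω' h

theorem run_loop_some (u : List (A ⊕ A)) (ω : Ω) (h : (S.run u ω).isSome) :
    S.run (u ++ nu u) ω = some ω := by
  rw [run_loop]
  obtain ⟨ω', h'⟩ := Option.isSome_iff_exists.1 h
  rw [h']
  rfl

theorem run_flat (V : List (List (A ⊕ A))) (ω : Ω) (h : ∀ v ∈ V, (S.run v ω).isSome) :
    S.run (V.flatMap fun v => v ++ nu v) ω = some ω := by
  induction V with
  | nil => rfl
  | cons v V ih =>
    rw [List.flatMap_cons, run_append, S.run_loop_some v ω (h v List.mem_cons_self)]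
    exact ih fun v' hv' => h v' (List.mem_cons_of_mem _ hv')

/-- the kernel congruence -/
def ker : Con (FreeMonoid (A ⊕ A)) where
  r u v := ∀ ω, S.run (FreeMonoid.toList u) ω = S.run (FreeMonoid.toList v) ω
  iseqv := ⟨fun _ _ => rfl, fun h ω => (h ω).symm, fun h h' ω => (h ω).trans (h' ω)⟩
  mul' := by
    intro u v u' v' h h' ω
    rw [FreeMonoid.toList_mul, FreeMonoid.toList_mul, run_append, run_append, h ω]
    cases S.run (FreeMonoid.toList v) ω with
    | none => rfl
    | some ω' => exact h' ω'

theorem run_reg (u : List (A ⊕ A)) (ω : Ω) : S.run (u ++ nu u ++ u) ω = S.run u ω := by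
  rw [run_append, run_loop]
  cases h : S.run u ω with
  | none => rfl
  | some ω' => exact h

theorem run_comm (u v : List (A ⊕ A)) (ω : Ω) :
    S.run (u ++ nu u ++ (v ++ nu v)) ω = S.run (v ++ nu v ++ (u ++ nu u)) ω := by
  rw [run_append, run_append S (v ++ nu v), run_loop, run_loop]
  cases h1 : S.run u ω with
  | none =>
    cases h2 : S.run v ω with
    | none => rfl
    | some ω' =>
      simp only [Option.map_none, Option.map_some, Option.bind_none, Option.bind_some]
      rw [run_loop, h1]
      rfl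
  | some ω' =>
    cases h2 : S.run v ω with
    | none =>
      simp only [Option.map_none, Option.map_some, Option.bind_none, Option.bind_some]
      rw [run_loop, h2]
      rfl
    | some ω' =>
      simp only [Option.map_some, Option.bind_some]
      rw [run_loop, run_loop, h1, h2]
      rfl

theorem cg_le (w : List (A ⊕ A)) (hw : ∀ ω, S.run w ω = some ω) : cg w ≤ S.ker := by
  refine Con.conGen_le.2 ?_
  intro a b h ω
  rcases h with ⟨u, ha, hb⟩ | ⟨u, v, ha, hb⟩ | ⟨ha, hb⟩
  · rw [ha, hb]
    exact S.run_reg (FreeMonoid.toList u) ω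
  · rw [ha, hb]
    exact S.run_comm (FreeMonoid.toList u) (FreeMonoid.toList v) ω
  · rw [ha, hb]
    exact hw ω

theorem run_eq {w : List (A ⊕ A)} (hw : ∀ ω, S.run w ω = some ω) {u v : List (A ⊕ A)}
    (h : cg w (FreeMonoid.ofList u) (FreeMonoid.ofList v)) (ω : Ω) : S.run u ω = S.run v ω :=
  S.cg_le w hw h ω

end Act

end Pool.Agent.Helper707.IModel
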