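import Mathlib
import Pool.Agent.Helper707.IModel

/-!
The relator attached to a finite automaton, and the graph of right units.
-/

namespace Pool.Agent.Helper707.IGraph

open Pool.Agent.Helper707.IAlg Pool.Agent.Helper707.IModel

/-- letters: two base letters, the letter of the cells, and a letter for each state -/
abbrev Lt (k : ℕ) := Bool ⊕ Option (Fin k)

/-- signed letters -/
abbrev Sl (k : ℕ) := Lt k ⊕ Lt k

/-- signed base letters -/
abbrev Lb := Bool ⊕ Bool

/-- signed base letters as signed letters -/
def bl (k : ℕ) (l : Lb) : Sl k := Sum.map Sum.inl Sum.inl l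

/-- positive special letter -/
def sp {k : ℕ} (x : Option (Fin k)) : Sl k := .inl (.inr x)

/-- negative special letter -/
def sn {k : ℕ} (x : Option (Fin k)) : Sl k := .inr (.inr x)

/-- letter a -/
abbrev la : Lb := .inl false
/-- letter s -/
abbrev ls : Lb := .inl true
/-- inverse of a -/
abbrev la' : Lb := .inr false
/-- inverse of s -/
abbrev ls' : Lb := .inr true

/-- base words as words -/
def wd (k : ℕ) (u : List Lb) : List (Sl k) := u.map (bl k)

/-- the cell -/
def cell (k : ℕ) : List (Sl k) :=
  [sp none] ++ wd k [la, ls, la, ls', la', ls, la', ls'] ++ [sn none]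

/-- readable words -/
def rules {k : ℕ} (δ : Fin k → Lb → Option (Fin k)) : List (List (Sl k)) :=
  [[sp none] ++ wd k [la] ++ [sn none], [sp none] ++ wd k [ls] ++ [sn none],
    [sp none] ++ wd k [ls, la, ls'] ++ [sn none]] ++
  ([sp none] :: (List.finRange k).map fun q => [sp (some q)]) ++
  (List.finRange k).flatMap fun q => [la, ls, la', ls'].flatMap fun l =>
    match δ q l with
    | some q' => [[sp (some q)] ++ wd k [l] ++ [sn (some q')]]
    | none => []

/-- the relator -/
def relator {k : ℕ} (δ : Fin k → Lb → Option (Fin k)) : List (Sl k) := rel (cell k) (rules δ)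

theorem mem_lbs (l : Lb) : l ∈ [la, ls, la', ls'] := by
  rcases l with (_ | _) | (_ | _) <;> simp

section

variable {k : ℕ} (δ : Fin k → Lb → Option (Fin k))

theorem mem_rule_sp (x : Option (Fin k)) : [sp x] ∈ rules δ := by
  unfold rules
  rw [List.mem_append, List.mem_append]
  refine Or.inl (Or.inr ?_)
  cases x with
  | none => exact List.mem_cons_self
  | some q =>
    exact List.mem_cons_of_mem _ (List.mem_map.2 ⟨q, List.mem_finRange q, rfl⟩)

theorem mem_rule_st {q q' : Fin k} {l : Lb} (h : δ q l = some q') :
    [sp (some q)] ++ wd k [l] ++ [sn (some q')] ∈ rules δ := by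
  unfold rules
  rw [List.mem_append]
  refine Or.inr (List.mem_flatMap.2 ⟨q, List.mem_finRange q,
    List.mem_flatMap.2 ⟨l, mem_lbs l, ?_⟩⟩)
  rw [h]
  exact List.mem_singleton.2 rfl

theorem mem_rules {v : List (Sl k)} (h : v ∈ rules δ) :
    v = [sp none] ++ wd k [la] ++ [sn none] ∨ v = [sp none] ++ wd k [ls] ++ [sn none] ∨
    v = [sp none] ++ wd k [ls, la, ls'] ++ [sn none] ∨ (∃ x, v = [sp x]) ∨
    ∃ q l q', δ q l = some q' ∧ v = [sp (some q)] ++ wd k [l] ++ [sn (some q')] := by
  unfold rules at h
  rw [List.mem_append, List.mem_append] at h
  rcases h with (h | h) | h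
  · simp only [List.mem_cons, List.not_mem_nil, or_false] at h
    rcases h with h | h | h
    · exact Or.inl h
    · exact Or.inr (Or.inl h)
    · exact Or.inr (Or.inr (Or.inl h))
  · rcases List.mem_cons.1 h with h | h
    · exact Or.inr (Or.inr (Or.inr (Or.inl ⟨none, h⟩)))
    · obtain ⟨q, -, h⟩ := List.mem_map.1 h
      exact Or.inr (Or.inr (Or.inr (Or.inl ⟨some q, h.symm⟩)))
  · obtain ⟨q, -, h⟩ := List.mem_flatMap.1 h
    obtain ⟨l, -, h⟩ := List.mem_flatMap.1 h
    cases hd : δ q l with
    | none => rw [hd] at h; simp at h
    | some q' =>
      rw [hd] at h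
      exact Or.inr (Or.inr (Or.inr (Or.inr ⟨q, l, q', hd, List.mem_singleton.1 h⟩)))

/-- frames: coordinates in a coset with cells, in a tree coset, and hubs -/
abbrev Fr (k : ℕ) := List ℕ ⊕ ((Fin k × List (Lb × Fin k)) ⊕ Option (Fin k))

instance : DecidableEq (Fr k) := instDecidableEqSum

/-- current state -/
def cur (q : Fin k) : List (Lb × Fin k) → Fin k
  | [] => q
  | x :: _ => x.2

/-- action of base letters on a frame -/
def base (l : Lb) : Fr k → Option (Fr k)
  | .inl ms =>
    match l, ms with
    | .inl false, m :: n :: t => some (.inl (m :: (n + 1) :: t))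
    | .inl true, ms => some (.inl (0 :: ms))
    | .inr false, m :: (n + 1) :: t => some (.inl (m :: n :: t))
    | .inr true, 0 :: m :: n :: t => some (.inl (m :: n :: t))
    | _, _ => none
  | .inr (.inl (q, p)) =>
    if p.head?.map Prod.fst = some l.swap then some (.inr (.inl (q, p.tail)))
    else (δ (cur q p) l).map fun q' => .inr (.inl (q, (l, q') :: p))
  | .inr (.inr _) => none

/-- opening frame -/
def opn : Option (Fin k) → Fr k
  | none => .inl [0, 0]
  | some q => .inr (.inl (q, []))

/-- hub frame -/
def hub (x : Option (Fin k)) : Fr k := .inr (.inr x)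

/-- types of a frame -/
def typ : Fr k → Option (Fin k) → Bool
  | .inl _, none => true
  | .inr (.inl (q, p)), some q' => decide (cur q p = q')
  | _, _ => false

/-- one step in the graph -/
def step (x : Sl k) (v : List (Fr k)) : Option (List (Fr k)) :=
  match x with
  | .inl (.inl b) => v.head?.bind fun fr => (base δ (.inl b) fr).map fun fr' => fr' :: v.tail
  | .inr (.inl b) => v.head?.bind fun fr => (base δ (.inr b) fr).map fun fr' => fr' :: v.tail
  | .inl (.inr y) => if v.head? = some (hub y) then some v.tail else some (opn y :: v)
  | .inr (.inr y) => v.head?.bind fun fr =>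
      if fr = opn y then some v.tail else if typ fr y then some (hub y :: v) else none

/-- action of words -/
def rr : List (Sl k) → List (Fr k) → Option (List (Fr k))
  | [], v => some v
  | x :: u, v => (step δ x v).bind (rr u)

/-- valid paths in tree cosets -/
def okp (q : Fin k) : List (Lb × Fin k) → Prop
  | [] => True
  | x :: p => okp q p ∧ δ (cur q p) x.1 = some x.2

/-- valid frame over a list -/
def ok1 : Fr k → List (Fr k) → Prop
  | .inl ms, r => 2 ≤ ms.length ∧ r.head? ≠ some (hub none)
  | .inr (.inl (q, p)), r => okp δ q p ∧ r.head? ≠ some (hub (some q))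
  | .inr (.inr y), r => ∃ fr r', r = fr :: r' ∧ typ fr y = true ∧ fr ≠ opn y

/-- valid vertices -/
def Valid : List (Fr k) → Prop
  | [] => True
  | fr :: r => ok1 δ fr r ∧ Valid r

/-- absence of backtracking -/
def NoBack : Prop := ∀ q l q', δ q l = some q' → δ q' l.swap = none

variable {δ}

theorem base_symm (hδ : NoBack δ) {l : Lb} {fr fr' : Fr k} {r : List (Fr k)} (hv : ok1 δ fr r)
    (h : base δ l fr = some fr') : ok1 δ fr' r ∧ base δ l.swap fr' = some fr := by
  rcases fr with ms | ⟨q, p⟩ | y
  · obtain ⟨h1, h2⟩ := hv
    match ms, h1 with
    | m :: n :: t, _ =>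
      rcases l with (_ | _) | (_ | _)
      · simp only [base, Option.some.injEq] at h
        subst h
        exact ⟨⟨by simp, h2⟩, rfl⟩
      · simp only [base, Option.some.injEq] at h
        subst h
        exact ⟨⟨by simp, h2⟩, rfl⟩
      · cases n with
        | zero => simp [base] at h
        | succ n =>
          simp only [base, Option.some.injEq] at h
          subst h
          exact ⟨⟨by simp, h2⟩, rfl⟩
      · cases m with
        | succ m => simp [base] at h
        | zero =>
          match t with
          | [] => simp [base] at h
          | n' :: t =>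
            simp only [base, Option.some.injEq] at h
            subst h
            exact ⟨⟨by simp, h2⟩, rfl⟩
  · obtain ⟨h1, h2⟩ := hv
    simp only [base] at h
    split_ifs at h with hb
    · simp only [Option.some.injEq] at h
      subst h
      match p, h1, hb with
      | (l', q') :: p, h1, hb =>
        simp only [List.head?_cons, Option.map_some, Option.some.injEq] at hb
        subst hb
        refine ⟨⟨h1.1, h2⟩, ?_⟩
        simp only [base, List.tail_cons, Sum.swap_swap]
        have h3 : δ (cur q p) l.swap = some q' := h1.2
        rw [if_neg, h3]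
        · rfl
        · intro hc
          match p, h1, h3, hc with
          | (l2, q2) :: p, h1, h3, hc =>
            simp only [List.head?_cons, Option.map_some, Option.some.injEq] at hc
            subst hc
            have h4 := hδ _ _ _ h1.1.2
            simp only [cur] at h3
            rw [h4] at h3
            exact absurd h3 (by simp)
    · cases hd : δ (cur q p) l with
      | none => rw [hd] at h; simp at h
      | some q' =>
        rw [hd] at h
        simp only [Option.map_some, Option.some.injEq] at h
        subst h
        refine ⟨⟨⟨h1, hd⟩, h2⟩, ?_⟩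
        simp only [base, List.head?_cons, Option.map_some, List.tail_cons, Sum.swap_swap, if_true]
  · simp [base] at h

theorem step_symm (hδ : NoBack δ) {x : Sl k} {v v' : List (Fr k)} (hv : Valid δ v)
    (h : step δ x v = some v') : Valid δ v' ∧ step δ x.swap v' = some v := by
  have hbase : ∀ l : Lb, (v.head?.bind fun fr => (base δ l fr).map fun fr' => fr' :: v.tail)
      = some v' → Valid δ v' ∧
      (v'.head?.bind fun fr => (base δ l.swap fr).map fun fr' => fr' :: v'.tail) = some v := by
    intro l h
    match v, hv, h with
    | fr :: r, hv, h =>
      simp only [List.head?_cons, Option.bind_some, List.tail_cons] at h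
      cases hb : base δ l fr with
      | none => rw [hb] at h; simp at h
      | some fr' =>
        rw [hb] at h
        simp only [Option.map_some, Option.some.injEq] at h
        subst h
        obtain ⟨h1, h2⟩ := base_symm hδ hv.1 hb
        refine ⟨⟨h1, hv.2⟩, ?_⟩
        simp only [List.head?_cons, Option.bind_some, List.tail_cons, h2, Option.map_some]
  rcases x with (b | y) | (b | y)
  · exact hbase (.inl b) h
  · simp only [step] at h
    split_ifs at h with hh
    · simp only [Option.some.injEq] at h
      match v, hv, hh with
      | fr :: r, hv, hh =>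
        simp only [List.head?_cons, Option.some.injEq] at hh
        subst hh
        simp only [List.tail_cons] at h
        subst h
        refine ⟨hv.2, ?_⟩
        obtain ⟨fr, r', rfl, h1, h2⟩ := hv.1
        simp only [Sum.swap_inl, step, List.head?_cons, Option.bind_some, if_neg h2, if_pos h1]
    · simp only [Option.some.injEq] at h
      subst h
      refine ⟨⟨?_, hv⟩, ?_⟩
      · cases y with
        | none => exact ⟨le_rfl, hh⟩
        | some q => exact ⟨trivial, hh⟩
      · simp only [Sum.swap_inl, step, List.head?_cons, Option.bind_some, if_true, List.tail_cons]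
  · exact hbase (.inr b) h
  · simp only [step] at h
    match v, hv, h with
    | fr :: r, hv, h =>
      simp only [List.head?_cons, Option.bind_some, List.tail_cons] at h
      split_ifs at h with hh ht
      · simp only [Option.some.injEq] at h
        subst h hh
        refine ⟨hv.2, ?_⟩
        have h3 : r.head? ≠ some (hub y) := by
          cases y with
          | none => exact hv.1.2
          | some q => exact hv.1.2
        simp only [Sum.swap_inr, step, if_neg h3]
      · simp only [Option.some.injEq] at h
        subst h
        refine ⟨⟨⟨fr, r, rfl, ht, hh⟩, hv⟩, ?_⟩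
        simp only [Sum.swap_inr, step, List.head?_cons, if_true, List.tail_cons]

/-- the action on valid vertices -/
def gact (hδ : NoBack δ) : Act (Lt k) {v : List (Fr k) // Valid δ v} where
  step x v :=
    match h : step δ x v.1 with
    | none => none
    | some v' => some ⟨v', (step_symm hδ v.2 h).1⟩
  symm := by
    rintro x ⟨v, hv⟩ ⟨v', hv'⟩ h
    simp only at h
    split at h
    · simp at h
    · rename_i v1 h1
      simp only [Option.some.injEq, Subtype.mk.injEq] at h
      subst h
      have h2 := (step_symm hδ hv h1).2
      simp only
      split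
      · rename_i h3
        rw [h2] at h3
        exact absurd h3 (by simp)
      · rename_i v2 h3
        rw [h2] at h3
        simp only [Option.some.injEq] at h3
        subst h3
        rfl

theorem gact_run (hδ : NoBack δ) (u : List (Sl k)) (v : {v : List (Fr k) // Valid δ v}) :
    ((gact hδ).run u v).map Subtype.val = rr δ u v.1 := by
  induction u generalizing v with
  | nil => rfl
  | cons x u ih =>
    simp only [Act.run, rr]
    have : ((gact hδ).step x v).map Subtype.val = step δ x v.1 := by
      simp only [gact]
      split
      · rename_i h; rw [h]; rfl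
      · rename_i h; exact h.symm
    cases h : (gact hδ).step x v with
    | none => rw [h] at this; rw [← this]; rfl
    | some v' =>
      rw [h] at this
      rw [← this]
      exact ih v'

end

end Pool.Agent.Helper707.IGraph
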