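import Mathlib
import Pool.Agent.Helper707.IGraph

/-!
The relator acts trivially on the graph; the graph describes the right units.
-/

namespace Pool.Agent.Helper707.IClosed

open Pool.Agent.Helper707.IAlg Pool.Agent.Helper707.IModel Pool.Agent.Helper707.IGraph

theorem run_rel {A Ω : Type} (S : Act A Ω) {x : List (A ⊕ A)} {V : List (List (A ⊕ A))} {ω : Ω}
    (hx : S.run x ω = some ω) (hV : ∀ v ∈ V, (S.run v ω).isSome) :
    S.run (rel x V) ω = some ω := by
  unfold rel
  rw [S.run_append, hx]
  exact S.run_flat V ω hV

variable {k : ℕ} {δ : Fin k → Lb → Option (Fin k)}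

theorem rr_append (u v : List (Sl k)) (r : List (Fr k)) :
    rr δ (u ++ v) r = (rr δ u r).bind (rr δ v) := by
  induction u generalizing r with
  | nil => rfl
  | cons x u ih =>
    simp only [List.cons_append, rr]
    cases step δ x r with
    | none => rfl
    | some r' => exact ih r'

theorem run_isSome (hδ : NoBack δ) {u : List (Sl k)} {v : {v : List (Fr k) // Valid δ v}}
    (h : (rr δ u v.1).isSome) : ((gact hδ).run u v).isSome := by
  rw [← gact_run hδ, Option.isSome_map] at h
  exact h

theorem run_self (hδ : NoBack δ) {u : List (Sl k)} {v : {v : List (Fr k) // Valid δ v}}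
    (h : rr δ u v.1 = some v.1) : (gact hδ).run u v = some v := by
  rw [← gact_run hδ] at h
  cases h1 : (gact hδ).run u v with
  | none => rw [h1] at h; simp at h
  | some v' =>
    rw [h1] at h
    simp only [Option.map_some, Option.some.injEq] at h
    rw [Subtype.ext h]

theorem step_sp (hδ : NoBack δ) {v : List (Fr k)} (hv : Valid δ v) (y : Option (Fin k)) :
    ∃ fr r, step δ (sp y) v = some (fr :: r) ∧ typ fr y = true ∧ ok1 δ fr r ∧
      step δ (sn y) (fr :: r) = some v := by
  have key : ∃ fr r, step δ (sp y) v = some (fr :: r) ∧ typ fr y = true := by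
    simp only [sp, step]
    split_ifs with h
    · match v, hv, h with
      | fr :: r, hv, h =>
        simp only [List.head?_cons, Option.some.injEq] at h
        subst h
        obtain ⟨fr, r', rfl, h1, h2⟩ := hv.1
        exact ⟨fr, r', rfl, h1⟩
    · refine ⟨_, _, rfl, ?_⟩
      cases y with
      | none => rfl
      | some q => simp [opn, typ, cur]
  obtain ⟨fr, r, h1, h2⟩ := key
  obtain ⟨h3, h4⟩ := step_symm hδ hv h1
  exact ⟨fr, r, h1, h2, h3.1, h4⟩

theorem step_sn {fr : Fr k} {r : List (Fr k)} {y : Option (Fin k)} (h : typ fr y = true) :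
    (step δ (sn y) (fr :: r)).isSome := by
  simp only [sn, step, List.head?_cons, Option.bind_some]
  split_ifs <;> simp

theorem rr_rule {v : List (Fr k)} {y y' : Option (Fin k)} {u : List (Sl k)} {fr fr' : Fr k}
    {r r' : List (Fr k)} (h1 : step δ (sp y) v = some (fr :: r))
    (h2 : rr δ u (fr :: r) = some (fr' :: r')) (h3 : typ fr' y' = true) :
    (rr δ ([sp y] ++ u ++ [sn y']) v).isSome := by
  rw [rr_append, rr_append]
  simp only [rr, h1, Option.bind_some, h2]
  have := step_sn (δ := δ) (r := r') h3
  obtain ⟨v', hv'⟩ := Option.isSome_iff_exists.1 this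
  rw [hv']
  rfl

theorem relator_run (hδ : NoBack δ) (v : {v : List (Fr k) // Valid δ v}) :
    (gact hδ).run (relator δ) v = some v := by
  refine run_rel _ ?_ ?_
  · apply run_self
    obtain ⟨fr, r, h1, h2, h3, h4⟩ := step_sp hδ v.2 none
    match fr, h2, h3 with
    | .inl (m :: n :: t), _, _ =>
      unfold cell
      rw [rr_append, rr_append]
      simp only [rr, h1, Option.bind_some]
      have h5 : rr δ (wd k [la, ls, la, ls', la', ls, la', ls']) (.inl (m :: n :: t) :: r)
          = some (.inl (m :: n :: t) :: r) := rfl
      rw [h5]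
      simp only [Option.bind_some, h4]
  · intro w hw
    apply run_isSome
    rcases mem_rules δ hw with rfl | rfl | rfl | ⟨y, rfl⟩ | ⟨q, l, q', hd, rfl⟩
    · obtain ⟨fr, r, h1, h2, h3, h4⟩ := step_sp hδ v.2 none
      match fr, h2, h3 with
      | .inl (m :: n :: t), _, _ =>
        exact rr_rule (fr' := .inl (m :: (n + 1) :: t)) (r' := r) h1 rfl rfl
    · obtain ⟨fr, r, h1, h2, h3, h4⟩ := step_sp hδ v.2 none
      match fr, h2, h3 with
      | .inl (m :: n :: t), _, _ =>
        exact rr_rule (fr' := .inl (0 :: m :: n :: t)) (r' := r) h1 rfl rfl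
    · obtain ⟨fr, r, h1, h2, h3, h4⟩ := step_sp hδ v.2 none
      match fr, h2, h3 with
      | .inl (m :: n :: t), _, _ =>
        exact rr_rule (fr' := .inl ((m + 1) :: n :: t)) (r' := r) h1 rfl rfl
    · obtain ⟨fr, r, h1, h2, h3, h4⟩ := step_sp hδ v.2 y
      simp only [rr, h1, Option.bind_some, Option.isSome_some]
    · obtain ⟨fr, r, h1, h2, h3, h4⟩ := step_sp hδ v.2 (some q)
      match fr, h2, h3 with
      | .inr (.inl (q0, p)), h2, h3 =>
        simp only [typ, decide_eq_true_eq] at h2
        refine rr_rule (fr' := .inr (.inl (q0, (l, q') :: p))) (r' := r) h1 ?_ ?_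
        · have hb : base δ l (.inr (.inl (q0, p))) = some (.inr (.inl (q0, (l, q') :: p))) := by
            simp only [base]
            rw [if_neg, h2, hd]
            · rfl
            · intro hc
              match p, h2, h3, hc with
              | (l2, q2) :: p, h2, h3, hc =>
                simp only [List.head?_cons, Option.map_some, Option.some.injEq] at hc
                simp only [cur] at h2
                subst hc h2
                have h5 := hδ _ _ _ h3.1.2
                simp only [Sum.swap_swap] at h5
                rw [hd] at h5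
                exact absurd h5 (by simp)
          rcases l with b | b
          · simp only [wd, List.map_cons, List.map_nil, rr, bl, Sum.map_inl, step,
              List.head?_cons, Option.bind_some, List.tail_cons, hb, Option.map_some]
          · simp only [wd, List.map_cons, List.map_nil, rr, bl, Sum.map_inr, step,
              List.head?_cons, Option.bind_some, List.tail_cons, hb, Option.map_some]
        · simp [typ, cur]

end Pool.Agent.Helper707.IClosed
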