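import Mathlib
import Pool.Agent.Helper707.IGraph

/-!
Computability of the graph.
-/

namespace Pool.Agent.Helper707.IComp

open Pool.Agent.Helper707.IGraph

theorem primrec₂_of_finite {α β σ : Type} [Primcodable α] [Primcodable β] [Primcodable σ]
    [Finite α] (f : α → β → σ) (h : ∀ a, Primrec (f a)) : Primrec₂ f := by
  classical
  have key : ∀ xs : List α, Primrec (fun p : α × β =>
      xs.foldr (fun x acc => if p.1 = x then some (f x p.2) else acc) none) := by
    intro xs
    induction xs with
    | nil => exact Primrec.const _
    | cons x xs ih =>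
      exact Primrec.ite (Primrec.eq.comp Primrec.fst (Primrec.const x))
        (Primrec.option_some.comp ((h x).comp Primrec.snd)) ih
  have hval : ∀ (xs : List α) (a : α) (b : β), a ∈ xs →
      xs.foldr (fun x acc => if a = x then some (f x b) else acc) none = some (f a b) := by
    intro xs a b hmem
    induction xs with
    | nil => simp at hmem
    | cons x xs ih =>
      simp only [List.foldr_cons]
      by_cases hx : a = x
      · rw [if_pos hx, hx]
      · rw [if_neg hx]
        exact ih ((List.mem_cons.1 hmem).resolve_left hx)
  have := Fintype.ofFinite α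
  refine Primrec.option_some_iff.1 ((key Finset.univ.toList).of_eq ?_)
  rintro ⟨a, b⟩
  exact hval _ a b (Finset.mem_toList.2 (Finset.mem_univ a))

section

variable {k : ℕ} (δ : Fin k → Lb → Option (Fin k))

instance : Primcodable (Lb × Fin k) := Primcodable.prod
instance : Primcodable (Fin k × List (Lb × Fin k)) := Primcodable.prod
instance : Primcodable ((Fin k × List (Lb × Fin k)) ⊕ Option (Fin k)) := Primcodable.sum
instance : Primcodable (Fr k) := Primcodable.sum

/-- action on coordinates -/
def bc (l : Lb) (ms : List ℕ) : Option (Fr k) :=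
  match l with
  | .inl false =>
    if 2 ≤ ms.length then some (.inl (ms.headI :: (ms.tail.headI + 1) :: ms.tail.tail)) else none
  | .inl true => some (.inl (0 :: ms))
  | .inr false =>
    if 2 ≤ ms.length ∧ 1 ≤ ms.tail.headI then
      some (.inl (ms.headI :: (ms.tail.headI - 1) :: ms.tail.tail)) else none
  | .inr true => if 3 ≤ ms.length ∧ ms.headI = 0 then some (.inl ms.tail) else none

/-- action on tree coordinates -/
def tc (l : Lb) (x : Fin k × List (Lb × Fin k)) : Option (Fr k) :=
  if x.2.head?.map Prod.fst = some l.swap then some (.inr (.inl (x.1, x.2.tail)))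
  else (δ ((x.2.head?.map Prod.snd).getD x.1) l).map fun q' => .inr (.inl (x.1, (l, q') :: x.2))

theorem base_inl (l : Lb) (ms : List ℕ) : base δ l (.inl ms) = bc l ms := by
  rcases l with (_ | _) | (_ | _)
  · match ms with
    | [] => rfl
    | [_] => rfl
    | m :: n :: t => simp [base, bc]
  · rfl
  · match ms with
    | [] => rfl
    | [_] => rfl
    | m :: 0 :: t => simp [base, bc]
    | m :: (n + 1) :: t => simp [base, bc]
  · match ms with
    | [] => rfl
    | [0] => rfl
    | [_ + 1] => rfl
    | [0, m] => simp [base, bc]
    | [_ + 1, m] => simp [base, bc]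
    | 0 :: m :: n :: t => simp [base, bc]
    | (_ + 1) :: m :: n :: t => simp [base, bc]

theorem base_tree (l : Lb) (x : Fin k × List (Lb × Fin k)) :
    base δ l (.inr (.inl x)) = tc δ l x := by
  obtain ⟨q, p⟩ := x
  have : cur q p = (p.head?.map Prod.snd).getD q := by cases p <;> rfl
  simp only [base, tc, this]

theorem primrec_bc (l : Lb) : Primrec (bc l : List ℕ → Option (Fr k)) := by
  have hl : Primrec (fun ms : List ℕ => ms.length) := Primrec.list_length
  have hh : Primrec (fun ms : List ℕ => ms.headI) := Primrec.list_headI
  have ht : Primrec (fun ms : List ℕ => ms.tail) := Primrec.list_tail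
  have hth : Primrec (fun ms : List ℕ => ms.tail.headI) := Primrec.list_headI.comp ht
  have htt : Primrec (fun ms : List ℕ => ms.tail.tail) := Primrec.list_tail.comp ht
  have hin : Primrec (fun ms : List ℕ => (some (.inl ms) : Option (Fr k))) :=
    Primrec.option_some.comp Primrec.sumInl
  rcases l with (_ | _) | (_ | _)
  · exact Primrec.ite (Primrec.nat_le.comp (Primrec.const 2) hl)
      (hin.comp (Primrec.list_cons.comp hh (Primrec.list_cons.comp (Primrec.succ.comp hth) htt)))
      (Primrec.const _)
  · exact hin.comp (Primrec.list_cons.comp (Primrec.const 0) Primrec.id)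
  · exact Primrec.ite ((Primrec.nat_le.comp (Primrec.const 2) hl).and
        (Primrec.nat_le.comp (Primrec.const 1) hth))
      (hin.comp (Primrec.list_cons.comp hh (Primrec.list_cons.comp (Primrec.pred.comp hth) htt)))
      (Primrec.const _)
  · exact Primrec.ite ((Primrec.nat_le.comp (Primrec.const 3) hl).and
        (Primrec.eq.comp hh (Primrec.const 0)))
      (hin.comp ht)
      (Primrec.const _)

theorem primrec_tc (l : Lb) : Primrec (tc δ l) := by
  have hq : Primrec (fun x : Fin k × List (Lb × Fin k) => x.1) := Primrec.fst
  have hp : Primrec (fun x : Fin k × List (Lb × Fin k) => x.2) := Primrec.snd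
  have hh : Primrec (fun x : Fin k × List (Lb × Fin k) => x.2.head?) := Primrec.list_head?.comp hp
  have hin : Primrec (fun x : Fin k × List (Lb × Fin k) =>
      (some (.inr (.inl x)) : Option (Fr k))) :=
    Primrec.option_some.comp (Primrec.sumInr.comp Primrec.sumInl)
  have hcur : Primrec (fun x : Fin k × List (Lb × Fin k) =>
      (x.2.head?.map Prod.snd).getD x.1) :=
    Primrec.option_getD.comp (Primrec.option_map hh (Primrec.snd.comp Primrec.snd)) hq
  refine Primrec.ite (Primrec.eq.comp (Primrec.option_map hh (Primrec.fst.comp Primrec.snd))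
    (Primrec.const _)) (hin.comp (Primrec.pair hq (Primrec.list_tail.comp hp))) ?_
  refine Primrec.option_map ((Primrec.dom_finite fun q => δ q l).comp hcur) ?_
  exact (Primrec.sumInr.comp Primrec.sumInl).comp
    (Primrec.pair (hq.comp Primrec.fst) (Primrec.list_cons.comp
      (Primrec.pair (Primrec.const l) Primrec.snd) (hp.comp Primrec.fst)))

theorem primrec_base (l : Lb) : Primrec (base δ l) := by
  have h : Primrec (fun fr : Fr k => (Sum.casesOn fr (fun ms => bc l ms) fun y =>
      Sum.casesOn y (fun x => tc δ l x) fun _ => none : Option (Fr k))) := by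
    refine Primrec.sumCasesOn Primrec.id ((primrec_bc l).comp Primrec.snd) ?_
    exact Primrec.sumCasesOn Primrec.snd ((primrec_tc δ l).comp Primrec.snd) (Primrec.const none).to₂
  refine h.of_eq ?_
  rintro (ms | x | y)
  · exact (base_inl δ l ms).symm
  · exact (base_tree δ l x).symm
  · rfl

theorem primrec_hb (l : Lb) : Primrec (fun v : List (Fr k) =>
    v.head?.bind fun fr => (base δ l fr).map fun fr' => fr' :: v.tail) := by
  refine Primrec.option_bind Primrec.list_head? ?_
  refine Primrec.option_map ((primrec_base δ l).comp Primrec.snd) ?_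
  exact Primrec.list_cons.comp Primrec.snd (Primrec.list_tail.comp (Primrec.fst.comp Primrec.fst))

theorem primrec_typ (y : Option (Fin k)) : Primrec (fun fr : Fr k => typ fr y) := by
  have h : Primrec (fun fr : Fr k => (Sum.casesOn fr (fun _ => decide (y = none)) fun z =>
      Sum.casesOn z (fun x => decide (some ((x.2.head?.map Prod.snd).getD x.1) = y))
        fun _ => false : Bool)) := by
    refine Primrec.sumCasesOn Primrec.id (Primrec.const _).to₂ ?_
    refine Primrec.sumCasesOn Primrec.snd ?_ (Primrec.const false).to₂
    have hx : Primrec (fun w : (Fr k × ((Fin k × List (Lb × Fin k)) ⊕ Option (Fin k))) ×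
      (Fin k × List (Lb × Fin k)) => w.2) := Primrec.snd
    have h1 : Primrec (fun x : Fin k × List (Lb × Fin k) =>
        decide (some ((x.2.head?.map Prod.snd).getD x.1) = y)) := by
      refine PrimrecPred.decide ?_
      exact Primrec.eq.comp (Primrec.option_some.comp (Primrec.option_getD.comp
        (Primrec.option_map (Primrec.list_head?.comp Primrec.snd) (Primrec.snd.comp Primrec.snd))
        Primrec.fst)) (Primrec.const y)
    exact h1.comp hx
  refine h.of_eq ?_
  rintro (ms | ⟨q, p⟩ | z)
  · cases y with
    | none => rfl
    | some q => rfl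
  · have : cur q p = (p.head?.map Prod.snd).getD q := by cases p <;> rfl
    cases y with
    | none => simp [typ]
    | some q' => simp [typ, this]
  · rfl

theorem primrec_step (x : Sl k) : Primrec (step δ x) := by
  rcases x with (b | y) | (b | y)
  · exact primrec_hb δ (.inl b)
  · exact Primrec.ite (Primrec.eq.comp Primrec.list_head? (Primrec.const _))
      (Primrec.option_some.comp Primrec.list_tail)
      (Primrec.option_some.comp (Primrec.list_cons.comp (Primrec.const _) Primrec.id))
  · exact primrec_hb δ (.inr b)
  · refine Primrec.option_bind Primrec.list_head? ?_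
    refine Primrec.ite (Primrec.eq.comp Primrec.snd (Primrec.const _))
      (Primrec.option_some.comp (Primrec.list_tail.comp Primrec.fst)) ?_
    exact Primrec.ite (Primrec.eq.comp ((primrec_typ y).comp Primrec.snd) (Primrec.const true))
      (Primrec.option_some.comp (Primrec.list_cons.comp (Primrec.const _) Primrec.fst))
      (Primrec.const _)

theorem rr_foldl (u : List (Sl k)) (o : Option (List (Fr k))) :
    o.bind (rr δ u) = u.foldl (fun o x => o.bind (step δ x)) o := by
  induction u generalizing o with
  | nil => cases o <;> rfl
  | cons x u ih =>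
    rw [List.foldl_cons, ← ih]
    cases o with
    | none => rfl
    | some v => rfl

theorem computable_identity {n : ℕ} (e : Fin n → Lt k) :
    ComputablePred fun u : List (Fin n ⊕ Fin n) => rr δ (u.map (Sum.map e e)) [] = some [] := by
  have h2 : Primrec₂ (fun (x : Fin n ⊕ Fin n) (v : List (Fr k)) => step δ (Sum.map e e x) v) :=
    primrec₂_of_finite _ fun x => primrec_step δ _
  have h3 : Primrec (fun u : List (Fin n ⊕ Fin n) =>
      u.foldl (fun (o : Option (List (Fr k))) x => o.bind (step δ (Sum.map e e x))) (some [])) := by
    have h5 : Primrec₂ (fun (_ : List (Fin n ⊕ Fin n))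
        (y : Option (List (Fr k)) × (Fin n ⊕ Fin n)) =>
        y.1.bind (step δ (Sum.map e e y.2))) := by
      refine Primrec.option_bind (Primrec.fst.comp Primrec.snd) ?_
      exact h2.comp (Primrec.snd.comp (Primrec.snd.comp Primrec.fst)) Primrec.snd
    exact Primrec.list_foldl Primrec.id (Primrec.const _) h5
  have h4 : PrimrecPred fun u : List (Fin n ⊕ Fin n) =>
      u.foldl (fun (o : Option (List (Fr k))) x => o.bind (step δ (Sum.map e e x))) (some [])
        = some [] := Primrec.eq.comp h3 (Primrec.const _)
  refine (ComputablePred.of_eq (p := fun u : List (Fin n ⊕ Fin n) =>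
      u.foldl (fun (o : Option (List (Fr k))) x => o.bind (step δ (Sum.map e e x))) (some [])
        = some []) ?_ ?_)
  · obtain ⟨inst, h⟩ := h4
    exact ⟨inst, h.to_comp⟩
  · intro u
    have := rr_foldl δ (u.map (Sum.map e e)) (some [])
    rw [List.foldl_map] at this
    rw [← this]
    rfl

end

end Pool.Agent.Helper707.IComp
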