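import Mathlib
import Pool.Agent.Helper707.IClosed

/-!
Paths in the monoid which follow the graph.
-/

namespace Pool.Agent.Helper707.IRight

open Pool.Agent.Helper707.IAlg Pool.Agent.Helper707.IModel Pool.Agent.Helper707.IGraph
  Pool.Agent.Helper707.IClosed

/-- the hypotheses on the monoid -/
structure Hyp {k : ℕ} (δ : Fin k → Lb → Option (Fin k)) {M : Type} [Monoid M] (f : Sl k → M) :
    Prop where
  inv : IsInvGen f
  one : ev f (relator δ) = 1

section

variable {k : ℕ} {δ : Fin k → Lb → Option (Fin k)} {M : Type} [Monoid M] {f : Sl k → M}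

variable (f) in
/-- types of elements -/
def Ty (y : Option (Fin k)) (m : M) : Prop := Pt f [sn y] m (m * f (sn y))

variable (f) in
/-- the element of a signed base letter -/
def fb (l : Lb) : M := f (bl k l)

variable (f) in
/-- the conjugated letter -/
def bb : M := ev f (wd k [ls, la, ls'])

theorem bb_def : bb f = fb f ls * fb f la * fb f ls' := by
  simp [bb, wd, ev, fb, mul_assoc]

theorem rd (hf : Hyp δ f) (m : M) {v : List (Sl k)} (hv : v ∈ rules δ) :
    Pt f v m (m * ev f v) := (readable_of_rel hf.inv hf.one m).2 v hv

theorem Ty.of_pt {y : Option (Fin k)} {m m' : M} (h : Pt f [sn y] m m') : Ty f y m := by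
  have h1 : m' = m * f (sn y) := by rw [← h.1, ev_singleton]
  rw [h1] at h
  exact h

theorem sp_step (hf : Hyp δ f) (y : Option (Fin k)) (m : M) :
    Pt f [sp y] m (m * f (sp y)) ∧ Ty f y (m * f (sp y)) := by
  have h := rd hf m (mem_rule_sp δ y)
  rw [ev_singleton] at h
  exact ⟨h, Ty.of_pt (Pt.symm h)⟩

theorem rule_step (hf : Hyp δ f) {y y' : Option (Fin k)} {u : List (Sl k)}
    (hu : [sp y] ++ u ++ [sn y'] ∈ rules δ) {m : M} (hm : Ty f y m) :
    Pt f u m (m * ev f u) ∧ Ty f y' (m * ev f u) := by
  have h0 : Pt f [sp y] (m * f (sn y)) m := Pt.symm hm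
  obtain ⟨h1, h2⟩ := (rd hf (m * f (sn y)) hu).split hf.inv
  obtain ⟨h3, h4⟩ := h1.split hf.inv
  have h5 := h3.det h0
  rw [h5] at h4
  have h6 : m * ev f u = m * f (sn y) * ev f ([sp y] ++ u) := h4.1
  rw [← h6] at h4 h2
  exact ⟨h4, Ty.of_pt h2⟩

theorem cell_step (hf : Hyp δ f) {m : M} (hm : Ty f none m) :
    Pt f (wd k [la, ls, la, ls', la', ls, la', ls']) m m := by
  have h0 : Pt f [sp none] (m * f (sn none)) m := Pt.symm hm
  have h := (readable_of_rel hf.inv hf.one (m * f (sn none))).1
  unfold cell at h
  obtain ⟨h1, h2⟩ := h.split hf.inv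
  obtain ⟨h3, h4⟩ := h1.split hf.inv
  have h5 := h3.det h0
  rw [h5] at h4
  have h6 := (Pt.symm h2).det h0
  rw [h6] at h4
  exact h4

theorem state_step (hf : Hyp δ f) {q q' : Fin k} {l : Lb} (hd : δ q l = some q') {m : M}
    (hm : Ty f (some q) m) : Pt f [bl k l] m (m * fb f l) ∧ Ty f (some q') (m * fb f l) := by
  have h := rule_step hf (mem_rule_st δ hd) hm
  simp only [wd, List.map_cons, List.map_nil, ev_singleton] at h
  exact h

theorem a_step (hf : Hyp δ f) {m : M} (hm : Ty f none m) :
    Pt f [bl k la] m (m * fb f la) ∧ Ty f none (m * fb f la) := by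
  have hu : [sp none] ++ wd k [la] ++ [sn none] ∈ rules δ := by simp [rules]
  have h := rule_step hf hu hm
  simp only [wd, List.map_cons, List.map_nil, ev_singleton] at h
  exact h

theorem s_step (hf : Hyp δ f) {m : M} (hm : Ty f none m) :
    Pt f [bl k ls] m (m * fb f ls) ∧ Ty f none (m * fb f ls) := by
  have hu : [sp none] ++ wd k [ls] ++ [sn none] ∈ rules δ := by simp [rules]
  have h := rule_step hf hu hm
  simp only [wd, List.map_cons, List.map_nil, ev_singleton] at h
  exact h

theorem b_step (hf : Hyp δ f) {m : M} (hm : Ty f none m) :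
    Pt f (wd k [ls, la, ls']) m (m * bb f) ∧ Ty f none (m * bb f) := by
  have hu : [sp none] ++ wd k [ls, la, ls'] ++ [sn none] ∈ rules δ := by simp [rules]
  exact rule_step hf hu hm

theorem b_s (hf : Hyp δ f) {m : M} (hm : Ty f none m) :
    m * bb f * fb f ls = m * fb f ls * fb f la := by
  have h := (b_step hf hm).1
  have h1 : Pt f (wd k [ls, la] ++ wd k [ls']) m (m * bb f) := h
  obtain ⟨h2, h3⟩ := h1.split hf.inv
  have h4 := Pt.symm h3
  have h5 : nu (wd k [ls']) = [bl k ls] := rfl
  rw [h5] at h4
  have h6 := h4.1
  rw [ev_singleton] at h6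
  have h7 : ev f (wd k [ls, la]) = fb f ls * fb f la := by simp [wd, ev, fb]
  rw [h7, ← mul_assoc] at h6
  exact h6

theorem comm_ab (hf : Hyp δ f) {m : M} (hm : Ty f none m) :
    m * bb f * fb f la = m * fb f la * bb f := by
  have h := cell_step hf hm
  have h1 : Pt f (wd k [la] ++ (wd k [ls, la, ls'] ++ (wd k [la'] ++ wd k [ls, la', ls']))) m m := h
  obtain ⟨h2, h3⟩ := h1.split hf.inv
  obtain ⟨h4, h5⟩ := h3.split hf.inv
  obtain ⟨h6, h7⟩ := h5.split hf.inv
  have h8 := Pt.symm h7
  have h9 : nu (wd k [ls, la', ls']) = wd k [ls, la, ls'] := rfl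
  rw [h9] at h8
  have h10 := h8.det (b_step hf hm).1
  rw [h10] at h6
  have h11 := (Pt.symm h6).1
  have h12 : nu (wd k [la']) = [bl k la] := rfl
  rw [h12, ev_singleton] at h11
  have h13 : ev f (wd k [la]) = fb f la := by simp [wd, ev, fb]
  rw [h13] at h11
  exact h11

theorem ty_apow (hf : Hyp δ f) {m : M} (hm : Ty f none m) (j : ℕ) :
    Ty f none (m * fb f la ^ j) := by
  induction j with
  | zero => rw [pow_zero, mul_one]; exact hm
  | succ j ih => rw [pow_succ, ← mul_assoc]; exact (a_step hf ih).2

theorem ty_bpow (hf : Hyp δ f) {m : M} (hm : Ty f none m) (j : ℕ) :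
    Ty f none (m * bb f ^ j) := by
  induction j with
  | zero => rw [pow_zero, mul_one]; exact hm
  | succ j ih => rw [pow_succ, ← mul_assoc]; exact (b_step hf ih).2

theorem bpow_a (hf : Hyp δ f) (j : ℕ) : ∀ {m : M}, Ty f none m →
    m * bb f ^ j * fb f la = m * fb f la * bb f ^ j := by
  induction j with
  | zero => intro m hm; rw [pow_zero, mul_one, mul_one]
  | succ j ih =>
    intro m hm
    rw [pow_succ', ← mul_assoc, ih (b_step hf hm).2, comm_ab hf hm, mul_assoc, ← pow_succ',
      pow_succ', ← mul_assoc]

theorem bpow_s (hf : Hyp δ f) (j : ℕ) : ∀ {m : M}, Ty f none m →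
    m * bb f ^ j * fb f ls = m * fb f ls * fb f la ^ j := by
  induction j with
  | zero => intro m hm; rw [pow_zero, pow_zero, mul_one, mul_one]
  | succ j ih =>
    intro m hm
    rw [pow_succ', ← mul_assoc, ih (b_step hf hm).2, b_s hf hm, pow_succ', ← mul_assoc]

theorem edge_a (hf : Hyp δ f) {m : M} (hm : Ty f none m) (j : ℕ) :
    Pt f [bl k la] (m * bb f ^ j) (m * fb f la * bb f ^ j) := by
  rw [← bpow_a hf j hm]
  exact (a_step hf (ty_bpow hf hm j)).1

theorem edge_s (hf : Hyp δ f) {m : M} (hm : Ty f none m) (j : ℕ) :
    Pt f [bl k ls] (m * bb f ^ j) (m * fb f ls * fb f la ^ j) := by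
  rw [← bpow_s hf j hm]
  exact (s_step hf (ty_bpow hf hm j)).1

variable (f) in
/-- element of a list of blocks -/
def gb (Y : M) : List ℕ → M
  | [] => Y
  | n :: t => gb Y t * fb f la ^ n * fb f ls

variable (f) in
/-- element of a coordinate -/
def zc (Y : M) : List ℕ → M
  | m :: n :: t => gb f Y t * fb f la ^ n * bb f ^ m
  | _ => Y

variable (f) in
/-- element of a path -/
def pw : List (Lb × Fin k) → M
  | [] => 1
  | x :: p => pw p * fb f x.1

variable (f) in
/-- element of a vertex -/
def Ph : List (Fr k) → M
  | [] => 1
  | .inl ms :: r => zc f (Ph r * f (sp none)) ms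
  | .inr (.inl (q, p)) :: r => Ph r * f (sp (some q)) * pw f p
  | .inr (.inr y) :: r => Ph r * f (sn y)

theorem ty_gb (hf : Hyp δ f) {Y : M} (hY : Ty f none Y) (t : List ℕ) : Ty f none (gb f Y t) := by
  induction t with
  | nil => exact hY
  | cons n t ih => exact (s_step hf (ty_apow hf ih n)).2

theorem ty_pw (hf : Hyp δ f) {q : Fin k} {Y : M} (hY : Ty f (some q) Y)
    (p : List (Lb × Fin k)) (hp : okp δ q p) : Ty f (some (cur q p)) (Y * pw f p) := by
  induction p with
  | nil => rw [pw, mul_one]; exact hY
  | cons x p ih =>
    rw [pw, ← mul_assoc]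
    exact (state_step hf hp.2 (ih hp.1)).2

theorem ty_Ph (hf : Hyp δ f) {fr : Fr k} {r : List (Fr k)} (hv : ok1 δ fr r)
    {y : Option (Fin k)} (ht : typ fr y = true) : Ty f y (Ph f (fr :: r)) := by
  rcases fr with ms | ⟨q, p⟩ | y'
  · cases y with
    | some q => simp [typ] at ht
    | none =>
      match ms, hv.1 with
      | m :: n :: t, _ =>
        exact ty_bpow hf (ty_apow hf (ty_gb hf (sp_step hf none _).2 t) n) m
  · cases y with
    | none => simp [typ] at ht
    | some q' =>
      simp only [typ, decide_eq_true_eq] at ht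
      subst ht
      exact ty_pw hf (sp_step hf (some q) _).2 p hv.1
  · simp [typ] at ht

theorem edge_pos (hf : Hyp δ f) {x : Lt k} {v v' : List (Fr k)} (hv : Valid δ v)
    (h : step δ (.inl x) v = some v') : Pt f [.inl x] (Ph f v) (Ph f v') := by
  rcases x with b | y
  · simp only [step] at h
    match v, hv, h with
    | fr :: r, hv, h =>
      simp only [List.head?_cons, Option.bind_some, List.tail_cons] at h
      cases hb : base δ (.inl b) fr with
      | none => rw [hb] at h; simp at h
      | some fr' =>
        rw [hb] at h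
        simp only [Option.map_some, Option.some.injEq] at h
        subst h
        rcases fr with ms | ⟨q, p⟩ | y'
        · match ms, hv.1.1, hb with
          | m :: n :: t, _, hb =>
            have hY := ty_apow hf (ty_gb hf (sp_step hf none (Ph f r)).2 t) n
            cases b with
            | false =>
              simp only [base, Option.some.injEq] at hb
              subst hb
              simp only [Ph, zc]
              rw [pow_succ (fb f la) n, ← mul_assoc]
              exact edge_a hf hY m
            | true =>
              simp only [base, Option.some.injEq] at hb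
              subst hb
              simp only [Ph, zc, gb, pow_zero, mul_one]
              exact edge_s hf hY m
        · have hY := sp_step hf (some q) (Ph f r)
          simp only [base] at hb
          split_ifs at hb with hh
          · simp only [Option.some.injEq] at hb
            subst hb
            match p, hv.1.1, hh with
            | (l', q') :: p, hp, hh =>
              simp only [List.head?_cons, Option.map_some, Option.some.injEq] at hh
              subst hh
              have h1 := (state_step hf hp.2 (ty_pw hf hY.2 p hp.1)).1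
              simp only [Ph, pw, List.tail_cons]
              rw [← mul_assoc]
              exact Pt.symm h1
          · cases hd : δ (cur q p) (.inl b) with
            | none => rw [hd] at hb; simp at hb
            | some q' =>
              rw [hd] at hb
              simp only [Option.map_some, Option.some.injEq] at hb
              subst hb
              have h1 := (state_step hf hd (ty_pw hf hY.2 p hv.1.1)).1
              simp only [Ph, pw]
              rw [← mul_assoc]
              exact h1
        · simp [base] at hb
  · simp only [step] at h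
    split_ifs at h with hh
    · simp only [Option.some.injEq] at h
      match v, hv, hh with
      | fr :: r, hv, hh =>
        simp only [List.head?_cons, Option.some.injEq] at hh
        subst hh
        simp only [List.tail_cons] at h
        subst h
        obtain ⟨fr, r', rfl, h1, h2⟩ := hv.1
        exact Pt.symm (ty_Ph hf hv.2.1 h1)
    · simp only [Option.some.injEq] at h
      subst h
      have h1 := (sp_step hf y (Ph f v)).1
      have e : Ph f (opn y :: v) = Ph f v * f (sp y) := by
        cases y with
        | none => simp [Ph, opn, zc, gb]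
        | some q => simp [Ph, opn, pw]
      rw [e]
      exact h1

theorem edge (hf : Hyp δ f) (hδ : NoBack δ) {x : Sl k} {v v' : List (Fr k)} (hv : Valid δ v)
    (h : step δ x v = some v') : Pt f [x] (Ph f v) (Ph f v') := by
  rcases x with x | x
  · exact edge_pos hf hv h
  · obtain ⟨h1, h2⟩ := step_symm hδ hv h
    exact Pt.symm (edge_pos hf h1 h2)

theorem path (hf : Hyp δ f) (hδ : NoBack δ) {u : List (Sl k)} : ∀ {v v' : List (Fr k)},
    Valid δ v → rr δ u v = some v' → Pt f u (Ph f v) (Ph f v') := by
  induction u with
  | nil =>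
    intro v v' hv h
    simp only [rr, Option.some.injEq] at h
    subst h
    exact Pt.nil _
  | cons x u ih =>
    intro v v' hv h
    simp only [rr] at h
    cases hs : step δ x v with
    | none => rw [hs] at h; simp at h
    | some v1 =>
      rw [hs] at h
      simp only [Option.bind_some] at h
      exact (edge hf hδ hv hs).cons (ih (step_symm hδ hv hs).1 h)

theorem ev_eq_one (hf : Hyp δ f) (hδ : NoBack δ) {u : List (Sl k)} (h : rr δ u [] = some []) :
    ev f u = 1 := by
  have := (path hf hδ (v := []) (v' := []) trivial h).1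
  simpa [Ph] using this

end

end Pool.Agent.Helper707.IRight
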