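import Mathlib
import Pool.Agent.Helper707.IClosed
import Pool.Agent.Helper707.IRight

/-!
Tapes, the two words, soundness and completeness.
-/

namespace Pool.Agent.Helper707.ITape

open Pool.Agent.Helper707.IAlg Pool.Agent.Helper707.IModel Pool.Agent.Helper707.IGraph
  Pool.Agent.Helper707.IClosed Pool.Agent.Helper707.IRight

/-- tapes with a head -/
abbrev Tape := (ℤ →₀ ℤ) × ℤ

/-- one letter on a tape -/
noncomputable def tst (l : Lb) (h : Tape) : Tape :=
  match l with
  | .inl false => (h.1 + Finsupp.single h.2 1, h.2)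
  | .inl true => (h.1, h.2 + 1)
  | .inr false => (h.1 + Finsupp.single h.2 (-1), h.2)
  | .inr true => (h.1, h.2 - 1)

theorem tst_symm (l : Lb) (h : Tape) : tst l.swap (tst l h) = h := by
  rcases l with (_ | _) | (_ | _)
  · simp only [Sum.swap_inl, tst]
    rw [add_assoc, ← Finsupp.single_add]
    simp
  · simp [tst]
  · simp only [Sum.swap_inr, tst]
    rw [add_assoc, ← Finsupp.single_add]
    simp
  · simp [tst]

/-- a word on a tape -/
noncomputable def trun : List Lb → Tape → Tape
  | [], h => h
  | l :: u, h => trun u (tst l h)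

/-- points of the model -/
abbrev Om := Tape × (ℕ × Bool)

/-- typed points -/
def Tq (X : Set Tape) : Set Om := {ω | ω.2.2 = true ∨ ω.1 ∈ X}

theorem exists_equiv (X : Set Tape) : Nonempty (Om ≃ Tq X) := by
  have : Infinite (Tq X) := by
    refine Infinite.of_injective (fun n : ℕ => (⟨((0, 0), (n, true)), Or.inl rfl⟩ : Tq X)) ?_
    intro n m h
    have := congrArg (fun ω : Tq X => ω.1.2.1) h
    exact this
  exact nonempty_equiv_of_countable

/-- the bijection -/
noncomputable def eqT (X : Set Tape) : Om ≃ Tq X := Classical.choice (exists_equiv X)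

section

variable {k : ℕ} {δ : Fin k → Lb → Option (Fin k)}

open Classical in
/-- the model -/
noncomputable def mdl (X : Fin k → Set Tape) : Act (Lt k) Om where
  step x ω :=
    match x with
    | .inl (.inl b) => some (tst (.inl b) ω.1, ω.2)
    | .inr (.inl b) => some (tst (.inr b) ω.1, ω.2)
    | .inl (.inr none) => some ω
    | .inr (.inr none) => some ω
    | .inl (.inr (some q)) => some (eqT (X q) ω)
    | .inr (.inr (some q)) => if h : ω ∈ Tq (X q) then some ((eqT (X q)).symm ⟨ω, h⟩) else none
  symm := by
    rintro ((b | (_ | q)) | (b | (_ | q))) ω ω' h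
    · simp only [Option.some.injEq] at h
      subst h
      exact congrArg (fun t => some (t, ω.2)) (tst_symm (.inl b) ω.1)
    · simp only [Option.some.injEq] at h
      subst h
      rfl
    · simp only [Option.some.injEq] at h
      subst h
      simp
    · simp only [Option.some.injEq] at h
      subst h
      exact congrArg (fun t => some (t, ω.2)) (tst_symm (.inr b) ω.1)
    · simp only [Option.some.injEq] at h
      subst h
      rfl
    · simp only at h
      split_ifs at h with hh
      simp only [Option.some.injEq] at h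
      subst h
      simp

theorem mdl_bl (X : Fin k → Set Tape) (l : Lb) (ω : Om) :
    (mdl X).step (bl k l) ω = some (tst l ω.1, ω.2) := by
  rcases l with b | b <;> rfl

theorem mdl_wd (X : Fin k → Set Tape) (u : List Lb) (ω : Om) :
    (mdl X).run (wd k u) ω = some (trun u ω.1, ω.2) := by
  induction u generalizing ω with
  | nil => rfl
  | cons l u ih =>
    simp only [wd, List.map_cons, Act.run, mdl_bl, Option.bind_some]
    exact ih _

theorem mdl_sn {X : Fin k → Set Tape} {q : Fin k} {ω : Om} :
    ((mdl X).step (sn (some q)) ω).isSome ↔ ω ∈ Tq (X q) := by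
  simp only [sn, mdl]
  split_ifs with h
  · simp [h]
  · simp [h]

theorem mdl_relator {X : Fin k → Set Tape}
    (hX : ∀ q l q', δ q l = some q' → ∀ h ∈ X q, tst l h ∈ X q') (ω : Om) :
    (mdl X).run (relator δ) ω = some ω := by
  refine run_rel _ ?_ ?_
  · unfold cell
    rw [Act.run_append, Act.run_append]
    have h1 : (mdl X).run [sp none] ω = some ω := rfl
    rw [h1, Option.bind_some, mdl_wd, Option.bind_some]
    have h2 : trun [la, ls, la, ls', la', ls, la', ls'] ω.1 = ω.1 := by
      obtain ⟨⟨p, m⟩, r⟩ := ω
      simp only [trun, tst, Prod.mk.injEq]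
      refine ⟨?_, by ring⟩
      ext i
      simp only [Finsupp.add_apply, Finsupp.single_apply]
      split_ifs <;> omega
    rw [h2]
    rfl
  · intro w hw
    rcases mem_rules δ hw with rfl | rfl | rfl | ⟨y, rfl⟩ | ⟨q, l, q', hd, rfl⟩
    · rw [Act.run_append, Act.run_append]
      have h1 : (mdl X).run [sp none] ω = some ω := rfl
      rw [h1, Option.bind_some, mdl_wd]
      rfl
    · rw [Act.run_append, Act.run_append]
      have h1 : (mdl X).run [sp none] ω = some ω := rfl
      rw [h1, Option.bind_some, mdl_wd]
      rfl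
    · rw [Act.run_append, Act.run_append]
      have h1 : (mdl X).run [sp none] ω = some ω := rfl
      rw [h1, Option.bind_some, mdl_wd]
      rfl
    · cases y with
      | none => rfl
      | some q => rfl
    · rw [Act.run_append, Act.run_append]
      have h1 : (mdl X).run [sp (some q)] ω = some (eqT (X q) ω : Om) := rfl
      rw [h1, Option.bind_some, mdl_wd, Option.bind_some]
      simp only [trun, Act.run]
      have h2 : ((mdl X).step (sn (some q'))
          (tst l (eqT (X q) ω : Om).1, (eqT (X q) ω : Om).2)).isSome := by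
        rw [mdl_sn]
        rcases (eqT (X q) ω).2 with h3 | h3
        · exact Or.inl h3
        · exact Or.inr (hX q l q' hd _ h3)
      obtain ⟨v', hv'⟩ := Option.isSome_iff_exists.1 h2
      rw [hv']
      rfl

/-- the word of the idempotent -/
def fN (q0 : Fin k) (N : ℕ) : List (Sl k) :=
  ([sn none] ++ nu [sn none]) ++ ((wd k (List.replicate N la) ++ [sn (some q0)]) ++
    nu (wd k (List.replicate N la) ++ [sn (some q0)]))

/-- the second word -/
def gN (q0 qg : Fin k) (N : ℕ) : List (Sl k) := fN q0 N ++ ([sn (some qg)] ++ nu [sn (some qg)])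

theorem trun_replicate (N : ℕ) (p : ℤ →₀ ℤ) (m : ℤ) :
    trun (List.replicate N la) (p, m) = (p + Finsupp.single m (N : ℤ), m) := by
  induction N generalizing p with
  | zero => simp [trun]
  | succ N ih =>
    rw [List.replicate_succ, trun, tst, ih]
    simp only [Prod.mk.injEq, and_true]
    rw [add_assoc, ← Finsupp.single_add]
    push_cast
    rw [add_comm 1]

theorem sound {X : Fin k → Set Tape} {q0 qg : Fin k} {N : ℕ}
    (h0 : (Finsupp.single 0 (N : ℤ), (0 : ℤ)) ∈ X q0)
    (heq : ∀ ω, (mdl X).run (gN q0 qg N) ω = (mdl X).run (fN q0 N) ω) :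
    ((0, 0) : Tape) ∈ X qg := by
  set ω : Om := ((0, 0), (0, false)) with hω
  have h1 : (mdl X).run (fN q0 N) ω = some ω := by
    unfold fN
    rw [Act.run_append, Act.run_loop_some _ _ _ (by rfl), Option.bind_some,
      Act.run_loop_some _ _ _]
    rw [Act.run_append, mdl_wd, Option.bind_some, hω, trun_replicate, zero_add]
    have h2 : ((mdl X).step (sn (some q0)) ((Finsupp.single 0 (N : ℤ), (0 : ℤ)), (0, false))).isSome
      := mdl_sn.2 (Or.inr h0)
    obtain ⟨v', hv'⟩ := Option.isSome_iff_exists.1 h2
    simp only [Act.run, hv', Option.bind_some, Option.isSome_some]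
  have h3 := heq ω
  unfold gN at h3
  rw [Act.run_append, h1, Option.bind_some, Act.run_loop] at h3
  have h4 : ((mdl X).step (sn (some qg)) ω).isSome := by
    cases h5 : (mdl X).step (sn (some qg)) ω with
    | none =>
      simp only [Act.run, h5] at h3
      simp at h3
    | some _ => rfl
  rcases mdl_sn.1 h4 with h6 | h6
  · simp [hω] at h6
  · exact h6

/-- iterated transitions -/
def dst (δ : Fin k → Lb → Option (Fin k)) : List Lb → Fin k → Option (Fin k)
  | [], q => some q
  | l :: u, q => (δ q l).bind (dst δ u)

variable {M : Type} [Monoid M] {f : Sl k → M}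

theorem ty_path (hf : Hyp δ f) {u : List Lb} : ∀ {q q' : Fin k} {m m' : M},
    Ty f (some q) m → dst δ u q = some q' → Pt f (wd k u) m m' → Ty f (some q') m' := by
  induction u with
  | nil =>
    intro q q' m m' hm hd hp
    simp only [dst, Option.some.injEq] at hd
    subst hd
    rw [hp.eq_nil]
    exact hm
  | cons l u ih =>
    intro q q' m m' hm hd hp
    simp only [dst] at hd
    cases hq : δ q l with
    | none => rw [hq] at hd; simp at hd
    | some q1 =>
      rw [hq, Option.bind_some] at hd
      exact ih (state_step hf hq hm).2 hd (Pt.uncons hf.inv hp).2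

theorem idem (hf : IsInvGen f) (u : List (Sl k)) :
    ev f u * ev f (nu u) * (ev f u * ev f (nu u)) = ev f u * ev f (nu u) := by
  rw [← mul_assoc, hf.reg]

theorem start (hf : Hyp δ f) (q0 : Fin k) (N : ℕ) :
    Ty f none (ev f (fN q0 N)) ∧
      Ty f (some q0) (ev f (fN q0 N) * fb f la ^ N) := by
  set y := wd k (List.replicate N la) ++ [sn (some q0)] with hy
  set x : List (Sl k) := [sn none] with hx
  have h1 : ev f (fN q0 N) = ev f x * ev f (nu x) * (ev f y * ev f (nu y)) := by
    rw [fN, ev_append, ev_append, ev_append]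
  have h2 : Pt f x (ev f (fN q0 N)) (ev f (fN q0 N) * ev f x) := by
    refine ⟨rfl, ?_⟩
    rw [mul_assoc, h1, mul_assoc (ev f x * ev f (nu x)), hf.inv.comm y x, ← mul_assoc,
      idem hf.inv]
  have h3 : Pt f y (ev f (fN q0 N)) (ev f (fN q0 N) * ev f y) := by
    refine ⟨rfl, ?_⟩
    rw [mul_assoc, h1, mul_assoc (ev f x * ev f (nu x)), idem hf.inv]
  refine ⟨Ty.of_pt h2, ?_⟩
  have h4 := h3.split hf.inv
  have h5 : ev f (wd k (List.replicate N la)) = fb f la ^ N := by
    simp [wd, ev, fb]
  rw [h5] at h4
  exact Ty.of_pt h4.2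

theorem complete {q0 qg : Fin k} {N : ℕ}
    (h : Ty f (some qg) (ev f (fN q0 N))) : ev f (gN q0 qg N) = ev f (fN q0 N) := by
  rw [gN, ev_append, ev_append]
  have := h.2
  rw [ev_singleton, ← mul_assoc]
  exact this

end

end Pool.Agent.Helper707.ITape
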