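import Mathlib
import Pool.Agent.Helper707.ITape

/-!
Automata given by long transitions.
-/

namespace Pool.Agent.Helper707.IMac

open Pool.Agent.Helper707.IAlg Pool.Agent.Helper707.IGraph Pool.Agent.Helper707.ITape

/-- kinds of instructions -/
inductive Op
  | simple (c : ℕ) (t : Option ℕ)
  | dec (p t t' : ℕ)

/-- long states -/
inductive S
  | C (l : ℕ)
  | K (l : ℕ)
  | H0 (l : ℕ)
  | H1 (l : ℕ)
  | E (l i : ℕ)
  | F
  | F'
  | G

/-- codes of states -/
def code : S → ℕ × ℕ × ℕ
  | .C l => (0, l, 0)
  | .K l => (1, l, 0)
  | .H0 l => (2, l, 0)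
  | .H1 l => (3, l, 0)
  | .E l i => (4, l, i)
  | .F => (5, 0, 0)
  | .F' => (6, 0, 0)
  | .G => (7, 0, 0)

theorem code_inj : Function.Injective code := by
  intro x y h
  cases x <;> cases y <;> simp_all [code]

/-- loops without the first letter -/
def W (c d : ℕ) : List Lb := List.replicate c la ++ ls' :: List.replicate d la'

/-- long transitions -/
def out (o : ℕ → Op) : S → Lb → Option (List Lb × S)
  | .C l, x =>
    match o l with
    | .simple c _ => if x = ls then some (W c 1, .H0 l) else none
    | .dec p _ _ =>
      if x = la then some ([], .K l) else if x = ls then some (W p p, .H1 l) else none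
  | .K l, x =>
    match o l with
    | .simple _ _ => none
    | .dec p _ _ => if x = ls then some (W 1 p, .H0 l) else none
  | .H0 l, x =>
    match o l with
    | .simple c t =>
      if x = ls then some (W c 1, .H0 l)
      else if x = la' then
        match t with
        | some t => some ([ls, la], .C t)
        | none => some ([ls], .F)
      else none
    | .dec p t _ =>
      if x = ls then some (W 1 p, .H0 l)
      else if x = la' then some ([la', ls, la], .C t) else none
  | .H1 l, x =>
    match o l with
    | .simple _ _ => none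
    | .dec p _ _ =>
      if x = ls then some (W p p, .H1 l)
      else if x = la' then some ([la'], .E l 1) else none
  | .E l i, x =>
    match o l with
    | .simple _ _ => none
    | .dec p _ t' =>
      if x = la' ∧ i + 1 < p then some ([], .E l (i + 1))
      else if x = ls then some (List.replicate (i + 1) la, .C t') else none
  | .F, x => if x = la' then some ([], .F') else none
  | .F', x => if x = la' then some ([], .F') else if x = ls' then some ([], .G) else none
  | .G, x => if x = ls' then some ([], .G) else none

/-- no turning back -/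
def Rt (x y : Lb) : Prop := y ≠ x.swap

/-- good states -/
def Good (o : ℕ → Op) (q : List Lb × S) : Prop :=
  q.1.IsChain Rt ∧ ∀ x ∈ q.1.getLast?, out o q.2 x.swap = none

/-- conditions on instructions -/
def WF (L B : ℕ) : Op → Prop
  | .simple c t => 1 ≤ c ∧ c ≤ B ∧ ∀ t' ∈ t, t' ≤ L
  | .dec p t t' => 2 ≤ p ∧ p ≤ B ∧ t ≤ L ∧ t' ≤ L

/-- bounded states -/
def Bd (L B : ℕ) (s : S) : Prop := code s ≤ (7, L, B)

/-- short states in use -/
def In (o : ℕ → Op) (L B : ℕ) (q : List Lb × S) : Prop :=
  q.1.length ≤ 2 * B + 4 ∧ Bd L B q.2 ∧ Good o q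

theorem chain_W {c d : ℕ} (hc : 1 ≤ c) (hd : 1 ≤ d) :
    (ls :: W c d).IsChain Rt ∧ (ls :: W c d).getLast? = some la' := by
  obtain ⟨c, rfl⟩ : ∃ c', c = c' + 1 := ⟨c - 1, by omega⟩
  obtain ⟨d, rfl⟩ : ∃ d', d = d' + 1 := ⟨d - 1, by omega⟩
  constructor
  · unfold W
    rw [List.isChain_cons]
    refine ⟨?_, ?_⟩
    · intro y hy
      simp only [List.replicate_succ, List.cons_append, List.head?_cons, Option.mem_def,
        Option.some.injEq] at hy
      subst hy
      simp [Rt]
    · rw [List.isChain_append]
      refine ⟨List.isChain_replicate_of_rel _ (by simp [Rt]), ?_, ?_⟩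
      · rw [List.isChain_cons]
        refine ⟨?_, List.isChain_replicate_of_rel _ (by simp [Rt])⟩
        intro y hy
        simp only [List.replicate_succ, List.head?_cons, Option.mem_def,
          Option.some.injEq] at hy
        subst hy
        simp [Rt]
      · intro x hx y hy
        rw [List.getLast?_replicate, if_neg (by omega)] at hx
        simp only [Option.mem_def, Option.some.injEq, List.head?_cons] at hx hy
        subst hx hy
        simp [Rt]
  · unfold W
    rw [List.getLast?_cons, List.getLast?_append, List.getLast?_cons, List.getLast?_replicate,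
      if_neg (by omega)]
    rfl

theorem good_of_last {o : ℕ → Op} {u : List Lb} {s : S} {x : Lb} (h1 : u.IsChain Rt)
    (h2 : u.getLast? = some x) (h3 : out o s x.swap = none) : Good o (u, s) := by
  refine ⟨h1, fun y hy => ?_⟩
  simp only [h2, Option.mem_def, Option.some.injEq] at hy
  subst hy
  exact h3

theorem out_C {o : ℕ → Op} {t : ℕ} : out o (.C t) la' = none := by
  simp only [out]
  cases o t <;> simp

theorem out_K {o : ℕ → Op} {t : ℕ} : out o (.K t) la' = none := by
  simp only [out]
  cases o t <;> simp

theorem out_H0 {o : ℕ → Op} {t : ℕ} : out o (.H0 t) la = none := by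
  simp only [out]
  cases o t <;> simp

theorem out_H1 {o : ℕ → Op} {t : ℕ} : out o (.H1 t) la = none := by
  simp only [out]
  cases o t <;> simp

theorem out_E {o : ℕ → Op} {t i : ℕ} : out o (.E t i) la = none := by
  simp only [out]
  cases o t <;> simp

theorem out_ok {o : ℕ → Op} {L B : ℕ} (ho : ∀ l, WF L B (o l)) {s s' : S} {l : Lb}
    {u : List Lb} (hs : Bd L B s) (h : out o s l = some (u, s')) : In o L B (l :: u, s') := by
  have hB : 1 ≤ B := by
    have := ho 0
    cases h0 : o 0 with
    | simple c t => rw [h0] at this; exact this.1.trans this.2.1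
    | dec p t t' => rw [h0] at this; have := this.1.trans this.2.1; omega
  have lenW : ∀ c d, (ls :: W c d).length = c + d + 2 := by
    intro c d
    simp [W]
    ring
  cases s with
  | C n =>
    have hn : n ≤ L := hs.2.1
    simp only [out] at h
    have hw := ho n
    cases hop : o n with
    | simple c t =>
      rw [hop] at h hw
      simp only at h
      split_ifs at h with h1
      simp only [Option.some.injEq, Prod.mk.injEq] at h
      obtain ⟨rfl, rfl⟩ := h
      subst h1
      obtain ⟨h2, h3⟩ := chain_W hw.1 le_rfl
      refine ⟨?_, ⟨by simp [code], hn, by simp [code]⟩, good_of_last h2 h3 out_H0⟩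
      simp only [lenW]
      have := hw.2.1
      omega
    | dec p t t' =>
      rw [hop] at h hw
      simp only at h
      split_ifs at h with h1 h1
      · simp only [Option.some.injEq, Prod.mk.injEq] at h
        obtain ⟨rfl, rfl⟩ := h
        subst h1
        exact ⟨by simp, ⟨by simp [code], hn, by simp [code]⟩,
          good_of_last (List.isChain_singleton _) rfl out_K⟩
      · simp only [Option.some.injEq, Prod.mk.injEq] at h
        obtain ⟨rfl, rfl⟩ := h
        subst h1
        have hp : 1 ≤ p := by have := hw.1; omega
        obtain ⟨h2, h3⟩ := chain_W hp hp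
        refine ⟨?_, ⟨by simp [code], hn, by simp [code]⟩, good_of_last h2 h3 out_H1⟩
        simp only [lenW]
        have := hw.2.1
        omega
  | K n =>
    have hn : n ≤ L := hs.2.1
    simp only [out] at h
    have hw := ho n
    cases hop : o n with
    | simple c t => rw [hop] at h; simp at h
    | dec p t t' =>
      rw [hop] at h hw
      simp only at h
      split_ifs at h with h1
      simp only [Option.some.injEq, Prod.mk.injEq] at h
      obtain ⟨rfl, rfl⟩ := h
      subst h1
      have hp : 1 ≤ p := by have := hw.1; omega
      obtain ⟨h2, h3⟩ := chain_W le_rfl hp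
      refine ⟨?_, ⟨by simp [code], hn, by simp [code]⟩, good_of_last h2 h3 out_H0⟩
      simp only [lenW]
      have := hw.2.1
      omega
  | H0 n =>
    have hn : n ≤ L := hs.2.1
    simp only [out] at h
    have hw := ho n
    cases hop : o n with
    | simple c t =>
      rw [hop] at h hw
      simp only at h
      split_ifs at h with h1 h1
      · simp only [Option.some.injEq, Prod.mk.injEq] at h
        obtain ⟨rfl, rfl⟩ := h
        subst h1
        obtain ⟨h2, h3⟩ := chain_W hw.1 le_rfl
        refine ⟨?_, ⟨by simp [code], hn, by simp [code]⟩, good_of_last h2 h3 out_H0⟩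
        simp only [lenW]
        have := hw.2.1
        omega
      · cases t with
        | some t =>
          simp only [Option.some.injEq, Prod.mk.injEq] at h
          obtain ⟨rfl, rfl⟩ := h
          subst h1
          refine ⟨by simp only [List.length_cons, List.length_nil]; omega,
            ⟨by simp [code], hw.2.2 t rfl, by simp [code]⟩,
            good_of_last (x := la) ?_ rfl out_C⟩
          simp [Rt]
        | none =>
          simp only [Option.some.injEq, Prod.mk.injEq] at h
          obtain ⟨rfl, rfl⟩ := h
          subst h1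
          refine ⟨by simp, ⟨by simp [code], by simp [code], by simp [code]⟩,
            good_of_last (x := ls) ?_ rfl (by simp [out])⟩
          simp [Rt]
    | dec p t t' =>
      rw [hop] at h hw
      simp only at h
      have hp : 1 ≤ p := by have := hw.1; omega
      split_ifs at h with h1 h1
      · simp only [Option.some.injEq, Prod.mk.injEq] at h
        obtain ⟨rfl, rfl⟩ := h
        subst h1
        obtain ⟨h2, h3⟩ := chain_W le_rfl hp
        refine ⟨?_, ⟨by simp [code], hn, by simp [code]⟩, good_of_last h2 h3 out_H0⟩
        simp only [lenW]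
        have := hw.2.1
        omega
      · simp only [Option.some.injEq, Prod.mk.injEq] at h
        obtain ⟨rfl, rfl⟩ := h
        subst h1
        refine ⟨by simp only [List.length_cons, List.length_nil]; omega,
          ⟨by simp [code], hw.2.2.1, by simp [code]⟩,
          good_of_last (x := la) ?_ rfl out_C⟩
        simp [Rt]
  | H1 n =>
    have hn : n ≤ L := hs.2.1
    simp only [out] at h
    have hw := ho n
    cases hop : o n with
    | simple c t => rw [hop] at h; simp at h
    | dec p t t' =>
      rw [hop] at h hw
      simp only at h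
      have hp : 1 ≤ p := by have := hw.1; omega
      split_ifs at h with h1 h1
      · simp only [Option.some.injEq, Prod.mk.injEq] at h
        obtain ⟨rfl, rfl⟩ := h
        subst h1
        obtain ⟨h2, h3⟩ := chain_W hp hp
        refine ⟨?_, ⟨by simp [code], hn, by simp [code]⟩, good_of_last h2 h3 out_H1⟩
        simp only [lenW]
        have := hw.2.1
        omega
      · simp only [Option.some.injEq, Prod.mk.injEq] at h
        obtain ⟨rfl, rfl⟩ := h
        subst h1
        refine ⟨by simp, ⟨by simp [code], hn, hB⟩,
          good_of_last (x := la') ?_ rfl out_E⟩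
        simp [Rt]
  | E n i =>
    have hn : n ≤ L := hs.2.1
    have hi : i ≤ B := hs.2.2
    simp only [out] at h
    have hw := ho n
    cases hop : o n with
    | simple c t => rw [hop] at h; simp at h
    | dec p t t' =>
      rw [hop] at h hw
      simp only at h
      split_ifs at h with h1 h1
      · simp only [Option.some.injEq, Prod.mk.injEq] at h
        obtain ⟨rfl, rfl⟩ := h
        obtain ⟨rfl, h2⟩ := h1
        refine ⟨by simp, ⟨by simp [code], hn, ?_⟩,
          good_of_last (x := la') (List.isChain_singleton _) rfl out_E⟩
        have := hw.2.1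
        show i + 1 ≤ B
        omega
      · simp only [Option.some.injEq, Prod.mk.injEq] at h
        obtain ⟨rfl, rfl⟩ := h
        subst h1
        refine ⟨by simp only [List.length_cons, List.length_replicate]; omega,
          ⟨by simp [code], hw.2.2.2, by simp [code]⟩,
          good_of_last (x := la) ?_ ?_ out_C⟩
        · rw [List.isChain_cons]
          refine ⟨?_, List.isChain_replicate_of_rel _ (by simp [Rt])⟩
          intro y hy
          simp only [List.replicate_succ, List.head?_cons, Option.mem_def,
            Option.some.injEq] at hy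
          subst hy
          simp [Rt]
        · rw [List.getLast?_cons, List.getLast?_replicate, if_neg (by omega)]
          rfl
  | F =>
    simp only [out] at h
    split_ifs at h with h1
    simp only [Option.some.injEq, Prod.mk.injEq] at h
    obtain ⟨rfl, rfl⟩ := h
    subst h1
    exact ⟨by simp, ⟨by simp [code], by simp [code], by simp [code]⟩,
      good_of_last (x := la') (List.isChain_singleton _) rfl (by simp [out])⟩
  | F' =>
    simp only [out] at h
    split_ifs at h with h1 h1
    · simp only [Option.some.injEq, Prod.mk.injEq] at h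
      obtain ⟨rfl, rfl⟩ := h
      subst h1
      exact ⟨by simp, ⟨by simp [code], by simp [code], by simp [code]⟩,
        good_of_last (x := la') (List.isChain_singleton _) rfl (by simp [out])⟩
    · simp only [Option.some.injEq, Prod.mk.injEq] at h
      obtain ⟨rfl, rfl⟩ := h
      subst h1
      exact ⟨by simp, ⟨by simp [code], by simp [code], by simp [code]⟩,
        good_of_last (x := ls') (List.isChain_singleton _) rfl (by simp [out])⟩
  | G =>
    simp only [out] at h
    split_ifs at h with h1
    simp only [Option.some.injEq, Prod.mk.injEq] at h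
    obtain ⟨rfl, rfl⟩ := h
    subst h1
    exact ⟨by simp, ⟨by simp [code], by simp [code], by simp [code]⟩,
      good_of_last (x := ls') (List.isChain_singleton _) rfl (by simp [out])⟩

/-- short transitions -/
def sd (o : ℕ → Op) (q : List Lb × S) (l : Lb) : Option (List Lb × S) :=
  match q.1 with
  | [] => out o q.2 l
  | x :: u => if l = x then some (u, q.2) else none

theorem Good.tail {o : ℕ → Op} {x : Lb} {u : List Lb} {s : S} (h : Good o (x :: u, s)) :
    Good o (u, s) := by
  obtain ⟨h1, h2⟩ := h
  refine ⟨(List.isChain_cons.1 h1).2, fun y hy => h2 y ?_⟩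
  simp only [Option.mem_def] at hy
  simp only [List.getLast?_cons, hy, Option.mem_def]
  rfl

theorem In.tail {o : ℕ → Op} {L B : ℕ} {x : Lb} {u : List Lb} {s : S} (h : In o L B (x :: u, s)) :
    In o L B (u, s) := by
  refine ⟨?_, h.2.1, h.2.2.tail⟩
  have := h.1
  simp only [List.length_cons] at this
  show u.length ≤ _
  omega

theorem sd_in {o : ℕ → Op} {L B : ℕ} (ho : ∀ l, WF L B (o l)) {q q' : List Lb × S} {l : Lb}
    (hq : In o L B q) (h : sd o q l = some q') : In o L B (l :: q'.1, q'.2) := by
  obtain ⟨u, s⟩ := q
  obtain ⟨u', s'⟩ := q'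
  cases u with
  | nil => exact out_ok ho hq.2.1 h
  | cons x u =>
    simp only [sd] at h
    split_ifs at h with h1
    simp only [Option.some.injEq, Prod.mk.injEq] at h
    obtain ⟨rfl, rfl⟩ := h
    subst h1
    exact hq

theorem sd_back {o : ℕ → Op} {L B : ℕ} (ho : ∀ l, WF L B (o l)) {q q' : List Lb × S} {l : Lb}
    (hq : In o L B q) (h : sd o q l = some q') : sd o q' l.swap = none := by
  have h1 := (sd_in ho hq h).2.2
  obtain ⟨u', s'⟩ := q'
  cases u' with
  | nil => exact h1.2 l (by simp)
  | cons x u =>
    simp only [sd]
    rw [if_neg]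
    have h2 := (List.isChain_cons.1 h1.1).1 x (by simp)
    exact fun h3 => h2 h3.symm

/-- the finite set of short states -/
abbrev Q (o : ℕ → Op) (L B : ℕ) : Type := {q : List Lb × S // In o L B q}

theorem finite_Q (o : ℕ → Op) (L B : ℕ) : Finite (Q o L B) := by
  have h1 : {u : List Lb | u.length ≤ 2 * B + 4}.Finite := List.finite_length_le _ _
  have h2 : {s : S | Bd L B s}.Finite :=
    (Set.finite_Iic ((7, L, B) : ℕ × ℕ × ℕ)).preimage code_inj.injOn
  exact ((h1.prod h2).subset fun q hq => ⟨hq.1, hq.2.1⟩).to_subtype

section

variable {o : ℕ → Op} {L B : ℕ}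

/-- transitions on the finite set -/
def sq (ho : ∀ l, WF L B (o l)) (q : Q o L B) (l : Lb) : Option (Q o L B) :=
  match h : sd o q.1 l with
  | none => none
  | some q' => some ⟨q', (sd_in ho q.2 h).tail⟩

theorem sq_val (ho : ∀ l, WF L B (o l)) (q : Q o L B) (l : Lb) :
    (sq ho q l).map Subtype.val = sd o q.1 l := by
  unfold sq
  split
  · rename_i h; rw [h]; rfl
  · rename_i h; exact h.symm

theorem sq_some (ho : ∀ l, WF L B (o l)) {q q' : Q o L B} {l : Lb} :
    sq ho q l = some q' ↔ sd o q.1 l = some q'.1 := by
  rw [← sq_val ho]
  cases h : sq ho q l with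
  | none => simp
  | some q'' =>
    simp only [Option.some.injEq, Option.map_some]
    constructor
    · intro h; rw [h]
    · intro h; exact Subtype.ext h

variable (o L B) in
/-- numbering of states -/
noncomputable def eQ : Q o L B ≃ Fin (Nat.card (Q o L B)) :=
  haveI := finite_Q o L B
  Finite.equivFin _

/-- the automaton -/
noncomputable def dl (ho : ∀ l, WF L B (o l)) (q : Fin (Nat.card (Q o L B))) (l : Lb) :
    Option (Fin (Nat.card (Q o L B))) :=
  (sq ho ((eQ o L B).symm q) l).map (eQ o L B)

theorem dl_some (ho : ∀ l, WF L B (o l)) {q q' : Fin (Nat.card (Q o L B))} {l : Lb}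
    (h : dl ho q l = some q') :
    sd o ((eQ o L B).symm q).1 l = some ((eQ o L B).symm q').1 := by
  unfold dl at h
  cases h1 : sq ho ((eQ o L B).symm q) l with
  | none => rw [h1] at h; simp at h
  | some q1 =>
    rw [h1] at h
    simp only [Option.map_some, Option.some.injEq] at h
    subst h
    rw [Equiv.symm_apply_apply]
    exact (sq_some ho).1 h1

theorem dl_eq (ho : ∀ l, WF L B (o l)) {q q' : Q o L B} {l : Lb}
    (h : sd o q.1 l = some q'.1) : dl ho (eQ o L B q) l = some (eQ o L B q') := by
  unfold dl
  rw [Equiv.symm_apply_apply, (sq_some ho).2 h]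
  rfl

theorem noBack (ho : ∀ l, WF L B (o l)) : NoBack (dl ho) := by
  intro q l q' h
  have h1 := dl_some ho h
  have h2 := sd_back ho ((eQ o L B).symm q).2 h1
  unfold dl
  have h3 := sq_val ho ((eQ o L B).symm q') l.swap
  rw [h2] at h3
  cases h4 : sq ho ((eQ o L B).symm q') l.swap with
  | none => rfl
  | some _ => rw [h4] at h3; simp at h3

/-- iterated short transitions -/
def sds (o : ℕ → Op) : List Lb → List Lb × S → Option (List Lb × S)
  | [], q => some q
  | l :: u, q => (sd o q l).bind (sds o u)

theorem sds_append (u v : List Lb) (q : List Lb × S) :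
    sds o (u ++ v) q = (sds o u q).bind (sds o v) := by
  induction u generalizing q with
  | nil => rfl
  | cons x u ih =>
    simp only [List.cons_append, sds]
    cases sd o q x with
    | none => rfl
    | some q' => exact ih q'

theorem sds_rest (u : List Lb) (s : S) : sds o u (u, s) = some ([], s) := by
  induction u with
  | nil => rfl
  | cons x u ih =>
    simp only [sds, sd, if_true, Option.bind_some]
    exact ih

theorem sds_out {s s' : S} {l : Lb} {u : List Lb} (h : out o s l = some (u, s')) :
    sds o (l :: u) ([], s) = some ([], s') := by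
  simp only [sds, sd, h, Option.bind_some]
  exact sds_rest u s'

theorem dst_eq (ho : ∀ l, WF L B (o l)) (u : List Lb) : ∀ {q q' : Q o L B},
    sds o u q.1 = some q'.1 → dst (dl ho) u (eQ o L B q) = some (eQ o L B q') := by
  induction u with
  | nil =>
    intro q q' h
    simp only [sds, Option.some.injEq] at h
    rw [Subtype.ext h]
    rfl
  | cons l u ih =>
    intro q q' h
    simp only [sds] at h
    cases h1 : sd o q.1 l with
    | none => rw [h1] at h; simp at h
    | some q1 =>
      rw [h1, Option.bind_some] at h
      have h2 := (sd_in ho q.2 h1).tail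
      simp only [dst]
      rw [dl_eq ho (q' := ⟨q1, h2⟩) h1, Option.bind_some]
      exact ih (q := ⟨q1, h2⟩) h

theorem In_nil {s : S} (h : Bd L B s) : In o L B ([], s) :=
  ⟨by simp, h, List.isChain_nil, by simp⟩

/-- number of a long state -/
noncomputable def st (o : ℕ → Op) {L B : ℕ} {s : S} (h : Bd L B s) : Fin (Nat.card (Q o L B)) :=
  eQ o L B ⟨([], s), In_nil h⟩

theorem closed_of_long (ho : ∀ l, WF L B (o l)) {Y : S → Set Tape}
    (hY : ∀ s l u s', out o s l = some (u, s') → ∀ h ∈ Y s, trun (l :: u) h ∈ Y s') :
    ∀ q l q', dl ho q l = some q' →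
      ∀ h ∈ {h : Tape | trun ((eQ o L B).symm q).1.1 h ∈ Y ((eQ o L B).symm q).1.2},
        tst l h ∈ {h : Tape | trun ((eQ o L B).symm q').1.1 h ∈ Y ((eQ o L B).symm q').1.2} := by
  intro q l q' hd h hh
  have key : ∀ (q q' : Q o L B), sd o q.1 l = some q'.1 → trun q.1.1 h ∈ Y q.1.2 →
      trun q'.1.1 (tst l h) ∈ Y q'.1.2 := by
    rintro ⟨⟨u, s⟩, hq⟩ ⟨⟨u', s'⟩, hq'⟩ h1 h2
    cases u with
    | nil => exact hY s l u' s' h1 h h2
    | cons x u =>
      simp only [sd] at h1
      split_ifs at h1 with h3
      simp only [Option.some.injEq, Prod.mk.injEq] at h1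
      obtain ⟨rfl, rfl⟩ := h1
      subst h3
      exact h2
  exact key _ _ (dl_some ho hd) hh

end

end Pool.Agent.Helper707.IMac
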