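import Mathlib
import Pool.Agent.Helper707.IMac

/-!
Halting computations give paths.
-/

namespace Pool.Agent.Helper707.IPath

open Pool.Agent.Helper707.IAlg Pool.Agent.Helper707.IGraph Pool.Agent.Helper707.IRight
  Pool.Agent.Helper707.ITape Pool.Agent.Helper707.IMac

theorem wd_cons (k : ℕ) (l : Lb) (u : List Lb) : wd k (l :: u) = [bl k l] ++ wd k u := rfl

theorem wd_append (k : ℕ) (u v : List Lb) : wd k (u ++ v) = wd k u ++ wd k v := by
  simp [wd]

theorem nu_wd_replicate (k d : ℕ) :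
    nu (wd k (List.replicate d la)) = wd k (List.replicate d la') := by
  simp only [wd, List.map_replicate, nu, List.reverse_replicate]
  rfl

section

variable {k : ℕ} {δ : Fin k → Lb → Option (Fin k)} {M : Type} [Monoid M] {f : Sl k → M}

theorem pt_apow (hf : Hyp δ f) {x : M} (hx : Ty f none x) (y d : ℕ) :
    Pt f (wd k (List.replicate d la)) (x * bb f ^ y) (x * fb f la ^ d * bb f ^ y) := by
  induction d with
  | zero => rw [pow_zero, mul_one]; exact Pt.nil _
  | succ d ih =>
    rw [List.replicate_succ', wd_append]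
    refine ih.append ?_
    have h := edge_a hf (ty_apow hf hx d) y
    rw [mul_assoc x (fb f la ^ d) (fb f la), ← pow_succ] at h
    exact h

theorem pt_apow' (hf : Hyp δ f) {x : M} (hx : Ty f none x) (u d y : ℕ) :
    Pt f (wd k (List.replicate d la')) (x * fb f la ^ (u + d) * bb f ^ y)
      (x * fb f la ^ u * bb f ^ y) := by
  have h := (pt_apow hf (ty_apow hf hx u) y d).symm
  rw [nu_wd_replicate, mul_assoc x, ← pow_add] at h
  exact h

theorem pt_up (hf : Hyp δ f) {x : M} (hx : Ty f none x) (y c : ℕ) :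
    Pt f (wd k (List.replicate c la)) (x * fb f la ^ y) (x * fb f la ^ (y + c)) := by
  have h := pt_apow hf (ty_apow hf hx y) 0 c
  rw [pow_zero, mul_one, mul_one, mul_assoc x, ← pow_add] at h
  exact h

theorem pt_W (hf : Hyp δ f) {x : M} (hx : Ty f none x) (c d u y : ℕ) :
    Pt f (wd k (ls :: W c d)) (x * fb f la ^ (u + d) * bb f ^ y)
      (x * fb f la ^ u * bb f ^ (y + c)) := by
  have hx' := ty_apow hf hx (u + d)
  have h1 := edge_s hf hx' y
  have h2 := pt_up hf (s_step hf hx').2 y c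
  have h3 := (edge_s hf hx' (y + c)).symm
  have h4 := pt_apow' hf hx u d (y + c)
  have h5 := h1.append (h2.append (h3.append h4))
  rw [W, wd_cons, wd_append, wd_cons]
  exact h5

/-- one long transition -/
theorem long_step {o : ℕ → Op} {L B : ℕ} (ho : ∀ l, WF L B (o l))
    {f : Sl (Nat.card (Q o L B)) → M} (hf : Hyp (dl ho) f) {s s' : S} (hs : Bd L B s)
    (hs' : Bd L B s') {l : Lb} {u : List Lb} (h : out o s l = some (u, s')) {m m' : M}
    (hm : Ty f (some (st o hs)) m) (hp : Pt f (wd _ (l :: u)) m m') :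
    Ty f (some (st o hs')) m' := by
  refine ty_path hf hm (dst_eq ho (l :: u) ?_) hp
  exact sds_out h

section

variable {o : ℕ → Op} {L B : ℕ} (ho : ∀ l, WF L B (o l))
  {f : Sl (Nat.card (Q o L B)) → M} (hf : Hyp (dl ho) f)

theorem Bd_C {l : ℕ} (hl : l ≤ L) : Bd L B (.C l) := ⟨by simp [code], hl, by simp [code]⟩
theorem Bd_K {l : ℕ} (hl : l ≤ L) : Bd L B (.K l) := ⟨by simp [code], hl, by simp [code]⟩
theorem Bd_H0 {l : ℕ} (hl : l ≤ L) : Bd L B (.H0 l) := ⟨by simp [code], hl, by simp [code]⟩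
theorem Bd_H1 {l : ℕ} (hl : l ≤ L) : Bd L B (.H1 l) := ⟨by simp [code], hl, by simp [code]⟩
theorem Bd_E {l i : ℕ} (hl : l ≤ L) (hi : i ≤ B) : Bd L B (.E l i) := ⟨by simp [code], hl, hi⟩
theorem Bd_F : Bd L B .F := ⟨by simp [code], by simp [code], by simp [code]⟩
theorem Bd_F' : Bd L B .F' := ⟨by simp [code], by simp [code], by simp [code]⟩
theorem Bd_G : Bd L B .G := ⟨by simp [code], by simp [code], by simp [code]⟩

include hf

/-- repeated loops -/
theorem loop_step {s : S} (hs : Bd L B s) {c d : ℕ} (h : out o s ls = some (W c d, s)) {x : M}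
    (hx : Ty f none x) (u : ℕ) (j : ℕ) : ∀ y : ℕ,
    Ty f (some (st o hs)) (x * fb f la ^ (u + d * j) * bb f ^ y) →
      Ty f (some (st o hs)) (x * fb f la ^ u * bb f ^ (y + c * j)) := by
  induction j with
  | zero => intro y hy; exact hy
  | succ j ih =>
    intro y hy
    have h1 := pt_W hf hx c d (u + d * j) y
    rw [show u + d * (j + 1) = u + d * j + d by ring] at hy
    have h2 := ih (y + c) (long_step ho hf hs hs h hy h1)
    rw [show y + c * (j + 1) = y + c + c * j by ring]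
    exact h2

theorem simple_head {l c : ℕ} {t : Option ℕ} (hl : l ≤ L) (hop : o l = .simple c t) {x : M}
    (hx : Ty f none x) {n : ℕ} (hn : 1 ≤ n)
    (hm : Ty f (some (st o (Bd_C (B := B) hl))) (x * fb f la ^ (n + 1))) :
    Ty f (some (st o (Bd_H0 (B := B) hl))) (x * fb f la ^ 1 * bb f ^ (c * n)) := by
  have h1 : out o (.C l) ls = some (W c 1, .H0 l) := by simp [out, hop]
  have h2 : out o (.H0 l) ls = some (W c 1, .H0 l) := by simp [out, hop]
  have hp := pt_W hf hx c 1 n 0
  rw [pow_zero, mul_one] at hp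
  have h3 := long_step ho hf (Bd_C hl) (Bd_H0 hl) h1 hm hp
  have h4 := loop_step ho hf (Bd_H0 hl) h2 hx 1 (n - 1) (0 + c)
  rw [show 1 + 1 * (n - 1) = n by omega] at h4
  have h5 := h4 h3
  rw [show 0 + c + c * (n - 1) = c * n by
    obtain ⟨n', rfl⟩ : ∃ n', n = n' + 1 := ⟨n - 1, by omega⟩
    rw [Nat.add_sub_cancel]; ring] at h5
  exact h5

theorem pt_exit {x : M} (hx : Ty f none x) (u y : ℕ) :
    Pt f (wd (Nat.card (Q o L B)) (List.replicate u la' ++ [ls]))
      (x * fb f la ^ u * bb f ^ y) (x * fb f ls * fb f la ^ y) := by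
  rw [wd_append]
  have h1 := pt_apow' hf hx 0 u y
  rw [zero_add, pow_zero, mul_one] at h1
  exact h1.append (edge_s hf hx y)

theorem pt_exit' {x : M} (hx : Ty f none x) (u y v : ℕ) :
    Pt f (wd (Nat.card (Q o L B)) (List.replicate u la' ++ ls :: List.replicate v la))
      (x * fb f la ^ u * bb f ^ y) (x * fb f ls * fb f la ^ (y + v)) := by
  have h1 := (pt_exit ho hf hx u y).append (pt_up hf (s_step hf hx).2 y v)
  rw [← wd_append, List.append_assoc] at h1
  exact h1

theorem simple_step {l c t : ℕ} (hl : l ≤ L) (ht : t ≤ L) (hop : o l = .simple c (some t)) {x : M}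
    (hx : Ty f none x) {n : ℕ} (hn : 1 ≤ n)
    (hm : Ty f (some (st o (Bd_C (B := B) hl))) (x * fb f la ^ (n + 1))) :
    Ty f (some (st o (Bd_C (B := B) ht))) (x * fb f ls * fb f la ^ (c * n + 1)) := by
  have h1 := simple_head ho hf hl hop hx hn hm
  have h2 : out o (.H0 l) la' = some ([ls, la], .C t) := by simp [out, hop]
  exact long_step ho hf (Bd_H0 hl) (Bd_C ht) h2 h1 (pt_exit' ho hf hx 1 (c * n) 1)

theorem div_step {l p t t' : ℕ} (hl : l ≤ L) (ht : t ≤ L) (hop : o l = .dec p t t') {x : M}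
    (hx : Ty f none x) {j : ℕ} (hj : 1 ≤ j)
    (hm : Ty f (some (st o (Bd_C (B := B) hl))) (x * fb f la ^ (p * j + 1))) :
    Ty f (some (st o (Bd_C (B := B) ht))) (x * fb f ls * fb f la ^ (j + 1)) := by
  have h1 : out o (.C l) la = some ([], .K l) := by simp [out, hop]
  have h2 : out o (.K l) ls = some (W 1 p, .H0 l) := by simp [out, hop]
  have h3 : out o (.H0 l) ls = some (W 1 p, .H0 l) := by simp [out, hop]
  have h4 : out o (.H0 l) la' = some ([la', ls, la], .C t) := by simp [out, hop]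
  have h5 := long_step ho hf (Bd_C hl) (Bd_K hl) h1 hm (pt_up hf hx (p * j + 1) 1)
  have hp := pt_W hf hx 1 p (p * (j - 1) + 2) 0
  rw [pow_zero, mul_one, show p * (j - 1) + 2 + p = p * j + 1 + 1 by
    obtain ⟨j', rfl⟩ : ∃ j', j = j' + 1 := ⟨j - 1, by omega⟩
    rw [Nat.add_sub_cancel]; ring] at hp
  have h6 := long_step ho hf (Bd_K hl) (Bd_H0 hl) h2 h5 hp
  have h7 := loop_step ho hf (Bd_H0 hl) h3 hx 2 (j - 1) (0 + 1)
  rw [show 2 + p * (j - 1) = p * (j - 1) + 2 by ring] at h7
  have h8 := h7 h6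
  rw [show 0 + 1 + 1 * (j - 1) = j by omega] at h8
  exact long_step ho hf (Bd_H0 hl) (Bd_C ht) h4 h8 (pt_exit' ho hf hx 2 j 1)

theorem E_steps {l p t t' : ℕ} (hl : l ≤ L) (hop : o l = .dec p t t') {x : M}
    (hx : Ty f none x) (y : ℕ) (e : ℕ) : ∀ (i u : ℕ) (hi : i ≤ B) (hie : i + e ≤ B),
    i + e < p → Ty f (some (st o (Bd_E hl hi))) (x * fb f la ^ (u + e) * bb f ^ y) →
      Ty f (some (st o (Bd_E hl hie))) (x * fb f la ^ u * bb f ^ y) := by
  induction e with
  | zero => intro i u hi hie h1 h2; exact h2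
  | succ e ih =>
    intro i u hi hie h1 h2
    have h3 : out o (.E l i) la' = some ([], .E l (i + 1)) := by
      simp only [out, hop]
      rw [if_pos ⟨trivial, by omega⟩]
    have h4 := long_step ho hf (Bd_E hl hi) (Bd_E (B := B) (i := i + 1) hl (by omega)) h3 h2
      (pt_apow' hf hx (u + e) 1 y)
    have h5 := ih (i + 1) u (by omega) (by omega) (by omega) h4
    have e1 : ∀ (a b : ℕ) (ha : a ≤ B) (hb : b ≤ B), a = b →
        st o (Bd_E (B := B) hl ha) = st o (Bd_E hl hb) := by
      intro a b ha hb hab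
      subst hab
      rfl
    rw [e1 (i + 1 + e) (i + (e + 1)) (by omega) hie (by omega)] at h5
    exact h5

theorem ndiv_step {l p t t' : ℕ} (hl : l ≤ L) (ht : t' ≤ L) (hop : o l = .dec p t t') {x : M}
    (hx : Ty f none x) {j i : ℕ} (hj : 1 ≤ j) (hi : 1 ≤ i) (hip : i < p)
    (hm : Ty f (some (st o (Bd_C (B := B) hl))) (x * fb f la ^ (p * j + i + 1))) :
    Ty f (some (st o (Bd_C (B := B) ht))) (x * fb f ls * fb f la ^ (p * j + i + 1)) := by
  have hpB : p ≤ B := by have := ho l; rw [hop] at this; exact this.2.1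
  have h1 : out o (.C l) ls = some (W p p, .H1 l) := by simp [out, hop]
  have h2 : out o (.H1 l) ls = some (W p p, .H1 l) := by simp [out, hop]
  have h3 : out o (.H1 l) la' = some ([la'], .E l 1) := by simp [out, hop]
  have hp := pt_W hf hx p p (p * (j - 1) + (i + 1)) 0
  rw [pow_zero, mul_one, show p * (j - 1) + (i + 1) + p = p * j + i + 1 by
    obtain ⟨j', rfl⟩ : ∃ j', j = j' + 1 := ⟨j - 1, by omega⟩
    rw [Nat.add_sub_cancel]; ring] at hp
  have h4 := long_step ho hf (Bd_C hl) (Bd_H1 hl) h1 hm hp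
  have h5 := loop_step ho hf (Bd_H1 hl) h2 hx (i + 1) (j - 1) (0 + p)
  rw [show i + 1 + p * (j - 1) = p * (j - 1) + (i + 1) by ring] at h5
  have h6 := h5 h4
  rw [show 0 + p + p * (j - 1) = p * j by
    obtain ⟨j', rfl⟩ : ∃ j', j = j' + 1 := ⟨j - 1, by omega⟩
    rw [Nat.add_sub_cancel]; ring] at h6
  have hp2 := pt_apow' hf hx (i - 1) 2 (p * j)
  rw [show i - 1 + 2 = i + 1 by omega] at hp2
  have h7 := long_step ho hf (Bd_H1 hl) (Bd_E (B := B) (i := 1) hl (by omega)) h3 h6 hp2
  have h8 := E_steps ho hf hl hop hx (p * j) (i - 1) 1 0 (by omega) (by omega) (by omega)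
  rw [zero_add] at h8
  have h9 := h8 h7
  have h10 : out o (.E l (1 + (i - 1))) ls
      = some (List.replicate (i + 1) la, .C t') := by
    simp only [out, hop]
    rw [if_neg (by simp), if_pos trivial]
    rw [show 1 + (i - 1) + 1 = i + 1 by omega]
  have h11 := long_step ho hf (Bd_E (B := B) (i := 1 + (i - 1)) hl (by omega)) (Bd_C ht) h10 h9
    (pt_exit' ho hf hx 0 (p * j) (i + 1))
  rw [← add_assoc] at h11
  exact h11

theorem fin_step {c : ℕ} (hop : o L = .simple c none) (hc : 1 ≤ c) {m0 : M}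
    (h0 : Ty f none m0) (i : ℕ) {n : ℕ} (hn : 1 ≤ n)
    (hm : Ty f (some (st o (Bd_C (B := B) (le_refl L))))
      (m0 * fb f ls ^ i * fb f la ^ (n + 1))) :
    Ty f (some (st o (Bd_G (L := L) (B := B)))) m0 := by
  have hX : ∀ i, Ty f none (m0 * fb f ls ^ i) := by
    intro i
    induction i with
    | zero => rw [pow_zero, mul_one]; exact h0
    | succ i ih => rw [pow_succ, ← mul_assoc]; exact (s_step hf ih).2
  have h1 := simple_head ho hf le_rfl hop (hX i) hn hm
  have h2 : out o (.H0 L) la' = some ([ls], .F) := by simp [out, hop]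
  have h3 := long_step ho hf (Bd_H0 le_rfl) Bd_F h2 h1 (pt_exit ho hf (hX i) 1 (c * n))
  rw [mul_assoc m0, ← pow_succ] at h3
  have hcn : 1 ≤ c * n := Nat.mul_pos hc hn
  have hdown : ∀ e, Ty f (some (st o (Bd_F' (L := L) (B := B))))
      (m0 * fb f ls ^ (i + 1) * fb f la ^ e) →
      Ty f (some (st o (Bd_F' (L := L) (B := B)))) (m0 * fb f ls ^ (i + 1)) := by
    intro e
    induction e with
    | zero => intro h; rwa [pow_zero, mul_one] at h
    | succ e ih =>
      intro h
      apply ih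
      have hp := pt_apow' hf (hX (i + 1)) e 1 0
      rw [pow_zero, mul_one, mul_one] at hp
      exact long_step ho hf Bd_F' Bd_F' (by simp [out]) h hp
  have h4 : Ty f (some (st o (Bd_F' (L := L) (B := B))))
      (m0 * fb f ls ^ (i + 1) * fb f la ^ (c * n - 1)) := by
    have hp := pt_apow' hf (hX (i + 1)) (c * n - 1) 1 0
    rw [pow_zero, mul_one, mul_one, Nat.sub_add_cancel hcn] at hp
    exact long_step ho hf Bd_F Bd_F' (by simp [out]) h3 hp
  have h5 := hdown _ h4
  have hs' : ∀ j, Pt f (wd (Nat.card (Q o L B)) [ls']) (m0 * fb f ls ^ (j + 1))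
      (m0 * fb f ls ^ j) := by
    intro j
    have hp := (s_step hf (hX j)).1.symm
    rw [mul_assoc, ← pow_succ] at hp
    exact hp
  have h6 : Ty f (some (st o (Bd_G (L := L) (B := B)))) (m0 * fb f ls ^ i) :=
    long_step ho hf Bd_F' Bd_G (by simp [out]) h5 (hs' i)
  clear h1 h3 h4 h5 hdown hm
  induction i with
  | zero => rwa [pow_zero, mul_one] at h6
  | succ i ih => exact ih (long_step ho hf Bd_G Bd_G (by simp [out]) h6 (hs' i))

end

end

end Pool.Agent.Helper707.IPath
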