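import Mathlib
import Pool.Agent.Helper707.IPath
import Pool.Agent.Helper707.Num

/-!
Soundness of the tape process.
-/

namespace Pool.Agent.Helper707.ISnd

open Function Pool.Agent.Helper707.IGraph Pool.Agent.Helper707.ITape Pool.Agent.Helper707.IMac
  Pool.Agent.Helper707.IRight Pool.Agent.Helper707.IModel Pool.Agent.Helper707.IAlg

theorem trun_append (u v : List Lb) (h : Tape) : trun (u ++ v) h = trun v (trun u h) := by
  induction u generalizing h with
  | nil => rfl
  | cons l u ih => exact ih _

theorem trun_rep (v : ℕ) (h : Tape) :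
    trun (List.replicate v la) h = (h.1 + Finsupp.single h.2 (v : ℤ), h.2) :=
  trun_replicate v h.1 h.2

theorem trun_rep' (u : ℕ) (h : Tape) :
    trun (List.replicate u la') h = (h.1 + Finsupp.single h.2 (-(u : ℤ)), h.2) := by
  obtain ⟨p, m⟩ := h
  induction u generalizing p with
  | zero => simp [trun]
  | succ N ih =>
    rw [List.replicate_succ, trun, tst, ih]
    simp only [Prod.mk.injEq, and_true]
    rw [add_assoc, ← Finsupp.single_add]
    push_cast
    congr 2
    ring

theorem trun_W (c d : ℕ) (h : Tape) : trun (ls :: W c d) h =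
    (h.1 + Finsupp.single (h.2 + 1) (c : ℤ) + Finsupp.single h.2 (-(d : ℤ)), h.2) := by
  rw [W, trun, trun_append, trun_rep, trun, trun_rep']
  simp only [tst, add_sub_cancel_right]

theorem trun_exit (u v : ℕ) (h : Tape) :
    trun (List.replicate u la' ++ ls :: List.replicate v la) h =
    (h.1 + Finsupp.single h.2 (-(u : ℤ)) + Finsupp.single (h.2 + 1) (v : ℤ), h.2 + 1) := by
  rw [trun_append, trun_rep', trun, trun_rep]
  simp only [tst]

/-- kinds of instructions of a program -/
noncomputable def op (P : List Flat.Ins) (l : ℕ) : Op :=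
  match P[l]? with
  | some (.inc r t) => .simple (Num.pr r) (some t)
  | some (.dec r t t') => .dec (Num.pr r) t t'
  | some (.jmp t) => .simple 1 (some t)
  | none => .simple 1 none

/-- number of a state -/
noncomputable def num (K : ℕ) (σ : ℕ → ℕ) : ℕ := Num.pr K * Num.enc K σ

theorem pr_lt {r K : ℕ} (hr : r < K) : Num.pr r < Num.pr K :=
  Nat.nth_strictMono Nat.infinite_setOfPred_prime hr

theorem wf {K : ℕ} {P : List Flat.Ins} (hP : ∀ i ∈ P, Num.Ok K P.length i) (l : ℕ) :
    WF P.length (Num.pr K) (op P l) := by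
  unfold op
  cases h : P[l]? with
  | none => exact ⟨le_rfl, (Num.pr_prime K).one_le, by simp⟩
  | some i =>
    have hok := hP _ (List.mem_of_getElem? h)
    cases i with
    | inc r t =>
      refine ⟨(Num.pr_prime r).one_le, (pr_lt hok.1).le, ?_⟩
      intro t' ht'
      simp only [Option.mem_def, Option.some.injEq] at ht'
      subst ht'
      exact hok.2
    | dec r t t' => exact ⟨(Num.pr_prime r).two_le, (pr_lt hok.1).le, hok.2.1, hok.2.2⟩
    | jmp t =>
      refine ⟨le_rfl, (Num.pr_prime K).one_le, ?_⟩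
      intro t' ht'
      simp only [Option.mem_def, Option.some.injEq] at ht'
      subst ht'
      exact hok

theorem num_ge (K : ℕ) (σ : ℕ → ℕ) : Num.pr K ≤ num K σ :=
  Nat.le_mul_of_pos_right _ (Num.enc_pos K σ)

theorem num_pos (K : ℕ) (σ : ℕ → ℕ) : 1 ≤ num K σ :=
  (Num.pr_prime K).one_le.trans (num_ge K σ)

theorem num_inc {K r : ℕ} (hr : r < K) (σ : ℕ → ℕ) :
    num K (update σ r (σ r + 1)) = Num.pr r * num K σ := by
  unfold num
  rw [Num.enc_inc hr]
  ring

theorem num_dec {K r : ℕ} (hr : r < K) (σ : ℕ → ℕ) (h : σ r ≠ 0) :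
    num K σ = Num.pr r * num K (update σ r (σ r - 1)) := by
  unfold num
  rw [Num.enc_dec hr σ h]
  ring

theorem dvd_num {K r : ℕ} (hr : r < K) (σ : ℕ → ℕ) : Num.pr r ∣ num K σ ↔ σ r ≠ 0 := by
  rw [← Num.dvd_enc hr]
  unfold num
  refine Nat.Coprime.dvd_mul_left ?_
  rw [Nat.coprime_primes (Num.pr_prime r) (Num.pr_prime K)]
  exact (pr_lt hr).ne

section

variable (K : ℕ) (P : List Flat.Ins) (σ0 : ℕ → ℕ)

/-- reachable configurations -/
def Rc (l n : ℕ) : Prop :=
  l ≤ P.length ∧ ∃ T σ, (Flat.step P)^[T] (0, σ0) = (l, σ) ∧ n = num K σ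

/-- halting -/
def Ha : Prop := ∃ T, ((Flat.step P)^[T] (0, σ0)).1 = P.length

variable {K P σ0}

theorem Rc.simple (hP : ∀ i ∈ P, Num.Ok K P.length i) {l n c t : ℕ} (h : Rc K P σ0 l n)
    (ho : op P l = .simple c (some t)) : Rc K P σ0 t (c * n) := by
  obtain ⟨hl, T, σ, hT, rfl⟩ := h
  unfold op at ho
  cases hi : P[l]? with
  | none => rw [hi] at ho; simp at ho
  | some i =>
    have hok := hP _ (List.mem_of_getElem? hi)
    cases i with
    | inc r t1 =>
      rw [hi] at ho
      simp only [Op.simple.injEq, Option.some.injEq] at ho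
      obtain ⟨rfl, rfl⟩ := ho
      refine ⟨hok.2, T + 1, update σ r (σ r + 1), ?_, (num_inc hok.1 σ).symm⟩
      rw [iterate_succ_apply', hT]
      simp only [Flat.step, hi]
    | dec r t1 t2 => rw [hi] at ho; simp at ho
    | jmp t1 =>
      rw [hi] at ho
      simp only [Op.simple.injEq, Option.some.injEq] at ho
      obtain ⟨rfl, rfl⟩ := ho
      refine ⟨hok, T + 1, σ, ?_, by rw [one_mul]⟩
      rw [iterate_succ_apply', hT]
      simp only [Flat.step, hi]

theorem op_dec {l p t t' : ℕ} (ho : op P l = .dec p t t') :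
    ∃ r, P[l]? = some (.dec r t t') ∧ p = Num.pr r := by
  unfold op at ho
  cases hi : P[l]? with
  | none => rw [hi] at ho; simp at ho
  | some i =>
    cases i with
    | inc r t1 => rw [hi] at ho; simp at ho
    | dec r t1 t2 =>
      rw [hi] at ho
      simp only [Op.dec.injEq] at ho
      obtain ⟨rfl, rfl, rfl⟩ := ho
      exact ⟨r, rfl, rfl⟩
    | jmp t1 => rw [hi] at ho; simp at ho

theorem Rc.div (hP : ∀ i ∈ P, Num.Ok K P.length i) {l n p t t' j : ℕ} (h : Rc K P σ0 l n)
    (ho : op P l = .dec p t t') (hj : n = p * j) : Rc K P σ0 t j := by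
  obtain ⟨hl, T, σ, hT, rfl⟩ := h
  obtain ⟨r, hi, rfl⟩ := op_dec ho
  have hok := hP _ (List.mem_of_getElem? hi)
  have h0 : σ r ≠ 0 := (dvd_num hok.1 σ).1 ⟨j, hj⟩
  refine ⟨hok.2.1, T + 1, update σ r (σ r - 1), ?_, ?_⟩
  · rw [iterate_succ_apply', hT]
    simp only [Flat.step, hi, if_neg h0]
  · rw [num_dec hok.1 σ h0] at hj
    exact (Nat.eq_of_mul_eq_mul_left (Num.pr_prime r).pos hj).symm

theorem Rc.ndiv (hP : ∀ i ∈ P, Num.Ok K P.length i) {l n p t t' : ℕ} (h : Rc K P σ0 l n)
    (ho : op P l = .dec p t t') (hj : ¬ p ∣ n) : Rc K P σ0 t' n := by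
  obtain ⟨hl, T, σ, hT, rfl⟩ := h
  obtain ⟨r, hi, rfl⟩ := op_dec ho
  have hok := hP _ (List.mem_of_getElem? hi)
  have h0 : σ r = 0 := by
    by_contra h1
    exact hj ((dvd_num hok.1 σ).2 h1)
  refine ⟨hok.2.2, T + 1, σ, ?_, rfl⟩
  rw [iterate_succ_apply', hT]
  simp only [Flat.step, hi, if_pos h0]

theorem Rc.fin {l n c : ℕ} (h : Rc K P σ0 l n) (ho : op P l = .simple c none) : Ha P σ0 := by
  obtain ⟨hl, T, σ, hT, rfl⟩ := h
  unfold op at ho
  cases hi : P[l]? with
  | none =>
    rw [List.getElem?_eq_none_iff] at hi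
    exact ⟨T, by rw [hT]; exact le_antisymm hl hi⟩
  | some i => cases i <;> · rw [hi] at ho; simp at ho

/-- tapes which can not be repaired -/
def Bad (h : Tape) : Prop := ∃ i < h.2, h.1 i ≠ 0

variable (K P σ0) in
/-- tapes satisfying a condition -/
def Yc (l : ℕ) (A : ℕ → ℤ → ℤ → Prop) : Set Tape :=
  {h | Bad h ∨ ∃ n, Rc K P σ0 l n ∧ A n (h.1 h.2) (h.1 (h.2 + 1)) ∧ ∀ i > h.2 + 1, h.1 i = 0}

variable (K P σ0) in
/-- the invariant sets -/
def Y : S → Set Tape
  | .C l => Yc K P σ0 l fun n x y => x = n + 1 ∧ y = 0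
  | .K l => Yc K P σ0 l fun n x y => x = n + 2 ∧ y = 0
  | .H0 l => Yc K P σ0 l fun n x y => ∃ j : ℕ,
    match op P l with
    | .simple c _ => x = n + 1 - j ∧ y = c * j
    | .dec p _ _ => x = n + 2 - p * j ∧ y = j
  | .H1 l => Yc K P σ0 l fun n x y => ∃ j : ℕ,
    match op P l with
    | .simple _ _ => False
    | .dec p _ _ => x = n + 1 - p * j ∧ y = p * j
  | .E l i => Yc K P σ0 l fun n x y => ∃ j : ℕ,
    match op P l with
    | .simple _ _ => False
    | .dec p _ _ => 1 ≤ i ∧ i < p ∧ x = n - p * j - i ∧ y = p * j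
  | .F => {h | Bad h ∨ Ha P σ0}
  | .F' => {h | Bad h ∨ Ha P σ0}
  | .G => {h | (∃ i, h.1 i ≠ 0) ∨ Ha P σ0}

theorem Yc_loop {l : ℕ} {A A' : ℕ → ℤ → ℤ → Prop} {c d : ℤ}
    (hA : ∀ n x y, A n x y → A' n (x - d) (y + c)) {h : Tape} (hh : h ∈ Yc K P σ0 l A) :
    (h.1 + Finsupp.single (h.2 + 1) c + Finsupp.single h.2 (-d), h.2) ∈ Yc K P σ0 l A' := by
  have hev : ∀ i, (h.1 + Finsupp.single (h.2 + 1) c + Finsupp.single h.2 (-d)) i
      = h.1 i + (if h.2 + 1 = i then c else 0) + (if h.2 = i then -d else 0) := by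
    intro i
    simp only [Finsupp.add_apply, Finsupp.single_apply]
  rcases hh with ⟨i, hi, hne⟩ | ⟨n, h1, h2, h3⟩
  · refine Or.inl ⟨i, hi, ?_⟩
    simp only [hev]
    rw [if_neg (by omega), if_neg (by omega), add_zero, add_zero]
    exact hne
  · refine Or.inr ⟨n, h1, ?_, ?_⟩
    · simp only [hev]
      rw [if_neg (by omega), if_pos trivial, if_pos trivial, if_neg (by omega), add_zero, add_zero]
      have := hA n _ _ h2
      rwa [sub_eq_add_neg] at this
    · intro i hi
      simp only at hi
      simp only [hev]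
      rw [if_neg (by omega), if_neg (by omega), add_zero, add_zero]
      exact h3 i hi

theorem Yc_exit {l : ℕ} {A : ℕ → ℤ → ℤ → Prop} {u v : ℕ} {h : Tape} (hh : h ∈ Yc K P σ0 l A) :
    Bad (h.1 + Finsupp.single h.2 (-(u : ℤ)) + Finsupp.single (h.2 + 1) (v : ℤ), h.2 + 1) ∨
    ∃ (n : ℕ) (y : ℤ), Rc K P σ0 l n ∧ A n u y ∧
      (h.1 + Finsupp.single h.2 (-(u : ℤ)) + Finsupp.single (h.2 + 1) (v : ℤ)) (h.2 + 1) = y + v ∧
      ∀ i > h.2 + 1,
        (h.1 + Finsupp.single h.2 (-(u : ℤ)) + Finsupp.single (h.2 + 1) (v : ℤ)) i = 0 := by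
  have hev : ∀ i, (h.1 + Finsupp.single h.2 (-(u : ℤ)) + Finsupp.single (h.2 + 1) (v : ℤ)) i
      = h.1 i + (if h.2 = i then -(u : ℤ) else 0) + (if h.2 + 1 = i then (v : ℤ) else 0) := by
    intro i
    simp only [Finsupp.add_apply, Finsupp.single_apply]
  rcases hh with ⟨i, hi, hne⟩ | ⟨n, h1, h2, h3⟩
  · refine Or.inl ⟨i, ?_, ?_⟩
    · show i < h.2 + 1
      omega
    · simp only [hev]
      rw [if_neg (by omega), if_neg (by omega), add_zero, add_zero]
      exact hne
  · by_cases hx : h.1 h.2 = u
    · right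
      refine ⟨n, h.1 (h.2 + 1), h1, ?_, ?_, ?_⟩
      · rw [← hx]; exact h2
      · rw [hev, if_neg (by omega), if_pos rfl, add_zero]
      · intro i hi
        rw [hev, if_neg (by omega), if_neg (by omega), add_zero, add_zero]
        exact h3 i hi
    · left
      refine ⟨h.2, ?_, ?_⟩
      · show h.2 < h.2 + 1
        omega
      · simp only [hev]
        rw [if_pos trivial, if_neg (by omega)]
        omega

theorem Y_exit {l t : ℕ} {A : ℕ → ℤ → ℤ → Prop} {u v : ℕ} {h : Tape}
    (hh : h ∈ Yc K P σ0 l A)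
    (hA : ∀ (n : ℕ) (y : ℤ), Rc K P σ0 l n → A n u y → ∃ n', Rc K P σ0 t n' ∧ y + v = n' + 1) :
    trun (List.replicate u la' ++ ls :: List.replicate v la) h ∈ Y K P σ0 (.C t) := by
  rw [trun_exit]
  rcases Yc_exit (u := u) (v := v) hh with hb | ⟨n, y, h1, h2, h3, h4⟩
  · exact Or.inl hb
  · obtain ⟨n', h5, h6⟩ := hA n y h1 h2
    refine Or.inr ⟨n', h5, ⟨?_, ?_⟩, ?_⟩
    · simp only
      rw [h3, h6]
    · simp only
      exact h4 _ (by omega)
    · intro i hi
      simp only at hi
      exact h4 i (by omega)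

theorem closed (hP : ∀ i ∈ P, Num.Ok K P.length i) : ∀ s l u s', out (op P) s l = some (u, s') →
    ∀ h ∈ Y K P σ0 s, trun (l :: u) h ∈ Y K P σ0 s' := by
  intro s l u s' ho h hh
  cases s with
  | C n =>
    rw [Y] at hh
    simp only [out] at ho
    cases hop : op P n with
    | simple c t =>
      rw [hop] at ho
      simp only at ho
      split_ifs at ho with h1
      simp only [Option.some.injEq, Prod.mk.injEq] at ho
      obtain ⟨rfl, rfl⟩ := ho
      subst h1
      rw [trun_W]
      rw [Y]
      refine Yc_loop (fun m x y hA => ⟨1, ?_⟩) hh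
      rw [hop]
      obtain ⟨rfl, rfl⟩ := hA
      exact ⟨by push_cast; ring, by push_cast; ring⟩
    | dec p t t' =>
      rw [hop] at ho
      simp only at ho
      split_ifs at ho with h1 h1
      · simp only [Option.some.injEq, Prod.mk.injEq] at ho
        obtain ⟨rfl, rfl⟩ := ho
        subst h1
        have e : trun [la] h = (h.1 + Finsupp.single (h.2 + 1) (0 : ℤ)
            + Finsupp.single h.2 (-(-1) : ℤ), h.2) := by
          simp [trun, tst]
        rw [e]
        rw [Y]
        refine Yc_loop (fun m x y hA => ?_) hh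
        obtain ⟨rfl, rfl⟩ := hA
        exact ⟨by ring, by ring⟩
      · simp only [Option.some.injEq, Prod.mk.injEq] at ho
        obtain ⟨rfl, rfl⟩ := ho
        subst h1
        rw [trun_W]
        rw [Y]
        refine Yc_loop (fun m x y hA => ⟨1, ?_⟩) hh
        rw [hop]
        obtain ⟨rfl, rfl⟩ := hA
        exact ⟨by push_cast; ring, by push_cast; ring⟩
  | K n =>
    rw [Y] at hh
    simp only [out] at ho
    cases hop : op P n with
    | simple c t => rw [hop] at ho; simp at ho
    | dec p t t' =>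
      rw [hop] at ho
      simp only at ho
      split_ifs at ho with h1
      simp only [Option.some.injEq, Prod.mk.injEq] at ho
      obtain ⟨rfl, rfl⟩ := ho
      subst h1
      rw [trun_W, Y]
      refine Yc_loop (fun m x y hA => ⟨1, ?_⟩) hh
      rw [hop]
      obtain ⟨rfl, rfl⟩ := hA
      exact ⟨by push_cast; ring, by simp⟩
  | H0 n =>
    rw [Y] at hh
    simp only [out] at ho
    cases hop : op P n with
    | simple c t =>
      rw [hop] at ho
      simp only at ho
      split_ifs at ho with h1 h1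
      · simp only [Option.some.injEq, Prod.mk.injEq] at ho
        obtain ⟨rfl, rfl⟩ := ho
        subst h1
        rw [trun_W]
        rw [Y]
        refine Yc_loop (fun m x y hA => ?_) hh
        obtain ⟨j, hA⟩ := hA
        rw [hop] at hA
        refine ⟨j + 1, ?_⟩
        rw [hop]
        obtain ⟨rfl, rfl⟩ := hA
        exact ⟨by push_cast; ring, by push_cast; ring⟩
      · subst h1
        cases t with
        | some t =>
          simp only [Option.some.injEq, Prod.mk.injEq] at ho
          obtain ⟨rfl, rfl⟩ := ho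
          refine Y_exit (u := 1) (v := 1) hh fun m y hr hA => ?_
          obtain ⟨j, hA⟩ := hA
          rw [hop] at hA
          obtain ⟨h2, rfl⟩ := hA
          have h3 : m = j := by push_cast at h2; omega
          subst h3
          exact ⟨c * m, hr.simple hP hop, by push_cast; ring⟩
        | none =>
          simp only [Option.some.injEq, Prod.mk.injEq] at ho
          obtain ⟨rfl, rfl⟩ := ho
          have e := trun_exit 1 0 h
          rw [show trun [la', ls] h = trun (List.replicate 1 la' ++ ls :: List.replicate 0 la) h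
            from rfl, e]
          rcases Yc_exit (u := 1) (v := 0) hh with hb | ⟨m, y, h2, h3, h4, h5⟩
          · exact Or.inl hb
          · exact Or.inr (h2.fin hop)
    | dec p t t' =>
      rw [hop] at ho
      simp only at ho
      split_ifs at ho with h1 h1
      · simp only [Option.some.injEq, Prod.mk.injEq] at ho
        obtain ⟨rfl, rfl⟩ := ho
        subst h1
        rw [trun_W]
        rw [Y]
        refine Yc_loop (fun m x y hA => ?_) hh
        obtain ⟨j, hA⟩ := hA
        rw [hop] at hA
        refine ⟨j + 1, ?_⟩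
        rw [hop]
        obtain ⟨rfl, rfl⟩ := hA
        exact ⟨by push_cast; ring, by push_cast; ring⟩
      · simp only [Option.some.injEq, Prod.mk.injEq] at ho
        obtain ⟨rfl, rfl⟩ := ho
        subst h1
        refine Y_exit (u := 2) (v := 1) hh fun m y hr hA => ?_
        obtain ⟨j, hA⟩ := hA
        rw [hop] at hA
        obtain ⟨h2, rfl⟩ := hA
        have h3 : m = p * j := by push_cast at h2; zify; linarith
        exact ⟨j, hr.div hP hop h3, by push_cast; ring⟩
  | H1 n =>
    rw [Y] at hh
    simp only [out] at ho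
    cases hop : op P n with
    | simple c t => rw [hop] at ho; simp at ho
    | dec p t t' =>
      rw [hop] at ho
      have hp2 : 2 ≤ p := by have := wf hP n; rw [hop] at this; exact this.1
      simp only at ho
      split_ifs at ho with h1 h1
      · simp only [Option.some.injEq, Prod.mk.injEq] at ho
        obtain ⟨rfl, rfl⟩ := ho
        subst h1
        rw [trun_W]
        rw [Y]
        refine Yc_loop (fun m x y hA => ?_) hh
        obtain ⟨j, hA⟩ := hA
        rw [hop] at hA
        refine ⟨j + 1, ?_⟩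
        rw [hop]
        obtain ⟨rfl, rfl⟩ := hA
        exact ⟨by push_cast; ring, by push_cast; ring⟩
      · simp only [Option.some.injEq, Prod.mk.injEq] at ho
        obtain ⟨rfl, rfl⟩ := ho
        subst h1
        have e : trun [la', la'] h = (h.1 + Finsupp.single (h.2 + 1) (0 : ℤ)
            + Finsupp.single h.2 (-2 : ℤ), h.2) := by
          have := trun_rep' 2 h
          simp only [List.replicate] at this
          rw [this]
          simp
        rw [e]
        rw [Y]
        refine Yc_loop (fun m x y hA => ?_) hh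
        obtain ⟨j, hA⟩ := hA
        rw [hop] at hA
        refine ⟨j, ?_⟩
        rw [hop]
        obtain ⟨rfl, rfl⟩ := hA
        exact ⟨le_rfl, hp2, by push_cast; ring, by ring⟩
  | E n i =>
    rw [Y] at hh
    simp only [out] at ho
    cases hop : op P n with
    | simple c t => rw [hop] at ho; simp at ho
    | dec p t t' =>
      rw [hop] at ho
      simp only at ho
      split_ifs at ho with h1 h1
      · simp only [Option.some.injEq, Prod.mk.injEq] at ho
        obtain ⟨rfl, rfl⟩ := ho
        obtain ⟨rfl, h2⟩ := h1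
        have e : trun [la'] h = (h.1 + Finsupp.single (h.2 + 1) (0 : ℤ)
            + Finsupp.single h.2 (-1 : ℤ), h.2) := by
          simp [trun, tst]
        rw [e]
        rw [Y]
        refine Yc_loop (fun m x y hA => ?_) hh
        obtain ⟨j, hA⟩ := hA
        rw [hop] at hA
        refine ⟨j, ?_⟩
        rw [hop]
        obtain ⟨h3, h4, rfl, rfl⟩ := hA
        exact ⟨by omega, h2, by push_cast; ring, by ring⟩
      · simp only [Option.some.injEq, Prod.mk.injEq] at ho
        obtain ⟨rfl, rfl⟩ := ho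
        subst h1
        refine Y_exit (u := 0) (v := i + 1) hh fun m y hr hA => ?_
        obtain ⟨j, hA⟩ := hA
        rw [hop] at hA
        obtain ⟨h3, h4, h5, rfl⟩ := hA
        have h6 : m = p * j + i := by push_cast at h5; zify; linarith
        refine ⟨m, hr.ndiv hP hop ?_, by rw [h6]; push_cast; ring⟩
        rw [h6]
        intro hd
        have h7 := (Nat.dvd_add_right (Dvd.intro j rfl)).1 hd
        exact absurd (Nat.le_of_dvd (by omega) h7) (by omega)
  | F =>
    simp only [out] at ho
    split_ifs at ho with h1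
    simp only [Option.some.injEq, Prod.mk.injEq] at ho
    obtain ⟨rfl, rfl⟩ := ho
    subst h1
    rcases hh with ⟨i, hi, hne⟩ | hh
    · refine Or.inl ⟨i, hi, ?_⟩
      simp only [trun, tst, Finsupp.add_apply, Finsupp.single_apply]
      rw [if_neg (by omega), add_zero]
      exact hne
    · exact Or.inr hh
  | F' =>
    simp only [out] at ho
    split_ifs at ho with h1 h1
    · simp only [Option.some.injEq, Prod.mk.injEq] at ho
      obtain ⟨rfl, rfl⟩ := ho
      subst h1
      rcases hh with ⟨i, hi, hne⟩ | hh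
      · refine Or.inl ⟨i, hi, ?_⟩
        simp only [trun, tst, Finsupp.add_apply, Finsupp.single_apply]
        rw [if_neg (by omega), add_zero]
        exact hne
      · exact Or.inr hh
    · simp only [Option.some.injEq, Prod.mk.injEq] at ho
      obtain ⟨rfl, rfl⟩ := ho
      subst h1
      rcases hh with ⟨i, hi, hne⟩ | hh
      · exact Or.inl ⟨i, hne⟩
      · exact Or.inr hh
  | G =>
    simp only [out] at ho
    split_ifs at ho with h1
    simp only [Option.some.injEq, Prod.mk.injEq] at ho
    obtain ⟨rfl, rfl⟩ := ho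
    subst h1
    exact hh

end

end Pool.Agent.Helper707.ISnd
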