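import Mathlib
import Pool.Agent.Helper707.ISnd
import Pool.Agent.Helper707.IComp

/-!
The one relator inverse monoid.
-/

namespace Pool.Agent.Helper707.IFinal

open Function Pool.Agent.Helper707.IAlg Pool.Agent.Helper707.IModel Pool.Agent.Helper707.IGraph
  Pool.Agent.Helper707.IClosed Pool.Agent.Helper707.IRight Pool.Agent.Helper707.ITape
  Pool.Agent.Helper707.IMac Pool.Agent.Helper707.IPath Pool.Agent.Helper707.ISnd
  Pool.Agent.Helper707.IComp

section

variable {K : ℕ} {P : List Flat.Ins} {σ0 : ℕ → ℕ} (hP : ∀ i ∈ P, Num.Ok K P.length i)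
  {M : Type} [Monoid M]
  {f : Sl (Nat.card (Q (op P) P.length (Num.pr K))) → M} (hf : Hyp (dl (wf hP)) f)

include hf

theorem follow {m0 : M} (h0 : Ty f none m0)
    (hs : Ty f (some (st (op P) (Bd_C (L := P.length) (B := Num.pr K) (Nat.zero_le _))))
      (m0 * fb f la ^ (num K σ0 + 1))) (T : ℕ) :
    ∃ (i : ℕ) (hl : ((Flat.step P)^[T] (0, σ0)).1 ≤ P.length),
      Ty f (some (st (op P) (Bd_C (L := P.length) (B := Num.pr K) hl)))
        (m0 * fb f ls ^ i * fb f la ^ (num K ((Flat.step P)^[T] (0, σ0)).2 + 1)) := by
  have hX : ∀ i, Ty f none (m0 * fb f ls ^ i) := by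
    intro i
    induction i with
    | zero => rw [pow_zero, mul_one]; exact h0
    | succ i ih => rw [pow_succ, ← mul_assoc]; exact (s_step hf ih).2
  induction T with
  | zero => exact ⟨0, Nat.zero_le _, by rw [pow_zero, mul_one]; exact hs⟩
  | succ T ih =>
    obtain ⟨i, hl, hty⟩ := ih
    rw [iterate_succ_apply']
    generalize (Flat.step P)^[T] (0, σ0) = x at hl hty ⊢
    obtain ⟨l, σ⟩ := x
    simp only at hl hty
    cases hi : P[l]? with
    | none =>
      have e : Flat.step P (l, σ) = (l, σ) := by simp only [Flat.step, hi]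
      rw [e]
      exact ⟨i, hl, hty⟩
    | some ins =>
      have hok := hP _ (List.mem_of_getElem? hi)
      cases ins with
      | inc r t =>
        have e : Flat.step P (l, σ) = (t, update σ r (σ r + 1)) := by simp only [Flat.step, hi]
        have hop : op P l = .simple (Num.pr r) (some t) := by simp only [op, hi]
        rw [e]
        refine ⟨i + 1, hok.2, ?_⟩
        simp only
        rw [num_inc hok.1, pow_succ, ← mul_assoc]
        exact simple_step (wf hP) hf hl hok.2 hop (hX i) (num_pos K σ) hty
      | jmp t =>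
        have e : Flat.step P (l, σ) = (t, σ) := by simp only [Flat.step, hi]
        have hop : op P l = .simple 1 (some t) := by simp only [op, hi]
        rw [e]
        refine ⟨i + 1, hok, ?_⟩
        have := simple_step (wf hP) hf hl hok hop (hX i) (num_pos K σ) hty
        rw [one_mul] at this
        simp only
        rw [pow_succ, ← mul_assoc]
        exact this
      | dec r t t' =>
        have hop : op P l = .dec (Num.pr r) t t' := by simp only [op, hi]
        by_cases hz : σ r = 0
        · have e : Flat.step P (l, σ) = (t', σ) := by simp only [Flat.step, hi, if_pos hz]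
          rw [e]
          refine ⟨i + 1, hok.2.2, ?_⟩
          have hp0 := (Num.pr_prime r).pos
          have hnd : ¬ Num.pr r ∣ num K σ := fun h => (dvd_num hok.1 σ).1 h hz
          have h1 : 1 ≤ num K σ / Num.pr r :=
            (Nat.one_le_div_iff hp0).2 ((pr_lt hok.1).le.trans (num_ge K σ))
          have h2 : 1 ≤ num K σ % Num.pr r := by
            rcases Nat.eq_zero_or_pos (num K σ % Num.pr r) with h | h
            · exact absurd (Nat.dvd_of_mod_eq_zero h) hnd
            · exact h
          have h3 := Nat.mod_lt (num K σ) hp0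
          have h4 := Nat.div_add_mod (num K σ) (Num.pr r)
          rw [← h4] at hty
          have := ndiv_step (wf hP) hf hl hok.2.2 hop (hX i) h1 h2 h3 hty
          rw [h4] at this
          simp only
          rw [pow_succ, ← mul_assoc]
          exact this
        · have e : Flat.step P (l, σ) = (t, update σ r (σ r - 1)) := by
            simp only [Flat.step, hi, if_neg hz]
          rw [e]
          refine ⟨i + 1, hok.2.1, ?_⟩
          rw [num_dec hok.1 σ hz] at hty
          simp only
          rw [pow_succ, ← mul_assoc]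
          exact div_step (wf hP) hf hl hok.2.1 hop (hX i) (num_pos K _) hty

theorem reach {m0 : M} (h0 : Ty f none m0)
    (hs : Ty f (some (st (op P) (Bd_C (L := P.length) (B := Num.pr K) (Nat.zero_le _))))
      (m0 * fb f la ^ (num K σ0 + 1))) (hH : Ha P σ0) :
    Ty f (some (st (op P) (Bd_G (L := P.length) (B := Num.pr K)))) m0 := by
  obtain ⟨T, hT⟩ := hH
  obtain ⟨i, hl, hty⟩ := follow hP hf h0 hs T
  generalize (Flat.step P)^[T] (0, σ0) = x at hT hl hty
  obtain ⟨l, σ⟩ := x
  simp only at hT hl hty
  subst hT
  refine fin_step (wf hP) hf (c := 1) ?_ le_rfl h0 i (num_pos K σ) hty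
  have hi : P[P.length]? = none := by rw [List.getElem?_eq_none_iff]
  simp only [op, hi]

end

theorem swap_map' {A B : Type} (g : A → B) (x : A ⊕ A) :
    (Sum.map g g x).swap = Sum.map g g x.swap := by
  cases x <;> rfl

/-- precomposition -/
def comap {A B Ω : Type} (g : A → B) (S : Act B Ω) : Act A Ω where
  step x := S.step (Sum.map g g x)
  symm x ω ω' h := by
    have := S.symm _ _ _ h
    rwa [swap_map'] at this

theorem comap_run {A B Ω : Type} (g : A → B) (S : Act B Ω) (u : List (A ⊕ A)) (ω : Ω) :
    (comap g S).run u ω = S.run (u.map (Sum.map g g)) ω := by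
  induction u generalizing ω with
  | nil => rfl
  | cons x u ih =>
    simp only [Act.run, List.map_cons, comap]
    cases S.step (Sum.map g g x) ω with
    | none => rfl
    | some ω' => exact ih ω'

section

variable {k n : ℕ} (δ : Fin k → Lb → Option (Fin k)) (e : Lt k ≃ Fin n)

/-- words in the final alphabet -/
def mp (u : List (Sl k)) : List (Fin n ⊕ Fin n) := u.map (Sum.map e e)

/-- words in the first alphabet -/
def mq (u : List (Fin n ⊕ Fin n)) : List (Sl k) := u.map (Sum.map e.symm e.symm)

theorem mq_mp (u : List (Sl k)) : mq e (mp e u) = u := by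
  have h : Sum.map e.symm e.symm ∘ Sum.map e e = id := by
    funext x
    rcases x with x | x <;> simp
  rw [mq, mp, List.map_map, h, List.map_id]

theorem mp_mq (u : List (Fin n ⊕ Fin n)) : mp e (mq e u) = u := by
  have h : Sum.map e e ∘ Sum.map e.symm e.symm = id := by
    funext x
    rcases x with x | x <;> simp
  rw [mq, mp, List.map_map, h, List.map_id]

/-- generators -/
def fg : Sl k → (cg (mp e (relator δ))).Quotient := fun x => gi _ (Sum.map e e x)

theorem ev_fg (u : List (Sl k)) : ev (fg δ e) u = ev (gi (mp e (relator δ))) (mp e u) := by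
  simp only [ev, mp, List.map_map]
  rfl

theorem mp_nu (u : List (Sl k)) : mp e (nu u) = nu (mp e u) := by
  simp only [mp, nu, List.map_map, List.map_reverse]
  congr 2
  funext x
  exact (swap_map' e x).symm

theorem hyp : Hyp δ (fg δ e) where
  inv := by
    have h := isInvGen (mp e (relator δ))
    constructor
    · intro u
      simp only [ev_fg, mp_nu]
      exact h.reg _
    · intro u v
      simp only [ev_fg, mp_nu]
      exact h.comm _ _
  one := by
    rw [ev_fg]
    exact ev_rel _

theorem identity_iff (hδ : NoBack δ) (x : List (Fin n ⊕ Fin n)) :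
    cg (mp e (relator δ)) (FreeMonoid.ofList x) 1 ↔ rr δ (mq e x) [] = some [] := by
  constructor
  · intro h
    have hw : ∀ ω, (comap e.symm (gact hδ)).run (mp e (relator δ)) ω = some ω := by
      intro ω
      rw [comap_run]
      have := mq_mp e (relator δ)
      unfold mq at this
      rw [this]
      exact relator_run hδ ω
    have h1 := Act.run_eq _ hw (u := x) (v := []) h ⟨[], trivial⟩
    rw [comap_run] at h1
    have h2 := gact_run hδ (mq e x) ⟨[], trivial⟩
    unfold mq at h2
    rw [h1] at h2
    exact h2.symm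
  · intro h
    have h1 := ev_eq_one (hyp δ e) hδ h
    rw [ev_fg, mp_mq] at h1
    have h2 := (cg_iff (mp e (relator δ)) x []).2 (by rw [h1, ev_nil])
    exact h2

end

section

variable {K : ℕ} {P : List Flat.Ins} (hP : ∀ i ∈ P, Num.Ok K P.length i) {n : ℕ}
  (e : Lt (Nat.card (Q (op P) P.length (Num.pr K))) ≃ Fin n)

/-- start state -/
noncomputable def qs : Fin (Nat.card (Q (op P) P.length (Num.pr K))) :=
  st (op P) (Bd_C (L := P.length) (B := Num.pr K) (Nat.zero_le _))

/-- goal state -/
noncomputable def qe : Fin (Nat.card (Q (op P) P.length (Num.pr K))) :=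
  st (op P) (Bd_G (L := P.length) (B := Num.pr K))

theorem word_iff (σ0 : ℕ → ℕ) :
    cg (mp e (relator (dl (wf hP)))) (FreeMonoid.ofList (mp e (gN qs qe (num K σ0 + 1))))
      (FreeMonoid.ofList (mp e (fN qs (num K σ0 + 1)))) ↔ Ha P σ0 := by
  constructor
  · intro h
    let X : Fin (Nat.card (Q (op P) P.length (Num.pr K))) → Set Tape := fun q =>
      {h : Tape | trun ((eQ (op P) P.length (Num.pr K)).symm q).1.1 h ∈
        Y K P σ0 ((eQ (op P) P.length (Num.pr K)).symm q).1.2}
    have hX := closed_of_long (wf hP) (closed (σ0 := σ0) hP)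
    have hw : ∀ ω, (comap e.symm (mdl X)).run (mp e (relator (dl (wf hP)))) ω = some ω := by
      intro ω
      rw [comap_run]
      have := mq_mp e (relator (dl (wf hP)))
      unfold mq at this
      rw [this]
      exact mdl_relator hX ω
    have heq : ∀ ω, (mdl X).run (gN qs qe (num K σ0 + 1)) ω
        = (mdl X).run (fN qs (num K σ0 + 1)) ω := by
      intro ω
      have h1 := Act.run_eq _ hw h ω
      rw [comap_run, comap_run] at h1
      have h2 := mq_mp e (gN qs qe (num K σ0 + 1))
      have h3 := mq_mp e (fN qs (num K σ0 + 1))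
      unfold mq at h2 h3
      rw [h2, h3] at h1
      exact h1
    have h0 : (Finsupp.single 0 ((num K σ0 + 1 : ℕ) : ℤ), (0 : ℤ)) ∈ X qs := by
      simp only [X, qs, st, Set.mem_ofPred_eq, Equiv.symm_apply_apply, trun]
      rw [Y]
      refine Or.inr ⟨num K σ0, ⟨Nat.zero_le _, 0, σ0, rfl, rfl⟩, ⟨?_, ?_⟩, ?_⟩
      · simp
      · simp
      · intro i hi
        simp only at hi
        simp only [Finsupp.single_apply]
        rw [if_neg (by omega)]
    have h4 := sound h0 heq
    simp only [X, qe, st, Set.mem_ofPred_eq, Equiv.symm_apply_apply, trun] at h4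
    rw [Y] at h4
    rcases h4 with ⟨i, hi⟩ | h4
    · simp at hi
    · exact h4
  · intro hH
    rw [cg_iff, ← ev_fg, ← ev_fg]
    have hf := hyp (dl (wf hP)) e
    obtain ⟨h1, h2⟩ := start hf (qs (K := K) (P := P)) (num K σ0 + 1)
    exact complete (reach hP hf h1 h2 hH)

end

theorem num_start {K : ℕ} (hK : 0 < K) (N : ℕ) :
    num K (Flat.sx N 0 0) = Num.pr K * Num.pr 0 ^ N := by
  unfold num Num.enc
  congr 1
  rw [Finset.prod_eq_single 0]
  · rfl
  · intro i _ hi
    have : Flat.sx N 0 0 i = 0 := by
      simp only [Flat.sx]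
      rw [if_neg hi]
      split_ifs <;> rfl
    rw [this, pow_zero]
  · intro h
    exact absurd (Finset.mem_range.2 hK) h

theorem primrec_fN {k n : ℕ} (e : Lt k ≃ Fin n) (q0 : Fin k) {len : ℕ → ℕ} (hlen : Primrec len) :
    Primrec fun N => mp e (fN q0 (len N)) := by
  have h1 : ∀ N, mp e (fN q0 (len N)) =
      ((mp e [sn none, sp none] ++ (List.range (len N)).map fun _ => Sum.map e e (bl k la)) ++
        mp e [sn (some q0), sp (some q0)]) ++
        (List.range (len N)).map fun _ => Sum.map e e (bl k la') := by
    intro N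
    have hr : ∀ (x : Fin n ⊕ Fin n), (List.range (len N)).map (fun _ => x)
        = List.replicate (len N) x := by
      intro x
      rw [List.map_const', List.length_range]
    rw [hr, hr, fN, nu_append, nu_wd_replicate]
    simp only [mp, wd, List.map_append, List.map_replicate, nu_singleton, List.map_cons,
      List.map_nil, List.append_assoc, List.cons_append, List.nil_append]
    rfl
  refine Primrec.of_eq ?_ fun N => (h1 N).symm
  have h2 : Primrec fun N => List.range (len N) := Primrec.list_range.comp hlen
  have h3 : ∀ x : Fin n ⊕ Fin n, Primrec fun N => (List.range (len N)).map fun _ => x := fun x =>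
    Primrec.list_map h2 (Primrec.const x).to₂
  exact Primrec.list_append.comp (Primrec.list_append.comp (Primrec.list_append.comp
    (Primrec.const _) (h3 _)) (Primrec.const _)) (h3 _)

theorem primrec_gN {k n : ℕ} (e : Lt k ≃ Fin n) (q0 qg : Fin k) {len : ℕ → ℕ}
    (hlen : Primrec len) : Primrec fun N => mp e (gN q0 qg (len N)) := by
  have h1 : ∀ N, mp e (gN q0 qg (len N)) =
      mp e (fN q0 (len N)) ++ mp e ([sn (some qg)] ++ nu [sn (some qg)]) := by
    intro N
    simp only [mp, gN, List.map_append]
  refine Primrec.of_eq ?_ fun N => (h1 N).symm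
  exact Primrec.list_append.comp (primrec_fN e q0 hlen) (Primrec.const _)

theorem main : ∃ (n : ℕ) (w : List (Fin n ⊕ Fin n)),
    (ComputablePred fun x : List (Fin n ⊕ Fin n) => cg w (FreeMonoid.ofList x) 1) ∧
    ¬ ComputablePred fun p : List (Fin n ⊕ Fin n) × List (Fin n ⊕ Fin n) =>
      cg w (FreeMonoid.ofList p.1) (FreeMonoid.ofList p.2) := by
  obtain ⟨f, hf, hund⟩ := Num.exists_undecidable
  obtain ⟨body, hb⟩ := Flat.search hf
  have hlen : (Flat.code (Flat.prog body) 0).length = Flat.len (Flat.prog body) :=
    Flat.length_code _ _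
  obtain ⟨K, hK⟩ := Num.code_ok (Flat.prog body)
  have hP : ∀ i ∈ Flat.code (Flat.prog body) 0,
      Num.Ok (K + 1) (Flat.code (Flat.prog body) 0).length i := by
    intro i hi
    have := hK 0 i hi
    rw [zero_add] at this
    rw [hlen]
    exact this.mono (Nat.le_succ K) le_rfl
  set P := Flat.code (Flat.prog body) 0 with hPdef
  let e : Lt (Nat.card (Q (op P) P.length (Num.pr (K + 1)))) ≃
      Fin (Fintype.card (Lt (Nat.card (Q (op P) P.length (Num.pr (K + 1)))))) := Fintype.equivFin _
  refine ⟨_, mp e (relator (dl (wf hP))), ?_, ?_⟩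
  · refine ComputablePred.of_eq (computable_identity (dl (wf hP)) e.symm) fun x => ?_
    exact (identity_iff (dl (wf hP)) e (noBack (wf hP)) x).symm
  · intro hc
    apply hund
    obtain ⟨d, hd, hdp⟩ := ComputablePred.computable_iff.1 hc
    rw [ComputablePred.computable_iff]
    have hl : Primrec fun N : ℕ => Num.pr (K + 1) * Num.pr 0 ^ N + 1 := by
      have h1 : Primrec₂ ((· ^ ·) : ℕ → ℕ → ℕ) := Primrec₂.unpaired'.1 Nat.Primrec.pow
      exact Primrec.succ.comp (Primrec.nat_mul.comp (Primrec.const _)
        (h1.comp (Primrec.const _) Primrec.id))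
    refine ⟨fun N => d (mp e (gN qs qe (Num.pr (K + 1) * Num.pr 0 ^ N + 1)),
      mp e (fN qs (Num.pr (K + 1) * Num.pr 0 ^ N + 1))),
      hd.comp ((primrec_gN e qs qe hl).to_comp.pair (primrec_fN e qs hl).to_comp), ?_⟩
    funext N
    have h3 := congrFun hdp (mp e (gN qs qe (Num.pr (K + 1) * Num.pr 0 ^ N + 1)),
      mp e (fN qs (Num.pr (K + 1) * Num.pr 0 ^ N + 1)))
    rw [← h3]
    have h4 := word_iff hP e (Flat.sx N 0 0)
    rw [num_start (Nat.succ_pos K)] at h4
    simp only
    rw [h4, Flat.halting_iff hb, ← hlen]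
    rfl

end Pool.Agent.Helper707.IFinal
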