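import Mathlib
import Pool.Agent.Helper707.Num
import Pool.Agent.Helper707.Model
import Pool.Agent.Helper707.Ident

/-!
Finitely many relations in three layers, simulating a generalised Collatz map, and a module on
which the identities of `n × n` matrices hold for `n ≥ 3`.
-/

namespace Pool.Agent.Helper707.Three

open Finset Polynomial Pool.Agent.Helper707.Rel Pool.Agent.Helper707.Ident
open Pool.Agent.Helper707.Model (halts_iff)

/-- transfer rates -/
def A (Y : Sys) (t : ℕ) : ℕ := if t = 0 then 1 else if t = 1 then Y.m else Y.a (t - 2)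

/-- offsets -/
def E (Y : Sys) (t : ℕ) : ℕ := if t = 0 then 0 else if t = 1 then 0 else Y.e (t - 2)

/-- zero exactly for halting residues -/
def kap (Y : Sys) (r : ℕ) : ℕ := if Y.H r then 0 else 1

/-- the relations in a unital algebra -/
structure Rels (Y : Sys) {B : Type*} [Ring B] (v : ℕ → B) : Prop where
  T : ∀ t, t < Y.m + 1 → (v 1) ^ (A Y (t + 1)) * v (t + 5) = v (t + 5) * v 2
  Rw : ∀ t, t < Y.m + 1 → v (t + 5) * v 3 = (v 1) ^ (E Y (t + 1)) * v 4 * v 3
  Lf : ∀ r, r < Y.m → v 0 * (v 1) ^ r * v 5 = kap Y r • (v 0 * v (r + 6))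

/-- the word of a number -/
def Wd {B : Type*} [Ring B] (v : ℕ → B) (N : ℕ) : B := v 0 * (v 1) ^ N * v 4 * v 3

namespace Rels

variable {Y : Sys} {B : Type*} [Ring B] {v : ℕ → B} (h : Rels Y v)

include h

theorem transfer {t : ℕ} (ht : t < Y.m + 1) (N k : ℕ) :
    (v 1) ^ (N + A Y (t + 1) * k) * v (t + 5) = (v 1) ^ N * v (t + 5) * (v 2) ^ k := by
  induction k with
  | zero => simp
  | succ k ih =>
    have h1 := h.T t ht
    have e1 : N + A Y (t + 1) * (k + 1) = (N + A Y (t + 1) * k) + A Y (t + 1) := by ring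
    rw [e1, pow_add, mul_assoc, h1, ← mul_assoc, ih, pow_succ]
    simp only [mul_assoc]

theorem start (hm : 0 < Y.m) (N : ℕ) :
    Wd v N = kap Y (N % Y.m) • Wd v (Y.next N) := by
  unfold Wd Sys.next
  set r := N % Y.m with hr
  set k := N / Y.m with hk
  have hrm : r < Y.m := Nat.mod_lt _ hm
  have hN : N = r + A Y (0 + 1) * k := by
    have : A Y (0 + 1) = Y.m := by simp [A]
    rw [this]
    exact (Nat.mod_add_div N Y.m).symm
  have hw := h.Rw 0 (by omega)
  have e0 : E Y (0 + 1) = 0 := by simp [E]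
  rw [e0, pow_zero, one_mul] at hw
  have hr1 := h.Rw (r + 1) (by omega)
  have er : E Y (r + 1 + 1) = Y.e r := by simp [E]
  rw [er] at hr1
  have tr := h.transfer (t := r + 1) (by omega) 0 k
  have ea : A Y (r + 1 + 1) = Y.a r := by simp [A]
  rw [ea, zero_add, pow_zero, one_mul] at tr
  have tw := h.transfer (t := 0) (by omega) r k
  rw [← hN] at tw
  have hl := h.Lf r hrm
  calc v 0 * v 1 ^ N * v 4 * v 3 = v 0 * v 1 ^ N * (v 4 * v 3) := by rw [mul_assoc _ (v 4)]
    _ = v 0 * (v 1 ^ N * v (0 + 5)) * v 3 := by rw [← hw]; simp only [mul_assoc]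
    _ = (v 0 * v 1 ^ r * v 5) * v 2 ^ k * v 3 := by rw [tw]; simp only [mul_assoc]
    _ = kap Y r • (v 0 * (v (r + 1 + 5) * v 2 ^ k) * v 3) := by
        rw [hl]; simp only [smul_mul_assoc, mul_assoc]
    _ = kap Y r • (v 0 * v 1 ^ (Y.a r * k) * (v (r + 1 + 5) * v 3)) := by
        rw [← tr]; simp only [mul_assoc]
    _ = kap Y r • (v 0 * v 1 ^ (Y.a r * k + Y.e r) * v 4 * v 3) := by
        rw [hr1, pow_add]; simp only [mul_assoc]

theorem halts_zero (hm : 0 < Y.m) {N : ℕ} (hN : Y.Halts N) : Wd v N = 0 := by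
  induction hN with
  | halt N hH => rw [h.start hm, kap, if_pos hH, zero_smul]
  | step N hH _ ih => rw [h.start hm, ih, smul_zero]

end Rels

/-! ### the module -/

/-- basis -/
inductive Bs
  | fin
  | c (n : ℕ)
  | b (t n n' : ℕ)
  | o (t n n' : ℕ)

variable (F : Type*) [Field F]

/-- one basis vector -/
noncomputable def bv (β : Bs) : Bs →₀ F := Finsupp.single β 1

/-- action of the letters -/
noncomputable def xb : ℕ → Bs → (Bs →₀ F)
  | 0, .b t n n' => bv F (.o t n n')
  | 1, .b t n n' => bv F (.b t (n + 1) n')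
  | 2, .c n => bv F (.c (n + 1))
  | 3, .fin => bv F (.c 0)
  | k + 4, .c n => bv F (.b k 0 n)
  | _, _ => 0

/-- action of the letters -/
noncomputable def Xop (i : ℕ) : Module.End F (Bs →₀ F) := Finsupp.linearCombination F (xb F i)

theorem Xop_bv (i : ℕ) (β : Bs) : Xop F i (bv F β) = xb F i β := by
  simp [Xop, bv]

theorem ext_bv {W : Type*} [AddCommGroup W] [Module F W] {f g : (Bs →₀ F) →ₗ[F] W}
    (h : ∀ β, f (bv F β) = g (bv F β)) : f = g := by
  apply Finsupp.lhom_ext'
  intro β
  apply LinearMap.ext_ring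
  exact h β

variable {F}

/-- pairing -/
noncomputable def pair (w : Bs → F) : (Bs →₀ F) →ₗ[F] F := Finsupp.linearCombination F w

theorem pair_bv (w : Bs → F) (β : Bs) : pair w (bv F β) = w β := by simp [pair, bv]

/-- compatible weights -/
structure IsW (Y : Sys) (w : Bs → F) : Prop where
  p1b : ∀ t n n', t < Y.m + 1 → w (.b (t + 1) (n + A Y (t + 1)) n') = w (.b (t + 1) n (n' + 1))
  p1o : ∀ t n n', t < Y.m + 1 → w (.o (t + 1) (n + A Y (t + 1)) n') = w (.o (t + 1) n (n' + 1))
  p2b : ∀ t n, t < Y.m + 1 → w (.b (t + 1) n 0) = w (.b 0 (n + E Y (t + 1)) 0)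
  p2o : ∀ t n, t < Y.m + 1 → w (.o (t + 1) n 0) = w (.o 0 (n + E Y (t + 1)) 0)
  p3 : ∀ r n', r < Y.m → w (.o 1 r n') = (kap Y r : F) * w (.o (r + 2) 0 n')

theorem IsW.xT {Y : Sys} {w : Bs → F} (h : IsW Y w) (i : ℕ) :
    IsW Y (fun β => pair w (xb F i β)) := by
  match i with
  | 0 =>
    refine ⟨?_, ?_, ?_, ?_, ?_⟩
    · intro t n n' ht; simp only [xb, pair_bv]; exact h.p1o t n n' ht
    · intro t n n' ht; simp [xb]
    · intro t n ht; simp only [xb, pair_bv]; exact h.p2o t n ht
    · intro t n ht; simp [xb]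
    · intro r n' hr; simp [xb]
  | 1 =>
    refine ⟨?_, ?_, ?_, ?_, ?_⟩
    · intro t n n' ht; simp only [xb, pair_bv]
      rw [← h.p1b t (n + 1) n' ht]; congr 2; omega
    · intro t n n' ht; simp [xb]
    · intro t n ht; simp only [xb, pair_bv]
      rw [h.p2b t (n + 1) ht]; congr 2; omega
    · intro t n ht; simp [xb]
    · intro r n' hr; simp [xb]
  | 2 =>
    refine ⟨?_, ?_, ?_, ?_, ?_⟩ <;> intros <;> simp [xb]
  | 3 =>
    refine ⟨?_, ?_, ?_, ?_, ?_⟩ <;> intros <;> simp [xb]
  | k + 4 =>
    refine ⟨?_, ?_, ?_, ?_, ?_⟩ <;> intros <;> simp [xb]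

theorem pair_Xop (i : ℕ) (w : Bs → F) (y : Bs →₀ F) :
    pair w (Xop F i y) = pair (fun β => pair w (xb F i β)) y := by
  have : (pair w) ∘ₗ (Xop F i) = pair (fun β => pair w (xb F i β)) := by
    apply ext_bv
    intro β
    rw [LinearMap.comp_apply, Xop_bv, pair_bv]
  rw [← this]; rfl

variable (F) in
/-- the vectors killed by all weights -/
noncomputable def G (Y : Sys) : Submodule F (Bs →₀ F) where
  carrier := {y | ∀ w : Bs → F, IsW Y w → pair w y = 0}
  add_mem' := by
    intro a b ha hb w hw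
    rw [map_add, ha w hw, hb w hw, add_zero]
  zero_mem' := by intro w _; simp
  smul_mem' := by
    intro c y hy w hw
    rw [map_smul, hy w hw, smul_zero]

theorem Xop_G {Y : Sys} (i : ℕ) {y : Bs →₀ F} (h : y ∈ G F Y) : Xop F i y ∈ G F Y := by
  intro w hw
  rw [pair_Xop]; exact h _ (hw.xT i)

variable (F) in
/-- the representation -/
noncomputable def act : FreeAlgebra F ℕ →ₐ[F] Module.End F (Bs →₀ F) :=
  FreeAlgebra.lift F (Xop F)

theorem act_ι (i : ℕ) : act F (FreeAlgebra.ι F i) = Xop F i := by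
  unfold act; rw [FreeAlgebra.lift_ι_apply]

theorem act_G {Y : Sys} (g : FreeAlgebra F ℕ) {y : Bs →₀ F} (h : y ∈ G F Y) :
    act F g y ∈ G F Y := by
  induction g using FreeAlgebra.induction generalizing y with
  | grade0 r => rw [AlgHom.commutes]; exact (G F Y).smul_mem r h
  | grade1 i => rw [act_ι]; exact Xop_G i h
  | mul a b ha hb => rw [map_mul]; exact ha (hb h)
  | add a b ha hb => rw [map_add]; exact (G F Y).add_mem (ha h) (hb h)

variable (F) in
/-- the two-sided ideal of all elements sending the module into `G` -/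
noncomputable def J (Y : Sys) : TwoSidedIdeal (FreeAlgebra F ℕ) :=
  TwoSidedIdeal.mk' {g | ∀ y, act F g y ∈ G F Y}
    (by intro y; simp)
    (by intro a b ha hb y; rw [map_add]; exact Submodule.add_mem _ (ha y) (hb y))
    (by intro a ha y; rw [map_neg]; exact Submodule.neg_mem _ (ha y))
    (by intro a b hb y; rw [map_mul]; exact act_G a (hb y))
    (by intro a b ha y; rw [map_mul]; exact ha _)

theorem mem_J {Y : Sys} {g : FreeAlgebra F ℕ} : g ∈ J F Y ↔ ∀ y, act F g y ∈ G F Y := by
  rw [J, TwoSidedIdeal.mem_mk']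
  rfl

theorem mem_J_of_bv {Y : Sys} {g : FreeAlgebra F ℕ} (h : ∀ β, act F g (bv F β) ∈ G F Y) :
    g ∈ J F Y := by
  rw [mem_J]
  intro y
  induction y using Finsupp.induction_linear with
  | zero => simp
  | add a b ha hb => rw [map_add]; exact (G F Y).add_mem ha hb
  | single β c =>
    have hs : (Finsupp.single β c : Bs →₀ F) = c • bv F β := by simp [bv]
    rw [hs, map_smul]
    exact (G F Y).smul_mem _ (h β)

theorem sub_mem_J {Y : Sys} {g g' : FreeAlgebra F ℕ}
    (h : ∀ β, ∀ w : Bs → F, IsW Y w → pair w (act F g (bv F β)) = pair w (act F g' (bv F β))) :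
    g - g' ∈ J F Y := by
  apply mem_J_of_bv
  intro β w hw
  rw [map_sub, LinearMap.sub_apply, map_sub, h β w hw, sub_self]

theorem act_mul (g g' : FreeAlgebra F ℕ) (y : Bs →₀ F) :
    act F (g * g') y = act F g (act F g' y) := by
  rw [map_mul]; rfl

theorem act_B_pow (k t n n' : ℕ) :
    act F ((FreeAlgebra.ι F 1) ^ k) (bv F (.b t n n')) = bv F (.b t (n + k) n') := by
  induction k with
  | zero => simp
  | succ k ih => rw [pow_succ', act_mul, ih, act_ι, Xop_bv]; rfl

theorem act_C_pow (k n : ℕ) :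
    act F ((FreeAlgebra.ι F 2) ^ k) (bv F (.c n)) = bv F (.c (n + k)) := by
  induction k with
  | zero => simp
  | succ k ih => rw [pow_succ', act_mul, ih, act_ι, Xop_bv]; rfl

theorem act_Z (k : ℕ) (β : Bs) : act F (FreeAlgebra.ι F (k + 4)) (bv F β) =
    match β with
    | .c n => bv F (.b k 0 n)
    | _ => 0 := by
  rw [act_ι, Xop_bv]
  cases β <;> rfl

theorem act_W (β : Bs) : act F (FreeAlgebra.ι F 3) (bv F β) =
    match β with
    | .fin => bv F (.c 0)
    | _ => 0 := by
  rw [act_ι, Xop_bv]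
  cases β <;> rfl

theorem act_C (β : Bs) : act F (FreeAlgebra.ι F 2) (bv F β) =
    match β with
    | .c n => bv F (.c (n + 1))
    | _ => 0 := by
  rw [act_ι, Xop_bv]
  cases β <;> rfl

theorem act_Y (β : Bs) : act F (FreeAlgebra.ι F 0) (bv F β) =
    match β with
    | .b t n n' => bv F (.o t n n')
    | _ => 0 := by
  rw [act_ι, Xop_bv]
  cases β <;> rfl

/-- the relations hold modulo `J` -/
theorem relT_mem {Y : Sys} {t : ℕ} (ht : t < Y.m + 1) :
    (FreeAlgebra.ι F 1) ^ (A Y (t + 1)) * FreeAlgebra.ι F (t + 5)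
      - FreeAlgebra.ι F (t + 5) * FreeAlgebra.ι F 2 ∈ J F Y := by
  apply sub_mem_J
  intro β w hw
  rw [act_mul, act_mul, act_C, show t + 5 = (t + 1) + 4 by omega, act_Z]
  cases β with
  | c n =>
    simp only []
    rw [act_B_pow, act_Z, pair_bv, pair_bv]
    exact hw.p1b t 0 n ht
  | fin => simp
  | b _ _ _ => simp
  | o _ _ _ => simp

theorem relR_mem {Y : Sys} {t : ℕ} (ht : t < Y.m + 1) :
    FreeAlgebra.ι F (t + 5) * FreeAlgebra.ι F 3
      - (FreeAlgebra.ι F 1) ^ (E Y (t + 1)) * FreeAlgebra.ι F 4 * FreeAlgebra.ι F 3 ∈ J F Y := by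
  apply sub_mem_J
  intro β w hw
  rw [act_mul, act_mul, act_mul, act_W]
  cases β with
  | fin =>
    simp only []
    rw [show t + 5 = (t + 1) + 4 by omega, act_Z, show (4 : ℕ) = 0 + 4 by omega, act_Z]
    simp only []
    rw [act_B_pow, pair_bv, pair_bv]
    have := hw.p2b t 0 ht
    rwa [zero_add] at this ⊢
  | c n => simp
  | b _ _ _ => simp
  | o _ _ _ => simp

theorem relL_mem {Y : Sys} {r : ℕ} (hr : r < Y.m) :
    FreeAlgebra.ι F 0 * (FreeAlgebra.ι F 1) ^ r * FreeAlgebra.ι F 5
      - (kap Y r : F) • (FreeAlgebra.ι F 0 * FreeAlgebra.ι F (r + 6)) ∈ J F Y := by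
  apply sub_mem_J
  intro β w hw
  rw [map_smul, LinearMap.smul_apply, act_mul, act_mul, act_mul, show (5 : ℕ) = 1 + 4 by omega,
    act_Z, show r + 6 = (r + 2) + 4 by omega, act_Z]
  cases β with
  | c n =>
    simp only []
    rw [act_B_pow, act_Y, act_Y, map_smul]
    simp only []
    rw [pair_bv, pair_bv, zero_add, smul_eq_mul]
    exact hw.p3 r n hr
  | fin => simp
  | b _ _ _ => simp
  | o _ _ _ => simp

theorem act_Wd (N : ℕ) :
    act F (Wd (FreeAlgebra.ι F) N) (bv F .fin) = bv F (.o 0 N 0) := by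
  unfold Wd
  rw [act_mul, act_mul, act_mul, act_W]
  simp only []
  rw [show (4 : ℕ) = 0 + 4 by omega, act_Z]
  simp only []
  rw [act_B_pow, act_Y, zero_add]

open Classical in
/-- the distinguishing weight -/
noncomputable def lam (F : Type*) [Field F] (Y : Sys) : Bs → F
  | .o t n n' => if Y.Halts (n + A Y t * n' + E Y t) then 0 else 1
  | _ => 0

theorem lam_isW (Y : Sys) : IsW Y (lam F Y) := by
  constructor
  · intros; rfl
  · intro t n n' ht
    simp only [lam]
    rw [show n + A Y (t + 1) + A Y (t + 1) * n' + E Y (t + 1)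
      = n + A Y (t + 1) * (n' + 1) + E Y (t + 1) by ring]
  · intros; rfl
  · intro t n ht
    simp only [lam]
    have e1 : n + A Y (t + 1) * 0 + E Y (t + 1) = n + E Y (t + 1) := by ring
    have e2 : n + E Y (t + 1) + A Y 0 * 0 + E Y 0 = n + E Y (t + 1) := by
      have : E Y 0 = 0 := by simp [E]
      rw [this]; ring
    rw [e1, e2]
  · intro r n' hr
    simp only [lam]
    have e1 : r + A Y 1 * n' + E Y 1 = r + Y.m * n' := by simp [A, E]
    have e2 : 0 + A Y (r + 2) * n' + E Y (r + 2) = Y.a r * n' + Y.e r := by simp [A, E]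
    rw [e1, e2, halts_iff hr]
    by_cases hH : Y.H r = true
    · simp [kap, hH]
    · have hk : kap Y r = 1 := by simp [kap, hH]
      rw [hk, Nat.cast_one, one_mul]
      by_cases hY : Y.Halts (Y.a r * n' + Y.e r)
      · rw [if_pos (Or.inr hY), if_pos hY]
      · rw [if_neg (by rintro (h | h) <;> contradiction), if_neg hY]

theorem Wd_not_mem {Y : Sys} {N : ℕ} (h : ¬ Y.Halts N) : Wd (FreeAlgebra.ι F) N ∉ J F Y := by
  intro hJ
  have h1 := (mem_J.1 hJ) (bv F .fin) (lam F Y) (lam_isW Y)
  rw [act_Wd, pair_bv] at h1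
  have h2 : lam F Y (.o 0 N 0) = 1 := by
    simp only [lam]
    rw [if_neg]
    have : N + A Y 0 * 0 + E Y 0 = N := by simp [E]
    rw [this]; exact h
  rw [h2] at h1
  exact one_ne_zero h1

/-! ### the identities -/

/-- identities, with arbitrary variables -/
def idents (F : Type*) [Field F] (n : ℕ) (X : Type*) : Set (FreeAlgebra F X) :=
  {p | ∀ A : X → Matrix (Fin n) (Fin n) F, FreeAlgebra.lift F A p = 0}

theorem mapMatrix_lift' {X C D : Type*} [CommRing C] [Algebra F C] [CommRing D] [Algebra F D]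
    {n : ℕ} (φ : C →ₐ[F] D) (A : X → Matrix (Fin n) (Fin n) C)
    (p : FreeAlgebra F X) :
    φ.mapMatrix (FreeAlgebra.lift F A p) = FreeAlgebra.lift F (fun i => φ.mapMatrix (A i)) p := by
  have : (φ.mapMatrix).comp (FreeAlgebra.lift F A)
      = FreeAlgebra.lift F (fun i => φ.mapMatrix (A i)) := by
    apply FreeAlgebra.hom_ext
    funext i
    simp
  rw [← this]; rfl

theorem ident_comm' [Infinite F] {X : Type*} {n : ℕ} {p : FreeAlgebra F X}
    (hp : p ∈ idents F n X)
    {C : Type*} [CommRing C] [Algebra F C] (A : X → Matrix (Fin n) (Fin n) C) :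
    FreeAlgebra.lift F A p = 0 := by
  let Gm : X → Matrix (Fin n) (Fin n) (MvPolynomial (X × Fin n × Fin n) F) :=
    fun i => Matrix.of fun a b => MvPolynomial.X (i, a, b)
  have hQ : FreeAlgebra.lift F Gm p = 0 := by
    ext1 a b
    apply MvPolynomial.funext
    intro v
    have h1 := mapMatrix_lift' (MvPolynomial.aeval v : MvPolynomial _ F →ₐ[F] F) Gm p
    rw [hp] at h1
    have h2 := congrFun (congrFun h1 a) b
    rw [AlgHom.mapMatrix_apply, Matrix.map_apply] at h2
    rw [Matrix.zero_apply] at h2 ⊢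
    rw [map_zero, ← h2]
    rfl
  have h3 := mapMatrix_lift' (MvPolynomial.aeval (fun t : X × Fin n × Fin n =>
    A t.1 t.2.1 t.2.2) : MvPolynomial _ F →ₐ[F] C) Gm p
  rw [hQ, map_zero] at h3
  rw [h3]
  congr 2
  funext i
  ext a b
  simp [Gm]

section EV

variable {n : ℕ} (hn : 3 ≤ n) (t0 : ℕ)

/-- index of a basis element -/
def idx : Bs → Fin n
  | .fin => ⟨0, by omega⟩
  | .c _ => ⟨1, by omega⟩
  | .b _ _ _ => ⟨2, by omega⟩
  | .o _ _ _ => ⟨0, by omega⟩

variable (F) in
/-- coefficient of a basis element -/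
noncomputable def coef : Bs → CR F
  | .fin => 1
  | .c a => ie (mon F 0 a)
  | .b t a b => if t = t0 then ie (mon F a b) else 0
  | .o t a b => if t = t0 then ie (mon F a b) else 0

/-- evaluation of a basis element -/
noncomputable def ev (β : Bs) : Fin n → CR F :=
  Pi.single (idx hn β) (coef F t0 β)

/-- evaluation map -/
noncomputable def EV : (Bs →₀ F) →ₗ[F] (Fin n → CR F) :=
  Finsupp.linearCombination F (ev hn t0)

theorem EV_bv (β : Bs) : EV (F := F) hn t0 (bv F β) = ev hn t0 β := by
  simp [EV, bv]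

variable (F) in
/-- the matrices of the letters -/
noncomputable def Xm : ℕ → Matrix (Fin n) (Fin n) (CR F)
  | 0 => Matrix.single ⟨0, by omega⟩ ⟨2, by omega⟩ 1
  | 1 => Matrix.single ⟨2, by omega⟩ ⟨2, by omega⟩ (il (Polynomial.C X))
  | 2 => Matrix.single ⟨1, by omega⟩ ⟨1, by omega⟩ (il X)
  | 3 => Matrix.single ⟨1, by omega⟩ ⟨0, by omega⟩ (ie 1)
  | k + 4 => if k = t0 then Matrix.single ⟨2, by omega⟩ ⟨1, by omega⟩ 1 else 0

theorem single_mulVec_single (i j k : Fin n) (c x : CR F) :
    (Matrix.single i j c).mulVec (Pi.single k x) = if j = k then Pi.single i (c * x) else 0 := by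
  ext1 a
  simp only [Matrix.mulVec, dotProduct_single, Matrix.single_apply]
  by_cases h1 : j = k
  · subst h1
    by_cases h2 : i = a
    · subst h2; simp
    · simp [h2, Ne.symm h2]
  · simp [h1]

theorem EV_X (i : ℕ) (y : Bs →₀ F) :
    EV hn t0 (Xop F i y) = (Xm F hn t0 i).mulVec (EV hn t0 y) := by
  induction y using Finsupp.induction_linear with
  | zero => simp
  | add a b ha hb => rw [map_add, map_add, map_add, ha, hb, Matrix.mulVec_add]
  | single β c =>
    have hs : (Finsupp.single β c : Bs →₀ F) = c • bv F β := by simp [bv]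
    rw [hs, map_smul, map_smul, map_smul, Matrix.mulVec_smul]
    congr 1
    rw [Xop_bv, EV_bv]
    unfold ev
    match i with
    | 0 =>
      rw [Xm, single_mulVec_single]
      cases β with
      | fin => simp [xb, idx]
      | c n => simp [xb, idx]
      | b t n n' => simp only [xb, EV_bv, ev, idx, coef]; simp
      | o t n n' => simp [xb, idx]
    | 1 =>
      rw [Xm, single_mulVec_single]
      cases β with
      | fin => simp [xb, idx]
      | c n => simp [xb, idx]
      | b t n n' =>
        simp only [xb, EV_bv, ev, idx, coef]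
        by_cases h : t = t0
        · simp [h, mul_comm (il _), ie_mul_il, mon_mul_CX]
        · simp [h]
      | o t n n' => simp [xb, idx]
    | 2 =>
      rw [Xm, single_mulVec_single]
      cases β with
      | fin => simp [xb, idx]
      | c n =>
        simp only [xb, EV_bv, ev, idx, coef]
        simp [mul_comm (il _), ie_mul_il, mon_mul_X]
      | b t n n' => simp [xb, idx]
      | o t n n' => simp [xb, idx]
    | 3 =>
      rw [Xm, single_mulVec_single]
      cases β with
      | fin => simp only [xb, EV_bv, ev, idx, coef]; simp [mon_zero]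
      | c n => simp [xb, idx]
      | b t n n' => simp [xb, idx]
      | o t n n' =>
        simp only [xb, map_zero, idx, coef]
        by_cases h : t = t0
        · simp [h, ie_mul_ie]
        · simp [h]
    | k + 4 =>
      rw [Xm]
      by_cases hk : k = t0
      · rw [if_pos hk, single_mulVec_single]
        cases β with
        | fin => simp [xb, idx]
        | c n => simp only [xb, EV_bv, ev, idx, coef]; simp [hk]
        | b t n n' => simp [xb, idx]
        | o t n n' => simp [xb, idx]
      · rw [if_neg hk, Matrix.zero_mulVec]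
        cases β with
        | fin => simp [xb]
        | c n => simp only [xb, EV_bv, ev, idx, coef]; simp [hk]
        | b t n n' => simp [xb]
        | o t n n' => simp [xb]

theorem EV_lift {X : Type*} (a : X → FreeAlgebra F ℕ) (p : FreeAlgebra F X) (y : Bs →₀ F) :
    EV hn t0 (act F (FreeAlgebra.lift F a p) y)
      = (FreeAlgebra.lift F (fun x => FreeAlgebra.lift F (Xm F hn t0) (a x)) p).mulVec
          (EV hn t0 y) := by
  have key : ∀ (p : FreeAlgebra F ℕ) (y : Bs →₀ F), EV hn t0 (act F p y)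
      = (FreeAlgebra.lift F (Xm F hn t0) p).mulVec (EV hn t0 y) := by
    intro p
    induction p using FreeAlgebra.induction with
    | grade0 r =>
      intro y
      rw [AlgHom.commutes, AlgHom.commutes, Module.algebraMap_end_apply, map_smul,
        Algebra.algebraMap_eq_smul_one, Matrix.smul_mulVec, Matrix.one_mulVec]
    | grade1 i =>
      intro y
      rw [act_ι, FreeAlgebra.lift_ι_apply]
      exact EV_X ..
    | mul a b ha hb =>
      intro y
      rw [map_mul, map_mul, Module.End.mul_apply, ha, hb, Matrix.mulVec_mulVec]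
    | add a b ha hb =>
      intro y
      rw [map_add, map_add, LinearMap.add_apply, map_add, ha, hb, Matrix.add_mulVec]
  rw [key]
  congr 1
  have : (FreeAlgebra.lift F (Xm F hn t0)).comp (FreeAlgebra.lift F a)
      = FreeAlgebra.lift F (fun x => FreeAlgebra.lift F (Xm F hn t0) (a x)) := by
    apply FreeAlgebra.hom_ext
    funext i
    simp
  rw [← this]; rfl

theorem EV_fin (y : Bs →₀ F) :
    ((fs ((EV hn t0 y) ⟨0, by omega⟩)).coeff 0).coeff 0 = y .fin := by
  induction y using Finsupp.induction_linear with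
  | zero => simp
  | add a b ha hb => simp [ha, hb]
  | single β c =>
    have hs : (Finsupp.single β c : Bs →₀ F) = c • bv F β := by simp [bv]
    rw [hs, map_smul, EV_bv]
    cases β <;> simp [ev, idx, coef, bv, fs_one]
    split_ifs <;> simp [fs_ie]

theorem EV_c (a : ℕ) (y : Bs →₀ F) :
    ((sn ((EV hn t0 y) ⟨1, by omega⟩)).coeff a).coeff 0 = y (.c a) := by
  induction y using Finsupp.induction_linear with
  | zero => simp
  | add a b ha hb => simp [ha, hb]
  | single β c =>
    have hs : (Finsupp.single β c : Bs →₀ F) = c • bv F β := by simp [bv]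
    rw [hs, map_smul, EV_bv]
    cases β <;> simp [ev, idx, coef, bv]
    rename_i a'
    by_cases hj : a' = a
    · subst hj
      simp [sn_ie, mon_coeff]
    · have hne : Bs.c a ≠ Bs.c a' := by
        intro h; injection h with h1; exact hj h1.symm
      rw [Finsupp.single_eq_of_ne hne]
      simp [sn_ie, mon_coeff, hj]

theorem EV_b (t a b : ℕ) (y : Bs →₀ F) :
    ((sn ((EV hn t y) ⟨2, by omega⟩)).coeff b).coeff a = y (.b t a b) := by
  induction y using Finsupp.induction_linear with
  | zero => simp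
  | add a b ha hb => simp [ha, hb]
  | single β c =>
    have hs : (Finsupp.single β c : Bs →₀ F) = c • bv F β := by simp [bv]
    rw [hs, map_smul, EV_bv]
    cases β <;> simp [ev, idx, coef, bv]
    rename_i t' a' b'
    by_cases hj : t' = t ∧ a' = a ∧ b' = b
    · obtain ⟨rfl, rfl, rfl⟩ := hj
      simp [sn_ie, mon_coeff]
    · have hne : Bs.b t a b ≠ Bs.b t' a' b' := by
        intro h; injection h with h1 h2 h3; exact hj ⟨h1.symm, h2.symm, h3.symm⟩
      rw [Finsupp.single_eq_of_ne hne]
      split_ifs with h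
      · have h2 : ¬ (a' = a ∧ b' = b) := fun h3 => hj ⟨h, h3⟩
        simp [sn_ie, mon_coeff, h2]
      · simp

theorem EV_o (t a b : ℕ) (y : Bs →₀ F) :
    ((sn ((EV hn t y) ⟨0, by omega⟩)).coeff b).coeff a = y (.o t a b) := by
  induction y using Finsupp.induction_linear with
  | zero => simp
  | add a b ha hb => simp [ha, hb]
  | single β c =>
    have hs : (Finsupp.single β c : Bs →₀ F) = c • bv F β := by simp [bv]
    rw [hs, map_smul, EV_bv]
    cases β <;> simp [ev, idx, coef, bv, sn_one]
    rename_i t' a' b'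
    by_cases hj : t' = t ∧ a' = a ∧ b' = b
    · obtain ⟨rfl, rfl, rfl⟩ := hj
      simp [sn_ie, mon_coeff]
    · have hne : Bs.o t a b ≠ Bs.o t' a' b' := by
        intro h; injection h with h1 h2 h3; exact hj ⟨h1.symm, h2.symm, h3.symm⟩
      rw [Finsupp.single_eq_of_ne hne]
      split_ifs with h
      · have h2 : ¬ (a' = a ∧ b' = b) := fun h3 => hj ⟨h, h3⟩
        simp [sn_ie, mon_coeff, h2]
      · simp

theorem EV_inj (y : Bs →₀ F) (h : ∀ t, EV hn t y = 0) : y = 0 := by
  ext β
  cases β with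
  | fin => rw [← EV_fin hn 0, h]; simp
  | c a => rw [← EV_c hn 0, h]; simp
  | b t a b => rw [← EV_b hn, h]; simp
  | o t a b => rw [← EV_o hn, h]; simp

include hn in
/-- the identities of `n × n` matrices hold on the module -/
theorem ident_mem_J [Infinite F] (Y : Sys) {X : Type*} {p : FreeAlgebra F X}
    (hp : p ∈ idents F n X) (a : X → FreeAlgebra F ℕ) : FreeAlgebra.lift F a p ∈ J F Y := by
  rw [mem_J]
  intro y
  have : act F (FreeAlgebra.lift F a p) y = 0 := by
    apply EV_inj hn
    intro t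
    rw [EV_lift, ident_comm' hp, Matrix.zero_mulVec]
  rw [this]
  exact Submodule.zero_mem _

end EV

end Pool.Agent.Helper707.Three
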