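import Mathlib
import Pool.Agent.Helper707.Alg

/-!
The words to be decided, as explicit lists, and their computability.
-/

namespace Pool.Agent.Helper707.Words

open Finset Pool.Agent.Helper707.Idem Pool.Agent.Helper707.Rel Pool.Agent.Helper707.Alg

/-- signed words -/
abbrev SW := Bool × List (Fin 2)

/-- product of signed words -/
def mulT (a b : SW) : SW := (a.1 == b.1, a.2 ++ b.2)

/-- product of formal sums of signed words -/
def mulL (g h : List SW) : List SW := g.flatMap fun a => h.map (mulT a)

theorem primrec_mulT : Primrec₂ mulT := by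
  unfold mulT
  refine Primrec.pair ?_ ?_
  · exact (Primrec.dom_bool₂ (fun a b => a == b)).comp (Primrec.fst.comp Primrec.fst)
      (Primrec.fst.comp Primrec.snd)
  · exact Primrec.list_append.comp (Primrec.snd.comp Primrec.fst) (Primrec.snd.comp Primrec.snd)

theorem primrec_mulL : Primrec₂ mulL := by
  unfold mulL
  refine Primrec.list_flatMap Primrec.fst ?_
  refine Primrec.list_map (Primrec.snd.comp Primrec.fst) ?_
  exact primrec_mulT.comp (Primrec.snd.comp Primrec.fst) Primrec.snd

section

variable {B : Type*} [Ring B]

/-- value of a signed word -/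
def evT (z : Fin 2 → B) (a : SW) : B := (if a.1 then 1 else -1) * (a.2.map z).prod

/-- value of a formal sum of signed words -/
def evL (z : Fin 2 → B) (g : List SW) : B := (g.map (evT z)).sum

theorem evT_mulT (z : Fin 2 → B) (a b : SW) : evT z (mulT a b) = evT z a * evT z b := by
  obtain ⟨s, u⟩ := a
  obtain ⟨t, v⟩ := b
  unfold evT mulT
  cases s <;> cases t <;> simp

theorem evL_mulL (z : Fin 2 → B) (g h : List SW) : evL z (mulL g h) = evL z g * evL z h := by
  unfold evL mulL
  induction g with
  | nil => simp
  | cons a g ih =>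
    rw [List.flatMap_cons, List.map_append, List.sum_append, ih, List.map_cons, List.sum_cons,
      add_mul]
    congr 1
    clear ih
    induction h with
    | nil => simp
    | cons b h ihh => simp only [List.map_cons, List.sum_cons, ihh, evT_mulT, mul_add]

theorem evL_append (z : Fin 2 → B) (g h : List SW) : evL z (g ++ h) = evL z g + evL z h := by
  unfold evL; rw [List.map_append, List.sum_append]

/-- the linear factor `z - b` -/
def lin (b : ℕ) : List SW := (true, [0]) :: List.replicate b (false, [])

theorem evL_lin (z : Fin 2 → B) (b : ℕ) : evL z (lin b) = z 0 - (b : B) := by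
  unfold evL lin
  simp only [List.map_cons, List.sum_cons, List.map_replicate, List.sum_replicate, evT]
  simp [sub_eq_add_neg]

/-- product of linear factors -/
def linP (l : List ℕ) : List SW := l.foldr (fun b g => mulL (lin b) g) [(true, [])]

theorem evL_linP (z : Fin 2 → B) (l : List ℕ) :
    evL z (linP l) = (l.map fun b : ℕ => z 0 - (b : B)).prod := by
  induction l with
  | nil => simp [linP, evL, evT]
  | cons b l ih =>
    have : linP (b :: l) = mulL (lin b) (linP l) := rfl
    rw [this, evL_mulL, evL_lin, ih, List.map_cons, List.prod_cons]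

/-- powers -/
def powL (g : List SW) (n : ℕ) : List SW := n.rec [(true, [])] fun _ h => mulL g h

theorem evL_powL (z : Fin 2 → B) (g : List SW) (n : ℕ) : evL z (powL g n) = (evL z g) ^ n := by
  induction n with
  | zero => simp [powL, evL, evT]
  | succ n ih =>
    have : powL g (n + 1) = mulL g (powL g n) := rfl
    rw [this, evL_mulL, ih, pow_succ']

theorem primrec_powL (g : List SW) : Primrec (powL g) := by
  unfold powL
  exact Primrec.nat_rec₁ _ (primrec_mulL.comp (Primrec.const g) Primrec.snd)

end

/-- indices of the linear factors of `I_q` -/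
def fac (R q : ℕ) : List ℕ := (List.range (R + 1)).filter (fun b => b ≠ q)

/-- indices without `0` -/
def fac' (R q : ℕ) : List ℕ := (List.range (R + 1)).filter (fun b => b ≠ q ∧ b ≠ 0)

/-- the letter `x` -/
def xl : List SW := [(true, [1])]

/-- the words without the first letter -/
def rest (m : ℕ) (N : ℕ) : List SW :=
  mulL (mulL (linP (fac' (4 * m + 5) (num .al))) (mulL xl (mulL (linP (fac (4 * m + 5) (num (.s 0))))
    (mulL xl (mulL (linP (fac (4 * m + 5) (num (.b 0)))) xl)))))
    (mulL (powL (mulL (linP (fac (4 * m + 5) (num (.c true)))) xl) (N + 1))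
      (linP (fac (4 * m + 5) (num .al))))

theorem primrec_rest (m : ℕ) : Primrec (rest m) := by
  unfold rest
  refine primrec_mulL.comp (Primrec.const _) (primrec_mulL.comp ?_ (Primrec.const _))
  exact (primrec_powL _).comp Primrec.succ

/-- the formal polynomial, with nonempty words -/
def gl (m : ℕ) (N : ℕ) : List (Bool × Fin 2 × List (Fin 2)) :=
  (rest m N).map fun a => (a.1, 0, a.2)

theorem primrec_gl (m : ℕ) : Primrec (gl m) := by
  unfold gl
  refine Primrec.list_map (primrec_rest m) ?_
  exact Primrec.pair (Primrec.fst.comp Primrec.snd)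
    (Primrec.pair (Primrec.const 0) (Primrec.snd.comp Primrec.snd))

open Polynomial in
theorem IF_eq (F : Type*) [Field F] (R q : ℕ) :
    IF F R q = ((fac R q).map fun b : ℕ => (X - C (b : F) : F[X])).prod := by
  unfold IF
  rw [← List.prod_toFinset]
  · congr 1
    ext b
    simp only [fac, Finset.mem_erase, Finset.mem_range, List.mem_toFinset, List.mem_filter,
      List.mem_range, decide_eq_true_eq]
    tauto
  · exact (List.nodup_range).filter _

open Polynomial in
theorem IF_eq' (F : Type*) [Field F] (R q : ℕ) (hq : q ≠ 0) :
    IF F R q = X * ((fac' R q).map fun b : ℕ => (X - C (b : F) : F[X])).prod := by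
  unfold IF
  rw [← List.prod_toFinset, ← Finset.mul_prod_erase ((range (R + 1)).erase q) _ (a := 0)]
  · congr 1
    · simp
    · congr 1
      ext b
      simp only [fac', Finset.mem_erase, Finset.mem_range, List.mem_toFinset, List.mem_filter,
        List.mem_range, decide_eq_true_eq]
      tauto
  · simp [Ne.symm hq]
  · exact (List.nodup_range).filter _

open Polynomial in
theorem aeval_fac {F : Type*} [Field F] {B : Type*} [Ring B] [Algebra F B] (z : Fin 2 → B)
    (l : List ℕ) : aeval (z 0) ((l.map fun b : ℕ => (X - C (b : F) : F[X])).prod)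
      = evL z (linP l) := by
  rw [evL_linP, map_list_prod, List.map_map]
  congr 1
  refine List.map_congr_left fun b _ => ?_
  simp

theorem evL_xl {B : Type*} [Ring B] (z : Fin 2 → B) : evL z xl = z 1 := by
  simp [evL, xl, evT]

theorem evL_rest {F : Type*} [Field F] [CharZero F] {B : Type*} [Ring B] [Algebra F B]
    (z : Fin 2 → B) (Y : Sys) (N : ℕ) :
    z 0 * evL z (rest Y.m N) = gel F Y (z 0) (z 1) N := by
  unfold gel rest
  have h0 : num .al ≠ 0 := by simp [num]
  simp only [evL_mulL, evL_powL, evL_xl, ← aeval_fac (F := F), ← IF_eq]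
  have h1 := IF_eq' F (4 * Y.m + 5) (num .al) h0
  have h2 : Polynomial.aeval (z 0) (IF F (4 * Y.m + 5) (num .al))
      = z 0 * Polynomial.aeval (z 0) ((fac' (4 * Y.m + 5) (num .al)).map fun b : ℕ =>
        (Polynomial.X - Polynomial.C (b : F) : Polynomial F)).prod := by
    rw [h1, map_mul, Polynomial.aeval_X]
  rw [mul_assoc _ (_ ^ (N + 1)), mul_assoc, mul_assoc, mul_assoc, mul_assoc, mul_assoc]
  nth_rewrite 2 [h2]
  simp only [mul_assoc]

end Pool.Agent.Helper707.Words
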